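import Mathlib

section

/-!
# The finite computation (kernel friendly: explicit recursors only)
-/

namespace Pool.Agent.Lib.MP_c22e22_co.V

/-- trie over ascending lists: `nd v ch sib` at the candidate part `q` with prefix `p`:
`v` is the value of `p ++ [q]`, `ch` the trie of extensions of `p ++ [q]` (candidate `q`),
`sib` the trie for the prefix `p` with candidate `q + 1` -/
inductive Tr | lf | nd (v : ℕ) (ch sib : Tr)

/-- insertion into an ascending list -/
noncomputable def ins (c : ℕ) (l : List ℕ) : List ℕ :=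
  List.rec [c] (fun p ps ih => Bool.rec (p :: ih) (c :: p :: ps) (Nat.ble c p)) l

noncomputable def get (t : Tr) : ℕ → List ℕ → ℕ :=
  Tr.rec (fun _ _ => 0)
    (fun v _ _ ihc ihs q l =>
      List.rec 0 (fun p ps _ =>
        Bool.rec (ihs (Nat.succ q) (p :: ps)) (List.rec v (fun _ _ _ => ihc q ps) ps)
          (Nat.beq p q)) l) t

structure Tb where
  root : ℕ
  t : Tr

noncomputable def Tb.get (T : Tb) (l : List ℕ) : ℕ :=
  List.rec T.root (fun _ _ _ => V.get T.t 1 l) l

noncomputable def drop0 (c : ℕ) (l : List ℕ) : List ℕ := Bool.rec (c :: l) l (Nat.beq c 0)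

/-- `rapp a b = a.reverse ++ b` -/
noncomputable def rapp (a b : List ℕ) : List ℕ :=
  List.rec (fun b => b) (fun x _ ih b => ih (x :: b)) a b

noncomputable def sumI (T : Tb) (mj j : ℕ) (l : List ℕ) : List ℕ → ℕ :=
  List.rec (fun _ => 0)
   (fun p ps ih pre => Nat.add (T.get (drop0 mj (Bool.rec (ins (Nat.sub p j) (rapp pre ps))
      (rapp pre ps) (Nat.beq p j)))) (ih (p :: pre))) l

noncomputable def sumJ (T : Tb) (m : ℕ) (rest : List ℕ) (j : ℕ) : ℕ :=
  Nat.rec 0 (fun j ih => Nat.add (Nat.add (T.get (drop0 (Nat.sub m (Nat.succ j)) rest))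
    (sumI T (Nat.sub m (Nat.succ j)) (Nat.succ j) rest [])) ih) j

noncomputable def Nval (T : Tb) (l : List ℕ) : ℕ :=
  List.rec 1 (fun m rest _ => Nat.div (sumJ T m rest m) m) l

/-- extend the trie of all partitions of size `< t1` by those of size `t1` -/
noncomputable def ext (T : Tb) (t1 : ℕ) (tr : Tr) : ℕ → List ℕ → ℕ → Tr :=
  Tr.rec (fun q pre sz => Bool.rec .lf (.nd (Nval T (rapp (q :: pre) [])) .lf .lf)
      (Nat.beq (Nat.add sz q) t1))
   (fun v _ _ ihc ihs q pre sz => .nd v (ihc q (q :: pre) (Nat.add sz q)) (ihs (Nat.succ q) pre sz)) tr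

noncomputable def NT (t : ℕ) : Tb :=
  Nat.rec ⟨1, .lf⟩ (fun t T => ⟨1, ext T (Nat.succ t) T.t 1 [] 0⟩) t

noncomputable def base (T : Tb) (n : ℕ) (tr : Tr) : ℕ → List ℕ → ℕ → Tr :=
  Tr.rec (fun _ _ _ => .lf)
    (fun _ _ _ ihc ihs q pre sz =>
      Bool.rec (.nd (T.get (ins (Nat.sub n (Nat.add sz q)) (rapp (q :: pre) [])))
        (ihc q (q :: pre) (Nat.add sz q)) (ihs (Nat.succ q) pre sz)) .lf
        (Nat.ble n (Nat.add sz q))) tr

noncomputable def baseTb (T : Tb) (n : ℕ) : Tb := ⟨T.get [n], base T n T.t 1 [] 0⟩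

noncomputable def step (T : Tb) (s Bp : ℕ) (tr : Tr) : ℕ → List ℕ → ℕ → Tr :=
  Tr.rec (fun _ _ _ => .lf)
    (fun v _ _ ihc ihs q pre sz =>
      Bool.rec (.nd (Nat.add v (Nat.mul Bp (Nat.sub
          (T.get (ins (Nat.sub s (Nat.add sz q)) (rapp (q :: pre) []))) v)))
        (ihc q (q :: pre) (Nat.add sz q)) (ihs (Nat.succ q) pre sz)) .lf
        (Nat.ble s (Nat.add sz q))) tr

noncomputable def stepTb (T : Tb) (s Bp : ℕ) : Tb :=
  ⟨Nat.add T.root (Nat.mul Bp (Nat.sub (T.get [s]) T.root)), step T s Bp T.t 1 [] 0⟩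

/-- `go k Bp T`: from the table `T` at level `k + 3` down to level `3` -/
noncomputable def go (k : ℕ) : ℕ → Tb → Tb :=
  Nat.rec (fun _ T => T)
    (fun k ih Bp T => ih (Nat.mul Bp Bp) (stepTb T (Nat.add k 3) Bp)) k

/-- table at level 3 for words with `n = k + 3` cells, field width `b` bits -/
noncomputable def topT (k b : ℕ) : Tb := go k (Nat.pow 2 b) (baseTb (NT (Nat.add k 3)) (Nat.add k 3))

/-- `1 + 2^b + ... `, `2^k` terms -/
noncomputable def ones (b k : ℕ) : ℕ :=
  Nat.div (Nat.sub (Nat.pow 2 (Nat.mul b (Nat.pow 2 k))) 1) (Nat.sub (Nat.pow 2 b) 1)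

/-- all `2^k` fields (of `b + 1` bits) of `V` are at most `M`, if all are `< 2^b` -/
noncomputable def chk (V b k M : ℕ) : Bool :=
  Nat.beq (Nat.land (Nat.add V (Nat.mul (Nat.sub (Nat.sub (Nat.pow 2 b) 1) M) (ones (Nat.succ b) k)))
    (Nat.mul (Nat.pow 2 b) (ones (Nat.succ b) k))) 0

/-- code of the alternating word with `k` letters starting with `a` (first component) or `d` -/
noncomputable def acode (k : ℕ) : ℕ × ℕ :=
  Nat.rec (0, 0) (fun k ih => (ih.2, Nat.add (Nat.pow 2 k) ih.1)) k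

/-- the check for `n = k + 3` -/
noncomputable def fchk (k b M : ℕ) : Bool :=
  (fun T : Tb => (fun V0 V1 : ℕ =>
    and (and (chk V0 b k M) (chk V1 b k M))
      (Nat.beq (Nat.mod (Nat.div V1 (Nat.pow 2 (Nat.mul (Nat.succ b) (acode k).1)))
        (Nat.pow 2 (Nat.succ b))) M))
    T.root (Nat.sub (T.get [2]) T.root)) (topT k (Nat.succ b))

end Pool.Agent.Lib.MP_c22e22_co.V
end

section

/-!
# Definitions: ribbons of words, the involution functional, label sums

A word `w : List Lk` with `k` letters describes `k + 1` cells; the letter between two consecutive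
cells is `a` (ascent), `d` (descent) or `s` (free).
-/

namespace Pool.Agent.Lib.MP_c22e22_co.V

/-- letters between consecutive cells -/
inductive Lk | a | d | s
  deriving DecidableEq

/-- Ribbon element of the word `w`; `m` is the number of cells of the open (increasing) block. -/
def rib {A : Type*} [CommRing A] (h : ℕ → A) : ℕ → List Lk → A
  | m, [] => h m
  | m, .a :: w => rib h (m + 1) w
  | m, .s :: w => h m * rib h 1 w
  | m, .d :: w => h m * rib h 1 w - rib h (m + 1) w

/-- the sign of a dropped letter -/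
def sg : Lk → ℚ
  | .a => 1
  | .d => -1
  | .s => 0

/-- complement of a letter -/
def Lk.co : Lk → Lk
  | .a => .d
  | .d => .a
  | .s => .s

/-- no free letter -/
def NoS (w : List Lk) : Prop := Lk.s ∉ w

/-- the alternating word with `k` letters, starting with `d` if `b = true` -/
def altw : ℕ → Bool → List Lk
  | 0, _ => []
  | k + 1, true => .d :: altw k false
  | k + 1, false => .a :: altw k true

/-- number of clashes: equal adjacent letters (`aa` or `dd`) -/
def cl : List Lk → ℕ
  | [] => 0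
  | [_] => 0
  | x :: y :: w => (if x = y ∧ x ≠ .s then 1 else 0) + cl (y :: w)

/-! ### Involutions -/

/-- `σ` obeys the letters of `w`. -/
def okk (n : ℕ) (w : List Lk) (σ : Equiv.Perm (Fin n)) : Prop :=
  ∀ (i : ℕ) (h : i + 1 < n),
    (w[i]? = some Lk.a → σ ⟨i, by omega⟩ < σ ⟨i + 1, h⟩) ∧
    (w[i]? = some Lk.d → σ ⟨i + 1, h⟩ < σ ⟨i, by omega⟩)

/-- number of involutions of `Fin n` obeying the word `w` -/
noncomputable def cnt (n : ℕ) (w : List Lk) : ℕ :=
  Nat.card {σ : Equiv.Perm (Fin n) // σ * σ = 1 ∧ okk n w σ}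

/-- number of symmetric `ℕ`-matrices with row sums `α` -/
noncomputable def NM {ι : Type*} [Fintype ι] (α : ι → ℕ) : ℕ :=
  Nat.card {A : ι → ι → ℕ // (∀ i j, A i j = A j i) ∧ ∀ i, ∑ j, A i j = α i}

/-! ### The functional -/

/-- moments: `mom j c = E(P_j^c)` -/
def mom (j : ℕ) : ℕ → ℚ
  | 0 => 1
  | 1 => if j % 2 = 1 then 1 else 0
  | c + 2 => (if j % 2 = 1 then mom j (c + 1) else 0) + (c + 1) * j * mom j c

/-- moments with all even variables `> 0` killed -/
def momo (j : ℕ) (c : ℕ) : ℚ := if j % 2 = 0 ∧ 0 < c then 0 else mom j c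

/-- linear functional on polynomials with product moments `M j c` -/
noncomputable def Lf (M : ℕ → ℕ → ℚ) : MvPolynomial ℕ ℚ →ₗ[ℚ] ℚ :=
  (MvPolynomial.basisMonomials ℕ ℚ).constr ℚ (fun μ => μ.prod M)

noncomputable def E : MvPolynomial ℕ ℚ →ₗ[ℚ] ℚ := Lf mom
noncomputable def Eo : MvPolynomial ℕ ℚ →ₗ[ℚ] ℚ := Lf momo

/-- `P_j / j` -/
noncomputable def pw (g : ℕ) : MvPolynomial ℕ ℚ := MvPolynomial.C (1 / (g : ℚ)) * MvPolynomial.X g

/-- sum over all ways to put `m` cuts at the `k` remaining links, `g` = open gap length -/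
noncomputable def cg : ℕ → ℕ → ℕ → MvPolynomial ℕ ℚ
  | 0, g, 0 => pw g
  | 0, _, _ + 1 => 0
  | k + 1, g, 0 => cg k (g + 1) 0
  | k + 1, g, m + 1 => pw g * cg k 1 m + cg k (g + 1) (m + 1)

/-- `cc m n`: sum over the compositions of `n` with `m` parts of the product of `P_g / g` -/
noncomputable def cc : ℕ → ℕ → MvPolynomial ℕ ℚ
  | 0, 0 => 1
  | 0, _ + 1 => 0
  | _ + 1, 0 => 0
  | m + 1, n + 1 => cg n 1 m

/-- complete homogeneous elements `h_n = ∑_m c(n,m)/m!` -/
noncomputable def hh (n : ℕ) : MvPolynomial ℕ ℚ :=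
  ∑ m ∈ Finset.range (n + 1), MvPolynomial.C (1 / (m.factorial : ℚ)) * cc m n

/-- label numbers -/
noncomputable def xE (m n : ℕ) : ℚ := E (cc m n)
noncomputable def xO (m n : ℕ) : ℚ := Eo (cc m n)

/-- derivation `l ∂/∂P_l` -/
noncomputable def DD (l : ℕ) (F : MvPolynomial ℕ ℚ) : MvPolynomial ℕ ℚ :=
  (l : ℚ) • MvPolynomial.pderiv l F

/-! ### The numbers b(w) and e_n -/

/-- `b(w)` = (number of permutations with descent word w) / n! -/
def bw (w : List Lk) : ℚ := rib (fun k => 1 / (k.factorial : ℚ)) 1 w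

/-- `e_n` -/
def ee : ℕ → ℚ
  | 0 => 1
  | k + 1 => bw (altw k true)

/-- bound factor for words with `k` clashes -/
def gg : ℕ → ℚ
  | 0 => 1
  | k + 1 => 11 / 16 * (5 / 6) ^ k

/-! ### Star expansion, graded by the number `m` of further kept letters -/

noncomputable def XX : List Lk → ℕ → List Lk → ℕ → MvPolynomial ℕ ℚ
  | K, g, [], 0 => pw g * MvPolynomial.C (bw K)
  | _, _, [], _ + 1 => 0
  | K, g, x :: w, 0 => sg x • XX K (g + 1) w 0
  | K, g, x :: w, m + 1 => pw g * XX (K ++ [x]) 1 w m + sg x • XX K (g + 1) w (m + 1)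

/-- signed sum of `b` over the words with two adjacent letters dropped -/
def ds : List Lk → List Lk → ℚ
  | _, [] => 0
  | _, [_] => 0
  | K, x :: y :: w => sg x * sg y * bw (K ++ w) + ds (K ++ [x]) (y :: w)

/-! ### Windows. Here words are written with one letter before each cell (the first letter is `s`),
the value of such a word is `rib hh 0 W`. -/

/-- consume `k` further letters, then the next letter must be `d` or `s` (or the end) -/
def eat : ℕ → List Lk → Option (ℚ × List Lk)
  | 0, [] => some (1, [])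
  | 0, .d :: v => some (1, .s :: v)
  | 0, .s :: v => some (1, .s :: v)
  | 0, .a :: _ => none
  | _ + 1, [] => none
  | k + 1, .a :: v => eat k v
  | k + 1, .d :: v => (eat k v).map fun p => (-p.1, p.2)
  | _ + 1, .s :: _ => none

/-- signed list of the words obtained by removing a window of `l` cells -/
def win (l : ℕ) : List Lk → List (ℚ × List Lk)
  | [] => []
  | x :: v => (if x = .d then [] else (eat (l - 1) v).toList) ++ (win l v).map fun p => (p.1, x :: p.2)

end Pool.Agent.Lib.MP_c22e22_co.V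
end
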