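import Pool.Agent.Lib.MP_c22e22_co.V.Props
import Pool.Agent.Lib.MP_c22e22_co.V.Defs

section

open MvPolynomial Finset

namespace Pool.Agent.Lib.MP_c22e22_co.V

/-! ### clashes -/

theorem cl_cons2 (x y : Lk) (w : List Lk) :
    cl (x :: y :: w) = (if x = y ∧ x ≠ .s then 1 else 0) + cl (y :: w) := rfl

theorem cl_drop_second (x y : Lk) (w : List Lk) : cl (x :: y :: w) ≤ cl (x :: w) + 1 := by
  cases w with
  | nil => rw [cl_cons2]; simp only [cl]; split_ifs <;> omega
  | cons z w =>
    rw [cl_cons2, cl_cons2, cl_cons2]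
    by_cases h1 : x = y ∧ x ≠ .s
    · by_cases h2 : y = z ∧ y ≠ .s
      · have h3 : x = z ∧ x ≠ .s := ⟨h1.1.trans h2.1, h1.2⟩
        rw [if_pos h1, if_pos h2, if_pos h3]; omega
      · rw [if_pos h1, if_neg h2]; omega
    · rw [if_neg h1]
      split_ifs <;> omega

theorem cl_sublist_aux : ∀ (w K : List Lk) (x : Lk), K.Sublist w →
    cl (x :: w) ≤ cl (x :: K) + (w.length - K.length) := by
  intro w
  induction w with
  | nil =>
    intro K x h
    rw [List.sublist_nil] at h
    subst h; simp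
  | cons y w ih =>
    intro K x h
    cases h with
    | cons _ h =>
      have h1 := ih K x h
      have h2 := cl_drop_second x y w
      have h3 := h.length_le
      simp only [List.length_cons]
      omega
    | cons_cons _ h =>
      rename_i K'
      have h1 := ih K' y h
      rw [cl_cons2, cl_cons2]
      simp only [List.length_cons]
      omega

theorem cl_cons_le (x : Lk) (w : List Lk) : cl (x :: w) ≤ cl w + 1 := by
  cases w with
  | nil => simp [cl]
  | cons y w => rw [cl_cons2]; split_ifs <;> omega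

theorem cl_le_cons (x : Lk) (w : List Lk) : cl w ≤ cl (x :: w) := by
  cases w with
  | nil => simp [cl]
  | cons y w => rw [cl_cons2]; omega

theorem cl_sublist (w K : List Lk) (h : K.Sublist w) : cl w ≤ cl K + (w.length - K.length) := by
  induction h with
  | slnil => simp
  | cons y h ih =>
    rename_i K' w'
    have h1 := cl_cons_le y w'
    have h3 := h.length_le
    simp only [List.length_cons]
    omega
  | cons_cons y h ih =>
    rename_i K' w'
    have := cl_sublist_aux w' K' y h
    simp only [List.length_cons]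
    omega

theorem co_ne_s (x : Lk) : x.co = .s ↔ x = .s := by cases x <;> simp [Lk.co]

theorem co_inj (x y : Lk) : x.co = y.co ↔ x = y := by cases x <;> cases y <;> simp [Lk.co]

theorem cl_co : ∀ w : List Lk, cl (w.map Lk.co) = cl w
  | [] => rfl
  | [_] => rfl
  | x :: y :: w => by
    have := cl_co (y :: w)
    simp only [List.map_cons] at this ⊢
    rw [cl_cons2, cl_cons2, this]
    congr 1
    by_cases h : x = y ∧ x ≠ .s
    · rw [if_pos h, if_pos]
      exact ⟨(co_inj x y).2 h.1, fun h2 => h.2 ((co_ne_s x).1 h2)⟩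
    · rw [if_neg h, if_neg]
      intro h2
      exact h ⟨(co_inj x y).1 h2.1, fun h3 => h2.2 ((co_ne_s x).2 h3)⟩

theorem noS_co (w : List Lk) (h : NoS w) : NoS (w.map Lk.co) := by
  intro hm
  rw [List.mem_map] at hm
  obtain ⟨x, hx, hxs⟩ := hm
  rw [co_ne_s] at hxs
  subst hxs
  exact h hx

theorem altw_co : ∀ (k : ℕ), (altw k true).map Lk.co = altw k false ∧
    (altw k false).map Lk.co = altw k true
  | 0 => by simp [altw]
  | k + 1 => by
    have := altw_co k
    simp [altw, Lk.co, this.1, this.2]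

/-- a word without clashes is alternating -/
theorem alt_of_cl : ∀ (w : List Lk), NoS w → cl w = 0 → ∃ b, w = altw w.length b ∧
    (∀ x, w.head? = some x → (x = .d ↔ b = true))
  | [], _, _ => ⟨true, rfl, by simp⟩
  | [x], h, _ => by
    cases x with
    | a => exact ⟨false, rfl, by simp⟩
    | d => exact ⟨true, rfl, by simp⟩
    | s => exact absurd (List.mem_cons_self) h
  | x :: y :: w, h, hc => by
    rw [cl_cons2] at hc
    have hs : NoS (y :: w) := fun hm => h (List.mem_cons_of_mem _ hm)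
    obtain ⟨b, hb, hhead⟩ := alt_of_cl (y :: w) hs (by omega)
    have hxy : ¬ (x = y ∧ x ≠ .s) := by
      intro h'
      rw [if_pos h'] at hc; omega
    have hxs : x ≠ .s := fun h' => h (h' ▸ List.mem_cons_self)
    have hys : y ≠ .s := fun h' => h (h' ▸ List.mem_cons_of_mem _ List.mem_cons_self)
    have hne : x ≠ y := fun h' => hxy ⟨h', hxs⟩
    have hy := hhead y rfl
    cases b with
    | true =>
      have hyd : y = .d := hy.2 rfl
      have hxa : x = .a := by
        cases x with
        | a => rfl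
        | d => exact absurd hyd.symm hne
        | s => exact absurd rfl hxs
      refine ⟨false, ?_, ?_⟩
      · rw [List.length_cons, altw, ← hb, hxa]
      · intro z hz; simp only [List.head?_cons, Option.some.injEq] at hz
        subst hz; simp [hxa]
    | false =>
      have hyd : y = .a := by
        cases y with
        | a => rfl
        | d => exact absurd (hy.1 rfl) (by simp)
        | s => exact absurd rfl hys
      have hxa : x = .d := by
        cases x with
        | a => exact absurd hyd.symm hne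
        | d => rfl
        | s => exact absurd rfl hxs
      refine ⟨true, ?_, ?_⟩
      · rw [List.length_cons, altw, ← hb, hxa]
      · intro z hz; simp only [List.head?_cons, Option.some.injEq] at hz
        subst hz; simp [hxa]

theorem noS_sublist {w K : List Lk} (h : NoS w) (hK : K.Sublist w) : NoS K :=
  fun hm => h (hK.subset hm)

/-! ### gg -/

theorem gg_pos (k : ℕ) : 0 < gg k := by
  cases k with
  | zero => norm_num [gg]
  | succ k => simp only [gg]; positivity

theorem gg_succ_le (k : ℕ) : gg (k + 1) ≤ gg k := by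
  cases k with
  | zero => norm_num [gg]
  | succ k =>
    simp only [gg]
    rw [pow_succ]
    have : (0:ℚ) < (5/6)^k := by positivity
    nlinarith

theorem gg_anti {a b : ℕ} (h : a ≤ b) : gg b ≤ gg a := by
  induction h with
  | refl => exact le_refl _
  | step _ ih => exact (gg_succ_le _).trans ih

theorem gg_le_one (k : ℕ) : gg k ≤ 1 := gg_anti (Nat.zero_le k)

theorem cc_succ_succ (m n : ℕ) : cc (m + 1) (n + 1) = cg n 1 m := rfl

/-! ### s ≥ 5 -/

theorem p_up5 (h1 : P_star) (h2 : P_gen_bound) (h3 : P_bw_gg) (h4 : P_bw_nonneg) (h5 : P_x_basic)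
    (h6 : P_N1) (h7 : P_N5) (h8 : P_ee_pos) : P_up5 := by
  intro n w hn hw hl hc
  have hI : (0 : ℚ) ≤ mom 1 n * ee n := mul_nonneg (mom_nonneg _ _) (h8 n).le
  obtain ⟨hE, -, hpar, -, hnn, -, -, -, -, -, -⟩ := h5
  -- termwise bound
  have key : ∀ m ∈ range (w.length + 1), E (XX [] 1 w m) ≤
      xE (m + 1) n * (gg (cl w - (w.length - m)) * ee (m + 1)) := by
    intro m hm
    have hβ : (0 : ℚ) ≤ gg (cl w - (w.length - m)) * ee (m + 1) :=
      mul_nonneg (gg_pos _).le (h8 _).le
    have := h2 E E_nonneg w [] 1 m (gg (cl w - (w.length - m)) * ee (m + 1)) hβ (by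
      intro K' hK hlen _
      rw [List.nil_append, abs_of_nonneg (h4 _)]
      have hc1 := cl_sublist w K' hK
      have hb := h3 K' (noS_sublist hw hK)
      rw [hlen] at hc1 hb
      refine hb.trans (mul_le_mul_of_nonneg_right (gg_anti (by omega)) (h8 _).le))
    have hx : xE (m + 1) n = E (cg w.length 1 m) := by rw [← hl]; rfl
    rw [hx]
    exact (le_abs_self _).trans this
  have hsum : E (rib hh 1 w) ≤ ∑ m ∈ range (w.length + 1),
      xE (m + 1) n * (gg (cl w - (w.length - m)) * ee (m + 1)) := by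
    rw [h1 w, XS, map_sum]
    exact sum_le_sum key
  obtain ⟨L, hL⟩ : ∃ L, w.length = L + 5 := ⟨w.length - 5, by omega⟩
  rw [hL] at hsum
  have hnL : n = L + 6 := by omega
  rw [sum_range_succ, sum_range_succ, sum_range_succ, sum_range_succ, sum_range_succ,
    sum_range_succ] at hsum
  have e1 : xE (L + 1 + 1 - 1) n = 0 ∨ True := Or.inr trivial
  have z5 : xE (L + 1) n = 0 := hpar _ _ (by omega)
  have z3 : xE (L + 2 + 1) n = 0 := hpar _ _ (by omega)
  have z1 : xE (L + 4 + 1) n = 0 := hpar _ _ (by omega)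
  have g5 : gg (cl w - (L + 5 - (L + 5))) ≤ gg 5 := gg_anti (by omega)
  have g3 : gg (cl w - (L + 5 - (L + 3))) ≤ gg 3 := gg_anti (by omega)
  have g1 : gg (cl w - (L + 5 - (L + 1))) ≤ gg 1 := gg_anti (by omega)
  have hN5 := h7 n hn
  have hN1 := h6 n hn
  have t2 : xE (L + 3 + 1) n = xE (n - 2) n := by congr 1; omega
  have t4 : xE (L + 1 + 1) n = xE (n - 4) n := by congr 1; omega
  have u2 : ee (L + 3 + 1) = ee (n - 2) := by congr 1; omega
  have u4 : ee (L + 1 + 1) = ee (n - 4) := by congr 1; omega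
  have t0 : xE (L + 5 + 1) n = mom 1 n := by rw [← hE n]; congr 1; omega
  have u0 : ee (L + 5 + 1) = ee n := by congr 1; omega
  have hlast : ∑ m ∈ range L, xE (m + 1) n * (gg (cl w - (L + 5 - m)) * ee (m + 1)) ≤
      4712 / 100000 * (mom 1 n * ee n) := by
    have : n - 6 = L := by omega
    rw [this] at hN1
    refine le_trans (sum_le_sum fun m _ => ?_) hN1
    refine mul_le_mul_of_nonneg_left ?_ (hnn _ _)
    calc gg _ * ee (m + 1) ≤ 1 * ee (m + 1) :=
          mul_le_mul_of_nonneg_right (gg_le_one _) (h8 _).le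
      _ = ee (m + 1) := one_mul _
  rw [z5, z3, z1, t2, t4, u2, u4, t0, u0] at hsum
  simp only [zero_mul, add_zero] at hsum
  have b2 : xE (n - 2) n * (gg (cl w - (L + 5 - (L + 3))) * ee (n - 2)) ≤
      gg 3 * (6173 / 10000 * (mom 1 n * ee n)) := by
    calc xE (n - 2) n * (gg (cl w - (L + 5 - (L + 3))) * ee (n - 2)) =
        gg (cl w - (L + 5 - (L + 3))) * (xE (n - 2) n * ee (n - 2)) := by ring
      _ ≤ gg 3 * (xE (n - 2) n * ee (n - 2)) :=
          mul_le_mul_of_nonneg_right g3 (mul_nonneg (hnn _ _) (h8 _).le)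
      _ ≤ _ := mul_le_mul_of_nonneg_left hN5.1 (gg_pos 3).le
  have b4 : xE (n - 4) n * (gg (cl w - (L + 5 - (L + 1))) * ee (n - 4)) ≤
      gg 1 * (1906 / 10000 * (mom 1 n * ee n)) := by
    calc xE (n - 4) n * (gg (cl w - (L + 5 - (L + 1))) * ee (n - 4)) =
        gg (cl w - (L + 5 - (L + 1))) * (xE (n - 4) n * ee (n - 4)) := by ring
      _ ≤ gg 1 * (xE (n - 4) n * ee (n - 4)) :=
          mul_le_mul_of_nonneg_right g1 (mul_nonneg (hnn _ _) (h8 _).le)
      _ ≤ _ := mul_le_mul_of_nonneg_left hN5.2 (gg_pos 1).le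
  have b0 : mom 1 n * (gg (cl w - (L + 5 - (L + 5))) * ee n) ≤ gg 5 * (mom 1 n * ee n) := by
    calc mom 1 n * (gg (cl w - (L + 5 - (L + 5))) * ee n) =
        gg (cl w - (L + 5 - (L + 5))) * (mom 1 n * ee n) := by ring
      _ ≤ _ := mul_le_mul_of_nonneg_right g5 hI
  have v5 : gg 5 = 11 / 16 * (5 / 6) ^ 4 := rfl
  have v3 : gg 3 = 11 / 16 * (5 / 6) ^ 2 := rfl
  have v1 : gg 1 = 11 / 16 := by norm_num [gg]
  rw [v3] at b2
  rw [v1] at b4
  rw [v5] at b0
  nlinarith [hsum, hlast, b0, b2, b4, hI]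

/-! ### lower bound for alternating words -/

theorem lowEo (h1 : P_Eo_altw) (h3 : P_x_basic) (h4 : P_N2a) (h5 : P_N2c) (h6 : P_ee_pos)
    (n : ℕ) (hn : 22 ≤ n) :
    866 / 1000 * (mom 1 n * ee n) ≤ Eo (rib hh 1 (altw (n - 1) true)) := by
  obtain ⟨-, hO, -, -, -, hnn, -, -, -, -, -⟩ := h3
  have hI : (0 : ℚ) ≤ mom 1 n * ee n := mul_nonneg (mom_nonneg _ _) (h6 n).le
  rw [h1 (n - 1) true]
  have hn1 : n - 1 + 1 = n := by omega
  rw [hn1]
  set t : ℕ → ℚ := fun j => xO (n - 2 * j) n * ee (n - 2 * j) with ht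
  have ht0 : ∀ j, 0 ≤ t j := fun j => mul_nonneg (hnn _ _) (h6 _).le
  obtain ⟨K, hK⟩ : ∃ K, (n - 1) / 2 + 1 = K + 3 := ⟨(n - 1) / 2 - 2, by omega⟩
  rw [hK]
  have hsplit : ∑ j ∈ range (K + 3), (-1 : ℚ) ^ j * xO (n - 2 * j) n * ee (n - 2 * j) =
      ∑ j ∈ range K, (-1 : ℚ) ^ (j + 3) * t (j + 3) + t 2 - t 1 + t 0 := by
    rw [sum_range_succ', sum_range_succ', sum_range_succ']
    simp only [ht]
    have : ∀ j, (-1 : ℚ) ^ (j + 1 + 1 + 1) * xO (n - 2 * (j + 1 + 1 + 1)) n *
        ee (n - 2 * (j + 1 + 1 + 1)) = (-1 : ℚ) ^ (j + 3) * (xO (n - 2 * (j + 3)) n *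
        ee (n - 2 * (j + 3))) := fun j => by ring_nf
    simp only [this]
    ring
  rw [hsplit]
  have hrest : -(∑ j ∈ range K, t (j + 3)) ≤ ∑ j ∈ range K, (-1 : ℚ) ^ (j + 3) * t (j + 3) := by
    rw [← sum_neg_distrib]
    refine sum_le_sum fun j _ => ?_
    have := ht0 (j + 3)
    rcases neg_one_pow_eq_or ℚ (j + 3) with h | h <;> rw [h] <;> linarith
  have himg : ∑ j ∈ range K, t (j + 3) ≤ 552 / 100000 * (mom 1 n * ee n) := by
    refine le_trans ?_ (h5 n hn)
    have hinj : Set.InjOn (fun j : ℕ => n - 1 - 2 * (j + 3)) (range K : Set ℕ) := by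
      intro a ha b hb hab
      simp only [coe_range, Set.mem_Iio] at ha hb
      simp only at hab
      omega
    have : ∑ j ∈ range K, t (j + 3) =
        ∑ m ∈ (range K).image (fun j : ℕ => n - 1 - 2 * (j + 3)), xO (m + 1) n * ee (m + 1) := by
      rw [sum_image hinj]
      refine sum_congr rfl fun j hj => ?_
      rw [mem_range] at hj
      have : n - 1 - 2 * (j + 3) + 1 = n - 2 * (j + 3) := by omega
      rw [this]
    rw [this]
    refine sum_le_sum_of_subset_of_nonneg ?_ fun m _ _ => mul_nonneg (hnn _ _) (h6 _).le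
    intro m hm
    rw [mem_image] at hm
    obtain ⟨j, hj, rfl⟩ := hm
    rw [mem_range] at hj ⊢
    omega
  have h0 : t 0 = mom 1 n * ee n := by simp only [ht, mul_zero, Nat.sub_zero, hO n]
  have h1' : t 1 ≤ 1282 / 10000 * (mom 1 n * ee n) := by
    have := h4 n hn
    simpa only [ht, mul_one] using this
  have h2' := ht0 2
  rw [h0]
  nlinarith [hrest, himg, h1', h2', hI]

theorem p_low (h1 : P_Eo_altw) (h2 : P_alt_ge) (h3 : P_x_basic) (h4 : P_N2a) (h5 : P_N2c)
    (h6 : P_ee_pos) (h7 : P_alt_small) : P_low := by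
  intro n hn
  refine (lowEo h1 h3 h4 h5 h6 n hn).trans (h2 (n - 1) ?_)
  intro j hj
  by_cases hj' : j ≤ 21
  · rw [h1 j true]; exact h7 j hj' hj
  · have := lowEo h1 h3 h4 h5 h6 (j + 1) (by omega)
    rw [Nat.add_sub_cancel] at this
    refine le_trans ?_ this
    exact mul_nonneg (by norm_num) (mul_nonneg (mom_nonneg _ _) (h6 _).le)

/-! ### 1 ≤ s ≤ 4 -/

theorem up4_aux (h1 : P_star) (h2 : P_gen_bound) (h3 : P_bw_gg) (h4 : P_bw_nonneg)
    (h5 : P_x_basic) (h6 : P_N1) (h7 : P_N2b) (h8 : P_ee_pos) (h9 : P_Er_bound) (h10 : P_D2)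
    (h11 : P_D4) (h12 : P_ds) (h13 : P_Eo_top) (h14 : P_Eo_top1) (h15 : P_Eo_top2) (h16 : P_N4)
    (h17 : P_ee_two) (n : ℕ) (w : List Lk) (hn : 22 ≤ n) (hw : NoS w) (hl : w.length + 1 = n)
    (hc : 1 ≤ cl w) (hc' : cl w ≤ 4) (hN : (win 2 (.s :: w)).length ≤ cl w + 1) :
    E (rib hh 1 w) ≤ 84 / 100 * (mom 1 n * ee n) := by
  have hI : (0 : ℚ) ≤ mom 1 n * ee n := mul_nonneg (mom_nonneg _ _) (h8 n).le
  obtain ⟨-, hO, -, hpar, -, hnn, -, -, -, -, -⟩ := h5
  have hdec : E (rib hh 1 w) = Eo (rib hh 1 w) + 1 / 4 * Eo (DD 2 (DD 2 (rib hh 1 w))) +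
      1 / 32 * Eo (DD 2 (DD 2 (DD 2 (DD 2 (rib hh 1 w))))) + Er (rib hh 1 w) := by
    unfold Er; ring
  have hEr : Er (rib hh 1 w) ≤ 4712 / 100000 * (mom 1 n * ee n) := by
    have := h9 w hw
    rw [hl] at this
    have e : w.length - 5 = n - 6 := by omega
    rw [e] at this
    exact (le_abs_self _).trans (this.trans (h6 n hn))
  have hD2 := (le_abs_self _).trans (h10 n w (cl w + 1) hn hw hl hN)
  have hD4 := (le_abs_self _).trans (h11 n w (cl w + 1) hn hw hl hN)
  have hN4 := h16 n hn
  have e2 := h17 (n - 2) (by omega)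
  have e4 := h17 (n - 4) (by omega)
  have e6 := h17 (n - 6) (by omega)
  have e8 := h17 (n - 8) (by omega)
  rw [show n - 2 + 2 = n by omega] at e2
  rw [show n - 4 + 2 = n - 2 by omega] at e4
  rw [show n - 6 + 2 = n - 4 by omega] at e6
  rw [show n - 8 + 2 = n - 6 by omega] at e8
  have f4 : ee (n - 4) ≤ 60960 / 10000 * ee n := by
    have := h8 n
    nlinarith
  have f8 : ee (n - 8) ≤ 371609 / 10000 * ee n := by
    have := h8 n
    nlinarith
  have I3 := hN4.1
  have I4 := hN4.2.1
  have I8 := hN4.2.2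
  have p3 : mom 1 (n - 3) * ee (n - 2) ≤ (1 / 128 * (2469 / 1000)) * (mom 1 n * ee n) := by
    have a1 : mom 1 (n - 3) ≤ 1 / 128 * mom 1 n := by linarith
    calc mom 1 (n - 3) * ee (n - 2) ≤ (1 / 128 * mom 1 n) * (2469 / 1000 * ee n) :=
          mul_le_mul a1 e2 (h8 _).le (mul_nonneg (by norm_num) (mom_nonneg _ _))
      _ = _ := by ring
  have p4 : mom 1 (n - 4) * ee (n - 4) ≤ (1 / 620 * (60960 / 10000)) * (mom 1 n * ee n) := by
    have a1 : mom 1 (n - 4) ≤ 1 / 620 * mom 1 n := by linarith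
    calc mom 1 (n - 4) * ee (n - 4) ≤ (1 / 620 * mom 1 n) * (60960 / 10000 * ee n) :=
          mul_le_mul a1 f4 (h8 _).le (mul_nonneg (by norm_num) (mom_nonneg _ _))
      _ = _ := by ring
  have p8 : mom 1 (n - 8) * ee (n - 8) ≤ (1 / 258000 * (371609 / 10000)) * (mom 1 n * ee n) := by
    have a1 : mom 1 (n - 8) ≤ 1 / 258000 * mom 1 n := by linarith
    calc mom 1 (n - 8) * ee (n - 8) ≤ (1 / 258000 * mom 1 n) * (371609 / 10000 * ee n) :=
          mul_le_mul a1 f8 (h8 _).le (mul_nonneg (by norm_num) (mom_nonneg _ _))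
      _ = _ := by ring
  -- main term
  have key : ∀ m ∈ range (w.length - 2), Eo (XX [] 1 w m) ≤ xO (m + 1) n * ee (m + 1) := by
    intro m hm
    have := h2 Eo Eo_nonneg w [] 1 m (ee (m + 1)) (h8 _).le (by
      intro K' hK hlen _
      rw [List.nil_append, abs_of_nonneg (h4 _)]
      have hb := h3 K' (noS_sublist hw hK)
      rw [hlen] at hb
      refine hb.trans ?_
      calc gg _ * ee (m + 1) ≤ 1 * ee (m + 1) :=
          mul_le_mul_of_nonneg_right (gg_le_one _) (h8 _).le
        _ = ee (m + 1) := one_mul _)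
    have hx : xO (m + 1) n = Eo (cg w.length 1 m) := by rw [← hl]; rfl
    rw [hx]
    exact (le_abs_self _).trans this
  have hmain : Eo (rib hh 1 w) ≤ 4405 / 100000 * (mom 1 n * ee n) +
      mom 1 (n - 3) / 3 * ds [] w + mom 1 n * bw w := by
    obtain ⟨L, hL⟩ : ∃ L, w.length = L + 2 := ⟨w.length - 2, by omega⟩
    rw [h1 w, XS, map_sum, hL, sum_range_succ, sum_range_succ, sum_range_succ]
    have t0 : Eo (XX [] 1 w (L + 2)) = mom 1 n * bw w := by
      have := h13 w
      rw [hL] at this
      rw [this]; congr 2; omega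
    have t1 : Eo (XX [] 1 w (L + 1)) = 0 := by
      have := h14 w (by omega)
      rw [hL] at this
      simpa using this
    have t2 : Eo (XX [] 1 w L) = mom 1 (n - 3) / 3 * ds [] w := by
      have := h15 w (by omega)
      rw [hL] at this
      have e : L + 2 - 2 = L := by omega
      have e' : L = n - 3 := by omega
      rw [e] at this
      rw [this, ← e']
    rw [t0, t1, t2]
    have hs : ∑ m ∈ range L, Eo (XX [] 1 w m) ≤ 4405 / 100000 * (mom 1 n * ee n) := by
      have := h7 n hn
      have e : n - 3 = L := by omega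
      rw [e] at this
      have e2 : w.length - 2 = L := by omega
      rw [e2] at key
      exact (sum_le_sum key).trans this
    linarith
  have hds : mom 1 (n - 3) / 3 * ds [] w ≤ cl w / 3 * (mom 1 (n - 3) * ee (n - 2)) := by
    have := h12 w hw
    have e : w.length - 1 = n - 2 := by omega
    rw [e] at this
    have hm := mom_nonneg 1 (n - 3)
    calc mom 1 (n - 3) / 3 * ds [] w ≤ mom 1 (n - 3) / 3 * (cl w * ee (n - 2)) :=
          mul_le_mul_of_nonneg_left this (by positivity)
      _ = _ := by ring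
  have hb : mom 1 n * bw w ≤ gg (cl w) * (mom 1 n * ee n) := by
    have := h3 w hw
    rw [hl] at this
    calc mom 1 n * bw w ≤ mom 1 n * (gg (cl w) * ee n) :=
          mul_le_mul_of_nonneg_left this (mom_nonneg _ _)
      _ = _ := by ring
  rw [hdec]
  have v : gg 1 = 11 / 16 ∧ gg 2 = 55 / 96 ∧ gg 3 = 275 / 576 ∧ gg 4 = 1375 / 3456 := by
    norm_num [gg]
  obtain ⟨v1, v2, v3, v4⟩ := v
  push_cast at hD2 hD4
  have hcases : cl w = 1 ∨ cl w = 2 ∨ cl w = 3 ∨ cl w = 4 := by omega
  rcases hcases with h | h | h | h <;> rw [h] at hD2 hD4 hds hb <;>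
    norm_num at hD2 hD4 hds hb <;>
    [rw [v1] at hb; rw [v2] at hb; rw [v3] at hb; rw [v4] at hb] <;>
    nlinarith [hD2, hD4, hds, hb, hEr, hmain, p3, p4, p8, hI]

theorem p_up4 (h1 : P_star) (h2 : P_gen_bound) (h3 : P_bw_gg) (h4 : P_bw_nonneg)
    (h5 : P_x_basic) (h6 : P_N1) (h7 : P_N2b) (h8 : P_ee_pos) (h9 : P_Er_bound) (h10 : P_D2)
    (h11 : P_D4) (h12 : P_ds) (h13 : P_Eo_top) (h14 : P_Eo_top1) (h15 : P_Eo_top2) (h16 : P_N4)
    (h17 : P_ee_two) (h18 : P_win_co) (h19 : P_E_co) : P_up4 := by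
  intro n w hn hw hl hc hc'
  have hco := h18 w hw
  by_cases hN : (win 2 (.s :: w)).length ≤ cl w + 1
  · exact up4_aux h1 h2 h3 h4 h5 h6 h7 h8 h9 h10 h11 h12 h13 h14 h15 h16 h17 n w hn hw hl hc hc' hN
  · rw [← h19 w]
    refine up4_aux h1 h2 h3 h4 h5 h6 h7 h8 h9 h10 h11 h12 h13 h14 h15 h16 h17 n (w.map Lk.co) hn
      (noS_co w hw) (by rw [List.length_map]; exact hl) (by rw [cl_co]; exact hc)
      (by rw [cl_co]; exact hc') ?_
    rw [cl_co]
    omega

theorem p_large (h1 : P_low) (h2 : P_up4) (h3 : P_up5) (h4 : P_E_co) (h5 : P_ee_pos) :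
    P_large := by
  intro n w hn hw hl
  have hI : (0 : ℚ) ≤ mom 1 n * ee n := mul_nonneg (mom_nonneg _ _) (h5 n).le
  have hlow := h1 n hn
  rcases Nat.lt_or_ge (cl w) 1 with hc | hc
  · obtain ⟨b, hb, -⟩ := alt_of_cl w hw (by omega)
    have hlen : w.length = n - 1 := by omega
    rw [hlen] at hb
    cases b with
    | true => rw [hb]
    | false =>
      have := h4 (altw (n - 1) true)
      rw [(altw_co (n - 1)).1] at this
      rw [hb, this]
  · rcases Nat.lt_or_ge (cl w) 5 with hc' | hc'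
    · have := h2 n w hn hw hl hc (by omega)
      nlinarith
    · have := h3 n w hn hw hl hc'
      nlinarith

end Pool.Agent.Lib.MP_c22e22_co.V
end

section

section

/-!
# Lookup in the trie

Unfolding equations for the recursor definitions of `FDefs.lean`, correctness of `get`, and the
invariants of `ext`, `base`, `step`.
-/

namespace Pool.Agent.Lib.MP_c22e22_co.V

/-! ### unfolding equations -/

theorem FGet_ble (a b : ℕ) : Nat.ble a b = decide (a ≤ b) := by
  by_cases h : a ≤ b
  · rw [Nat.ble_eq_true_of_le h]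
    simp [h]
  · have h2 : Nat.ble a b = false := by
      rcases hb : Nat.ble a b with _ | _
      · rfl
      · exact absurd (Nat.le_of_ble_eq_true hb) h
    rw [h2]
    simp [h]

theorem FGet_beq (a b : ℕ) : Nat.beq a b = decide (a = b) := by
  by_cases h : a = b
  · subst h
    rw [Nat.beq_refl]
    simp
  · have h2 : Nat.beq a b = false := by
      rcases hb : Nat.beq a b with _ | _
      · rfl
      · exact absurd (Nat.eq_of_beq_eq_true hb) h
    rw [h2]
    simp [h]

/-- `Bool.rec` as `if` -/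
theorem FGet_rec {α : Type*} (x y : α) (p : Prop) [Decidable p] :
    (Bool.rec x y (decide p) : α) = if p then y else x := by
  by_cases h : p
  · rw [if_pos h, decide_eq_true h]
  · rw [if_neg h, decide_eq_false h]

theorem ins_nil (c : ℕ) : ins c [] = [c] := rfl

theorem ins_cons (c p : ℕ) (ps : List ℕ) :
    ins c (p :: ps) = if c ≤ p then c :: p :: ps else p :: ins c ps := by
  show (Bool.rec (p :: ins c ps) (c :: p :: ps) (Nat.ble c p) : List ℕ) = _
  rw [FGet_ble, FGet_rec]

theorem get_lf (q : ℕ) (l : List ℕ) : get .lf q l = 0 := rfl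

theorem get_nil (v : ℕ) (ch sib : Tr) (q : ℕ) : get (.nd v ch sib) q [] = 0 := rfl

theorem get_nd (v : ℕ) (ch sib : Tr) (q p : ℕ) (ps : List ℕ) :
    get (.nd v ch sib) q (p :: ps) =
      if p = q then (if ps = [] then v else get ch q ps) else get sib (q + 1) (p :: ps) := by
  show (Bool.rec (get sib (Nat.succ q) (p :: ps)) (List.rec v (fun _ _ _ => get ch q ps) ps)
    (Nat.beq p q) : ℕ) = _
  rw [FGet_beq, FGet_rec]
  cases ps with
  | nil => rfl
  | cons r rs => simp

theorem Tb_get_nil (T : Tb) : T.get [] = T.root := rfl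

theorem Tb_get_cons (T : Tb) (p : ℕ) (ps : List ℕ) : T.get (p :: ps) = V.get T.t 1 (p :: ps) := rfl

theorem drop0_eq (c : ℕ) (l : List ℕ) : drop0 c l = if c = 0 then l else c :: l := by
  show (Bool.rec (c :: l) l (Nat.beq c 0) : List ℕ) = _
  rw [FGet_beq, FGet_rec]

theorem rapp_nil (b : List ℕ) : rapp [] b = b := rfl

theorem rapp_cons (x : ℕ) (a b : List ℕ) : rapp (x :: a) b = rapp a (x :: b) := rfl

theorem rapp_eq (a : List ℕ) : ∀ b : List ℕ, rapp a b = a.reverse ++ b := by
  induction a with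
  | nil => intro b; rfl
  | cons x a ih => intro b; rw [rapp_cons, ih]; simp

theorem sumI_nil (T : Tb) (mj j : ℕ) (pre : List ℕ) : sumI T mj j [] pre = 0 := rfl

theorem sumI_cons (T : Tb) (mj j p : ℕ) (ps pre : List ℕ) : sumI T mj j (p :: ps) pre =
    T.get (drop0 mj (if p = j then rapp pre ps else ins (p - j) (rapp pre ps))) +
      sumI T mj j ps (p :: pre) := by
  show Nat.add (T.get (drop0 mj (Bool.rec (ins (Nat.sub p j) (rapp pre ps))
      (rapp pre ps) (Nat.beq p j)))) (sumI T mj j ps (p :: pre)) = _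
  rw [FGet_beq, FGet_rec]
  rfl

theorem sumJ_zero (T : Tb) (m : ℕ) (rest : List ℕ) : sumJ T m rest 0 = 0 := rfl

theorem sumJ_succ (T : Tb) (m : ℕ) (rest : List ℕ) (j : ℕ) : sumJ T m rest (j + 1) =
    (T.get (drop0 (m - (j + 1)) rest) + sumI T (m - (j + 1)) (j + 1) rest []) +
      sumJ T m rest j := rfl

theorem Nval_nil (T : Tb) : Nval T [] = 1 := rfl

theorem Nval_cons (T : Tb) (m : ℕ) (rest : List ℕ) :
    Nval T (m :: rest) = sumJ T m rest m / m := rfl

theorem ext_lf (T : Tb) (t1 q : ℕ) (pre : List ℕ) (sz : ℕ) : ext T t1 .lf q pre sz =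
    if sz + q = t1 then .nd (Nval T (rapp (q :: pre) [])) .lf .lf else .lf := by
  show (Bool.rec Tr.lf (.nd (Nval T (rapp (q :: pre) [])) .lf .lf)
      (Nat.beq (Nat.add sz q) t1) : Tr) = _
  rw [FGet_beq, FGet_rec]
  rfl

theorem ext_nd (T : Tb) (t1 v : ℕ) (ch sib : Tr) (q : ℕ) (pre : List ℕ) (sz : ℕ) :
    ext T t1 (.nd v ch sib) q pre sz =
      .nd v (ext T t1 ch q (q :: pre) (sz + q)) (ext T t1 sib (q + 1) pre sz) := rfl

theorem NT_zero : NT 0 = ⟨1, .lf⟩ := rfl

theorem NT_succ (t : ℕ) : NT (t + 1) = ⟨1, ext (NT t) (t + 1) (NT t).t 1 [] 0⟩ := rfl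

theorem base_lf (T : Tb) (n q : ℕ) (pre : List ℕ) (sz : ℕ) : base T n .lf q pre sz = .lf := rfl

theorem base_nd (T : Tb) (n v : ℕ) (ch sib : Tr) (q : ℕ) (pre : List ℕ) (sz : ℕ) :
    base T n (.nd v ch sib) q pre sz = if n ≤ sz + q then .lf else
      .nd (T.get (ins (n - (sz + q)) (rapp (q :: pre) []))) (base T n ch q (q :: pre) (sz + q))
        (base T n sib (q + 1) pre sz) := by
  show (Bool.rec (Tr.nd (T.get (ins (Nat.sub n (Nat.add sz q)) (rapp (q :: pre) [])))
        (base T n ch q (q :: pre) (Nat.add sz q)) (base T n sib (Nat.succ q) pre sz)) .lf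
        (Nat.ble n (Nat.add sz q)) : Tr) = _
  rw [FGet_ble, FGet_rec]
  rfl

theorem step_lf (T : Tb) (s Bp q : ℕ) (pre : List ℕ) (sz : ℕ) :
    step T s Bp .lf q pre sz = .lf := rfl

theorem step_nd (T : Tb) (s Bp v : ℕ) (ch sib : Tr) (q : ℕ) (pre : List ℕ) (sz : ℕ) :
    step T s Bp (.nd v ch sib) q pre sz = if s ≤ sz + q then .lf else
      .nd (v + Bp * (T.get (ins (s - (sz + q)) (rapp (q :: pre) [])) - v))
        (step T s Bp ch q (q :: pre) (sz + q)) (step T s Bp sib (q + 1) pre sz) := by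
  show (Bool.rec (Tr.nd (Nat.add v (Nat.mul Bp (Nat.sub
          (T.get (ins (Nat.sub s (Nat.add sz q)) (rapp (q :: pre) []))) v)))
        (step T s Bp ch q (q :: pre) (Nat.add sz q)) (step T s Bp sib (Nat.succ q) pre sz)) .lf
        (Nat.ble s (Nat.add sz q)) : Tr) = _
  rw [FGet_ble, FGet_rec]
  rfl

theorem go_zero (Bp : ℕ) (T : Tb) : go 0 Bp T = T := rfl

theorem go_succ (k Bp : ℕ) (T : Tb) :
    go (k + 1) Bp T = go k (Bp * Bp) (stepTb T (k + 3) Bp) := rfl

theorem topT_eq (k b : ℕ) : topT k b = go k (2 ^ b) (baseTb (NT (k + 3)) (k + 3)) := rfl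

/-! ### ordered insertion -/

theorem ins_perm (c : ℕ) (l : List ℕ) : (ins c l).Perm (c :: l) := by
  induction l with
  | nil => rw [ins_nil]
  | cons p ps ih =>
    rw [ins_cons]
    split_ifs
    · exact List.Perm.refl _
    · exact (List.Perm.cons p ih).trans (List.Perm.swap c p ps)

theorem ins_sum (c : ℕ) (l : List ℕ) : (ins c l).sum = c + l.sum := by
  rw [(ins_perm c l).sum_eq, List.sum_cons]

theorem ins_mem (c : ℕ) (l : List ℕ) (x : ℕ) : x ∈ ins c l ↔ x = c ∨ x ∈ l := by
  rw [(ins_perm c l).mem_iff, List.mem_cons]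

theorem ins_length (c : ℕ) (l : List ℕ) : (ins c l).length = l.length + 1 := by
  rw [(ins_perm c l).length_eq, List.length_cons]

theorem ins_ne_nil (c : ℕ) (l : List ℕ) : ins c l ≠ [] := by
  intro h
  have := ins_length c l
  rw [h] at this
  simp at this

theorem ins_sorted (c : ℕ) (l : List ℕ) (h : l.Pairwise (· ≤ ·)) :
    (ins c l).Pairwise (· ≤ ·) := by
  induction l with
  | nil => rw [ins_nil]; simp
  | cons p ps ih =>
    rw [ins_cons]
    rw [List.pairwise_cons] at h
    split_ifs with hc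
    · rw [List.pairwise_cons]
      refine ⟨fun x hx => ?_, List.pairwise_cons.mpr h⟩
      rcases List.mem_cons.mp hx with rfl | hx
      · exact hc
      · exact hc.trans (h.1 x hx)
    · rw [List.pairwise_cons]
      refine ⟨fun x hx => ?_, ih h.2⟩
      rcases (ins_mem c ps x).mp hx with rfl | hx
      · omega
      · exact h.1 x hx

/-- sorted with positive entries -/
def SP (l : List ℕ) : Prop := l.Pairwise (· ≤ ·) ∧ ∀ x ∈ l, 1 ≤ x

theorem SP_nil : SP [] := ⟨List.Pairwise.nil, fun x hx => by simp at hx⟩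

theorem SP_ins (c : ℕ) (l : List ℕ) (hc : 1 ≤ c) (h : SP l) : SP (ins c l) := by
  refine ⟨ins_sorted c l h.1, fun x hx => ?_⟩
  rcases (ins_mem c l x).mp hx with rfl | hx
  · exact hc
  · exact h.2 x hx

/-- the reversed prefix of a candidate `q` -/
theorem SP_push (q : ℕ) (pre : List ℕ) (hq : 1 ≤ q) (h : SP pre.reverse)
    (hp : ∀ x ∈ pre, x ≤ q) : SP (q :: pre).reverse := by
  rw [List.reverse_cons]
  refine ⟨?_, ?_⟩
  · rw [List.pairwise_append]
    refine ⟨h.1, by simp, fun a ha b hb => ?_⟩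
    rw [List.mem_singleton] at hb
    subst hb
    exact hp a (List.mem_reverse.mp ha)
  · intro x hx
    rcases List.mem_append.mp hx with hx | hx
    · exact h.2 x hx
    · rw [List.mem_singleton] at hx
      subst hx
      exact hq

/-! ### the trie invariant -/

/-- the trie contains the values of `F` on all sorted extensions of `pre.reverse` by entries `≥ q`
with total sum at most `t` -/
def TOK (F : List ℕ → ℚ) (t : ℕ) : Tr → ℕ → List ℕ → ℕ → Prop
  | .lf, q, _, sz => t < sz + q
  | .nd v ch sib, q, pre, sz => sz + q ≤ t ∧ (v : ℚ) = F (q :: pre).reverse ∧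
      TOK F t ch q (q :: pre) (sz + q) ∧ TOK F t sib (q + 1) pre sz

def Good (F : List ℕ → ℚ) (t : ℕ) (T : Tb) : Prop := (T.root : ℚ) = F [] ∧ TOK F t T.t 1 [] 0

theorem get_ok (F : List ℕ → ℚ) (t : ℕ) (tr : Tr) : ∀ (q : ℕ) (pre : List ℕ) (sz : ℕ),
    TOK F t tr q pre sz → ∀ key : List ℕ, key ≠ [] → key.Pairwise (· ≤ ·) →
    (∀ p ∈ key, q ≤ p) → sz + key.sum ≤ t → (get tr q key : ℚ) = F (pre.reverse ++ key) := by
  induction tr with
  | lf =>
    intro q pre sz h key hk _ hq hs
    exfalso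
    cases key with
    | nil => exact hk rfl
    | cons p ps =>
      have h1 := hq p List.mem_cons_self
      rw [List.sum_cons] at hs
      simp only [TOK] at h
      omega
  | nd v ch sib ihc ihs =>
    intro q pre sz h key hk hp hq hs
    simp only [TOK] at h
    obtain ⟨h1, h2, h3, h4⟩ := h
    cases key with
    | nil => exact absurd rfl hk
    | cons p ps =>
      rw [List.pairwise_cons] at hp
      rw [List.sum_cons] at hs
      rw [get_nd]
      by_cases hpq : p = q
      · subst hpq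
        rw [if_pos rfl]
        by_cases hps : ps = []
        · subst hps
          rw [if_pos rfl, h2, List.reverse_cons]
        · rw [if_neg hps, ihc p (p :: pre) (sz + p) h3 ps hps hp.2 hp.1 (by omega)]
          rw [List.reverse_cons, List.append_assoc, List.singleton_append]
      · rw [if_neg hpq]
        apply ihs (q + 1) pre sz h4 (p :: ps) (by simp) (List.pairwise_cons.mpr hp)
        · intro r hr
          have h5 := hq p List.mem_cons_self
          rcases List.mem_cons.mp hr with rfl | hr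
          · omega
          · have := hp.1 r hr
            omega
        · rw [List.sum_cons]; exact hs

theorem Tb_get_ok (F : List ℕ → ℚ) (t : ℕ) (T : Tb) (hT : Good F t T) (key : List ℕ)
    (hk : SP key) (hs : key.sum ≤ t) : (T.get key : ℚ) = F key := by
  cases key with
  | nil => rw [Tb_get_nil]; exact hT.1
  | cons p ps =>
    rw [Tb_get_cons]
    have := get_ok F t T.t 1 [] 0 hT.2 (p :: ps) (by simp) hk.1 hk.2 (by omega)
    simpa using this

theorem TOK_congr (F G : List ℕ → ℚ) (t : ℕ) (tr : Tr) : ∀ (q : ℕ) (pre : List ℕ) (sz : ℕ),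
    sz = pre.sum → 1 ≤ q → SP pre.reverse → (∀ x ∈ pre, x ≤ q) →
    (∀ l, SP l → l.sum ≤ t → F l = G l) → TOK F t tr q pre sz → TOK G t tr q pre sz := by
  induction tr with
  | lf => intro q pre sz _ _ _ _ _ h; exact h
  | nd v ch sib ihc ihs =>
    intro q pre sz hsz hq hpre hle hFG h
    simp only [TOK] at h ⊢
    obtain ⟨h1, h2, h3, h4⟩ := h
    have hsp := SP_push q pre hq hpre hle
    refine ⟨h1, ?_, ?_, ?_⟩
    · rw [h2]
      apply hFG _ hsp
      rw [List.sum_reverse, List.sum_cons]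
      omega
    · apply ihc _ _ _ _ hq hsp _ hFG h3
      · rw [List.sum_cons]; omega
      · intro x hx
        rcases List.mem_cons.mp hx with rfl | hx
        · exact le_rfl
        · exact hle x hx
    · exact ihs _ _ _ hsz (by omega) hpre (fun x hx => (hle x hx).trans (by omega)) hFG h4

theorem Good_congr (F G : List ℕ → ℚ) (t : ℕ) (T : Tb) (hFG : ∀ l, SP l → l.sum ≤ t → F l = G l)
    (h : Good F t T) : Good G t T :=
  ⟨h.1.trans (hFG [] SP_nil (by simp)),
    TOK_congr F G t T.t 1 [] 0 (by simp) le_rfl (by simpa using SP_nil) (by simp) hFG h.2⟩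

/-! ### extension by one level -/

theorem ext_ok (F : List ℕ → ℚ) (t : ℕ) (T : Tb)
    (hN : ∀ l, SP l → l.sum = t + 1 → (Nval T l : ℚ) = F l) (tr : Tr) :
    ∀ (q : ℕ) (pre : List ℕ) (sz : ℕ), sz = pre.sum → 1 ≤ q → SP pre.reverse →
    (∀ x ∈ pre, x ≤ q) → TOK F t tr q pre sz →
    TOK F (t + 1) (ext T (t + 1) tr q pre sz) q pre sz := by
  induction tr with
  | lf =>
    intro q pre sz hsz hq hpre hle h
    simp only [TOK] at h
    rw [ext_lf]
    by_cases h1 : sz + q = t + 1
    · rw [if_pos h1]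
      simp only [TOK]
      refine ⟨by omega, ?_, by omega, by omega⟩
      rw [rapp_eq, List.append_nil]
      apply hN _ (SP_push q pre hq hpre hle)
      rw [List.sum_reverse, List.sum_cons]
      omega
    · rw [if_neg h1]
      simp only [TOK]
      omega
  | nd v ch sib ihc ihs =>
    intro q pre sz hsz hq hpre hle h
    simp only [TOK] at h
    obtain ⟨h1, h2, h3, h4⟩ := h
    rw [ext_nd]
    simp only [TOK]
    refine ⟨by omega, h2, ?_, ?_⟩
    · apply ihc _ _ _ _ hq (SP_push q pre hq hpre hle) _ h3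
      · rw [List.sum_cons]; omega
      · intro x hx
        rcases List.mem_cons.mp hx with rfl | hx
        · exact le_rfl
        · exact hle x hx
    · exact ihs _ _ _ hsz (by omega) hpre (fun x hx => (hle x hx).trans (by omega)) h4

/-- the table of the values of a function with the recursion `Nval` -/
theorem NT_ok (F : List ℕ → ℚ) (h0 : F [] = 1)
    (hN : ∀ (t : ℕ) (T : Tb), Good F t T → ∀ l, SP l → l.sum = t + 1 → (Nval T l : ℚ) = F l) :
    ∀ t : ℕ, Good F t (NT t) := by
  intro t
  induction t with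
  | zero =>
    rw [NT_zero]
    refine ⟨by rw [h0]; norm_num, ?_⟩
    simp [TOK]
  | succ t ih =>
    rw [NT_succ]
    refine ⟨by rw [h0]; norm_num, ?_⟩
    exact ext_ok F t (NT t) (hN t (NT t) ih) (NT t).t 1 [] 0 (by simp) le_rfl
      (by simpa using SP_nil) (by simp) ih.2

/-! ### base table and steps -/

theorem base_ok (F F' : List ℕ → ℚ) (t0 n : ℕ) (hn : n ≤ t0 + 1) (T : Tb)
    (hF : ∀ l, SP l → l ≠ [] → l.sum < n → F' l = (T.get (ins (n - l.sum) l) : ℚ)) (tr : Tr) :
    ∀ (q : ℕ) (pre : List ℕ) (sz : ℕ), sz = pre.sum → 1 ≤ q → SP pre.reverse →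
    (∀ x ∈ pre, x ≤ q) → TOK F t0 tr q pre sz → TOK F' (n - 1) (base T n tr q pre sz) q pre sz := by
  induction tr with
  | lf =>
    intro q pre sz _ hq _ _ h
    simp only [TOK] at h
    rw [base_lf]
    simp only [TOK]
    omega
  | nd v ch sib ihc ihs =>
    intro q pre sz hsz hq hpre hle h
    simp only [TOK] at h
    obtain ⟨h1, h2, h3, h4⟩ := h
    rw [base_nd]
    have hsum : (q :: pre).reverse.sum = sz + q := by
      rw [List.sum_reverse, List.sum_cons]; omega
    by_cases h5 : n ≤ sz + q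
    · rw [if_pos h5]
      simp only [TOK]
      omega
    · rw [if_neg h5]
      simp only [TOK]
      refine ⟨by omega, ?_, ?_, ?_⟩
      · rw [rapp_eq, List.append_nil, hF _ (SP_push q pre hq hpre hle) (by simp) (by omega), hsum]
      · apply ihc _ _ _ _ hq (SP_push q pre hq hpre hle) _ h3
        · rw [List.sum_cons]; omega
        · intro x hx
          rcases List.mem_cons.mp hx with rfl | hx
          · exact le_rfl
          · exact hle x hx
      · exact ihs _ _ _ hsz (by omega) hpre (fun x hx => (hle x hx).trans (by omega)) h4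

/-- the base table: `F' l = T.get (l with n - sum l inserted)` for `sum l < n` -/
theorem baseTb_ok (F F' : List ℕ → ℚ) (t0 n : ℕ) (hn : n ≤ t0 + 1) (hn1 : 1 ≤ n) (T : Tb)
    (hT : Good F t0 T) (hF : ∀ l, SP l → l.sum < n → F' l = (T.get (ins (n - l.sum) l) : ℚ)) :
    Good F' (n - 1) (baseTb T n) := by
  refine ⟨?_, ?_⟩
  · show ((T.get [n] : ℕ) : ℚ) = F' []
    rw [hF [] SP_nil (by simp only [List.sum_nil]; omega)]
    simp [ins_nil]
  · exact base_ok F F' t0 n hn T (fun l h1 _ h2 => hF l h1 h2) T.t 1 [] 0 (by simp) le_rfl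
      (by simpa using SP_nil) (by simp) hT.2

theorem step_ok (F F' : List ℕ → ℚ) (s Bp : ℕ) (T : Tb) (hT : Good F s T)
    (hF : ∀ l, SP l → l ≠ [] → l.sum < s →
      F' l = ((T.get l + Bp * (T.get (ins (s - l.sum) l) - T.get l) : ℕ) : ℚ)) (tr : Tr) :
    ∀ (q : ℕ) (pre : List ℕ) (sz : ℕ), sz = pre.sum → 1 ≤ q → SP pre.reverse →
    (∀ x ∈ pre, x ≤ q) → TOK F s tr q pre sz →
    TOK F' (s - 1) (step T s Bp tr q pre sz) q pre sz := by
  induction tr with
  | lf =>
    intro q pre sz _ hq _ _ h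
    simp only [TOK] at h
    rw [step_lf]
    simp only [TOK]
    omega
  | nd v ch sib ihc ihs =>
    intro q pre sz hsz hq hpre hle h
    simp only [TOK] at h
    obtain ⟨h1, h2, h3, h4⟩ := h
    rw [step_nd]
    have hsum : (q :: pre).reverse.sum = sz + q := by
      rw [List.sum_reverse, List.sum_cons]; omega
    by_cases h5 : s ≤ sz + q
    · rw [if_pos h5]
      simp only [TOK]
      omega
    · rw [if_neg h5]
      simp only [TOK]
      have hsp := SP_push q pre hq hpre hle
      have hv : v = T.get (q :: pre).reverse := by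
        have := Tb_get_ok F s T hT _ hsp (by omega)
        rw [← h2] at this
        exact_mod_cast this.symm
      refine ⟨by omega, ?_, ?_, ?_⟩
      · rw [rapp_eq, List.append_nil, hF _ hsp (by simp) (by omega), hsum, ← hv]
      · apply ihc _ _ _ _ hq hsp _ h3
        · rw [List.sum_cons]; omega
        · intro x hx
          rcases List.mem_cons.mp hx with rfl | hx
          · exact le_rfl
          · exact hle x hx
      · exact ihs _ _ _ hsz (by omega) hpre (fun x hx => (hle x hx).trans (by omega)) h4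

/-- one step of the computation -/
theorem stepTb_ok (F F' : List ℕ → ℚ) (s Bp : ℕ) (hs : 1 ≤ s) (T : Tb) (hT : Good F s T)
    (hF : ∀ l, SP l → l.sum < s →
      F' l = ((T.get l + Bp * (T.get (ins (s - l.sum) l) - T.get l) : ℕ) : ℚ)) :
    Good F' (s - 1) (stepTb T s Bp) := by
  refine ⟨?_, ?_⟩
  · show ((T.root + Bp * (T.get [s] - T.root) : ℕ) : ℚ) = F' []
    rw [hF [] SP_nil (by simp only [List.sum_nil]; omega)]
    simp [ins_nil, Tb_get_nil]
  · exact step_ok F F' s Bp T hT (fun l h1 _ h2 => hF l h1 h2) T.t 1 [] 0 (by simp) le_rfl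
      (by simpa using SP_nil) (by simp) hT.2

end Pool.Agent.Lib.MP_c22e22_co.V
end

section

/-!
# Recursions for the label numbers
-/

open MvPolynomial Finset

namespace Pool.Agent.Lib.MP_c22e22_co.V

theorem xrec_DD (h2 : P_DD_cc) (φ : MvPolynomial ℕ ℚ →ₗ[ℚ] ℚ) (m n j : ℕ) (hj : j < n) :
    φ (DD (j + 1) (cc m (n - 1 - j))) =
      if 2 * (j + 1) ≤ n then (m : ℚ) * φ (cc (m - 1) (n - 2 * (j + 1))) else 0 := by
  cases m with
  | zero =>
    have h0 : DD (j + 1) (cc 0 (n - 1 - j)) = 0 := by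
      cases n - 1 - j with
      | zero => simp [cc, DD]
      | succ k => simp [cc, DD]
    rw [h0, map_zero]
    simp
  | succ m =>
    rw [h2 (j + 1) (by omega) m (n - 1 - j)]
    by_cases hc : 2 * (j + 1) ≤ n
    · rw [if_pos hc, if_pos (by omega), map_smul, smul_eq_mul, Nat.add_sub_cancel]
      have e1 : n - 1 - j - (j + 1) = n - 2 * (j + 1) := by omega
      rw [e1]
      push_cast
      ring
    · rw [if_neg hc, if_neg (by omega), map_zero]

theorem xrec_E_sum (h1 : P_cc_succ) (h2 : P_DD_cc) (m n : ℕ) :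
    (n : ℚ) * xE (m + 1) n = (m + 1) * ∑ j ∈ range n, ((if j % 2 = 0 then xE m (n - 1 - j) else 0) +
      (if 2 * (j + 1) ≤ n then (m : ℚ) * xE (m - 1) (n - 2 * (j + 1)) else 0)) := by
  have h := congrArg E (h1 m n)
  rw [map_smul, map_smul, smul_eq_mul, smul_eq_mul, map_sum] at h
  rw [xE, h]
  congr 1
  refine Finset.sum_congr rfl fun j hj => ?_
  rw [Finset.mem_range] at hj
  rw [E_X_mul, xrec_DD h2 E m n j hj]
  congr 1
  by_cases hc : j % 2 = 0
  · rw [if_pos hc, if_pos (by omega)]
    rfl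
  · rw [if_neg hc, if_neg (by omega)]

theorem p_xE_rec (h1 : P_cc_succ) (h2 : P_DD_cc) : P_xE_rec := by
  intro m n
  have ha := xrec_E_sum h1 h2 m (n + 2)
  have hb := xrec_E_sum h1 h2 m n
  rw [Finset.sum_add_distrib] at ha hb
  have s1 : ∑ j ∈ range (n + 2), (if j % 2 = 0 then xE m (n + 2 - 1 - j) else 0) =
      xE m (n + 1) + ∑ j ∈ range n, (if j % 2 = 0 then xE m (n - 1 - j) else 0) := by
    rw [Finset.sum_range_succ', Finset.sum_range_succ']
    have e : ∀ j ∈ range n, (if (j + 1 + 1) % 2 = 0 then xE m (n + 2 - 1 - (j + 1 + 1)) else 0) =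
        (if j % 2 = 0 then xE m (n - 1 - j) else 0) := by
      intro j hj
      have e1 : n + 2 - 1 - (j + 1 + 1) = n - 1 - j := by omega
      rw [e1]
      by_cases hc : j % 2 = 0
      · rw [if_pos hc, if_pos (by omega)]
      · rw [if_neg hc, if_neg (by omega)]
    rw [Finset.sum_congr rfl e]
    simp
    ring
  have s2 : ∑ j ∈ range (n + 2), (if 2 * (j + 1) ≤ n + 2 then (m : ℚ) * xE (m - 1) (n + 2 - 2 * (j + 1))
        else 0) =
      m * xE (m - 1) n + ∑ j ∈ range n, (if 2 * (j + 1) ≤ n then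
        (m : ℚ) * xE (m - 1) (n - 2 * (j + 1)) else 0) := by
    rw [Finset.sum_range_succ', Finset.sum_range_succ]
    have e : ∀ j ∈ range n, (if 2 * (j + 1 + 1) ≤ n + 2 then
        (m : ℚ) * xE (m - 1) (n + 2 - 2 * (j + 1 + 1)) else 0) =
        (if 2 * (j + 1) ≤ n then (m : ℚ) * xE (m - 1) (n - 2 * (j + 1)) else 0) := by
      intro j hj
      have e1 : n + 2 - 2 * (j + 1 + 1) = n - 2 * (j + 1) := by omega
      rw [e1]
      by_cases hc : 2 * (j + 1) ≤ n
      · rw [if_pos hc, if_pos (by omega)]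
      · rw [if_neg hc, if_neg (by omega)]
    rw [Finset.sum_congr rfl e, if_neg (by omega), if_pos (by omega)]
    have e2 : n + 2 - 2 * (0 + 1) = n := by omega
    rw [e2]
    ring
  rw [s1, s2] at ha
  push_cast at ha
  rw [ha]
  linear_combination -hb

theorem p_xO_sum (h1 : P_cc_succ) (h2 : P_DD_cc) : P_xO_sum := by
  intro m n
  have h := congrArg Eo (h1 m n)
  rw [map_smul, map_smul, smul_eq_mul, smul_eq_mul, map_sum] at h
  rw [xO, h, Finset.sum_range_succ']
  congr 1
  rw [if_neg (by omega), add_zero]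
  refine Finset.sum_congr rfl fun j hj => ?_
  rw [Finset.mem_range] at hj
  rw [Eo_X_mul (j + 1) (by omega), xrec_DD h2 Eo m n j hj]
  have e1 : n - (j + 1) = n - 1 - j := by omega
  rw [e1]
  rfl

theorem p_xO_rec (h : P_xO_sum) : P_xO_rec := by
  intro m n
  have ha := h m (n + 4)
  have hb := h m n
  have sp : ∀ N : ℕ, (∑ j ∈ range (N + 1), if j % 2 = 1 then xO m (N - j) +
      (if 2 * j ≤ N then (m : ℚ) * xO (m - 1) (N - 2 * j) else 0) else 0) =
      (∑ j ∈ range (N + 1), if j % 2 = 1 then xO m (N - j) else 0) +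
      ∑ j ∈ range (N + 1), if j % 2 = 1 then
        (if 2 * j ≤ N then (m : ℚ) * xO (m - 1) (N - 2 * j) else 0) else 0 := by
    intro N
    rw [← Finset.sum_add_distrib]
    refine Finset.sum_congr rfl fun j _ => ?_
    split_ifs <;> ring
  rw [sp] at ha hb
  have s1 : (∑ j ∈ range (n + 4 + 1), if j % 2 = 1 then xO m (n + 4 - j) else 0) =
      xO m (n + 3) + xO m (n + 1) + ∑ j ∈ range (n + 1), (if j % 2 = 1 then xO m (n - j) else 0) := by
    have e0 : n + 4 + 1 = (n + 1) + 1 + 1 + 1 + 1 := by omega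
    rw [e0, Finset.sum_range_succ', Finset.sum_range_succ', Finset.sum_range_succ',
      Finset.sum_range_succ']
    have e : ∀ j ∈ range (n + 1), (if (j + 1 + 1 + 1 + 1) % 2 = 1 then
        xO m (n + 4 - (j + 1 + 1 + 1 + 1)) else 0) = (if j % 2 = 1 then xO m (n - j) else 0) := by
      intro j hj
      have e1 : n + 4 - (j + 1 + 1 + 1 + 1) = n - j := by omega
      rw [e1]
      by_cases hc : j % 2 = 1
      · rw [if_pos hc, if_pos (by omega)]
      · rw [if_neg hc, if_neg (by omega)]
    rw [Finset.sum_congr rfl e, if_pos (by omega), if_neg (by omega), if_pos (by omega),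
      if_neg (by omega)]
    have e2 : n + 4 - (0 + 1 + 1 + 1) = n + 1 := by omega
    have e3 : n + 4 - (0 + 1) = n + 3 := by omega
    rw [e2, e3]
    ring
  have s2 : (∑ j ∈ range (n + 4 + 1), if j % 2 = 1 then
        (if 2 * j ≤ n + 4 then (m : ℚ) * xO (m - 1) (n + 4 - 2 * j) else 0) else 0) =
      m * xO (m - 1) (n + 2) + ∑ j ∈ range (n + 1), (if j % 2 = 1 then
        (if 2 * j ≤ n then (m : ℚ) * xO (m - 1) (n - 2 * j) else 0) else 0) := by
    have e0 : n + 4 + 1 = ((n + 1) + 1 + 1) + 1 + 1 := by omega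
    rw [e0, Finset.sum_range_succ', Finset.sum_range_succ', Finset.sum_range_succ,
      Finset.sum_range_succ]
    have e : ∀ j ∈ range (n + 1), (if (j + 1 + 1) % 2 = 1 then (if 2 * (j + 1 + 1) ≤ n + 4 then
        (m : ℚ) * xO (m - 1) (n + 4 - 2 * (j + 1 + 1)) else 0) else 0) =
        (if j % 2 = 1 then (if 2 * j ≤ n then (m : ℚ) * xO (m - 1) (n - 2 * j) else 0) else 0) := by
      intro j hj
      have e1 : n + 4 - 2 * (j + 1 + 1) = n - 2 * j := by omega
      rw [e1]
      by_cases hc : j % 2 = 1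
      · rw [if_pos hc, if_pos (by omega)]
        by_cases hd : 2 * j ≤ n
        · rw [if_pos hd, if_pos (by omega)]
        · rw [if_neg hd, if_neg (by omega)]
      · rw [if_neg hc, if_neg (by omega)]
    rw [Finset.sum_congr rfl e]
    have z1 : (if 2 * (n + 1 + 1 + 1) ≤ n + 4 then
        (m : ℚ) * xO (m - 1) (n + 4 - 2 * (n + 1 + 1 + 1)) else 0) = 0 := if_neg (by omega)
    have z2 : (if 2 * (n + 1 + 1 + 1 + 1) ≤ n + 4 then
        (m : ℚ) * xO (m - 1) (n + 4 - 2 * (n + 1 + 1 + 1 + 1)) else 0) = 0 := if_neg (by omega)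
    rw [z1, z2]
    have e2 : n + 4 - 2 * (0 + 1) = n + 2 := by omega
    rw [if_pos (show (0 + 1) % 2 = 1 by omega), if_pos (show 2 * (0 + 1) ≤ n + 4 by omega), e2]
    simp
    ring
  rw [s1, s2] at ha
  push_cast at ha
  rw [ha]
  linear_combination -hb

theorem xrec_cc_zero (n : ℕ) (hn : 1 ≤ n) : cc 0 n = 0 := by
  obtain ⟨k, rfl⟩ : ∃ k, n = k + 1 := ⟨n - 1, by omega⟩
  rfl

theorem xrec_E00 : xE 0 0 = 1 := by
  have : cc 0 0 = 1 := rfl
  rw [xE, this, E_one]

theorem xrec_O00 : xO 0 0 = 1 := by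
  have : cc 0 0 = 1 := rfl
  rw [xO, this, Eo_one]

theorem xrec_E0 (n : ℕ) (hn : 1 ≤ n) : xE 0 n = 0 := by
  rw [xE, xrec_cc_zero n hn, map_zero]

theorem xrec_O0 (n : ℕ) (hn : 1 ≤ n) : xO 0 n = 0 := by
  rw [xO, xrec_cc_zero n hn, map_zero]

theorem xrec_Es0 (m : ℕ) : xE (m + 1) 0 = 0 := by
  have : cc (m + 1) 0 = 0 := rfl
  rw [xE, this, map_zero]

theorem xrec_Os0 (m : ℕ) : xO (m + 1) 0 = 0 := by
  have : cc (m + 1) 0 = 0 := rfl
  rw [xO, this, map_zero]

/-- all facts on `xE` by strong induction -/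
theorem xrec_E_facts (h1 : P_cc_succ) (h2 : P_DD_cc) : ∀ n m : ℕ,
    0 ≤ xE m n ∧ (n < m → xE m n = 0) ∧ ((m + n) % 2 = 1 → xE m n = 0) := by
  intro n
  induction n using Nat.strong_induction_on with
  | _ n ih =>
    intro m
    rcases Nat.eq_zero_or_pos m with rfl | hm
    · rcases Nat.eq_zero_or_pos n with rfl | hn
      · rw [xrec_E00]
        exact ⟨zero_le_one, fun h => absurd h (by omega), fun h => absurd h (by omega)⟩
      · rw [xrec_E0 n hn]
        exact ⟨le_refl _, fun _ => rfl, fun _ => rfl⟩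
    · obtain ⟨k, rfl⟩ : ∃ k, m = k + 1 := ⟨m - 1, by omega⟩
      rcases Nat.eq_zero_or_pos n with rfl | hn
      · rw [xrec_Es0 k]
        exact ⟨le_refl _, fun _ => rfl, fun _ => rfl⟩
      · have hs := xrec_E_sum h1 h2 k n
        have hn' : (0 : ℚ) < n := by exact_mod_cast hn
        refine ⟨?_, ?_, ?_⟩
        · have h3 : 0 ≤ (n : ℚ) * xE (k + 1) n := by
            rw [hs]
            refine mul_nonneg (by positivity) (Finset.sum_nonneg fun j hj => ?_)
            rw [Finset.mem_range] at hj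
            refine add_nonneg ?_ ?_
            · split_ifs
              · exact (ih _ (by omega) _).1
              · exact le_refl _
            · split_ifs
              · exact mul_nonneg (by positivity) (ih _ (by omega) _).1
              · exact le_refl _
          exact nonneg_of_mul_nonneg_right h3 hn'
        · intro hlt
          have h3 : (n : ℚ) * xE (k + 1) n = 0 := by
            rw [hs, Finset.sum_eq_zero, mul_zero]
            intro j hj
            rw [Finset.mem_range] at hj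
            have a1 : xE k (n - 1 - j) = 0 := (ih _ (by omega) _).2.1 (by omega)
            rw [a1, ite_self, zero_add]
            split_ifs with hc
            · rw [(ih (n - 2 * (j + 1)) (by omega) (k - 1)).2.1 (by omega), mul_zero]
            · rfl
          rcases mul_eq_zero.1 h3 with h4 | h4
          · exact absurd h4 (ne_of_gt hn')
          · exact h4
        · intro hpar
          have h3 : (n : ℚ) * xE (k + 1) n = 0 := by
            rw [hs, Finset.sum_eq_zero, mul_zero]
            intro j hj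
            rw [Finset.mem_range] at hj
            have a1 : (if j % 2 = 0 then xE k (n - 1 - j) else 0) = 0 := by
              split_ifs with hc
              · exact (ih _ (by omega) _).2.2 (by omega)
              · rfl
            rw [a1, zero_add]
            split_ifs with hc
            · rcases Nat.eq_zero_or_pos k with rfl | hk
              · simp
              · rw [(ih (n - 2 * (j + 1)) (by omega) (k - 1)).2.2 (by omega), mul_zero]
            · rfl
          rcases mul_eq_zero.1 h3 with h4 | h4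
          · exact absurd h4 (ne_of_gt hn')
          · exact h4

/-- all facts on `xO` by strong induction -/
theorem xrec_O_facts (h : P_xO_sum) : ∀ n m : ℕ,
    0 ≤ xO m n ∧ (n < m → xO m n = 0) ∧ ((m + n) % 2 = 1 → xO m n = 0) := by
  intro n
  induction n using Nat.strong_induction_on with
  | _ n ih =>
    intro m
    rcases Nat.eq_zero_or_pos m with rfl | hm
    · rcases Nat.eq_zero_or_pos n with rfl | hn
      · rw [xrec_O00]
        exact ⟨zero_le_one, fun h => absurd h (by omega), fun h => absurd h (by omega)⟩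
      · rw [xrec_O0 n hn]
        exact ⟨le_refl _, fun _ => rfl, fun _ => rfl⟩
    · obtain ⟨k, rfl⟩ : ∃ k, m = k + 1 := ⟨m - 1, by omega⟩
      rcases Nat.eq_zero_or_pos n with rfl | hn
      · rw [xrec_Os0 k]
        exact ⟨le_refl _, fun _ => rfl, fun _ => rfl⟩
      · have hs := h k n
        have hn' : (0 : ℚ) < n := by exact_mod_cast hn
        refine ⟨?_, ?_, ?_⟩
        · have h3 : 0 ≤ (n : ℚ) * xO (k + 1) n := by
            rw [hs]
            refine mul_nonneg (by positivity) (Finset.sum_nonneg fun j hj => ?_)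
            rw [Finset.mem_range] at hj
            by_cases hj2 : j % 2 = 1
            · rw [if_pos hj2]
              refine add_nonneg (ih _ (by omega) _).1 ?_
              split_ifs
              · exact mul_nonneg (by positivity) (ih _ (by omega) _).1
              · exact le_refl _
            · rw [if_neg hj2]
          exact nonneg_of_mul_nonneg_right h3 hn'
        · intro hlt
          have h3 : (n : ℚ) * xO (k + 1) n = 0 := by
            rw [hs, Finset.sum_eq_zero, mul_zero]
            intro j hj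
            rw [Finset.mem_range] at hj
            by_cases hj2 : j % 2 = 1
            · rw [if_pos hj2, (ih (n - j) (by omega) k).2.1 (by omega), zero_add]
              split_ifs with hc
              · rw [(ih (n - 2 * j) (by omega) (k - 1)).2.1 (by omega), mul_zero]
              · rfl
            · rw [if_neg hj2]
          rcases mul_eq_zero.1 h3 with h4 | h4
          · exact absurd h4 (ne_of_gt hn')
          · exact h4
        · intro hpar
          have h3 : (n : ℚ) * xO (k + 1) n = 0 := by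
            rw [hs, Finset.sum_eq_zero, mul_zero]
            intro j hj
            rw [Finset.mem_range] at hj
            by_cases hj2 : j % 2 = 1
            · rw [if_pos hj2, (ih (n - j) (by omega) k).2.2 (by omega), zero_add]
              split_ifs with hc
              · rcases Nat.eq_zero_or_pos k with rfl | hk
                · simp
                · rw [(ih (n - 2 * j) (by omega) (k - 1)).2.2 (by omega), mul_zero]
              · rfl
            · rw [if_neg hj2]
          rcases mul_eq_zero.1 h3 with h4 | h4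
          · exact absurd h4 (ne_of_gt hn')
          · exact h4

theorem xrec_mom (c : ℕ) : mom 1 (c + 2) = mom 1 (c + 1) + (c + 1) * mom 1 c := by
  rw [mom]
  simp

theorem xrec_E_diag (h1 : P_cc_succ) (h2 : P_DD_cc) : ∀ n, xE n n = mom 1 n ∧
    xE (n + 1) (n + 1) = mom 1 (n + 1) := by
  have hf := xrec_E_facts h1 h2
  intro n
  induction n with
  | zero =>
    refine ⟨by rw [xrec_E00]; simp [mom], ?_⟩
    have h3 := xrec_E_sum h1 h2 0 1
    rw [Finset.sum_range_one] at h3
    simp [xrec_E00] at h3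
    rw [h3]
    simp [mom]
  | succ n ih =>
    refine ⟨ih.2, ?_⟩
    have h3 := p_xE_rec h1 h2 (n + 1) n
    rw [(hf n (n + 1 + 1)).2.1 (by omega), Nat.add_sub_cancel, ih.1, ih.2] at h3
    have h4 := xrec_mom n
    have h5 : ((n : ℚ) + 2) ≠ 0 := by positivity
    apply mul_left_cancel₀ h5
    have e1 : n + 1 + 1 = n + 2 := rfl
    rw [e1] at h3 ⊢
    rw [h3, h4]
    push_cast
    ring

theorem xrec_O1 (h : P_xO_sum) : xO 1 1 = 1 := by
  have h3 := h 0 1
  simpa [Finset.sum_range_succ, xrec_O00] using h3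

theorem xrec_O_diag (h : P_xO_sum) : ∀ n, xO n n = mom 1 n ∧ xO (n + 1) (n + 1) = mom 1 (n + 1) := by
  have hf := xrec_O_facts h
  intro n
  induction n with
  | zero =>
    refine ⟨by rw [xrec_O00]; simp [mom], ?_⟩
    rw [xrec_O1 h]
    simp [mom]
  | succ n ih =>
    refine ⟨ih.2, ?_⟩
    have h3 := h (n + 1) (n + 2)
    have h4 : (∑ j ∈ range (n + 2 + 1), if j % 2 = 1 then xO (n + 1) (n + 2 - j) +
        (if 2 * j ≤ n + 2 then ((n + 1 : ℕ) : ℚ) * xO (n + 1 - 1) (n + 2 - 2 * j) else 0) else 0) =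
        xO (n + 1) (n + 1) + ((n + 1 : ℕ) : ℚ) * xO n n := by
      rw [Finset.sum_eq_single 1]
      · rw [if_pos (by omega), if_pos (by omega)]
        have e1 : n + 2 - 1 = n + 1 := by omega
        have e2 : n + 2 - 2 * 1 = n := by omega
        rw [e1, e2, Nat.add_sub_cancel]
      · intro j hj hj1
        rw [Finset.mem_range] at hj
        by_cases hj2 : j % 2 = 1
        · rw [if_pos hj2, (hf (n + 2 - j) (n + 1)).2.1 (by omega), zero_add]
          split_ifs with hc
          · rw [(hf (n + 2 - 2 * j) (n + 1 - 1)).2.1 (by omega), mul_zero]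
          · rfl
        · rw [if_neg hj2]
      · intro hj
        exact absurd (Finset.mem_range.2 (by omega)) hj
    rw [h4, ih.1, ih.2] at h3
    have h5 : ((n : ℚ) + 2) ≠ 0 := by positivity
    apply mul_left_cancel₀ h5
    have e1 : n + 1 + 1 = n + 2 := rfl
    rw [e1] at h3 ⊢
    push_cast at h3
    rw [h3, xrec_mom n]
    ring

theorem xrec_O_two (h : P_xO_sum) : ∀ n : ℕ, xO n (n + 2) = n * mom 1 (n - 1) / 3 ∧
    xO (n + 1) (n + 3) = ((n : ℚ) + 1) * mom 1 n / 3 := by
  have hf := xrec_O_facts h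
  have hd := xrec_O_diag h
  have hr := p_xO_rec h
  intro n
  induction n with
  | zero =>
    refine ⟨by rw [xrec_O0 2 (by omega)]; simp, ?_⟩
    have h3 := h 0 3
    simp [Finset.sum_range_succ, xrec_O00, xrec_O0] at h3
    simp [mom]
    linarith
  | succ n ih =>
    refine ⟨?_, ?_⟩
    · rw [show n + 1 + 2 = n + 3 from rfl, ih.2, Nat.add_sub_cancel]
      push_cast
      ring
    · have h3 := hr (n + 1) n
      rw [(hf n (n + 1 + 1)).2.1 (by omega), Nat.add_sub_cancel, ih.1, ih.2, (hd (n + 1)).1] at h3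
      have h5 : ((n : ℚ) + 4) ≠ 0 := by positivity
      apply mul_left_cancel₀ h5
      have e1 : n + 1 + 3 = n + 4 := rfl
      rw [e1, h3]
      rcases Nat.eq_zero_or_pos n with rfl | hn
      · simp [mom]
        norm_num
      · obtain ⟨k, rfl⟩ : ∃ k, n = k + 1 := ⟨n - 1, by omega⟩
        rw [Nat.add_sub_cancel]
        have h6 := xrec_mom k
        rw [show k + 1 + 1 = k + 2 from rfl, h6]
        push_cast
        ring

theorem p_x_basic (h1 : P_cc_succ) (h2 : P_DD_cc) : P_x_basic := by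
  have hs := p_xO_sum h1 h2
  have hE := xrec_E_facts h1 h2
  have hO := xrec_O_facts hs
  exact ⟨fun n => (xrec_E_diag h1 h2 n).1, fun n => (xrec_O_diag hs n).1,
    fun m n h => (hE n m).2.2 h, fun m n h => (hO n m).2.2 h, fun m n => (hE n m).1,
    fun m n => (hO n m).1, fun m n h => (hE n m).2.1 h, fun m n h => (hO n m).2.1 h,
    xrec_E0, xrec_O0, fun n => (xrec_O_two hs n).1⟩

end Pool.Agent.Lib.MP_c22e22_co.V
end

section

open MvPolynomial Finset

namespace Pool.Agent.Lib.MP_c22e22_co.V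

/-! ### variables -/

theorem AltGe_pw (g : ℕ) (s : Set ℕ) (hg : g ∈ s) : pw g ∈ supported ℚ s := by
  unfold pw
  exact mul_mem (Subalgebra.algebraMap_mem _ _) (X_mem_supported.mpr hg)

theorem AltGe_cg (s : Set ℕ) : ∀ (k g m : ℕ), (∀ j, g ≤ j → j ≤ g + k → j ∈ s) →
    (∀ j, 1 ≤ j → j ≤ k → j ∈ s) → cg k g m ∈ supported ℚ s := by
  intro k
  induction k with
  | zero =>
    intro g m h1 _
    cases m with
    | zero => simp only [cg]; exact AltGe_pw g s (h1 g le_rfl (by omega))
    | succ m => simp only [cg]; exact zero_mem _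
  | succ k ih =>
    intro g m h1 h2
    cases m with
    | zero =>
      simp only [cg]
      exact ih _ _ (fun j hj hj' => h1 j (by omega) (by omega))
        (fun j hj hj' => h2 j (by omega) (by omega))
    | succ m =>
      simp only [cg]
      refine add_mem (mul_mem (AltGe_pw g s (h1 g le_rfl (by omega))) ?_) ?_
      · exact ih _ _ (fun j hj hj' => h2 j (by omega) (by omega))
          (fun j hj hj' => h2 j (by omega) (by omega))
      · exact ih _ _ (fun j hj hj' => h1 j (by omega) (by omega))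
          (fun j hj hj' => h2 j (by omega) (by omega))

theorem AltGe_cc (s : Set ℕ) (m n : ℕ) (h : ∀ j, 1 ≤ j → j ≤ n → j ∈ s) :
    cc m n ∈ supported ℚ s := by
  match m, n, h with
  | 0, 0, _ => simp only [cc]; exact one_mem _
  | 0, _ + 1, _ => simp only [cc]; exact zero_mem _
  | _ + 1, 0, _ => simp only [cc]; exact zero_mem _
  | m + 1, n + 1, h =>
    simp only [cc]
    exact AltGe_cg s _ _ _ (fun j h1 h2 => h j h1 (by omega)) (fun j h1 h2 => h j h1 (by omega))

theorem AltGe_hh (s : Set ℕ) (n : ℕ) (h : ∀ j, 1 ≤ j → j ≤ n → j ∈ s) :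
    hh n ∈ supported ℚ s := by
  unfold hh
  exact sum_mem fun m _ => mul_mem (Subalgebra.algebraMap_mem _ _) (AltGe_cc s m n h)

theorem AltGe_rib (s : Set ℕ) : ∀ (w : List Lk) (m : ℕ),
    (∀ j, 1 ≤ j → j ≤ m + w.length → j ∈ s) → rib hh m w ∈ supported ℚ s := by
  intro w
  induction w with
  | nil => intro m h; simp only [rib]; exact AltGe_hh s m (by simpa using h)
  | cons x w ih =>
    intro m h
    simp only [List.length_cons] at h
    have e1 : hh m ∈ supported ℚ s := AltGe_hh s m fun j h1 h2 => h j h1 (by omega)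
    have e3 : rib hh (m + 1) w ∈ supported ℚ s := ih (m + 1) fun j h1 h2 => h j h1 (by omega)
    cases x with
    | a => simpa only [rib] using e3
    | s =>
      have e2 : rib hh 1 w ∈ supported ℚ s := ih 1 fun j h1 h2 => h j h1 (by omega)
      simpa only [rib] using mul_mem e1 e2
    | d =>
      have e2 : rib hh 1 w ∈ supported ℚ s := ih 1 fun j h1 h2 => h j h1 (by omega)
      simpa only [rib] using sub_mem (mul_mem e1 e2) e3

theorem AltGe_supp (w : List Lk) : rib hh 1 w ∈ supported ℚ (Set.Icc 1 (w.length + 1)) :=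
  AltGe_rib _ w 1 fun j h1 h2 => ⟨h1, by omega⟩

theorem p_vars : P_vars := by
  intro w j hj
  apply pderiv_eq_zero_of_notMem_vars
  intro h
  have := mem_supported.mp (AltGe_supp w) (Finset.mem_coe.mpr h)
  rw [Set.mem_Icc] at this
  omega

/-! ### functionals -/

/-- moments: even variables outside `S` killed -/
def AltGeM (S : Finset ℕ) (j c : ℕ) : ℚ := if j ∈ S then mom j c else momo j c

theorem AltGeM_zero (S : Finset ℕ) (j : ℕ) : AltGeM S j 0 = 1 := by
  unfold AltGeM
  split_ifs
  · exact mom_zero j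
  · exact momo_zero j

theorem AltGe_Lf_congr (M M' : ℕ → ℕ → ℚ) (s : Set ℕ) (h0 : ∀ j, M j 0 = M' j 0)
    (h : ∀ j ∈ s, ∀ c, M j c = M' j c) (F : MvPolynomial ℕ ℚ) (hF : F ∈ supported ℚ s) :
    Lf M F = Lf M' F := by
  conv_lhs => rw [← support_sum_monomial_coeff F]
  conv_rhs => rw [← support_sum_monomial_coeff F]
  rw [map_sum, map_sum]
  apply Finset.sum_congr rfl
  intro μ hμ
  rw [Lf_monomial, Lf_monomial]
  congr 1
  unfold Finsupp.prod
  apply Finset.prod_congr rfl
  intro j hj
  apply h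
  apply mem_supported.mp hF
  rw [Finset.mem_coe, mem_vars]
  exact ⟨μ, hμ, hj⟩

theorem AltGe_DD_iter (l : ℕ) (μ : ℕ →₀ ℕ) (c : ℚ) : ∀ r : ℕ,
    (DD l)^[r] (monomial μ c) =
      monomial (μ - Finsupp.single l r) (c * (l : ℚ) ^ r * ((μ l).descFactorial r : ℕ)) := by
  intro r
  induction r with
  | zero => simp
  | succ r ih =>
    rw [Function.iterate_succ_apply', ih, DD, pderiv_monomial, smul_monomial]
    have e1 : (μ - Finsupp.single l r - Finsupp.single l 1 : ℕ →₀ ℕ) =
        μ - Finsupp.single l (r + 1) := by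
      rw [tsub_tsub, ← Finsupp.single_add]
    rw [e1]
    congr 1
    rw [Nat.descFactorial_succ]
    have : ((μ - Finsupp.single l r : ℕ →₀ ℕ)) l = μ l - r := by simp
    rw [this]
    push_cast
    rw [smul_eq_mul, pow_succ]
    ring

theorem AltGe_mom_even (l : ℕ) (hl : l % 2 = 0) : ∀ i : ℕ,
    mom l (2 * i) = (l : ℚ) ^ i * ((2 * i).factorial : ℕ) / (2 ^ i * (i.factorial : ℕ)) := by
  intro i
  induction i with
  | zero => simp [mom]
  | succ i ih =>
    have hl' : ¬ (l % 2 = 1) := by omega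
    have e : 2 * (i + 1) = 2 * i + 2 := by ring
    rw [e]
    simp only [mom, hl', if_false, zero_add]
    rw [ih]
    have h1 : ((2 * i + 2).factorial : ℕ) = (2 * i + 2) * ((2 * i + 1) * (2 * i).factorial) := by
      rw [Nat.factorial_succ, Nat.factorial_succ]
    have h2 : ((i + 1).factorial : ℕ) = (i + 1) * i.factorial := Nat.factorial_succ i
    rw [h1, h2]
    have h3 : ((i.factorial : ℕ) : ℚ) ≠ 0 := by exact_mod_cast Nat.factorial_ne_zero i
    have h4 : ((i : ℚ) + 1) ≠ 0 := by positivity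
    push_cast
    field_simp
    ring

theorem AltGe_mom_odd (l : ℕ) (hl : l % 2 = 0) : ∀ i : ℕ, mom l (2 * i + 1) = 0 := by
  intro i
  have hl' : ¬ (l % 2 = 1) := by omega
  induction i with
  | zero => simp [mom, hl']
  | succ i ih =>
    have e : 2 * (i + 1) + 1 = (2 * i + 1) + 2 := by ring
    rw [e]
    simp only [mom, hl', if_false, zero_add]
    rw [ih, mul_zero]

/-- coefficients of the expansion -/
noncomputable def AltGec (l i : ℕ) : ℚ := 1 / ((2 * (l : ℚ)) ^ i * (i.factorial : ℕ))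

theorem AltGe_exp_mono (S : Finset ℕ) (l : ℕ) (hl : l % 2 = 0) (hl2 : 2 ≤ l) (hS : l ∉ S)
    (μ : ℕ →₀ ℕ) (c : ℚ) (N : ℕ) (hN : μ l < 2 * N) :
    Lf (AltGeM (insert l S)) (monomial μ c) =
      ∑ i ∈ range N, AltGec l i * Lf (AltGeM S) ((DD l)^[2 * i] (monomial μ c)) := by
  have hz : ∀ T : Finset ℕ, ∀ j, AltGeM T j 0 = 1 := fun T j => AltGeM_zero T j
  have e0 : ∀ r : ℕ, (μ - Finsupp.single l r).erase l = μ.erase l := by
    intro r
    ext i
    by_cases hi : i = l
    · subst hi; simp
    · simp [Finsupp.erase_ne hi, hi]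
  have e1 : (μ.erase l).prod (AltGeM (insert l S)) = (μ.erase l).prod (AltGeM S) := by
    unfold Finsupp.prod
    apply Finset.prod_congr rfl
    intro j hj
    have hjl : j ≠ l := by
      rintro rfl
      simp at hj
    simp [AltGeM, hjl]
  rw [Lf_monomial, prod_split _ (hz _) μ μ l rfl, e1]
  have e2 : AltGeM (insert l S) l (μ l) = mom l (μ l) := by simp [AltGeM]
  rw [e2]
  have e3 : ∀ i, AltGec l i * Lf (AltGeM S) ((DD l)^[2 * i] (monomial μ c)) =
      if μ l = 2 * i then c * (mom l (μ l) * (μ.erase l).prod (AltGeM S)) else 0 := by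
    intro i
    rw [AltGe_DD_iter, Lf_monomial, prod_split _ (hz _) _ μ l (e0 _)]
    have e4 : ((μ - Finsupp.single l (2 * i) : ℕ →₀ ℕ)) l = μ l - 2 * i := by simp
    rw [e4]
    by_cases h : μ l = 2 * i
    · rw [if_pos h, h, Nat.sub_self, AltGeM_zero, Nat.descFactorial_self, AltGe_mom_even l hl,
        AltGec]
      have h3 : ((i.factorial : ℕ) : ℚ) ≠ 0 := by exact_mod_cast Nat.factorial_ne_zero i
      have h4 : (l : ℚ) ≠ 0 := by
        have : l ≠ 0 := by omega
        exact_mod_cast this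
      rw [mul_pow, pow_mul' (l : ℚ) 2 i]
      field_simp
    · rw [if_neg h]
      rcases Nat.lt_or_gt_of_ne h with h' | h'
      · rw [Nat.descFactorial_eq_zero_iff_lt.mpr h']
        simp
      · have : AltGeM S l (μ l - 2 * i) = 0 := by
          have h5 : 0 < μ l - 2 * i := by omega
          simp only [AltGeM, if_neg hS, momo]
          rw [if_pos ⟨hl, h5⟩]
        rw [this]
        ring
  rw [Finset.sum_congr rfl fun i _ => e3 i]
  rcases Nat.even_or_odd' (μ l) with ⟨b, hb | hb⟩
  · rw [Finset.sum_eq_single_of_mem b (Finset.mem_range.mpr (by omega))]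
    · rw [if_pos hb]
    · intro i _ hi
      rw [if_neg (by omega)]
  · rw [Finset.sum_eq_zero (fun i _ => if_neg (by omega)), hb, AltGe_mom_odd l hl]
    ring

theorem AltGe_DD_iter_add (l : ℕ) (F G : MvPolynomial ℕ ℚ) : ∀ r : ℕ,
    (DD l)^[r] (F + G) = (DD l)^[r] F + (DD l)^[r] G := by
  intro r
  induction r with
  | zero => rfl
  | succ r ih =>
    rw [Function.iterate_succ_apply', Function.iterate_succ_apply', Function.iterate_succ_apply',
      ih, DD_add]

theorem AltGe_exp (S : Finset ℕ) (l : ℕ) (hl : l % 2 = 0) (hl2 : 2 ≤ l) (hS : l ∉ S)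
    (F : MvPolynomial ℕ ℚ) : ∃ N0 : ℕ, ∀ N, N0 ≤ N →
    Lf (AltGeM (insert l S)) F =
      ∑ i ∈ range N, AltGec l i * Lf (AltGeM S) ((DD l)^[2 * i] F) := by
  induction F using MvPolynomial.induction_on' with
  | monomial μ c =>
    refine ⟨μ l + 1, fun N hN => AltGe_exp_mono S l hl hl2 hS μ c N (by omega)⟩
  | add p q hp hq =>
    obtain ⟨N1, h1⟩ := hp
    obtain ⟨N2, h2⟩ := hq
    refine ⟨max N1 N2, fun N hN => ?_⟩
    rw [map_add, h1 N (le_trans (le_max_left _ _) hN), h2 N (le_trans (le_max_right _ _) hN),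
      ← Finset.sum_add_distrib]
    apply Finset.sum_congr rfl
    intro i _
    rw [AltGe_DD_iter_add, map_add]
    ring

theorem AltGe_DD_zero (l : ℕ) (r : ℕ) : (DD l)^[r] 0 = 0 := by
  induction r with
  | zero => rfl
  | succ r ih => rw [Function.iterate_succ_apply', ih, DD, map_zero, smul_zero]

theorem AltGe_iter_smul (l : ℕ) (c : ℚ) (F : MvPolynomial ℕ ℚ) (r : ℕ) :
    (DD l)^[r] (c • F) = c • (DD l)^[r] F := by
  induction r with
  | zero => rfl
  | succ r ih => rw [Function.iterate_succ_apply', Function.iterate_succ_apply', ih, DD_smul]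

/-- two steps of the derivation on an alternating word with an odd number of letters -/
theorem AltGe_two (hDD : P_alt_DD) (l : ℕ) (hl : l % 2 = 0) (hl2 : 2 ≤ l) (k : ℕ)
    (hk : k % 2 = 1) :
    (DD l)^[2] (rib hh 1 (altw k true)) =
      if 2 * l < k + 1 then rib hh 1 (altw (k - 2 * l) true) else if 2 * l = k + 1 then 1 else 0 := by
  have hk0 : ¬ (k % 2 = 0) := by omega
  show DD l (DD l (rib hh 1 (altw k true))) = _
  rw [hDD k l hl hl2, if_neg hk0]
  have hs : ((-1 : ℚ) ^ (l / 2)) * ((-1 : ℚ) ^ (l / 2)) = 1 := by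
    rw [← mul_pow]; norm_num
  by_cases h1 : l < k + 1
  · rw [if_pos h1, DD_smul, hDD (k - l) l hl hl2, if_neg (by omega)]
    by_cases h2 : 2 * l < k + 1
    · rw [if_pos h2, if_pos (by omega), smul_smul, hs, one_smul]
      congr 2
      omega
    · rw [if_neg h2, if_neg (by omega)]
      by_cases h3 : 2 * l = k + 1
      · rw [if_pos h3, if_pos (by omega), smul_smul, hs, one_smul]
      · rw [if_neg h3, if_neg (by omega), smul_zero]
  · rw [if_neg h1, if_neg (by omega : ¬ 2 * l < k + 1), if_neg (by omega : ¬ 2 * l = k + 1)]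
    by_cases h2 : l = k + 1
    · rw [if_pos h2, DD_smul]
      have : DD l (1 : MvPolynomial ℕ ℚ) = 0 := by
        rw [← C_1]
        exact DD_C l 1
      rw [this, smul_zero]
    · rw [if_neg h2, DD, map_zero, smul_zero]

theorem AltGe_many (hDD : P_alt_DD) (l : ℕ) (hl : l % 2 = 0) (hl2 : 2 ≤ l) (L : MvPolynomial ℕ ℚ → ℚ)
    (h0 : L 0 = 0) (h1 : 0 ≤ L 1) (hL : ∀ k, k % 2 = 1 → 0 ≤ L (rib hh 1 (altw k true))) :
    ∀ (i k : ℕ), k % 2 = 1 → 0 ≤ L ((DD l)^[2 * i] (rib hh 1 (altw k true))) := by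
  intro i
  induction i with
  | zero => intro k hk; exact hL k hk
  | succ i ih =>
    intro k hk
    have e : (DD l)^[2 * (i + 1)] (rib hh 1 (altw k true)) =
        (DD l)^[2 * i] ((DD l)^[2] (rib hh 1 (altw k true))) := by
      rw [← Function.iterate_add_apply]
      congr 1
    rw [e, AltGe_two hDD l hl hl2 k hk]
    split_ifs with h1' h2'
    · exact ih _ (by omega)
    · cases i with
      | zero => exact h1
      | succ i =>
        have : (DD l)^[2 * (i + 1)] (1 : MvPolynomial ℕ ℚ) = 0 := by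
          have e2 : 2 * (i + 1) = (2 * i + 1) + 1 := by ring
          rw [e2, Function.iterate_succ_apply]
          have : DD l (1 : MvPolynomial ℕ ℚ) = 0 := by
            rw [← C_1]
            exact DD_C l 1
          rw [this, AltGe_DD_zero]
        rw [this, h0]
    · rw [AltGe_DD_zero, h0]

theorem AltGe_c_nonneg (l i : ℕ) : 0 ≤ AltGec l i := by
  unfold AltGec
  positivity

theorem AltGe_one (S : Finset ℕ) : Lf (AltGeM S) 1 = 1 := by
  have : (1 : MvPolynomial ℕ ℚ) = monomial 0 1 := rfl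
  rw [this, Lf_monomial]; simp

theorem AltGe_S (hDD : P_alt_DD) (hE : ∀ j, j % 2 = 1 → 0 ≤ Eo (rib hh 1 (altw j true)))
    (S : Finset ℕ) : (∀ l ∈ S, l % 2 = 0 ∧ 2 ≤ l) → ∀ k : ℕ,
    Eo (rib hh 1 (altw k true)) ≤ Lf (AltGeM S) (rib hh 1 (altw k true)) := by
  induction S using Finset.induction_on with
  | empty =>
    intro _ k
    have : AltGeM ∅ = momo := by
      ext j c
      simp [AltGeM]
    rw [this]
    exact le_refl _
  | insert l S hlS ih =>
    intro hS k
    have hl := hS l (Finset.mem_insert_self _ _)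
    have ih' := ih fun j hj => hS j (Finset.mem_insert_of_mem hj)
    obtain ⟨N0, hN⟩ := AltGe_exp S l hl.1 hl.2 hlS (rib hh 1 (altw k true))
    have h1 := hN (N0 + 1) (by omega)
    rw [h1, Finset.sum_range_succ']
    have e0 : AltGec l 0 * Lf (AltGeM S) ((DD l)^[2 * 0] (rib hh 1 (altw k true))) =
        Lf (AltGeM S) (rib hh 1 (altw k true)) := by
      simp [AltGec]
    rw [e0]
    have hpos : 0 ≤ ∑ i ∈ range N0, AltGec l (i + 1) *
        Lf (AltGeM S) ((DD l)^[2 * (i + 1)] (rib hh 1 (altw k true))) := by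
      apply Finset.sum_nonneg
      intro i _
      apply mul_nonneg (AltGe_c_nonneg _ _)
      by_cases hk : k % 2 = 1
      · exact AltGe_many hDD l hl.1 hl.2 (fun F => Lf (AltGeM S) F) (map_zero _)
          (by rw [AltGe_one]; norm_num) (fun j hj => (hE j hj).trans (ih' j)) (i + 1) k hk
      · have hk' : k % 2 = 0 := by omega
        have : (DD l)^[2 * (i + 1)] (rib hh 1 (altw k true)) = 0 := by
          have e2 : 2 * (i + 1) = (2 * i + 1) + 1 := by ring
          rw [e2, Function.iterate_succ_apply, hDD k l hl.1 hl.2, if_pos hk', AltGe_DD_zero]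
        rw [this, map_zero]
    linarith [ih' k]

theorem p_alt_ge (hDD : P_alt_DD) (hvars : P_vars) : P_alt_ge := by
  intro k hE
  let S : Finset ℕ := (Finset.range (k + 2)).filter fun l => l % 2 = 0 ∧ 2 ≤ l
  have h := AltGe_S hDD hE S (fun l hl => (Finset.mem_filter.mp hl).2) k
  have h2 : Lf (AltGeM S) (rib hh 1 (altw k true)) = E (rib hh 1 (altw k true)) := by
    apply AltGe_Lf_congr _ _ _ _ _ _ (AltGe_supp (altw k true))
    · intro j
      rw [AltGeM_zero, mom_zero]
    · intro j hj c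
      rw [altw_length, Set.mem_Icc] at hj
      by_cases hjS : j ∈ S
      · simp [AltGeM, hjS]
      · have : ¬ (j % 2 = 0) := by
          intro h0
          apply hjS
          rw [Finset.mem_filter, Finset.mem_range]
          omega
        simp only [AltGeM, if_neg hjS, momo]
        rw [if_neg (by tauto)]
  rw [← h2]
  exact h

end Pool.Agent.Lib.MP_c22e22_co.V
end
end
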