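import Pool.Agent.Lib.MP_c22e22_co.V.Props

open MvPolynomial Finset

namespace Pool.Agent.Lib.MP_c22e22_co.V

theorem BaseVal_recE (h1 : P_xE_rec) (m n : ℕ) (a b c : ℚ) (ha : xE (m + 1) n = a)
    (hb : xE m (n + 1) = b) (hc : xE (m - 1) n = c) :
    xE (m + 1) (n + 2) = (n * a + (m + 1) * (b + m * c)) / (n + 2) := by
  have h := h1 m n
  have hn : (n : ℚ) + 2 ≠ 0 := by positivity
  rw [eq_div_iff hn, mul_comm, h, ha, hb, hc]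

theorem BaseVal_recO (h1 : P_xO_rec) (m n : ℕ) (a b c d : ℚ) (ha : xO (m + 1) n = a)
    (hb : xO m (n + 3) = b) (hc : xO m (n + 1) = c) (hd : xO (m - 1) (n + 2) = d) :
    xO (m + 1) (n + 4) = (n * a + (m + 1) * (b + c + m * d)) / (n + 4) := by
  have h := h1 m n
  have hn : (n : ℚ) + 4 ≠ 0 := by positivity
  rw [eq_div_iff hn, mul_comm, h, ha, hb, hc, hd]

theorem BaseVal_mom : mom 1 0 = 1 ∧ mom 1 1 = 1 ∧ mom 1 2 = 2 ∧ mom 1 3 = 4 ∧ mom 1 4 = 10 ∧ mom 1 5 = 26 ∧ mom 1 6 = 76 ∧ mom 1 7 = 232 ∧ mom 1 8 = 764 ∧ mom 1 9 = 2620 ∧ mom 1 10 = 9496 ∧ mom 1 11 = 35696 ∧ mom 1 12 = 140152 ∧ mom 1 13 = 568504 ∧ mom 1 14 = 2390480 ∧ mom 1 15 = 10349536 ∧ mom 1 16 = 46206736 ∧ mom 1 17 = 211799312 ∧ mom 1 18 = 997313824 ∧ mom 1 19 = 4809701440 ∧ mom 1 20 = 23758664096 ∧ mom 1 21 = 119952692896 ∧ mom 1 22 = 618884638912 ∧ mom 1 23 = 3257843882624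 ∧ mom 1 24 = 17492190577600 ∧ mom 1 25 = 95680443760576 := by
  refine ⟨?_, ?_, ?_, ?_, ?_, ?_, ?_, ?_, ?_, ?_, ?_, ?_, ?_, ?_, ?_, ?_, ?_, ?_, ?_, ?_, ?_, ?_, ?_, ?_, ?_, ?_⟩ <;> norm_num [mom]

theorem BaseVal_Eo (h2 : P_x_basic) (m n : ℕ) (h : n < m) : xE m n = 0 :=
  h2.2.2.2.2.2.2.1 m n h

theorem BaseVal_Oo (h2 : P_x_basic) (m n : ℕ) (h : n < m) : xO m n = 0 :=
  h2.2.2.2.2.2.2.2.1 m n h

theorem BaseVal_E_0_0 (h1 : P_xE_rec) (h2 : P_x_basic) : xE 0 0 = 1 := by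
  rw [h2.1 0]; norm_num [mom]

theorem BaseVal_E_1_1 (h1 : P_xE_rec) (h2 : P_x_basic) : xE 1 1 = 1 := by
  rw [h2.1 1]; norm_num [mom]

theorem BaseVal_E_0_2 (h1 : P_xE_rec) (h2 : P_x_basic) : xE 0 2 = 0 := h2.2.2.2.2.2.2.2.2.1 2 (by norm_num)
theorem BaseVal_E_2_2 (h1 : P_xE_rec) (h2 : P_x_basic) : xE 2 2 = 2 := by
  refine (BaseVal_recE h1 1 0 _ _ _ (BaseVal_Eo h2 _ _ (by norm_num)) (BaseVal_E_1_1 h1 h2) (BaseVal_E_0_0 h1 h2)).trans ?_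
  norm_num

theorem BaseVal_E_1_3 (h1 : P_xE_rec) (h2 : P_x_basic) : xE 1 3 = 1 / 3 := by
  refine (BaseVal_recE h1 0 1 _ _ _ (BaseVal_E_1_1 h1 h2) (BaseVal_E_0_2 h1 h2) rfl).trans ?_
  norm_num
theorem BaseVal_E_3_3 (h1 : P_xE_rec) (h2 : P_x_basic) : xE 3 3 = 4 := by
  refine (BaseVal_recE h1 2 1 _ _ _ (BaseVal_Eo h2 _ _ (by norm_num)) (BaseVal_E_2_2 h1 h2) (BaseVal_E_1_1 h1 h2)).trans ?_
  norm_num

theorem BaseVal_E_0_4 (h1 : P_xE_rec) (h2 : P_x_basic) : xE 0 4 = 0 := h2.2.2.2.2.2.2.2.2.1 4 (by norm_num)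
theorem BaseVal_E_2_4 (h1 : P_xE_rec) (h2 : P_x_basic) : xE 2 4 = 7 / 6 := by
  refine (BaseVal_recE h1 1 2 _ _ _ (BaseVal_E_2_2 h1 h2) (BaseVal_E_1_3 h1 h2) (BaseVal_E_0_2 h1 h2)).trans ?_
  norm_num
theorem BaseVal_E_4_4 (h1 : P_xE_rec) (h2 : P_x_basic) : xE 4 4 = 10 := by
  refine (BaseVal_recE h1 3 2 _ _ _ (BaseVal_Eo h2 _ _ (by norm_num)) (BaseVal_E_3_3 h1 h2) (BaseVal_E_2_2 h1 h2)).trans ?_
  norm_num

theorem BaseVal_E_1_5 (h1 : P_xE_rec) (h2 : P_x_basic) : xE 1 5 = 1 / 5 := by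
  refine (BaseVal_recE h1 0 3 _ _ _ (BaseVal_E_1_3 h1 h2) (BaseVal_E_0_4 h1 h2) rfl).trans ?_
  norm_num
theorem BaseVal_E_3_5 (h1 : P_xE_rec) (h2 : P_x_basic) : xE 3 5 = 7 / 2 := by
  refine (BaseVal_recE h1 2 3 _ _ _ (BaseVal_E_3_3 h1 h2) (BaseVal_E_2_4 h1 h2) (BaseVal_E_1_3 h1 h2)).trans ?_
  norm_num
theorem BaseVal_E_5_5 (h1 : P_xE_rec) (h2 : P_x_basic) : xE 5 5 = 26 := by
  refine (BaseVal_recE h1 4 3 _ _ _ (BaseVal_Eo h2 _ _ (by norm_num)) (BaseVal_E_4_4 h1 h2) (BaseVal_E_3_3 h1 h2)).trans ?_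
  norm_num

theorem BaseVal_E_0_6 (h1 : P_xE_rec) (h2 : P_x_basic) : xE 0 6 = 0 := h2.2.2.2.2.2.2.2.2.1 6 (by norm_num)
theorem BaseVal_E_2_6 (h1 : P_xE_rec) (h2 : P_x_basic) : xE 2 6 = 38 / 45 := by
  refine (BaseVal_recE h1 1 4 _ _ _ (BaseVal_E_2_4 h1 h2) (BaseVal_E_1_5 h1 h2) (BaseVal_E_0_4 h1 h2)).trans ?_
  norm_num
theorem BaseVal_E_4_6 (h1 : P_xE_rec) (h2 : P_x_basic) : xE 4 6 = 34 / 3 := by
  refine (BaseVal_recE h1 3 4 _ _ _ (BaseVal_E_4_4 h1 h2) (BaseVal_E_3_5 h1 h2) (BaseVal_E_2_4 h1 h2)).trans ?_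
  norm_num
theorem BaseVal_E_6_6 (h1 : P_xE_rec) (h2 : P_x_basic) : xE 6 6 = 76 := by
  refine (BaseVal_recE h1 5 4 _ _ _ (BaseVal_Eo h2 _ _ (by norm_num)) (BaseVal_E_5_5 h1 h2) (BaseVal_E_4_4 h1 h2)).trans ?_
  norm_num

theorem BaseVal_E_1_7 (h1 : P_xE_rec) (h2 : P_x_basic) : xE 1 7 = 1 / 7 := by
  refine (BaseVal_recE h1 0 5 _ _ _ (BaseVal_E_1_5 h1 h2) (BaseVal_E_0_6 h1 h2) rfl).trans ?_
  norm_num
theorem BaseVal_E_3_7 (h1 : P_xE_rec) (h2 : P_x_basic) : xE 3 7 = 91 / 30 := by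
  refine (BaseVal_recE h1 2 5 _ _ _ (BaseVal_E_3_5 h1 h2) (BaseVal_E_2_6 h1 h2) (BaseVal_E_1_5 h1 h2)).trans ?_
  norm_num
theorem BaseVal_E_5_7 (h1 : P_xE_rec) (h2 : P_x_basic) : xE 5 7 = 110 / 3 := by
  refine (BaseVal_recE h1 4 5 _ _ _ (BaseVal_E_5_5 h1 h2) (BaseVal_E_4_6 h1 h2) (BaseVal_E_3_5 h1 h2)).trans ?_
  norm_num
theorem BaseVal_E_7_7 (h1 : P_xE_rec) (h2 : P_x_basic) : xE 7 7 = 232 := by
  refine (BaseVal_recE h1 6 5 _ _ _ (BaseVal_Eo h2 _ _ (by norm_num)) (BaseVal_E_6_6 h1 h2) (BaseVal_E_5_5 h1 h2)).trans ?_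
  norm_num

theorem BaseVal_E_0_8 (h1 : P_xE_rec) (h2 : P_x_basic) : xE 0 8 = 0 := h2.2.2.2.2.2.2.2.2.1 8 (by norm_num)
theorem BaseVal_E_2_8 (h1 : P_xE_rec) (h2 : P_x_basic) : xE 2 8 = 281 / 420 := by
  refine (BaseVal_recE h1 1 6 _ _ _ (BaseVal_E_2_6 h1 h2) (BaseVal_E_1_7 h1 h2) (BaseVal_E_0_6 h1 h2)).trans ?_
  norm_num
theorem BaseVal_E_4_8 (h1 : P_xE_rec) (h2 : P_x_basic) : xE 4 8 = 677 / 60 := by
  refine (BaseVal_recE h1 3 6 _ _ _ (BaseVal_E_4_6 h1 h2) (BaseVal_E_3_7 h1 h2) (BaseVal_E_2_6 h1 h2)).trans ?_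
  norm_num
theorem BaseVal_E_6_8 (h1 : P_xE_rec) (h2 : P_x_basic) : xE 6 8 = 127 := by
  refine (BaseVal_recE h1 5 6 _ _ _ (BaseVal_E_6_6 h1 h2) (BaseVal_E_5_7 h1 h2) (BaseVal_E_4_6 h1 h2)).trans ?_
  norm_num
theorem BaseVal_E_8_8 (h1 : P_xE_rec) (h2 : P_x_basic) : xE 8 8 = 764 := by
  refine (BaseVal_recE h1 7 6 _ _ _ (BaseVal_Eo h2 _ _ (by norm_num)) (BaseVal_E_7_7 h1 h2) (BaseVal_E_6_6 h1 h2)).trans ?_
  norm_num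

theorem BaseVal_E_1_9 (h1 : P_xE_rec) (h2 : P_x_basic) : xE 1 9 = 1 / 9 := by
  refine (BaseVal_recE h1 0 7 _ _ _ (BaseVal_E_1_7 h1 h2) (BaseVal_E_0_8 h1 h2) rfl).trans ?_
  norm_num
theorem BaseVal_E_3_9 (h1 : P_xE_rec) (h2 : P_x_basic) : xE 3 9 = 10121 / 3780 := by
  refine (BaseVal_recE h1 2 7 _ _ _ (BaseVal_E_3_7 h1 h2) (BaseVal_E_2_8 h1 h2) (BaseVal_E_1_7 h1 h2)).trans ?_
  norm_num
theorem BaseVal_E_5_9 (h1 : P_xE_rec) (h2 : P_x_basic) : xE 5 9 = 1495 / 36 := by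
  refine (BaseVal_recE h1 4 7 _ _ _ (BaseVal_E_5_7 h1 h2) (BaseVal_E_4_8 h1 h2) (BaseVal_E_3_7 h1 h2)).trans ?_
  norm_num
theorem BaseVal_E_7_9 (h1 : P_xE_rec) (h2 : P_x_basic) : xE 7 9 = 1351 / 3 := by
  refine (BaseVal_recE h1 6 7 _ _ _ (BaseVal_E_7_7 h1 h2) (BaseVal_E_6_8 h1 h2) (BaseVal_E_5_7 h1 h2)).trans ?_
  norm_num
theorem BaseVal_E_9_9 (h1 : P_xE_rec) (h2 : P_x_basic) : xE 9 9 = 2620 := by
  refine (BaseVal_recE h1 8 7 _ _ _ (BaseVal_Eo h2 _ _ (by norm_num)) (BaseVal_E_8_8 h1 h2) (BaseVal_E_7_7 h1 h2)).trans ?_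
  norm_num

theorem BaseVal_E_0_10 (h1 : P_xE_rec) (h2 : P_x_basic) : xE 0 10 = 0 := h2.2.2.2.2.2.2.2.2.1 10 (by norm_num)
theorem BaseVal_E_2_10 (h1 : P_xE_rec) (h2 : P_x_basic) : xE 2 10 = 878 / 1575 := by
  refine (BaseVal_recE h1 1 8 _ _ _ (BaseVal_E_2_8 h1 h2) (BaseVal_E_1_9 h1 h2) (BaseVal_E_0_8 h1 h2)).trans ?_
  norm_num
theorem BaseVal_E_4_10 (h1 : P_xE_rec) (h2 : P_x_basic) : xE 4 10 = 10301 / 945 := by
  refine (BaseVal_recE h1 3 8 _ _ _ (BaseVal_E_4_8 h1 h2) (BaseVal_E_3_9 h1 h2) (BaseVal_E_2_8 h1 h2)).trans ?_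
  norm_num
theorem BaseVal_E_6_10 (h1 : P_xE_rec) (h2 : P_x_basic) : xE 6 10 = 4811 / 30 := by
  refine (BaseVal_recE h1 5 8 _ _ _ (BaseVal_E_6_8 h1 h2) (BaseVal_E_5_9 h1 h2) (BaseVal_E_4_8 h1 h2)).trans ?_
  norm_num
theorem BaseVal_E_8_10 (h1 : P_xE_rec) (h2 : P_x_basic) : xE 8 10 = 5048 / 3 := by
  refine (BaseVal_recE h1 7 8 _ _ _ (BaseVal_E_8_8 h1 h2) (BaseVal_E_7_9 h1 h2) (BaseVal_E_6_8 h1 h2)).trans ?_
  norm_num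
theorem BaseVal_E_10_10 (h1 : P_xE_rec) (h2 : P_x_basic) : xE 10 10 = 9496 := by
  refine (BaseVal_recE h1 9 8 _ _ _ (BaseVal_Eo h2 _ _ (by norm_num)) (BaseVal_E_9_9 h1 h2) (BaseVal_E_8_8 h1 h2)).trans ?_
  norm_num

theorem BaseVal_E_1_11 (h1 : P_xE_rec) (h2 : P_x_basic) : xE 1 11 = 1 / 11 := by
  refine (BaseVal_recE h1 0 9 _ _ _ (BaseVal_E_1_9 h1 h2) (BaseVal_E_0_10 h1 h2) rfl).trans ?_
  norm_num
theorem BaseVal_E_3_11 (h1 : P_xE_rec) (h2 : P_x_basic) : xE 3 11 = 721 / 300 := by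
  refine (BaseVal_recE h1 2 9 _ _ _ (BaseVal_E_3_9 h1 h2) (BaseVal_E_2_10 h1 h2) (BaseVal_E_1_9 h1 h2)).trans ?_
  norm_num
theorem BaseVal_E_5_11 (h1 : P_xE_rec) (h2 : P_x_basic) : xE 5 11 = 33113 / 756 := by
  refine (BaseVal_recE h1 4 9 _ _ _ (BaseVal_E_5_9 h1 h2) (BaseVal_E_4_10 h1 h2) (BaseVal_E_3_9 h1 h2)).trans ?_
  norm_num
theorem BaseVal_E_7_11 (h1 : P_xE_rec) (h2 : P_x_basic) : xE 7 11 = 9436 / 15 := by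
  refine (BaseVal_recE h1 6 9 _ _ _ (BaseVal_E_7_9 h1 h2) (BaseVal_E_6_10 h1 h2) (BaseVal_E_5_9 h1 h2)).trans ?_
  norm_num
theorem BaseVal_E_9_11 (h1 : P_xE_rec) (h2 : P_x_basic) : xE 9 11 = 6468 := by
  refine (BaseVal_recE h1 8 9 _ _ _ (BaseVal_E_9_9 h1 h2) (BaseVal_E_8_10 h1 h2) (BaseVal_E_7_9 h1 h2)).trans ?_
  norm_num
theorem BaseVal_E_11_11 (h1 : P_xE_rec) (h2 : P_x_basic) : xE 11 11 = 35696 := by
  refine (BaseVal_recE h1 10 9 _ _ _ (BaseVal_Eo h2 _ _ (by norm_num)) (BaseVal_E_10_10 h1 h2) (BaseVal_E_9_9 h1 h2)).trans ?_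
  norm_num

theorem BaseVal_E_0_12 (h1 : P_xE_rec) (h2 : P_x_basic) : xE 0 12 = 0 := h2.2.2.2.2.2.2.2.2.1 12 (by norm_num)
theorem BaseVal_E_2_12 (h1 : P_xE_rec) (h2 : P_x_basic) : xE 2 12 = 9973 / 20790 := by
  refine (BaseVal_recE h1 1 10 _ _ _ (BaseVal_E_2_10 h1 h2) (BaseVal_E_1_11 h1 h2) (BaseVal_E_0_10 h1 h2)).trans ?_
  norm_num
theorem BaseVal_E_4_12 (h1 : P_xE_rec) (h2 : P_x_basic) : xE 4 12 = 84583 / 8100 := by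
  refine (BaseVal_recE h1 3 10 _ _ _ (BaseVal_E_4_10 h1 h2) (BaseVal_E_3_11 h1 h2) (BaseVal_E_2_10 h1 h2)).trans ?_
  norm_num
theorem BaseVal_E_6_12 (h1 : P_xE_rec) (h2 : P_x_basic) : xE 6 12 = 276379 / 1512 := by
  refine (BaseVal_recE h1 5 10 _ _ _ (BaseVal_E_6_10 h1 h2) (BaseVal_E_5_11 h1 h2) (BaseVal_E_4_10 h1 h2)).trans ?_
  norm_num
theorem BaseVal_E_8_12 (h1 : P_xE_rec) (h2 : P_x_basic) : xE 8 12 = 115649 / 45 := by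
  refine (BaseVal_recE h1 7 10 _ _ _ (BaseVal_E_8_10 h1 h2) (BaseVal_E_7_11 h1 h2) (BaseVal_E_6_10 h1 h2)).trans ?_
  norm_num
theorem BaseVal_E_10_12 (h1 : P_xE_rec) (h2 : P_x_basic) : xE 10 12 = 77770 / 3 := by
  refine (BaseVal_recE h1 9 10 _ _ _ (BaseVal_E_10_10 h1 h2) (BaseVal_E_9_11 h1 h2) (BaseVal_E_8_10 h1 h2)).trans ?_
  norm_num
theorem BaseVal_E_12_12 (h1 : P_xE_rec) (h2 : P_x_basic) : xE 12 12 = 140152 := by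
  refine (BaseVal_recE h1 11 10 _ _ _ (BaseVal_Eo h2 _ _ (by norm_num)) (BaseVal_E_11_11 h1 h2) (BaseVal_E_10_10 h1 h2)).trans ?_
  norm_num

theorem BaseVal_E_1_13 (h1 : P_xE_rec) (h2 : P_x_basic) : xE 1 13 = 1 / 13 := by
  refine (BaseVal_recE h1 0 11 _ _ _ (BaseVal_E_1_11 h1 h2) (BaseVal_E_0_12 h1 h2) rfl).trans ?_
  norm_num
theorem BaseVal_E_3_13 (h1 : P_xE_rec) (h2 : P_x_basic) : xE 3 13 = 151507 / 69300 := by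
  refine (BaseVal_recE h1 2 11 _ _ _ (BaseVal_E_3_11 h1 h2) (BaseVal_E_2_12 h1 h2) (BaseVal_E_1_11 h1 h2)).trans ?_
  norm_num
theorem BaseVal_E_5_13 (h1 : P_xE_rec) (h2 : P_x_basic) : xE 5 13 = 253877 / 5670 := by
  refine (BaseVal_recE h1 4 11 _ _ _ (BaseVal_E_5_11 h1 h2) (BaseVal_E_4_12 h1 h2) (BaseVal_E_3_11 h1 h2)).trans ?_
  norm_num
theorem BaseVal_E_7_13 (h1 : P_xE_rec) (h2 : P_x_basic) : xE 7 13 = 833999 / 1080 := by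
  refine (BaseVal_recE h1 6 11 _ _ _ (BaseVal_E_7_11 h1 h2) (BaseVal_E_6_12 h1 h2) (BaseVal_E_5_11 h1 h2)).trans ?_
  norm_num
theorem BaseVal_E_9_13 (h1 : P_xE_rec) (h2 : P_x_basic) : xE 9 13 = 53681 / 5 := by
  refine (BaseVal_recE h1 8 11 _ _ _ (BaseVal_E_9_11 h1 h2) (BaseVal_E_8_12 h1 h2) (BaseVal_E_7_11 h1 h2)).trans ?_
  norm_num
theorem BaseVal_E_11_13 (h1 : P_xE_rec) (h2 : P_x_basic) : xE 11 13 = 320606 / 3 := by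
  refine (BaseVal_recE h1 10 11 _ _ _ (BaseVal_E_11_11 h1 h2) (BaseVal_E_10_12 h1 h2) (BaseVal_E_9_11 h1 h2)).trans ?_
  norm_num
theorem BaseVal_E_13_13 (h1 : P_xE_rec) (h2 : P_x_basic) : xE 13 13 = 568504 := by
  refine (BaseVal_recE h1 12 11 _ _ _ (BaseVal_Eo h2 _ _ (by norm_num)) (BaseVal_E_12_12 h1 h2) (BaseVal_E_11_11 h1 h2)).trans ?_
  norm_num

theorem BaseVal_E_0_14 (h1 : P_xE_rec) (h2 : P_x_basic) : xE 0 14 = 0 := h2.2.2.2.2.2.2.2.2.1 14 (by norm_num)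
theorem BaseVal_E_2_14 (h1 : P_xE_rec) (h2 : P_x_basic) : xE 2 14 = 133114 / 315315 := by
  refine (BaseVal_recE h1 1 12 _ _ _ (BaseVal_E_2_12 h1 h2) (BaseVal_E_1_13 h1 h2) (BaseVal_E_0_12 h1 h2)).trans ?_
  norm_num
theorem BaseVal_E_4_14 (h1 : P_xE_rec) (h2 : P_x_basic) : xE 4 14 = 74149 / 7425 := by
  refine (BaseVal_recE h1 3 12 _ _ _ (BaseVal_E_4_12 h1 h2) (BaseVal_E_3_13 h1 h2) (BaseVal_E_2_12 h1 h2)).trans ?_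
  norm_num
theorem BaseVal_E_6_14 (h1 : P_xE_rec) (h2 : P_x_basic) : xE 6 14 = 37468 / 189 := by
  refine (BaseVal_recE h1 5 12 _ _ _ (BaseVal_E_6_12 h1 h2) (BaseVal_E_5_13 h1 h2) (BaseVal_E_4_12 h1 h2)).trans ?_
  norm_num
theorem BaseVal_E_8_14 (h1 : P_xE_rec) (h2 : P_x_basic) : xE 8 14 = 3189629 / 945 := by
  refine (BaseVal_recE h1 7 12 _ _ _ (BaseVal_E_8_12 h1 h2) (BaseVal_E_7_13 h1 h2) (BaseVal_E_6_12 h1 h2)).trans ?_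
  norm_num
theorem BaseVal_E_10_14 (h1 : P_xE_rec) (h2 : P_x_basic) : xE 10 14 = 46410 := by
  refine (BaseVal_recE h1 9 12 _ _ _ (BaseVal_E_10_12 h1 h2) (BaseVal_E_9_13 h1 h2) (BaseVal_E_8_12 h1 h2)).trans ?_
  norm_num
theorem BaseVal_E_12_14 (h1 : P_xE_rec) (h2 : P_x_basic) : xE 12 14 = 456152 := by
  refine (BaseVal_recE h1 11 12 _ _ _ (BaseVal_E_12_12 h1 h2) (BaseVal_E_11_13 h1 h2) (BaseVal_E_10_12 h1 h2)).trans ?_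
  norm_num
theorem BaseVal_E_14_14 (h1 : P_xE_rec) (h2 : P_x_basic) : xE 14 14 = 2390480 := by
  refine (BaseVal_recE h1 13 12 _ _ _ (BaseVal_Eo h2 _ _ (by norm_num)) (BaseVal_E_13_13 h1 h2) (BaseVal_E_12_12 h1 h2)).trans ?_
  norm_num

theorem BaseVal_E_1_15 (h1 : P_xE_rec) (h2 : P_x_basic) : xE 1 15 = 1 / 15 := by
  refine (BaseVal_recE h1 0 13 _ _ _ (BaseVal_E_1_13 h1 h2) (BaseVal_E_0_14 h1 h2) rfl).trans ?_
  norm_num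
theorem BaseVal_E_3_15 (h1 : P_xE_rec) (h2 : P_x_basic) : xE 3 15 = 190130221 / 94594500 := by
  refine (BaseVal_recE h1 2 13 _ _ _ (BaseVal_E_3_13 h1 h2) (BaseVal_E_2_14 h1 h2) (BaseVal_E_1_13 h1 h2)).trans ?_
  norm_num
theorem BaseVal_E_5_15 (h1 : P_xE_rec) (h2 : P_x_basic) : xE 5 15 = 8429159 / 187110 := by
  refine (BaseVal_recE h1 4 13 _ _ _ (BaseVal_E_5_13 h1 h2) (BaseVal_E_4_14 h1 h2) (BaseVal_E_3_13 h1 h2)).trans ?_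
  norm_num
theorem BaseVal_E_7_15 (h1 : P_xE_rec) (h2 : P_x_basic) : xE 7 15 = 14371723 / 16200 := by
  refine (BaseVal_recE h1 6 13 _ _ _ (BaseVal_E_7_13 h1 h2) (BaseVal_E_6_14 h1 h2) (BaseVal_E_5_13 h1 h2)).trans ?_
  norm_num
theorem BaseVal_E_9_15 (h1 : P_xE_rec) (h2 : P_x_basic) : xE 9 15 = 4736507 / 315 := by
  refine (BaseVal_recE h1 8 13 _ _ _ (BaseVal_E_9_13 h1 h2) (BaseVal_E_8_14 h1 h2) (BaseVal_E_7_13 h1 h2)).trans ?_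
  norm_num
theorem BaseVal_E_11_15 (h1 : P_xE_rec) (h2 : P_x_basic) : xE 11 15 = 9242354 / 45 := by
  refine (BaseVal_recE h1 10 13 _ _ _ (BaseVal_E_11_13 h1 h2) (BaseVal_E_10_14 h1 h2) (BaseVal_E_9_13 h1 h2)).trans ?_
  norm_num
theorem BaseVal_E_13_15 (h1 : P_xE_rec) (h2 : P_x_basic) : xE 13 15 = 5998408 / 3 := by
  refine (BaseVal_recE h1 12 13 _ _ _ (BaseVal_E_13_13 h1 h2) (BaseVal_E_12_14 h1 h2) (BaseVal_E_11_13 h1 h2)).trans ?_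
  norm_num
theorem BaseVal_E_15_15 (h1 : P_xE_rec) (h2 : P_x_basic) : xE 15 15 = 10349536 := by
  refine (BaseVal_recE h1 14 13 _ _ _ (BaseVal_Eo h2 _ _ (by norm_num)) (BaseVal_E_14_14 h1 h2) (BaseVal_E_13_13 h1 h2)).trans ?_
  norm_num

theorem BaseVal_E_0_16 (h1 : P_xE_rec) (h2 : P_x_basic) : xE 0 16 = 0 := h2.2.2.2.2.2.2.2.2.1 16 (by norm_num)
theorem BaseVal_E_2_16 (h1 : P_xE_rec) (h2 : P_x_basic) : xE 2 16 = 136117 / 360360 := by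
  refine (BaseVal_recE h1 1 14 _ _ _ (BaseVal_E_2_14 h1 h2) (BaseVal_E_1_15 h1 h2) (BaseVal_E_0_14 h1 h2)).trans ?_
  norm_num
theorem BaseVal_E_4_16 (h1 : P_xE_rec) (h2 : P_x_basic) : xE 4 16 = 3616236731 / 378378000 := by
  refine (BaseVal_recE h1 3 14 _ _ _ (BaseVal_E_4_14 h1 h2) (BaseVal_E_3_15 h1 h2) (BaseVal_E_2_14 h1 h2)).trans ?_
  norm_num
theorem BaseVal_E_6_16 (h1 : P_xE_rec) (h2 : P_x_basic) : xE 6 16 = 104323013 / 498960 := by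
  refine (BaseVal_recE h1 5 14 _ _ _ (BaseVal_E_6_14 h1 h2) (BaseVal_E_5_15 h1 h2) (BaseVal_E_4_14 h1 h2)).trans ?_
  norm_num
theorem BaseVal_E_8_16 (h1 : P_xE_rec) (h2 : P_x_basic) : xE 8 16 = 132541393 / 32400 := by
  refine (BaseVal_recE h1 7 14 _ _ _ (BaseVal_E_8_14 h1 h2) (BaseVal_E_7_15 h1 h2) (BaseVal_E_6_14 h1 h2)).trans ?_
  norm_num
theorem BaseVal_E_10_16 (h1 : P_xE_rec) (h2 : P_x_basic) : xE 10 16 = 8693051 / 126 := by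
  refine (BaseVal_recE h1 9 14 _ _ _ (BaseVal_E_10_14 h1 h2) (BaseVal_E_9_15 h1 h2) (BaseVal_E_8_14 h1 h2)).trans ?_
  norm_num
theorem BaseVal_E_12_16 (h1 : P_xE_rec) (h2 : P_x_basic) : xE 12 16 = 14040821 / 15 := by
  refine (BaseVal_recE h1 11 14 _ _ _ (BaseVal_E_12_14 h1 h2) (BaseVal_E_11_15 h1 h2) (BaseVal_E_10_14 h1 h2)).trans ?_
  norm_num
theorem BaseVal_E_14_16 (h1 : P_xE_rec) (h2 : P_x_basic) : xE 14 16 = 27089804 / 3 := by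
  refine (BaseVal_recE h1 13 14 _ _ _ (BaseVal_E_14_14 h1 h2) (BaseVal_E_13_15 h1 h2) (BaseVal_E_12_14 h1 h2)).trans ?_
  norm_num
theorem BaseVal_E_16_16 (h1 : P_xE_rec) (h2 : P_x_basic) : xE 16 16 = 46206736 := by
  refine (BaseVal_recE h1 15 14 _ _ _ (BaseVal_Eo h2 _ _ (by norm_num)) (BaseVal_E_15_15 h1 h2) (BaseVal_E_14_14 h1 h2)).trans ?_
  norm_num

theorem BaseVal_E_1_17 (h1 : P_xE_rec) (h2 : P_x_basic) : xE 1 17 = 1 / 17 := by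
  refine (BaseVal_recE h1 0 15 _ _ _ (BaseVal_E_1_15 h1 h2) (BaseVal_E_0_16 h1 h2) rfl).trans ?_
  norm_num
theorem BaseVal_E_3_17 (h1 : P_xE_rec) (h2 : P_x_basic) : xE 3 17 = 23505751 / 12612600 := by
  refine (BaseVal_recE h1 2 15 _ _ _ (BaseVal_E_3_15 h1 h2) (BaseVal_E_2_16 h1 h2) (BaseVal_E_1_15 h1 h2)).trans ?_
  norm_num
theorem BaseVal_E_5_17 (h1 : P_xE_rec) (h2 : P_x_basic) : xE 5 17 = 10199156153 / 227026800 := by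
  refine (BaseVal_recE h1 4 15 _ _ _ (BaseVal_E_5_15 h1 h2) (BaseVal_E_4_16 h1 h2) (BaseVal_E_3_15 h1 h2)).trans ?_
  norm_num
theorem BaseVal_E_7_17 (h1 : P_xE_rec) (h2 : P_x_basic) : xE 7 17 = 13973215 / 14256 := by
  refine (BaseVal_recE h1 6 15 _ _ _ (BaseVal_E_7_15 h1 h2) (BaseVal_E_6_16 h1 h2) (BaseVal_E_5_15 h1 h2)).trans ?_
  norm_num
theorem BaseVal_E_9_17 (h1 : P_xE_rec) (h2 : P_x_basic) : xE 9 17 = 483601831 / 25200 := by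
  refine (BaseVal_recE h1 8 15 _ _ _ (BaseVal_E_9_15 h1 h2) (BaseVal_E_8_16 h1 h2) (BaseVal_E_7_15 h1 h2)).trans ?_
  norm_num
theorem BaseVal_E_11_17 (h1 : P_xE_rec) (h2 : P_x_basic) : xE 11 17 = 40718161 / 126 := by
  refine (BaseVal_recE h1 10 15 _ _ _ (BaseVal_E_11_15 h1 h2) (BaseVal_E_10_16 h1 h2) (BaseVal_E_9_15 h1 h2)).trans ?_
  norm_num
theorem BaseVal_E_13_17 (h1 : P_xE_rec) (h2 : P_x_basic) : xE 13 17 = 65471393 / 15 := by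
  refine (BaseVal_recE h1 12 15 _ _ _ (BaseVal_E_13_15 h1 h2) (BaseVal_E_12_16 h1 h2) (BaseVal_E_11_15 h1 h2)).trans ?_
  norm_num
theorem BaseVal_E_15_17 (h1 : P_xE_rec) (h2 : P_x_basic) : xE 15 17 = 41798860 := by
  refine (BaseVal_recE h1 14 15 _ _ _ (BaseVal_E_15_15 h1 h2) (BaseVal_E_14_16 h1 h2) (BaseVal_E_13_15 h1 h2)).trans ?_
  norm_num
theorem BaseVal_E_17_17 (h1 : P_xE_rec) (h2 : P_x_basic) : xE 17 17 = 211799312 := by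
  refine (BaseVal_recE h1 16 15 _ _ _ (BaseVal_Eo h2 _ _ (by norm_num)) (BaseVal_E_16_16 h1 h2) (BaseVal_E_15_15 h1 h2)).trans ?_
  norm_num

theorem BaseVal_E_0_18 (h1 : P_xE_rec) (h2 : P_x_basic) : xE 0 18 = 0 := h2.2.2.2.2.2.2.2.2.1 18 (by norm_num)
theorem BaseVal_E_2_18 (h1 : P_xE_rec) (h2 : P_x_basic) : xE 2 18 = 2359034 / 6891885 := by
  refine (BaseVal_recE h1 1 16 _ _ _ (BaseVal_E_2_16 h1 h2) (BaseVal_E_1_17 h1 h2) (BaseVal_E_0_16 h1 h2)).trans ?_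
  norm_num
theorem BaseVal_E_4_18 (h1 : P_xE_rec) (h2 : P_x_basic) : xE 4 18 = 557103143 / 60810750 := by
  refine (BaseVal_recE h1 3 16 _ _ _ (BaseVal_E_4_16 h1 h2) (BaseVal_E_3_17 h1 h2) (BaseVal_E_2_16 h1 h2)).trans ?_
  norm_num
theorem BaseVal_E_6_18 (h1 : P_xE_rec) (h2 : P_x_basic) : xE 6 18 = 1548529253 / 7144200 := by
  refine (BaseVal_recE h1 5 16 _ _ _ (BaseVal_E_6_16 h1 h2) (BaseVal_E_5_17 h1 h2) (BaseVal_E_4_16 h1 h2)).trans ?_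
  norm_num
theorem BaseVal_E_8_18 (h1 : P_xE_rec) (h2 : P_x_basic) : xE 8 18 = 631142681 / 133650 := by
  refine (BaseVal_recE h1 7 16 _ _ _ (BaseVal_E_8_16 h1 h2) (BaseVal_E_7_17 h1 h2) (BaseVal_E_6_16 h1 h2)).trans ?_
  norm_num
theorem BaseVal_E_10_18 (h1 : P_xE_rec) (h2 : P_x_basic) : xE 10 18 = 99837331 / 1080 := by
  refine (BaseVal_recE h1 9 16 _ _ _ (BaseVal_E_10_16 h1 h2) (BaseVal_E_9_17 h1 h2) (BaseVal_E_8_16 h1 h2)).trans ?_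
  norm_num
theorem BaseVal_E_12_18 (h1 : P_xE_rec) (h2 : P_x_basic) : xE 12 18 = 1467994586 / 945 := by
  refine (BaseVal_recE h1 11 16 _ _ _ (BaseVal_E_12_16 h1 h2) (BaseVal_E_11_17 h1 h2) (BaseVal_E_10_16 h1 h2)).trans ?_
  norm_num
theorem BaseVal_E_14_18 (h1 : P_xE_rec) (h2 : P_x_basic) : xE 14 18 = 939868874 / 45 := by
  refine (BaseVal_recE h1 13 16 _ _ _ (BaseVal_E_14_16 h1 h2) (BaseVal_E_13_17 h1 h2) (BaseVal_E_12_16 h1 h2)).trans ?_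
  norm_num
theorem BaseVal_E_16_18 (h1 : P_xE_rec) (h2 : P_x_basic) : xE 16 18 = 595878976 / 3 := by
  refine (BaseVal_recE h1 15 16 _ _ _ (BaseVal_E_16_16 h1 h2) (BaseVal_E_15_17 h1 h2) (BaseVal_E_14_16 h1 h2)).trans ?_
  norm_num
theorem BaseVal_E_18_18 (h1 : P_xE_rec) (h2 : P_x_basic) : xE 18 18 = 997313824 := by
  refine (BaseVal_recE h1 17 16 _ _ _ (BaseVal_Eo h2 _ _ (by norm_num)) (BaseVal_E_17_17 h1 h2) (BaseVal_E_16_16 h1 h2)).trans ?_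
  norm_num

theorem BaseVal_E_1_19 (h1 : P_xE_rec) (h2 : P_x_basic) : xE 1 19 = 1 / 19 := by
  refine (BaseVal_recE h1 0 17 _ _ _ (BaseVal_E_1_17 h1 h2) (BaseVal_E_0_18 h1 h2) rfl).trans ?_
  norm_num
theorem BaseVal_E_3_19 (h1 : P_xE_rec) (h2 : P_x_basic) : xE 3 19 = 1119318023 / 643242600 := by
  refine (BaseVal_recE h1 2 17 _ _ _ (BaseVal_E_3_17 h1 h2) (BaseVal_E_2_18 h1 h2) (BaseVal_E_1_17 h1 h2)).trans ?_
  norm_num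
theorem BaseVal_E_5_19 (h1 : P_xE_rec) (h2 : P_x_basic) : xE 5 19 = 4336398127 / 97297200 := by
  refine (BaseVal_recE h1 4 17 _ _ _ (BaseVal_E_5_17 h1 h2) (BaseVal_E_4_18 h1 h2) (BaseVal_E_3_17 h1 h2)).trans ?_
  norm_num
theorem BaseVal_E_7_19 (h1 : P_xE_rec) (h2 : P_x_basic) : xE 7 19 = 61656427471 / 58378320 := by
  refine (BaseVal_recE h1 6 17 _ _ _ (BaseVal_E_7_17 h1 h2) (BaseVal_E_6_18 h1 h2) (BaseVal_E_5_17 h1 h2)).trans ?_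
  norm_num
theorem BaseVal_E_9_19 (h1 : P_xE_rec) (h2 : P_x_basic) : xE 9 19 = 19228006333 / 831600 := by
  refine (BaseVal_recE h1 8 17 _ _ _ (BaseVal_E_9_17 h1 h2) (BaseVal_E_8_18 h1 h2) (BaseVal_E_7_17 h1 h2)).trans ?_
  norm_num
theorem BaseVal_E_11_19 (h1 : P_xE_rec) (h2 : P_x_basic) : xE 11 19 = 49006661 / 108 := by
  refine (BaseVal_recE h1 10 17 _ _ _ (BaseVal_E_11_17 h1 h2) (BaseVal_E_10_18 h1 h2) (BaseVal_E_9_17 h1 h2)).trans ?_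
  norm_num
theorem BaseVal_E_13_19 (h1 : P_xE_rec) (h2 : P_x_basic) : xE 13 19 = 7202317889 / 945 := by
  refine (BaseVal_recE h1 12 17 _ _ _ (BaseVal_E_13_17 h1 h2) (BaseVal_E_12_18 h1 h2) (BaseVal_E_11_17 h1 h2)).trans ?_
  norm_num
theorem BaseVal_E_15_19 (h1 : P_xE_rec) (h2 : P_x_basic) : xE 15 19 = 306389960 / 3 := by
  refine (BaseVal_recE h1 14 17 _ _ _ (BaseVal_E_15_17 h1 h2) (BaseVal_E_14_18 h1 h2) (BaseVal_E_13_17 h1 h2)).trans ?_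
  norm_num
theorem BaseVal_E_17_19 (h1 : P_xE_rec) (h2 : P_x_basic) : xE 17 19 = 2896819856 / 3 := by
  refine (BaseVal_recE h1 16 17 _ _ _ (BaseVal_E_17_17 h1 h2) (BaseVal_E_16_18 h1 h2) (BaseVal_E_15_17 h1 h2)).trans ?_
  norm_num
theorem BaseVal_E_19_19 (h1 : P_xE_rec) (h2 : P_x_basic) : xE 19 19 = 4809701440 := by
  refine (BaseVal_recE h1 18 17 _ _ _ (BaseVal_Eo h2 _ _ (by norm_num)) (BaseVal_E_18_18 h1 h2) (BaseVal_E_17_17 h1 h2)).trans ?_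
  norm_num

theorem BaseVal_E_0_20 (h1 : P_xE_rec) (h2 : P_x_basic) : xE 0 20 = 0 := h2.2.2.2.2.2.2.2.2.1 20 (by norm_num)
theorem BaseVal_E_2_20 (h1 : P_xE_rec) (h2 : P_x_basic) : xE 2 20 = 45587411 / 145495350 := by
  refine (BaseVal_recE h1 1 18 _ _ _ (BaseVal_E_2_18 h1 h2) (BaseVal_E_1_19 h1 h2) (BaseVal_E_0_18 h1 h2)).trans ?_
  norm_num
theorem BaseVal_E_4_20 (h1 : P_xE_rec) (h2 : P_x_basic) : xE 4 20 = 10883829673 / 1237005000 := by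
  refine (BaseVal_recE h1 3 18 _ _ _ (BaseVal_E_4_18 h1 h2) (BaseVal_E_3_19 h1 h2) (BaseVal_E_2_18 h1 h2)).trans ?_
  norm_num
theorem BaseVal_E_6_20 (h1 : P_xE_rec) (h2 : P_x_basic) : xE 6 20 = 100886385851 / 454053600 := by
  refine (BaseVal_recE h1 5 18 _ _ _ (BaseVal_E_6_18 h1 h2) (BaseVal_E_5_19 h1 h2) (BaseVal_E_4_18 h1 h2)).trans ?_
  norm_num
theorem BaseVal_E_8_20 (h1 : P_xE_rec) (h2 : P_x_basic) : xE 8 20 = 3852596638147 / 729729000 := by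
  refine (BaseVal_recE h1 7 18 _ _ _ (BaseVal_E_8_18 h1 h2) (BaseVal_E_7_19 h1 h2) (BaseVal_E_6_18 h1 h2)).trans ?_
  norm_num
theorem BaseVal_E_10_20 (h1 : P_xE_rec) (h2 : P_x_basic) : xE 10 20 = 38589307447 / 332640 := by
  refine (BaseVal_recE h1 9 18 _ _ _ (BaseVal_E_10_18 h1 h2) (BaseVal_E_9_19 h1 h2) (BaseVal_E_8_18 h1 h2)).trans ?_
  norm_num
theorem BaseVal_E_12_20 (h1 : P_xE_rec) (h2 : P_x_basic) : xE 12 20 = 28733875789 / 12600 := by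
  refine (BaseVal_recE h1 11 18 _ _ _ (BaseVal_E_12_18 h1 h2) (BaseVal_E_11_19 h1 h2) (BaseVal_E_10_18 h1 h2)).trans ?_
  norm_num
theorem BaseVal_E_14_20 (h1 : P_xE_rec) (h2 : P_x_basic) : xE 14 20 = 10332541421 / 270 := by
  refine (BaseVal_recE h1 13 18 _ _ _ (BaseVal_E_14_18 h1 h2) (BaseVal_E_13_19 h1 h2) (BaseVal_E_12_18 h1 h2)).trans ?_
  norm_num
theorem BaseVal_E_16_20 (h1 : P_xE_rec) (h2 : P_x_basic) : xE 16 20 = 7666490728 / 15 := by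
  refine (BaseVal_recE h1 15 18 _ _ _ (BaseVal_E_16_18 h1 h2) (BaseVal_E_15_19 h1 h2) (BaseVal_E_14_18 h1 h2)).trans ?_
  norm_num
theorem BaseVal_E_18_20 (h1 : P_xE_rec) (h2 : P_x_basic) : xE 18 20 = 4805611176 := by
  refine (BaseVal_recE h1 17 18 _ _ _ (BaseVal_E_18_18 h1 h2) (BaseVal_E_17_19 h1 h2) (BaseVal_E_16_18 h1 h2)).trans ?_
  norm_num
theorem BaseVal_E_20_20 (h1 : P_xE_rec) (h2 : P_x_basic) : xE 20 20 = 23758664096 := by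
  refine (BaseVal_recE h1 19 18 _ _ _ (BaseVal_Eo h2 _ _ (by norm_num)) (BaseVal_E_19_19 h1 h2) (BaseVal_E_18_18 h1 h2)).trans ?_
  norm_num

theorem BaseVal_E_1_21 (h1 : P_xE_rec) (h2 : P_x_basic) : xE 1 21 = 1 / 21 := by
  refine (BaseVal_recE h1 0 19 _ _ _ (BaseVal_E_1_19 h1 h2) (BaseVal_E_0_20 h1 h2) rfl).trans ?_
  norm_num
theorem BaseVal_E_3_21 (h1 : P_xE_rec) (h2 : P_x_basic) : xE 3 21 = 16776851579 / 10266151896 := by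
  refine (BaseVal_recE h1 2 19 _ _ _ (BaseVal_E_3_19 h1 h2) (BaseVal_E_2_20 h1 h2) (BaseVal_E_1_19 h1 h2)).trans ?_
  norm_num
theorem BaseVal_E_5_21 (h1 : P_xE_rec) (h2 : P_x_basic) : xE 5 21 = 1093562641033 / 24810786000 := by
  refine (BaseVal_recE h1 4 19 _ _ _ (BaseVal_E_5_19 h1 h2) (BaseVal_E_4_20 h1 h2) (BaseVal_E_3_19 h1 h2)).trans ?_
  norm_num
theorem BaseVal_E_7_21 (h1 : P_xE_rec) (h2 : P_x_basic) : xE 7 21 = 1959353002879 / 1751349600 := by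
  refine (BaseVal_recE h1 6 19 _ _ _ (BaseVal_E_7_19 h1 h2) (BaseVal_E_6_20 h1 h2) (BaseVal_E_5_19 h1 h2)).trans ?_
  norm_num
theorem BaseVal_E_9_21 (h1 : P_xE_rec) (h2 : P_x_basic) : xE 9 21 = 91276242234259 / 3405402000 := by
  refine (BaseVal_recE h1 8 19 _ _ _ (BaseVal_E_9_19 h1 h2) (BaseVal_E_8_20 h1 h2) (BaseVal_E_7_19 h1 h2)).trans ?_
  norm_num
theorem BaseVal_E_11_21 (h1 : P_xE_rec) (h2 : P_x_basic) : xE 11 21 = 7677893251 / 12960 := by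
  refine (BaseVal_recE h1 10 19 _ _ _ (BaseVal_E_11_19 h1 h2) (BaseVal_E_10_20 h1 h2) (BaseVal_E_9_19 h1 h2)).trans ?_
  norm_num
theorem BaseVal_E_13_21 (h1 : P_xE_rec) (h2 : P_x_basic) : xE 13 21 = 1324306634573 / 113400 := by
  refine (BaseVal_recE h1 12 19 _ _ _ (BaseVal_E_13_19 h1 h2) (BaseVal_E_12_20 h1 h2) (BaseVal_E_11_19 h1 h2)).trans ?_
  norm_num
theorem BaseVal_E_15_21 (h1 : P_xE_rec) (h2 : P_x_basic) : xE 15 21 = 74070268417 / 378 := by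
  refine (BaseVal_recE h1 14 19 _ _ _ (BaseVal_E_15_19 h1 h2) (BaseVal_E_14_20 h1 h2) (BaseVal_E_13_19 h1 h2)).trans ?_
  norm_num
theorem BaseVal_E_17_21 (h1 : P_xE_rec) (h2 : P_x_basic) : xE 17 21 = 117459796328 / 45 := by
  refine (BaseVal_recE h1 16 19 _ _ _ (BaseVal_E_17_19 h1 h2) (BaseVal_E_16_20 h1 h2) (BaseVal_E_15_19 h1 h2)).trans ?_
  norm_num
theorem BaseVal_E_19_21 (h1 : P_xE_rec) (h2 : P_x_basic) : xE 19 21 = 73275486184 / 3 := by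
  refine (BaseVal_recE h1 18 19 _ _ _ (BaseVal_E_19_19 h1 h2) (BaseVal_E_18_20 h1 h2) (BaseVal_E_17_19 h1 h2)).trans ?_
  norm_num
theorem BaseVal_E_21_21 (h1 : P_xE_rec) (h2 : P_x_basic) : xE 21 21 = 119952692896 := by
  refine (BaseVal_recE h1 20 19 _ _ _ (BaseVal_Eo h2 _ _ (by norm_num)) (BaseVal_E_20_20 h1 h2) (BaseVal_E_19_19 h1 h2)).trans ?_
  norm_num

theorem BaseVal_E_0_22 (h1 : P_xE_rec) (h2 : P_x_basic) : xE 0 22 = 0 := h2.2.2.2.2.2.2.2.2.1 22 (by norm_num)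
theorem BaseVal_E_2_22 (h1 : P_xE_rec) (h2 : P_x_basic) : xE 2 22 = 46280246 / 160044885 := by
  refine (BaseVal_recE h1 1 20 _ _ _ (BaseVal_E_2_20 h1 h2) (BaseVal_E_1_21 h1 h2) (BaseVal_E_0_20 h1 h2)).trans ?_
  norm_num
theorem BaseVal_E_4_22 (h1 : P_xE_rec) (h2 : P_x_basic) : xE 4 22 = 2716262448013 / 320817246750 := by
  refine (BaseVal_recE h1 3 20 _ _ _ (BaseVal_E_4_20 h1 h2) (BaseVal_E_3_21 h1 h2) (BaseVal_E_2_20 h1 h2)).trans ?_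
  norm_num
theorem BaseVal_E_6_22 (h1 : P_xE_rec) (h2 : P_x_basic) : xE 6 22 = 503236114957 / 2226609000 := by
  refine (BaseVal_recE h1 5 20 _ _ _ (BaseVal_E_6_20 h1 h2) (BaseVal_E_5_21 h1 h2) (BaseVal_E_4_20 h1 h2)).trans ?_
  norm_num
theorem BaseVal_E_8_22 (h1 : P_xE_rec) (h2 : P_x_basic) : xE 8 22 = 1263584784079 / 218918700 := by
  refine (BaseVal_recE h1 7 20 _ _ _ (BaseVal_E_8_20 h1 h2) (BaseVal_E_7_21 h1 h2) (BaseVal_E_6_20 h1 h2)).trans ?_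
  norm_num
theorem BaseVal_E_10_22 (h1 : P_xE_rec) (h2 : P_x_basic) : xE 10 22 = 4310749466999 / 30958200 := by
  refine (BaseVal_recE h1 9 20 _ _ _ (BaseVal_E_10_20 h1 h2) (BaseVal_E_9_21 h1 h2) (BaseVal_E_8_20 h1 h2)).trans ?_
  norm_num
theorem BaseVal_E_12_22 (h1 : P_xE_rec) (h2 : P_x_basic) : xE 12 22 = 257159842283 / 83160 := by
  refine (BaseVal_recE h1 11 20 _ _ _ (BaseVal_E_12_20 h1 h2) (BaseVal_E_11_21 h1 h2) (BaseVal_E_10_20 h1 h2)).trans ?_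
  norm_num
theorem BaseVal_E_14_22 (h1 : P_xE_rec) (h2 : P_x_basic) : xE 14 22 = 494804316113 / 8100 := by
  refine (BaseVal_recE h1 13 20 _ _ _ (BaseVal_E_14_20 h1 h2) (BaseVal_E_13_21 h1 h2) (BaseVal_E_12_20 h1 h2)).trans ?_
  norm_num
theorem BaseVal_E_16_22 (h1 : P_xE_rec) (h2 : P_x_basic) : xE 16 22 = 193653853160 / 189 := by
  refine (BaseVal_recE h1 15 20 _ _ _ (BaseVal_E_16_20 h1 h2) (BaseVal_E_15_21 h1 h2) (BaseVal_E_14_20 h1 h2)).trans ?_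
  norm_num
theorem BaseVal_E_18_22 (h1 : P_xE_rec) (h2 : P_x_basic) : xE 18 22 = 68066489296 / 5 := by
  refine (BaseVal_recE h1 17 20 _ _ _ (BaseVal_E_18_20 h1 h2) (BaseVal_E_17_21 h1 h2) (BaseVal_E_16_20 h1 h2)).trans ?_
  norm_num
theorem BaseVal_E_20_22 (h1 : P_xE_rec) (h2 : P_x_basic) : xE 20 22 = 380428468640 / 3 := by
  refine (BaseVal_recE h1 19 20 _ _ _ (BaseVal_E_20_20 h1 h2) (BaseVal_E_19_21 h1 h2) (BaseVal_E_18_20 h1 h2)).trans ?_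
  norm_num
theorem BaseVal_E_22_22 (h1 : P_xE_rec) (h2 : P_x_basic) : xE 22 22 = 618884638912 := by
  refine (BaseVal_recE h1 21 20 _ _ _ (BaseVal_Eo h2 _ _ (by norm_num)) (BaseVal_E_21_21 h1 h2) (BaseVal_E_20_20 h1 h2)).trans ?_
  norm_num

theorem BaseVal_O_0_0 (h1 : P_xO_rec) (h2 : P_x_basic) : xO 0 0 = 1 := by
  rw [h2.2.1 0]; norm_num [mom]

theorem BaseVal_O_1_1 (h1 : P_xO_rec) (h2 : P_x_basic) : xO 1 1 = 1 := by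
  rw [h2.2.1 1]; norm_num [mom]

theorem BaseVal_O_0_2 (h1 : P_xO_rec) (h2 : P_x_basic) : xO 0 2 = 0 := h2.2.2.2.2.2.2.2.2.2.1 2 (by norm_num)
theorem BaseVal_O_2_2 (h1 : P_xO_rec) (h2 : P_x_basic) : xO 2 2 = 2 := by
  rw [h2.2.1 2]; norm_num [mom]

theorem BaseVal_O_1_3 (h1 : P_xO_rec) (h2 : P_x_basic) : xO 1 3 = 1 / 3 := by
  rw [h2.2.2.2.2.2.2.2.2.2.2 1]; norm_num [mom]
theorem BaseVal_O_3_3 (h1 : P_xO_rec) (h2 : P_x_basic) : xO 3 3 = 4 := by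
  rw [h2.2.1 3]; norm_num [mom]

theorem BaseVal_O_0_4 (h1 : P_xO_rec) (h2 : P_x_basic) : xO 0 4 = 0 := h2.2.2.2.2.2.2.2.2.2.1 4 (by norm_num)
theorem BaseVal_O_2_4 (h1 : P_xO_rec) (h2 : P_x_basic) : xO 2 4 = 2 / 3 := by
  refine (BaseVal_recO h1 1 0 _ _ _ _ (BaseVal_Oo h2 _ _ (by norm_num)) (BaseVal_O_1_3 h1 h2) (BaseVal_O_1_1 h1 h2) (BaseVal_O_0_2 h1 h2)).trans ?_
  norm_num
theorem BaseVal_O_4_4 (h1 : P_xO_rec) (h2 : P_x_basic) : xO 4 4 = 10 := by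
  refine (BaseVal_recO h1 3 0 _ _ _ _ (BaseVal_Oo h2 _ _ (by norm_num)) (BaseVal_O_3_3 h1 h2) (BaseVal_Oo h2 _ _ (by norm_num)) (BaseVal_O_2_2 h1 h2)).trans ?_
  norm_num

theorem BaseVal_O_1_5 (h1 : P_xO_rec) (h2 : P_x_basic) : xO 1 5 = 1 / 5 := by
  refine (BaseVal_recO h1 0 1 _ _ _ _ (BaseVal_O_1_1 h1 h2) (BaseVal_O_0_4 h1 h2) (BaseVal_O_0_2 h1 h2) rfl).trans ?_
  norm_num
theorem BaseVal_O_3_5 (h1 : P_xO_rec) (h2 : P_x_basic) : xO 3 5 = 2 := by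
  refine (BaseVal_recO h1 2 1 _ _ _ _ (BaseVal_Oo h2 _ _ (by norm_num)) (BaseVal_O_2_4 h1 h2) (BaseVal_O_2_2 h1 h2) (BaseVal_O_1_3 h1 h2)).trans ?_
  norm_num
theorem BaseVal_O_5_5 (h1 : P_xO_rec) (h2 : P_x_basic) : xO 5 5 = 26 := by
  refine (BaseVal_recO h1 4 1 _ _ _ _ (BaseVal_Oo h2 _ _ (by norm_num)) (BaseVal_O_4_4 h1 h2) (BaseVal_Oo h2 _ _ (by norm_num)) (BaseVal_O_3_3 h1 h2)).trans ?_
  norm_num

theorem BaseVal_O_0_6 (h1 : P_xO_rec) (h2 : P_x_basic) : xO 0 6 = 0 := h2.2.2.2.2.2.2.2.2.2.1 6 (by norm_num)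
theorem BaseVal_O_2_6 (h1 : P_xO_rec) (h2 : P_x_basic) : xO 2 6 = 38 / 45 := by
  refine (BaseVal_recO h1 1 2 _ _ _ _ (BaseVal_O_2_2 h1 h2) (BaseVal_O_1_5 h1 h2) (BaseVal_O_1_3 h1 h2) (BaseVal_O_0_4 h1 h2)).trans ?_
  norm_num
theorem BaseVal_O_4_6 (h1 : P_xO_rec) (h2 : P_x_basic) : xO 4 6 = 16 / 3 := by
  refine (BaseVal_recO h1 3 2 _ _ _ _ (BaseVal_Oo h2 _ _ (by norm_num)) (BaseVal_O_3_5 h1 h2) (BaseVal_O_3_3 h1 h2) (BaseVal_O_2_4 h1 h2)).trans ?_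
  norm_num
theorem BaseVal_O_6_6 (h1 : P_xO_rec) (h2 : P_x_basic) : xO 6 6 = 76 := by
  refine (BaseVal_recO h1 5 2 _ _ _ _ (BaseVal_Oo h2 _ _ (by norm_num)) (BaseVal_O_5_5 h1 h2) (BaseVal_Oo h2 _ _ (by norm_num)) (BaseVal_O_4_4 h1 h2)).trans ?_
  norm_num

theorem BaseVal_O_1_7 (h1 : P_xO_rec) (h2 : P_x_basic) : xO 1 7 = 1 / 7 := by
  refine (BaseVal_recO h1 0 3 _ _ _ _ (BaseVal_O_1_3 h1 h2) (BaseVal_O_0_6 h1 h2) (BaseVal_O_0_4 h1 h2) rfl).trans ?_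
  norm_num
theorem BaseVal_O_3_7 (h1 : P_xO_rec) (h2 : P_x_basic) : xO 3 7 = 38 / 15 := by
  refine (BaseVal_recO h1 2 3 _ _ _ _ (BaseVal_O_3_3 h1 h2) (BaseVal_O_2_6 h1 h2) (BaseVal_O_2_4 h1 h2) (BaseVal_O_1_5 h1 h2)).trans ?_
  norm_num
theorem BaseVal_O_5_7 (h1 : P_xO_rec) (h2 : P_x_basic) : xO 5 7 = 50 / 3 := by
  refine (BaseVal_recO h1 4 3 _ _ _ _ (BaseVal_Oo h2 _ _ (by norm_num)) (BaseVal_O_4_6 h1 h2) (BaseVal_O_4_4 h1 h2) (BaseVal_O_3_5 h1 h2)).trans ?_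
  norm_num
theorem BaseVal_O_7_7 (h1 : P_xO_rec) (h2 : P_x_basic) : xO 7 7 = 232 := by
  refine (BaseVal_recO h1 6 3 _ _ _ _ (BaseVal_Oo h2 _ _ (by norm_num)) (BaseVal_O_6_6 h1 h2) (BaseVal_Oo h2 _ _ (by norm_num)) (BaseVal_O_5_5 h1 h2)).trans ?_
  norm_num

theorem BaseVal_O_0_8 (h1 : P_xO_rec) (h2 : P_x_basic) : xO 0 8 = 0 := h2.2.2.2.2.2.2.2.2.2.1 8 (by norm_num)
theorem BaseVal_O_2_8 (h1 : P_xO_rec) (h2 : P_x_basic) : xO 2 8 = 44 / 105 := by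
  refine (BaseVal_recO h1 1 4 _ _ _ _ (BaseVal_O_2_4 h1 h2) (BaseVal_O_1_7 h1 h2) (BaseVal_O_1_5 h1 h2) (BaseVal_O_0_6 h1 h2)).trans ?_
  norm_num
theorem BaseVal_O_4_8 (h1 : P_xO_rec) (h2 : P_x_basic) : xO 4 8 = 128 / 15 := by
  refine (BaseVal_recO h1 3 4 _ _ _ _ (BaseVal_O_4_4 h1 h2) (BaseVal_O_3_7 h1 h2) (BaseVal_O_3_5 h1 h2) (BaseVal_O_2_6 h1 h2)).trans ?_
  norm_num
theorem BaseVal_O_6_8 (h1 : P_xO_rec) (h2 : P_x_basic) : xO 6 8 = 52 := by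
  refine (BaseVal_recO h1 5 4 _ _ _ _ (BaseVal_Oo h2 _ _ (by norm_num)) (BaseVal_O_5_7 h1 h2) (BaseVal_O_5_5 h1 h2) (BaseVal_O_4_6 h1 h2)).trans ?_
  norm_num
theorem BaseVal_O_8_8 (h1 : P_xO_rec) (h2 : P_x_basic) : xO 8 8 = 764 := by
  refine (BaseVal_recO h1 7 4 _ _ _ _ (BaseVal_Oo h2 _ _ (by norm_num)) (BaseVal_O_7_7 h1 h2) (BaseVal_Oo h2 _ _ (by norm_num)) (BaseVal_O_6_6 h1 h2)).trans ?_
  norm_num

theorem BaseVal_O_1_9 (h1 : P_xO_rec) (h2 : P_x_basic) : xO 1 9 = 1 / 9 := by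
  refine (BaseVal_recO h1 0 5 _ _ _ _ (BaseVal_O_1_5 h1 h2) (BaseVal_O_0_8 h1 h2) (BaseVal_O_0_6 h1 h2) rfl).trans ?_
  norm_num
theorem BaseVal_O_3_9 (h1 : P_xO_rec) (h2 : P_x_basic) : xO 3 9 = 1538 / 945 := by
  refine (BaseVal_recO h1 2 5 _ _ _ _ (BaseVal_O_3_5 h1 h2) (BaseVal_O_2_8 h1 h2) (BaseVal_O_2_6 h1 h2) (BaseVal_O_1_7 h1 h2)).trans ?_
  norm_num
theorem BaseVal_O_5_9 (h1 : P_xO_rec) (h2 : P_x_basic) : xO 5 9 = 250 / 9 := by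
  refine (BaseVal_recO h1 4 5 _ _ _ _ (BaseVal_O_5_5 h1 h2) (BaseVal_O_4_8 h1 h2) (BaseVal_O_4_6 h1 h2) (BaseVal_O_3_7 h1 h2)).trans ?_
  norm_num
theorem BaseVal_O_7_9 (h1 : P_xO_rec) (h2 : P_x_basic) : xO 7 9 = 532 / 3 := by
  refine (BaseVal_recO h1 6 5 _ _ _ _ (BaseVal_Oo h2 _ _ (by norm_num)) (BaseVal_O_6_8 h1 h2) (BaseVal_O_6_6 h1 h2) (BaseVal_O_5_7 h1 h2)).trans ?_
  norm_num
theorem BaseVal_O_9_9 (h1 : P_xO_rec) (h2 : P_x_basic) : xO 9 9 = 2620 := by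
  refine (BaseVal_recO h1 8 5 _ _ _ _ (BaseVal_Oo h2 _ _ (by norm_num)) (BaseVal_O_8_8 h1 h2) (BaseVal_Oo h2 _ _ (by norm_num)) (BaseVal_O_7_7 h1 h2)).trans ?_
  norm_num

theorem BaseVal_O_0_10 (h1 : P_xO_rec) (h2 : P_x_basic) : xO 0 10 = 0 := h2.2.2.2.2.2.2.2.2.2.1 10 (by norm_num)
theorem BaseVal_O_2_10 (h1 : P_xO_rec) (h2 : P_x_basic) : xO 2 10 = 878 / 1575 := by
  refine (BaseVal_recO h1 1 6 _ _ _ _ (BaseVal_O_2_6 h1 h2) (BaseVal_O_1_9 h1 h2) (BaseVal_O_1_7 h1 h2) (BaseVal_O_0_8 h1 h2)).trans ?_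
  norm_num
theorem BaseVal_O_4_10 (h1 : P_xO_rec) (h2 : P_x_basic) : xO 4 10 = 5072 / 945 := by
  refine (BaseVal_recO h1 3 6 _ _ _ _ (BaseVal_O_4_6 h1 h2) (BaseVal_O_3_9 h1 h2) (BaseVal_O_3_7 h1 h2) (BaseVal_O_2_8 h1 h2)).trans ?_
  norm_num
theorem BaseVal_O_6_10 (h1 : P_xO_rec) (h2 : P_x_basic) : xO 6 10 = 1468 / 15 := by
  refine (BaseVal_recO h1 5 6 _ _ _ _ (BaseVal_O_6_6 h1 h2) (BaseVal_O_5_9 h1 h2) (BaseVal_O_5_7 h1 h2) (BaseVal_O_4_8 h1 h2)).trans ?_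
  norm_num
theorem BaseVal_O_8_10 (h1 : P_xO_rec) (h2 : P_x_basic) : xO 8 10 = 1856 / 3 := by
  refine (BaseVal_recO h1 7 6 _ _ _ _ (BaseVal_Oo h2 _ _ (by norm_num)) (BaseVal_O_7_9 h1 h2) (BaseVal_O_7_7 h1 h2) (BaseVal_O_6_8 h1 h2)).trans ?_
  norm_num
theorem BaseVal_O_10_10 (h1 : P_xO_rec) (h2 : P_x_basic) : xO 10 10 = 9496 := by
  refine (BaseVal_recO h1 9 6 _ _ _ _ (BaseVal_Oo h2 _ _ (by norm_num)) (BaseVal_O_9_9 h1 h2) (BaseVal_Oo h2 _ _ (by norm_num)) (BaseVal_O_8_8 h1 h2)).trans ?_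
  norm_num

theorem BaseVal_O_1_11 (h1 : P_xO_rec) (h2 : P_x_basic) : xO 1 11 = 1 / 11 := by
  refine (BaseVal_recO h1 0 7 _ _ _ _ (BaseVal_O_1_7 h1 h2) (BaseVal_O_0_10 h1 h2) (BaseVal_O_0_8 h1 h2) rfl).trans ?_
  norm_num
theorem BaseVal_O_3_11 (h1 : P_xO_rec) (h2 : P_x_basic) : xO 3 11 = 1018 / 525 := by
  refine (BaseVal_recO h1 2 7 _ _ _ _ (BaseVal_O_3_7 h1 h2) (BaseVal_O_2_10 h1 h2) (BaseVal_O_2_8 h1 h2) (BaseVal_O_1_9 h1 h2)).trans ?_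
  norm_num
theorem BaseVal_O_5_11 (h1 : P_xO_rec) (h2 : P_x_basic) : xO 5 11 = 3758 / 189 := by
  refine (BaseVal_recO h1 4 7 _ _ _ _ (BaseVal_O_5_7 h1 h2) (BaseVal_O_4_10 h1 h2) (BaseVal_O_4_8 h1 h2) (BaseVal_O_3_9 h1 h2)).trans ?_
  norm_num
theorem BaseVal_O_7_11 (h1 : P_xO_rec) (h2 : P_x_basic) : xO 7 11 = 5236 / 15 := by
  refine (BaseVal_recO h1 6 7 _ _ _ _ (BaseVal_O_7_7 h1 h2) (BaseVal_O_6_10 h1 h2) (BaseVal_O_6_8 h1 h2) (BaseVal_O_5_9 h1 h2)).trans ?_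
  norm_num
theorem BaseVal_O_9_11 (h1 : P_xO_rec) (h2 : P_x_basic) : xO 9 11 = 2292 := by
  refine (BaseVal_recO h1 8 7 _ _ _ _ (BaseVal_Oo h2 _ _ (by norm_num)) (BaseVal_O_8_10 h1 h2) (BaseVal_O_8_8 h1 h2) (BaseVal_O_7_9 h1 h2)).trans ?_
  norm_num
theorem BaseVal_O_11_11 (h1 : P_xO_rec) (h2 : P_x_basic) : xO 11 11 = 35696 := by
  refine (BaseVal_recO h1 10 7 _ _ _ _ (BaseVal_Oo h2 _ _ (by norm_num)) (BaseVal_O_10_10 h1 h2) (BaseVal_Oo h2 _ _ (by norm_num)) (BaseVal_O_9_9 h1 h2)).trans ?_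
  norm_num

theorem BaseVal_O_0_12 (h1 : P_xO_rec) (h2 : P_x_basic) : xO 0 12 = 0 := h2.2.2.2.2.2.2.2.2.2.1 12 (by norm_num)
theorem BaseVal_O_2_12 (h1 : P_xO_rec) (h2 : P_x_basic) : xO 2 12 = 3254 / 10395 := by
  refine (BaseVal_recO h1 1 8 _ _ _ _ (BaseVal_O_2_8 h1 h2) (BaseVal_O_1_11 h1 h2) (BaseVal_O_1_9 h1 h2) (BaseVal_O_0_10 h1 h2)).trans ?_
  norm_num
theorem BaseVal_O_4_12 (h1 : P_xO_rec) (h2 : P_x_basic) : xO 4 12 = 105394 / 14175 := by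
  refine (BaseVal_recO h1 3 8 _ _ _ _ (BaseVal_O_4_8 h1 h2) (BaseVal_O_3_11 h1 h2) (BaseVal_O_3_9 h1 h2) (BaseVal_O_2_10 h1 h2)).trans ?_
  norm_num
theorem BaseVal_O_6_12 (h1 : P_xO_rec) (h2 : P_x_basic) : xO 6 12 = 13592 / 189 := by
  refine (BaseVal_recO h1 5 8 _ _ _ _ (BaseVal_O_6_8 h1 h2) (BaseVal_O_5_11 h1 h2) (BaseVal_O_5_9 h1 h2) (BaseVal_O_4_10 h1 h2)).trans ?_
  norm_num
theorem BaseVal_O_8_12 (h1 : P_xO_rec) (h2 : P_x_basic) : xO 8 12 = 59264 / 45 := by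
  refine (BaseVal_recO h1 7 8 _ _ _ _ (BaseVal_O_8_8 h1 h2) (BaseVal_O_7_11 h1 h2) (BaseVal_O_7_9 h1 h2) (BaseVal_O_6_10 h1 h2)).trans ?_
  norm_num
theorem BaseVal_O_10_12 (h1 : P_xO_rec) (h2 : P_x_basic) : xO 10 12 = 26200 / 3 := by
  refine (BaseVal_recO h1 9 8 _ _ _ _ (BaseVal_Oo h2 _ _ (by norm_num)) (BaseVal_O_9_11 h1 h2) (BaseVal_O_9_9 h1 h2) (BaseVal_O_8_10 h1 h2)).trans ?_
  norm_num
theorem BaseVal_O_12_12 (h1 : P_xO_rec) (h2 : P_x_basic) : xO 12 12 = 140152 := by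
  refine (BaseVal_recO h1 11 8 _ _ _ _ (BaseVal_Oo h2 _ _ (by norm_num)) (BaseVal_O_11_11 h1 h2) (BaseVal_Oo h2 _ _ (by norm_num)) (BaseVal_O_10_10 h1 h2)).trans ?_
  norm_num

theorem BaseVal_O_1_13 (h1 : P_xO_rec) (h2 : P_x_basic) : xO 1 13 = 1 / 13 := by
  refine (BaseVal_recO h1 0 9 _ _ _ _ (BaseVal_O_1_9 h1 h2) (BaseVal_O_0_12 h1 h2) (BaseVal_O_0_10 h1 h2) rfl).trans ?_
  norm_num
theorem BaseVal_O_3_13 (h1 : P_xO_rec) (h2 : P_x_basic) : xO 3 13 = 23728 / 17325 := by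
  refine (BaseVal_recO h1 2 9 _ _ _ _ (BaseVal_O_3_9 h1 h2) (BaseVal_O_2_12 h1 h2) (BaseVal_O_2_10 h1 h2) (BaseVal_O_1_11 h1 h2)).trans ?_
  norm_num
theorem BaseVal_O_5_13 (h1 : P_xO_rec) (h2 : P_x_basic) : xO 5 13 = 76936 / 2835 := by
  refine (BaseVal_recO h1 4 9 _ _ _ _ (BaseVal_O_5_9 h1 h2) (BaseVal_O_4_12 h1 h2) (BaseVal_O_4_10 h1 h2) (BaseVal_O_3_11 h1 h2)).trans ?_
  norm_num
theorem BaseVal_O_7_13 (h1 : P_xO_rec) (h2 : P_x_basic) : xO 7 13 = 37588 / 135 := by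
  refine (BaseVal_recO h1 6 9 _ _ _ _ (BaseVal_O_7_9 h1 h2) (BaseVal_O_6_12 h1 h2) (BaseVal_O_6_10 h1 h2) (BaseVal_O_5_11 h1 h2)).trans ?_
  norm_num
theorem BaseVal_O_9_13 (h1 : P_xO_rec) (h2 : P_x_basic) : xO 9 13 = 25436 / 5 := by
  refine (BaseVal_recO h1 8 9 _ _ _ _ (BaseVal_O_9_9 h1 h2) (BaseVal_O_8_12 h1 h2) (BaseVal_O_8_10 h1 h2) (BaseVal_O_7_11 h1 h2)).trans ?_
  norm_num
theorem BaseVal_O_11_13 (h1 : P_xO_rec) (h2 : P_x_basic) : xO 11 13 = 104456 / 3 := by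
  refine (BaseVal_recO h1 10 9 _ _ _ _ (BaseVal_Oo h2 _ _ (by norm_num)) (BaseVal_O_10_12 h1 h2) (BaseVal_O_10_10 h1 h2) (BaseVal_O_9_11 h1 h2)).trans ?_
  norm_num
theorem BaseVal_O_13_13 (h1 : P_xO_rec) (h2 : P_x_basic) : xO 13 13 = 568504 := by
  refine (BaseVal_recO h1 12 9 _ _ _ _ (BaseVal_Oo h2 _ _ (by norm_num)) (BaseVal_O_12_12 h1 h2) (BaseVal_Oo h2 _ _ (by norm_num)) (BaseVal_O_11_11 h1 h2)).trans ?_
  norm_num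

theorem BaseVal_O_0_14 (h1 : P_xO_rec) (h2 : P_x_basic) : xO 0 14 = 0 := h2.2.2.2.2.2.2.2.2.2.1 14 (by norm_num)
theorem BaseVal_O_2_14 (h1 : P_xO_rec) (h2 : P_x_basic) : xO 2 14 = 133114 / 315315 := by
  refine (BaseVal_recO h1 1 10 _ _ _ _ (BaseVal_O_2_10 h1 h2) (BaseVal_O_1_13 h1 h2) (BaseVal_O_1_11 h1 h2) (BaseVal_O_0_12 h1 h2)).trans ?_
  norm_num
theorem BaseVal_O_4_14 (h1 : P_xO_rec) (h2 : P_x_basic) : xO 4 14 = 262336 / 51975 := by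
  refine (BaseVal_recO h1 3 10 _ _ _ _ (BaseVal_O_4_10 h1 h2) (BaseVal_O_3_13 h1 h2) (BaseVal_O_3_11 h1 h2) (BaseVal_O_2_12 h1 h2)).trans ?_
  norm_num
theorem BaseVal_O_6_14 (h1 : P_xO_rec) (h2 : P_x_basic) : xO 6 14 = 20032 / 189 := by
  refine (BaseVal_recO h1 5 10 _ _ _ _ (BaseVal_O_6_10 h1 h2) (BaseVal_O_5_13 h1 h2) (BaseVal_O_5_11 h1 h2) (BaseVal_O_4_12 h1 h2)).trans ?_
  norm_num
theorem BaseVal_O_8_14 (h1 : P_xO_rec) (h2 : P_x_basic) : xO 8 14 = 1028288 / 945 := by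
  refine (BaseVal_recO h1 7 10 _ _ _ _ (BaseVal_O_8_10 h1 h2) (BaseVal_O_7_13 h1 h2) (BaseVal_O_7_11 h1 h2) (BaseVal_O_6_12 h1 h2)).trans ?_
  norm_num
theorem BaseVal_O_10_14 (h1 : P_xO_rec) (h2 : P_x_basic) : xO 10 14 = 20520 := by
  refine (BaseVal_recO h1 9 10 _ _ _ _ (BaseVal_O_10_10 h1 h2) (BaseVal_O_9_13 h1 h2) (BaseVal_O_9_11 h1 h2) (BaseVal_O_8_12 h1 h2)).trans ?_
  norm_num
theorem BaseVal_O_12_14 (h1 : P_xO_rec) (h2 : P_x_basic) : xO 12 14 = 142784 := by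
  refine (BaseVal_recO h1 11 10 _ _ _ _ (BaseVal_Oo h2 _ _ (by norm_num)) (BaseVal_O_11_13 h1 h2) (BaseVal_O_11_11 h1 h2) (BaseVal_O_10_12 h1 h2)).trans ?_
  norm_num
theorem BaseVal_O_14_14 (h1 : P_xO_rec) (h2 : P_x_basic) : xO 14 14 = 2390480 := by
  refine (BaseVal_recO h1 13 10 _ _ _ _ (BaseVal_Oo h2 _ _ (by norm_num)) (BaseVal_O_13_13 h1 h2) (BaseVal_Oo h2 _ _ (by norm_num)) (BaseVal_O_12_12 h1 h2)).trans ?_
  norm_num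

theorem BaseVal_O_1_15 (h1 : P_xO_rec) (h2 : P_x_basic) : xO 1 15 = 1 / 15 := by
  refine (BaseVal_recO h1 0 11 _ _ _ _ (BaseVal_O_1_11 h1 h2) (BaseVal_O_0_14 h1 h2) (BaseVal_O_0_12 h1 h2) rfl).trans ?_
  norm_num
theorem BaseVal_O_3_15 (h1 : P_xO_rec) (h2 : P_x_basic) : xO 3 15 = 37832524 / 23648625 := by
  refine (BaseVal_recO h1 2 11 _ _ _ _ (BaseVal_O_3_11 h1 h2) (BaseVal_O_2_14 h1 h2) (BaseVal_O_2_12 h1 h2) (BaseVal_O_1_13 h1 h2)).trans ?_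
  norm_num
theorem BaseVal_O_5_15 (h1 : P_xO_rec) (h2 : P_x_basic) : xO 5 15 = 1924264 / 93555 := by
  refine (BaseVal_recO h1 4 11 _ _ _ _ (BaseVal_O_5_11 h1 h2) (BaseVal_O_4_14 h1 h2) (BaseVal_O_4_12 h1 h2) (BaseVal_O_3_13 h1 h2)).trans ?_
  norm_num
theorem BaseVal_O_7_15 (h1 : P_xO_rec) (h2 : P_x_basic) : xO 7 15 = 840356 / 2025 := by
  refine (BaseVal_recO h1 6 11 _ _ _ _ (BaseVal_O_7_11 h1 h2) (BaseVal_O_6_14 h1 h2) (BaseVal_O_6_12 h1 h2) (BaseVal_O_5_13 h1 h2)).trans ?_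
  norm_num
theorem BaseVal_O_9_15 (h1 : P_xO_rec) (h2 : P_x_basic) : xO 9 15 = 1405004 / 315 := by
  refine (BaseVal_recO h1 8 11 _ _ _ _ (BaseVal_O_9_11 h1 h2) (BaseVal_O_8_14 h1 h2) (BaseVal_O_8_12 h1 h2) (BaseVal_O_7_13 h1 h2)).trans ?_
  norm_num
theorem BaseVal_O_11_15 (h1 : P_xO_rec) (h2 : P_x_basic) : xO 11 15 = 3822104 / 45 := by
  refine (BaseVal_recO h1 10 11 _ _ _ _ (BaseVal_O_11_11 h1 h2) (BaseVal_O_10_14 h1 h2) (BaseVal_O_10_12 h1 h2) (BaseVal_O_9_13 h1 h2)).trans ?_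
  norm_num
theorem BaseVal_O_13_15 (h1 : P_xO_rec) (h2 : P_x_basic) : xO 13 15 = 1821976 / 3 := by
  refine (BaseVal_recO h1 12 11 _ _ _ _ (BaseVal_Oo h2 _ _ (by norm_num)) (BaseVal_O_12_14 h1 h2) (BaseVal_O_12_12 h1 h2) (BaseVal_O_11_13 h1 h2)).trans ?_
  norm_num
theorem BaseVal_O_15_15 (h1 : P_xO_rec) (h2 : P_x_basic) : xO 15 15 = 10349536 := by
  refine (BaseVal_recO h1 14 11 _ _ _ _ (BaseVal_Oo h2 _ _ (by norm_num)) (BaseVal_O_14_14 h1 h2) (BaseVal_Oo h2 _ _ (by norm_num)) (BaseVal_O_13_13 h1 h2)).trans ?_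
  norm_num

theorem BaseVal_O_0_16 (h1 : P_xO_rec) (h2 : P_x_basic) : xO 0 16 = 0 := h2.2.2.2.2.2.2.2.2.2.1 16 (by norm_num)
theorem BaseVal_O_2_16 (h1 : P_xO_rec) (h2 : P_x_basic) : xO 2 16 = 11384 / 45045 := by
  refine (BaseVal_recO h1 1 12 _ _ _ _ (BaseVal_O_2_12 h1 h2) (BaseVal_O_1_15 h1 h2) (BaseVal_O_1_13 h1 h2) (BaseVal_O_0_14 h1 h2)).trans ?_
  norm_num
theorem BaseVal_O_4_16 (h1 : P_xO_rec) (h2 : P_x_basic) : xO 4 16 = 156917216 / 23648625 := by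
  refine (BaseVal_recO h1 3 12 _ _ _ _ (BaseVal_O_4_12 h1 h2) (BaseVal_O_3_15 h1 h2) (BaseVal_O_3_13 h1 h2) (BaseVal_O_2_14 h1 h2)).trans ?_
  norm_num
theorem BaseVal_O_6_16 (h1 : P_xO_rec) (h2 : P_x_basic) : xO 6 16 = 2535032 / 31185 := by
  refine (BaseVal_recO h1 5 12 _ _ _ _ (BaseVal_O_6_12 h1 h2) (BaseVal_O_5_15 h1 h2) (BaseVal_O_5_13 h1 h2) (BaseVal_O_4_14 h1 h2)).trans ?_
  norm_num
theorem BaseVal_O_8_16 (h1 : P_xO_rec) (h2 : P_x_basic) : xO 8 16 = 3453448 / 2025 := by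
  refine (BaseVal_recO h1 7 12 _ _ _ _ (BaseVal_O_8_12 h1 h2) (BaseVal_O_7_15 h1 h2) (BaseVal_O_7_13 h1 h2) (BaseVal_O_6_14 h1 h2)).trans ?_
  norm_num
theorem BaseVal_O_10_16 (h1 : P_xO_rec) (h2 : P_x_basic) : xO 10 16 = 1174192 / 63 := by
  refine (BaseVal_recO h1 9 12 _ _ _ _ (BaseVal_O_10_12 h1 h2) (BaseVal_O_9_15 h1 h2) (BaseVal_O_9_13 h1 h2) (BaseVal_O_8_14 h1 h2)).trans ?_
  norm_num
theorem BaseVal_O_12_16 (h1 : P_xO_rec) (h2 : P_x_basic) : xO 12 16 = 5463296 / 15 := by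
  refine (BaseVal_recO h1 11 12 _ _ _ _ (BaseVal_O_12_12 h1 h2) (BaseVal_O_11_15 h1 h2) (BaseVal_O_11_13 h1 h2) (BaseVal_O_10_14 h1 h2)).trans ?_
  norm_num
theorem BaseVal_O_14_16 (h1 : P_xO_rec) (h2 : P_x_basic) : xO 14 16 = 7959056 / 3 := by
  refine (BaseVal_recO h1 13 12 _ _ _ _ (BaseVal_Oo h2 _ _ (by norm_num)) (BaseVal_O_13_15 h1 h2) (BaseVal_O_13_13 h1 h2) (BaseVal_O_12_14 h1 h2)).trans ?_
  norm_num
theorem BaseVal_O_16_16 (h1 : P_xO_rec) (h2 : P_x_basic) : xO 16 16 = 46206736 := by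
  refine (BaseVal_recO h1 15 12 _ _ _ _ (BaseVal_Oo h2 _ _ (by norm_num)) (BaseVal_O_15_15 h1 h2) (BaseVal_Oo h2 _ _ (by norm_num)) (BaseVal_O_14_14 h1 h2)).trans ?_
  norm_num

theorem BaseVal_O_1_17 (h1 : P_xO_rec) (h2 : P_x_basic) : xO 1 17 = 1 / 17 := by
  refine (BaseVal_recO h1 0 13 _ _ _ _ (BaseVal_O_1_13 h1 h2) (BaseVal_O_0_16 h1 h2) (BaseVal_O_0_14 h1 h2) rfl).trans ?_
  norm_num
theorem BaseVal_O_3_17 (h1 : P_xO_rec) (h2 : P_x_basic) : xO 3 17 = 1876052 / 1576575 := by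
  refine (BaseVal_recO h1 2 13 _ _ _ _ (BaseVal_O_3_13 h1 h2) (BaseVal_O_2_16 h1 h2) (BaseVal_O_2_14 h1 h2) (BaseVal_O_1_15 h1 h2)).trans ?_
  norm_num
theorem BaseVal_O_5_17 (h1 : P_xO_rec) (h2 : P_x_basic) : xO 5 17 = 369921848 / 14189175 := by
  refine (BaseVal_recO h1 4 13 _ _ _ _ (BaseVal_O_5_13 h1 h2) (BaseVal_O_4_16 h1 h2) (BaseVal_O_4_14 h1 h2) (BaseVal_O_3_15 h1 h2)).trans ?_
  norm_num
theorem BaseVal_O_7_17 (h1 : P_xO_rec) (h2 : P_x_basic) : xO 7 17 = 1518476 / 4455 := by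
  refine (BaseVal_recO h1 6 13 _ _ _ _ (BaseVal_O_7_13 h1 h2) (BaseVal_O_6_16 h1 h2) (BaseVal_O_6_14 h1 h2) (BaseVal_O_5_15 h1 h2)).trans ?_
  norm_num
theorem BaseVal_O_9_17 (h1 : P_xO_rec) (h2 : P_x_basic) : xO 9 17 = 11224636 / 1575 := by
  refine (BaseVal_recO h1 8 13 _ _ _ _ (BaseVal_O_9_13 h1 h2) (BaseVal_O_8_16 h1 h2) (BaseVal_O_8_14 h1 h2) (BaseVal_O_7_15 h1 h2)).trans ?_
  norm_num
theorem BaseVal_O_11_17 (h1 : P_xO_rec) (h2 : P_x_basic) : xO 11 17 = 5091944 / 63 := by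
  refine (BaseVal_recO h1 10 13 _ _ _ _ (BaseVal_O_11_13 h1 h2) (BaseVal_O_10_16 h1 h2) (BaseVal_O_10_14 h1 h2) (BaseVal_O_9_15 h1 h2)).trans ?_
  norm_num
theorem BaseVal_O_13_17 (h1 : P_xO_rec) (h2 : P_x_basic) : xO 13 17 = 24027848 / 15 := by
  refine (BaseVal_recO h1 12 13 _ _ _ _ (BaseVal_O_13_13 h1 h2) (BaseVal_O_12_16 h1 h2) (BaseVal_O_12_14 h1 h2) (BaseVal_O_11_15 h1 h2)).trans ?_
  norm_num
theorem BaseVal_O_15_17 (h1 : P_xO_rec) (h2 : P_x_basic) : xO 15 17 = 11952400 := by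
  refine (BaseVal_recO h1 14 13 _ _ _ _ (BaseVal_Oo h2 _ _ (by norm_num)) (BaseVal_O_14_16 h1 h2) (BaseVal_O_14_14 h1 h2) (BaseVal_O_13_15 h1 h2)).trans ?_
  norm_num
theorem BaseVal_O_17_17 (h1 : P_xO_rec) (h2 : P_x_basic) : xO 17 17 = 211799312 := by
  refine (BaseVal_recO h1 16 13 _ _ _ _ (BaseVal_Oo h2 _ _ (by norm_num)) (BaseVal_O_16_16 h1 h2) (BaseVal_Oo h2 _ _ (by norm_num)) (BaseVal_O_15_15 h1 h2)).trans ?_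
  norm_num

theorem BaseVal_O_0_18 (h1 : P_xO_rec) (h2 : P_x_basic) : xO 0 18 = 0 := h2.2.2.2.2.2.2.2.2.2.1 18 (by norm_num)
theorem BaseVal_O_2_18 (h1 : P_xO_rec) (h2 : P_x_basic) : xO 2 18 = 2359034 / 6891885 := by
  refine (BaseVal_recO h1 1 14 _ _ _ _ (BaseVal_O_2_14 h1 h2) (BaseVal_O_1_17 h1 h2) (BaseVal_O_1_15 h1 h2) (BaseVal_O_0_16 h1 h2)).trans ?_
  norm_num
theorem BaseVal_O_4_18 (h1 : P_xO_rec) (h2 : P_x_basic) : xO 4 18 = 1003346368 / 212837625 := by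
  refine (BaseVal_recO h1 3 14 _ _ _ _ (BaseVal_O_4_14 h1 h2) (BaseVal_O_3_17 h1 h2) (BaseVal_O_3_15 h1 h2) (BaseVal_O_2_16 h1 h2)).trans ?_
  norm_num
theorem BaseVal_O_6_18 (h1 : P_xO_rec) (h2 : P_x_basic) : xO 6 18 = 1071144416 / 9823275 := by
  refine (BaseVal_recO h1 5 14 _ _ _ _ (BaseVal_O_6_14 h1 h2) (BaseVal_O_5_17 h1 h2) (BaseVal_O_5_15 h1 h2) (BaseVal_O_4_16 h1 h2)).trans ?_
  norm_num
theorem BaseVal_O_8_18 (h1 : P_xO_rec) (h2 : P_x_basic) : xO 8 18 = 95904448 / 66825 := by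
  refine (BaseVal_recO h1 7 14 _ _ _ _ (BaseVal_O_8_14 h1 h2) (BaseVal_O_7_17 h1 h2) (BaseVal_O_7_15 h1 h2) (BaseVal_O_6_16 h1 h2)).trans ?_
  norm_num
theorem BaseVal_O_10_18 (h1 : P_xO_rec) (h2 : P_x_basic) : xO 10 18 = 29223464 / 945 := by
  refine (BaseVal_recO h1 9 14 _ _ _ _ (BaseVal_O_10_14 h1 h2) (BaseVal_O_9_17 h1 h2) (BaseVal_O_9_15 h1 h2) (BaseVal_O_8_16 h1 h2)).trans ?_
  norm_num
theorem BaseVal_O_12_18 (h1 : P_xO_rec) (h2 : P_x_basic) : xO 12 18 = 338536256 / 945 := by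
  refine (BaseVal_recO h1 11 14 _ _ _ _ (BaseVal_O_12_14 h1 h2) (BaseVal_O_11_17 h1 h2) (BaseVal_O_11_15 h1 h2) (BaseVal_O_10_16 h1 h2)).trans ?_
  norm_num
theorem BaseVal_O_14_18 (h1 : P_xO_rec) (h2 : P_x_basic) : xO 14 18 = 326708144 / 45 := by
  refine (BaseVal_recO h1 13 14 _ _ _ _ (BaseVal_O_14_14 h1 h2) (BaseVal_O_13_17 h1 h2) (BaseVal_O_13_15 h1 h2) (BaseVal_O_12_16 h1 h2)).trans ?_
  norm_num
theorem BaseVal_O_16_18 (h1 : P_xO_rec) (h2 : P_x_basic) : xO 16 18 = 165592576 / 3 := by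
  refine (BaseVal_recO h1 15 14 _ _ _ _ (BaseVal_Oo h2 _ _ (by norm_num)) (BaseVal_O_15_17 h1 h2) (BaseVal_O_15_15 h1 h2) (BaseVal_O_14_16 h1 h2)).trans ?_
  norm_num
theorem BaseVal_O_18_18 (h1 : P_xO_rec) (h2 : P_x_basic) : xO 18 18 = 997313824 := by
  refine (BaseVal_recO h1 17 14 _ _ _ _ (BaseVal_Oo h2 _ _ (by norm_num)) (BaseVal_O_17_17 h1 h2) (BaseVal_Oo h2 _ _ (by norm_num)) (BaseVal_O_16_16 h1 h2)).trans ?_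
  norm_num

theorem BaseVal_O_1_19 (h1 : P_xO_rec) (h2 : P_x_basic) : xO 1 19 = 1 / 19 := by
  refine (BaseVal_recO h1 0 15 _ _ _ _ (BaseVal_O_1_15 h1 h2) (BaseVal_O_0_18 h1 h2) (BaseVal_O_0_16 h1 h2) rfl).trans ?_
  norm_num
theorem BaseVal_O_3_19 (h1 : P_xO_rec) (h2 : P_x_basic) : xO 3 19 = 10054376 / 7309575 := by
  refine (BaseVal_recO h1 2 15 _ _ _ _ (BaseVal_O_3_15 h1 h2) (BaseVal_O_2_18 h1 h2) (BaseVal_O_2_16 h1 h2) (BaseVal_O_1_17 h1 h2)).trans ?_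
  norm_num
theorem BaseVal_O_5_19 (h1 : P_xO_rec) (h2 : P_x_basic) : xO 5 19 = 871672168 / 42567525 := by
  refine (BaseVal_recO h1 4 15 _ _ _ _ (BaseVal_O_5_15 h1 h2) (BaseVal_O_4_18 h1 h2) (BaseVal_O_4_16 h1 h2) (BaseVal_O_3_17 h1 h2)).trans ?_
  norm_num
theorem BaseVal_O_7_19 (h1 : P_xO_rec) (h2 : P_x_basic) : xO 7 19 = 332301308 / 729729 := by
  refine (BaseVal_recO h1 6 15 _ _ _ _ (BaseVal_O_7_15 h1 h2) (BaseVal_O_6_18 h1 h2) (BaseVal_O_6_16 h1 h2) (BaseVal_O_5_17 h1 h2)).trans ?_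
  norm_num
theorem BaseVal_O_9_19 (h1 : P_xO_rec) (h2 : P_x_basic) : xO 9 19 = 327472756 / 51975 := by
  refine (BaseVal_recO h1 8 15 _ _ _ _ (BaseVal_O_9_15 h1 h2) (BaseVal_O_8_18 h1 h2) (BaseVal_O_8_16 h1 h2) (BaseVal_O_7_17 h1 h2)).trans ?_
  norm_num
theorem BaseVal_O_11_19 (h1 : P_xO_rec) (h2 : P_x_basic) : xO 11 19 = 25894616 / 189 := by
  refine (BaseVal_recO h1 10 15 _ _ _ _ (BaseVal_O_11_15 h1 h2) (BaseVal_O_10_18 h1 h2) (BaseVal_O_10_16 h1 h2) (BaseVal_O_9_17 h1 h2)).trans ?_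
  norm_num
theorem BaseVal_O_13_19 (h1 : P_xO_rec) (h2 : P_x_basic) : xO 13 19 = 1547336648 / 945 := by
  refine (BaseVal_recO h1 12 15 _ _ _ _ (BaseVal_O_13_15 h1 h2) (BaseVal_O_12_18 h1 h2) (BaseVal_O_12_16 h1 h2) (BaseVal_O_11_17 h1 h2)).trans ?_
  norm_num
theorem BaseVal_O_15_19 (h1 : P_xO_rec) (h2 : P_x_basic) : xO 15 19 = 101104880 / 3 := by
  refine (BaseVal_recO h1 14 15 _ _ _ _ (BaseVal_O_15_15 h1 h2) (BaseVal_O_14_18 h1 h2) (BaseVal_O_14_16 h1 h2) (BaseVal_O_13_17 h1 h2)).trans ?_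
  norm_num
theorem BaseVal_O_17_19 (h1 : P_xO_rec) (h2 : P_x_basic) : xO 17 19 = 785514512 / 3 := by
  refine (BaseVal_recO h1 16 15 _ _ _ _ (BaseVal_Oo h2 _ _ (by norm_num)) (BaseVal_O_16_18 h1 h2) (BaseVal_O_16_16 h1 h2) (BaseVal_O_15_17 h1 h2)).trans ?_
  norm_num
theorem BaseVal_O_19_19 (h1 : P_xO_rec) (h2 : P_x_basic) : xO 19 19 = 4809701440 := by
  refine (BaseVal_recO h1 18 15 _ _ _ _ (BaseVal_Oo h2 _ _ (by norm_num)) (BaseVal_O_18_18 h1 h2) (BaseVal_Oo h2 _ _ (by norm_num)) (BaseVal_O_17_17 h1 h2)).trans ?_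
  norm_num

theorem BaseVal_O_0_20 (h1 : P_xO_rec) (h2 : P_x_basic) : xO 0 20 = 0 := h2.2.2.2.2.2.2.2.2.2.1 20 (by norm_num)
theorem BaseVal_O_2_20 (h1 : P_xO_rec) (h2 : P_x_basic) : xO 2 20 = 15518938 / 72747675 := by
  refine (BaseVal_recO h1 1 16 _ _ _ _ (BaseVal_O_2_16 h1 h2) (BaseVal_O_1_19 h1 h2) (BaseVal_O_1_17 h1 h2) (BaseVal_O_0_18 h1 h2)).trans ?_
  norm_num
theorem BaseVal_O_4_20 (h1 : P_xO_rec) (h2 : P_x_basic) : xO 4 20 = 12114585578 / 2010133125 := by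
  refine (BaseVal_recO h1 3 16 _ _ _ _ (BaseVal_O_4_16 h1 h2) (BaseVal_O_3_19 h1 h2) (BaseVal_O_3_17 h1 h2) (BaseVal_O_2_18 h1 h2)).trans ?_
  norm_num
theorem BaseVal_O_6_20 (h1 : P_xO_rec) (h2 : P_x_basic) : xO 6 20 = 1221230056 / 14189175 := by
  refine (BaseVal_recO h1 5 16 _ _ _ _ (BaseVal_O_6_16 h1 h2) (BaseVal_O_5_19 h1 h2) (BaseVal_O_5_17 h1 h2) (BaseVal_O_4_18 h1 h2)).trans ?_
  norm_num
theorem BaseVal_O_8_20 (h1 : P_xO_rec) (h2 : P_x_basic) : xO 8 20 = 181349590784 / 91216125 := by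
  refine (BaseVal_recO h1 7 16 _ _ _ _ (BaseVal_O_8_16 h1 h2) (BaseVal_O_7_19 h1 h2) (BaseVal_O_7_17 h1 h2) (BaseVal_O_6_18 h1 h2)).trans ?_
  norm_num
theorem BaseVal_O_10_20 (h1 : P_xO_rec) (h2 : P_x_basic) : xO 10 20 = 291915032 / 10395 := by
  refine (BaseVal_recO h1 9 16 _ _ _ _ (BaseVal_O_10_16 h1 h2) (BaseVal_O_9_19 h1 h2) (BaseVal_O_9_17 h1 h2) (BaseVal_O_8_18 h1 h2)).trans ?_
  norm_num
theorem BaseVal_O_12_20 (h1 : P_xO_rec) (h2 : P_x_basic) : xO 12 20 = 986227208 / 1575 := by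
  refine (BaseVal_recO h1 11 16 _ _ _ _ (BaseVal_O_12_16 h1 h2) (BaseVal_O_11_19 h1 h2) (BaseVal_O_11_17 h1 h2) (BaseVal_O_10_18 h1 h2)).trans ?_
  norm_num
theorem BaseVal_O_14_20 (h1 : P_xO_rec) (h2 : P_x_basic) : xO 14 20 = 1032732256 / 135 := by
  refine (BaseVal_recO h1 13 16 _ _ _ _ (BaseVal_O_14_16 h1 h2) (BaseVal_O_13_19 h1 h2) (BaseVal_O_13_17 h1 h2) (BaseVal_O_12_18 h1 h2)).trans ?_
  norm_num
theorem BaseVal_O_16_20 (h1 : P_xO_rec) (h2 : P_x_basic) : xO 16 20 = 2409161728 / 15 := by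
  refine (BaseVal_recO h1 15 16 _ _ _ _ (BaseVal_O_16_16 h1 h2) (BaseVal_O_15_19 h1 h2) (BaseVal_O_15_17 h1 h2) (BaseVal_O_14_18 h1 h2)).trans ?_
  norm_num
theorem BaseVal_O_18_20 (h1 : P_xO_rec) (h2 : P_x_basic) : xO 18 20 = 1270795872 := by
  refine (BaseVal_recO h1 17 16 _ _ _ _ (BaseVal_Oo h2 _ _ (by norm_num)) (BaseVal_O_17_19 h1 h2) (BaseVal_O_17_17 h1 h2) (BaseVal_O_16_18 h1 h2)).trans ?_
  norm_num
theorem BaseVal_O_20_20 (h1 : P_xO_rec) (h2 : P_x_basic) : xO 20 20 = 23758664096 := by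
  refine (BaseVal_recO h1 19 16 _ _ _ _ (BaseVal_Oo h2 _ _ (by norm_num)) (BaseVal_O_19_19 h1 h2) (BaseVal_Oo h2 _ _ (by norm_num)) (BaseVal_O_18_18 h1 h2)).trans ?_
  norm_num

theorem BaseVal_O_1_21 (h1 : P_xO_rec) (h2 : P_x_basic) : xO 1 21 = 1 / 21 := by
  refine (BaseVal_recO h1 0 17 _ _ _ _ (BaseVal_O_1_17 h1 h2) (BaseVal_O_0_20 h1 h2) (BaseVal_O_0_18 h1 h2) rfl).trans ?_
  norm_num
theorem BaseVal_O_3_21 (h1 : P_xO_rec) (h2 : P_x_basic) : xO 3 21 = 1357323490 / 1283268987 := by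
  refine (BaseVal_recO h1 2 17 _ _ _ _ (BaseVal_O_3_17 h1 h2) (BaseVal_O_2_20 h1 h2) (BaseVal_O_2_18 h1 h2) (BaseVal_O_1_19 h1 h2)).trans ?_
  norm_num
theorem BaseVal_O_5_21 (h1 : P_xO_rec) (h2 : P_x_basic) : xO 5 21 = 271066463566 / 10854718875 := by
  refine (BaseVal_recO h1 4 17 _ _ _ _ (BaseVal_O_5_17 h1 h2) (BaseVal_O_4_20 h1 h2) (BaseVal_O_4_18 h1 h2) (BaseVal_O_3_19 h1 h2)).trans ?_
  norm_num
theorem BaseVal_O_7_21 (h1 : P_xO_rec) (h2 : P_x_basic) : xO 7 21 = 1607854436 / 4209975 := by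
  refine (BaseVal_recO h1 6 17 _ _ _ _ (BaseVal_O_7_17 h1 h2) (BaseVal_O_6_20 h1 h2) (BaseVal_O_6_18 h1 h2) (BaseVal_O_5_19 h1 h2)).trans ?_
  norm_num
theorem BaseVal_O_9_21 (h1 : P_xO_rec) (h2 : P_x_basic) : xO 9 21 = 1872479525524 / 212837625 := by
  refine (BaseVal_recO h1 8 17 _ _ _ _ (BaseVal_O_9_17 h1 h2) (BaseVal_O_8_20 h1 h2) (BaseVal_O_8_18 h1 h2) (BaseVal_O_7_19 h1 h2)).trans ?_
  norm_num
theorem BaseVal_O_11_21 (h1 : P_xO_rec) (h2 : P_x_basic) : xO 11 21 = 366680624 / 2835 := by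
  refine (BaseVal_recO h1 10 17 _ _ _ _ (BaseVal_O_11_17 h1 h2) (BaseVal_O_10_20 h1 h2) (BaseVal_O_10_18 h1 h2) (BaseVal_O_9_19 h1 h2)).trans ?_
  norm_num
theorem BaseVal_O_13_21 (h1 : P_xO_rec) (h2 : P_x_basic) : xO 13 21 = 41446549456 / 14175 := by
  refine (BaseVal_recO h1 12 17 _ _ _ _ (BaseVal_O_13_17 h1 h2) (BaseVal_O_12_20 h1 h2) (BaseVal_O_12_18 h1 h2) (BaseVal_O_11_19 h1 h2)).trans ?_
  norm_num
theorem BaseVal_O_15_21 (h1 : P_xO_rec) (h2 : P_x_basic) : xO 15 21 = 6936247184 / 189 := by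
  refine (BaseVal_recO h1 14 17 _ _ _ _ (BaseVal_O_15_17 h1 h2) (BaseVal_O_14_20 h1 h2) (BaseVal_O_14_18 h1 h2) (BaseVal_O_13_19 h1 h2)).trans ?_
  norm_num
theorem BaseVal_O_17_21 (h1 : P_xO_rec) (h2 : P_x_basic) : xO 17 21 = 35220368528 / 45 := by
  refine (BaseVal_recO h1 16 17 _ _ _ _ (BaseVal_O_17_17 h1 h2) (BaseVal_O_16_20 h1 h2) (BaseVal_O_16_18 h1 h2) (BaseVal_O_15_19 h1 h2)).trans ?_
  norm_num
theorem BaseVal_O_19_21 (h1 : P_xO_rec) (h2 : P_x_basic) : xO 19 21 = 18948962656 / 3 := by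
  refine (BaseVal_recO h1 18 17 _ _ _ _ (BaseVal_Oo h2 _ _ (by norm_num)) (BaseVal_O_18_20 h1 h2) (BaseVal_O_18_18 h1 h2) (BaseVal_O_17_19 h1 h2)).trans ?_
  norm_num
theorem BaseVal_O_21_21 (h1 : P_xO_rec) (h2 : P_x_basic) : xO 21 21 = 119952692896 := by
  refine (BaseVal_recO h1 20 17 _ _ _ _ (BaseVal_Oo h2 _ _ (by norm_num)) (BaseVal_O_20_20 h1 h2) (BaseVal_Oo h2 _ _ (by norm_num)) (BaseVal_O_19_19 h1 h2)).trans ?_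
  norm_num

theorem BaseVal_O_0_22 (h1 : P_xO_rec) (h2 : P_x_basic) : xO 0 22 = 0 := h2.2.2.2.2.2.2.2.2.2.1 22 (by norm_num)
theorem BaseVal_O_2_22 (h1 : P_xO_rec) (h2 : P_x_basic) : xO 2 22 = 46280246 / 160044885 := by
  refine (BaseVal_recO h1 1 18 _ _ _ _ (BaseVal_O_2_18 h1 h2) (BaseVal_O_1_21 h1 h2) (BaseVal_O_1_19 h1 h2) (BaseVal_O_0_20 h1 h2)).trans ?_
  norm_num
theorem BaseVal_O_4_22 (h1 : P_xO_rec) (h2 : P_x_basic) : xO 4 22 = 708330127184 / 160408623375 := by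
  refine (BaseVal_recO h1 3 18 _ _ _ _ (BaseVal_O_4_18 h1 h2) (BaseVal_O_3_21 h1 h2) (BaseVal_O_3_19 h1 h2) (BaseVal_O_2_20 h1 h2)).trans ?_
  norm_num
theorem BaseVal_O_6_22 (h1 : P_xO_rec) (h2 : P_x_basic) : xO 6 22 = 397389128732 / 3618239625 := by
  refine (BaseVal_recO h1 5 18 _ _ _ _ (BaseVal_O_6_18 h1 h2) (BaseVal_O_5_21 h1 h2) (BaseVal_O_5_19 h1 h2) (BaseVal_O_4_20 h1 h2)).trans ?_
  norm_num
theorem BaseVal_O_8_22 (h1 : P_xO_rec) (h2 : P_x_basic) : xO 8 22 = 8447135168 / 4975425 := by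
  refine (BaseVal_recO h1 7 18 _ _ _ _ (BaseVal_O_8_18 h1 h2) (BaseVal_O_7_21 h1 h2) (BaseVal_O_7_19 h1 h2) (BaseVal_O_6_20 h1 h2)).trans ?_
  norm_num
theorem BaseVal_O_10_22 (h1 : P_xO_rec) (h2 : P_x_basic) : xO 10 22 = 1715378208248 / 42567525 := by
  refine (BaseVal_recO h1 9 18 _ _ _ _ (BaseVal_O_10_18 h1 h2) (BaseVal_O_9_21 h1 h2) (BaseVal_O_9_19 h1 h2) (BaseVal_O_8_20 h1 h2)).trans ?_
  norm_num
theorem BaseVal_O_12_22 (h1 : P_xO_rec) (h2 : P_x_basic) : xO 12 22 = 6308516224 / 10395 := by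
  refine (BaseVal_recO h1 11 18 _ _ _ _ (BaseVal_O_12_18 h1 h2) (BaseVal_O_11_21 h1 h2) (BaseVal_O_11_19 h1 h2) (BaseVal_O_10_20 h1 h2)).trans ?_
  norm_num
theorem BaseVal_O_14_22 (h1 : P_xO_rec) (h2 : P_x_basic) : xO 14 22 = 28396543712 / 2025 := by
  refine (BaseVal_recO h1 13 18 _ _ _ _ (BaseVal_O_14_18 h1 h2) (BaseVal_O_13_21 h1 h2) (BaseVal_O_13_19 h1 h2) (BaseVal_O_12_20 h1 h2)).trans ?_
  norm_num
theorem BaseVal_O_16_22 (h1 : P_xO_rec) (h2 : P_x_basic) : xO 16 22 = 33985167872 / 189 := by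
  refine (BaseVal_recO h1 15 18 _ _ _ _ (BaseVal_O_16_18 h1 h2) (BaseVal_O_15_21 h1 h2) (BaseVal_O_15_19 h1 h2) (BaseVal_O_14_20 h1 h2)).trans ?_
  norm_num
theorem BaseVal_O_18_22 (h1 : P_xO_rec) (h2 : P_x_basic) : xO 18 22 = 19522677856 / 5 := by
  refine (BaseVal_recO h1 17 18 _ _ _ _ (BaseVal_O_18_18 h1 h2) (BaseVal_O_17_21 h1 h2) (BaseVal_O_17_19 h1 h2) (BaseVal_O_16_20 h1 h2)).trans ?_
  norm_num
theorem BaseVal_O_20_22 (h1 : P_xO_rec) (h2 : P_x_basic) : xO 20 22 = 96194028800 / 3 := by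
  refine (BaseVal_recO h1 19 18 _ _ _ _ (BaseVal_Oo h2 _ _ (by norm_num)) (BaseVal_O_19_21 h1 h2) (BaseVal_O_19_19 h1 h2) (BaseVal_O_18_20 h1 h2)).trans ?_
  norm_num
theorem BaseVal_O_22_22 (h1 : P_xO_rec) (h2 : P_x_basic) : xO 22 22 = 618884638912 := by
  refine (BaseVal_recO h1 21 18 _ _ _ _ (BaseVal_Oo h2 _ _ (by norm_num)) (BaseVal_O_21_21 h1 h2) (BaseVal_Oo h2 _ _ (by norm_num)) (BaseVal_O_20_20 h1 h2)).trans ?_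
  norm_num

theorem BaseVal_O_1_23 (h1 : P_xO_rec) (h2 : P_x_basic) : xO 1 23 = 1 / 23 := by
  refine (BaseVal_recO h1 0 19 _ _ _ _ (BaseVal_O_1_19 h1 h2) (BaseVal_O_0_22 h1 h2) (BaseVal_O_0_20 h1 h2) rfl).trans ?_
  norm_num
theorem BaseVal_O_3_23 (h1 : P_xO_rec) (h2 : P_x_basic) : xO 3 23 = 4081038662 / 3360942585 := by
  refine (BaseVal_recO h1 2 19 _ _ _ _ (BaseVal_O_3_19 h1 h2) (BaseVal_O_2_22 h1 h2) (BaseVal_O_2_20 h1 h2) (BaseVal_O_1_21 h1 h2)).trans ?_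
  norm_num
theorem BaseVal_O_5_23 (h1 : P_xO_rec) (h2 : P_x_basic) : xO 5 23 = 9675515667182 / 481225870125 := by
  refine (BaseVal_recO h1 4 19 _ _ _ _ (BaseVal_O_5_19 h1 h2) (BaseVal_O_4_22 h1 h2) (BaseVal_O_4_20 h1 h2) (BaseVal_O_3_21 h1 h2)).trans ?_
  norm_num
theorem BaseVal_O_7_23 (h1 : P_xO_rec) (h2 : P_x_basic) : xO 7 23 = 746498803084 / 1550674125 := by
  refine (BaseVal_recO h1 6 19 _ _ _ _ (BaseVal_O_7_19 h1 h2) (BaseVal_O_6_22 h1 h2) (BaseVal_O_6_20 h1 h2) (BaseVal_O_5_21 h1 h2)).trans ?_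
  norm_num
theorem BaseVal_O_9_23 (h1 : P_xO_rec) (h2 : P_x_basic) : xO 9 23 = 238460225924 / 30405375 := by
  refine (BaseVal_recO h1 8 19 _ _ _ _ (BaseVal_O_9_19 h1 h2) (BaseVal_O_8_22 h1 h2) (BaseVal_O_8_20 h1 h2) (BaseVal_O_7_21 h1 h2)).trans ?_
  norm_num
theorem BaseVal_O_11_23 (h1 : P_xO_rec) (h2 : P_x_basic) : xO 11 23 = 727364448032 / 3869775 := by
  refine (BaseVal_recO h1 10 19 _ _ _ _ (BaseVal_O_11_19 h1 h2) (BaseVal_O_10_22 h1 h2) (BaseVal_O_10_20 h1 h2) (BaseVal_O_9_21 h1 h2)).trans ?_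
  norm_num
theorem BaseVal_O_13_23 (h1 : P_xO_rec) (h2 : P_x_basic) : xO 13 23 = 50707513168 / 17325 := by
  refine (BaseVal_recO h1 12 19 _ _ _ _ (BaseVal_O_13_19 h1 h2) (BaseVal_O_12_22 h1 h2) (BaseVal_O_12_20 h1 h2) (BaseVal_O_11_21 h1 h2)).trans ?_
  norm_num
theorem BaseVal_O_15_23 (h1 : P_xO_rec) (h2 : P_x_basic) : xO 15 23 = 9270665168 / 135 := by
  refine (BaseVal_recO h1 14 19 _ _ _ _ (BaseVal_O_15_19 h1 h2) (BaseVal_O_14_22 h1 h2) (BaseVal_O_14_20 h1 h2) (BaseVal_O_13_21 h1 h2)).trans ?_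
  norm_num
theorem BaseVal_O_17_23 (h1 : P_xO_rec) (h2 : P_x_basic) : xO 17 23 = 852328348016 / 945 := by
  refine (BaseVal_recO h1 16 19 _ _ _ _ (BaseVal_O_17_19 h1 h2) (BaseVal_O_16_22 h1 h2) (BaseVal_O_16_20 h1 h2) (BaseVal_O_15_21 h1 h2)).trans ?_
  norm_num
theorem BaseVal_O_19_23 (h1 : P_xO_rec) (h2 : P_x_basic) : xO 19 23 = 99432701216 / 5 := by
  refine (BaseVal_recO h1 18 19 _ _ _ _ (BaseVal_O_19_19 h1 h2) (BaseVal_O_18_22 h1 h2) (BaseVal_O_18_20 h1 h2) (BaseVal_O_17_21 h1 h2)).trans ?_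
  norm_num
theorem BaseVal_O_21_23 (h1 : P_xO_rec) (h2 : P_x_basic) : xO 21 23 = 166310648672 := by
  refine (BaseVal_recO h1 20 19 _ _ _ _ (BaseVal_Oo h2 _ _ (by norm_num)) (BaseVal_O_20_22 h1 h2) (BaseVal_O_20_20 h1 h2) (BaseVal_O_19_21 h1 h2)).trans ?_
  norm_num
theorem BaseVal_O_23_23 (h1 : P_xO_rec) (h2 : P_x_basic) : xO 23 23 = 3257843882624 := by
  refine (BaseVal_recO h1 22 19 _ _ _ _ (BaseVal_Oo h2 _ _ (by norm_num)) (BaseVal_O_22_22 h1 h2) (BaseVal_Oo h2 _ _ (by norm_num)) (BaseVal_O_21_21 h1 h2)).trans ?_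
  norm_num

theorem BaseVal_O_0_24 (h1 : P_xO_rec) (h2 : P_x_basic) : xO 0 24 = 0 := h2.2.2.2.2.2.2.2.2.2.1 24 (by norm_num)
theorem BaseVal_O_2_24 (h1 : P_xO_rec) (h2 : P_x_basic) : xO 2 24 = 186088972 / 1003917915 := by
  refine (BaseVal_recO h1 1 20 _ _ _ _ (BaseVal_O_2_20 h1 h2) (BaseVal_O_1_23 h1 h2) (BaseVal_O_1_21 h1 h2) (BaseVal_O_0_22 h1 h2)).trans ?_
  norm_num
theorem BaseVal_O_4_24 (h1 : P_xO_rec) (h2 : P_x_basic) : xO 4 24 = 29355250167296 / 5293484571375 := by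
  refine (BaseVal_recO h1 3 20 _ _ _ _ (BaseVal_O_4_20 h1 h2) (BaseVal_O_3_23 h1 h2) (BaseVal_O_3_21 h1 h2) (BaseVal_O_2_22 h1 h2)).trans ?_
  norm_num
theorem BaseVal_O_6_24 (h1 : P_xO_rec) (h2 : P_x_basic) : xO 6 24 = 127783353967876 / 1443677610375 := by
  refine (BaseVal_recO h1 5 20 _ _ _ _ (BaseVal_O_6_20 h1 h2) (BaseVal_O_5_23 h1 h2) (BaseVal_O_5_21 h1 h2) (BaseVal_O_4_22 h1 h2)).trans ?_
  norm_num
theorem BaseVal_O_8_24 (h1 : P_xO_rec) (h2 : P_x_basic) : xO 8 24 = 6142950108916 / 2791213425 := by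
  refine (BaseVal_recO h1 7 20 _ _ _ _ (BaseVal_O_8_20 h1 h2) (BaseVal_O_7_23 h1 h2) (BaseVal_O_7_21 h1 h2) (BaseVal_O_6_22 h1 h2)).trans ?_
  norm_num
theorem BaseVal_O_10_24 (h1 : P_xO_rec) (h2 : P_x_basic) : xO 10 24 = 4686942176768 / 127702575 := by
  refine (BaseVal_recO h1 9 20 _ _ _ _ (BaseVal_O_10_20 h1 h2) (BaseVal_O_9_23 h1 h2) (BaseVal_O_9_21 h1 h2) (BaseVal_O_8_22 h1 h2)).trans ?_
  norm_num
theorem BaseVal_O_12_24 (h1 : P_xO_rec) (h2 : P_x_basic) : xO 12 24 = 139637242496 / 154791 := by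
  refine (BaseVal_recO h1 11 20 _ _ _ _ (BaseVal_O_12_20 h1 h2) (BaseVal_O_11_23 h1 h2) (BaseVal_O_11_21 h1 h2) (BaseVal_O_10_22 h1 h2)).trans ?_
  norm_num
theorem BaseVal_O_14_24 (h1 : P_xO_rec) (h2 : P_x_basic) : xO 14 24 = 961612137152 / 66825 := by
  refine (BaseVal_recO h1 13 20 _ _ _ _ (BaseVal_O_14_20 h1 h2) (BaseVal_O_13_23 h1 h2) (BaseVal_O_13_21 h1 h2) (BaseVal_O_12_22 h1 h2)).trans ?_
  norm_num
theorem BaseVal_O_16_24 (h1 : P_xO_rec) (h2 : P_x_basic) : xO 16 24 = 195229273664 / 567 := by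
  refine (BaseVal_recO h1 15 20 _ _ _ _ (BaseVal_O_16_20 h1 h2) (BaseVal_O_15_23 h1 h2) (BaseVal_O_15_21 h1 h2) (BaseVal_O_14_22 h1 h2)).trans ?_
  norm_num
theorem BaseVal_O_18_24 (h1 : P_xO_rec) (h2 : P_x_basic) : xO 18 24 = 1453757755456 / 315 := by
  refine (BaseVal_recO h1 17 20 _ _ _ _ (BaseVal_O_18_20 h1 h2) (BaseVal_O_17_23 h1 h2) (BaseVal_O_17_21 h1 h2) (BaseVal_O_16_22 h1 h2)).trans ?_
  norm_num
theorem BaseVal_O_20_24 (h1 : P_xO_rec) (h2 : P_x_basic) : xO 20 24 = 931107758080 / 9 := by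
  refine (BaseVal_recO h1 19 20 _ _ _ _ (BaseVal_O_20_20 h1 h2) (BaseVal_O_19_23 h1 h2) (BaseVal_O_19_21 h1 h2) (BaseVal_O_18_22 h1 h2)).trans ?_
  norm_num
theorem BaseVal_O_22_24 (h1 : P_xO_rec) (h2 : P_x_basic) : xO 22 24 = 2638959243712 / 3 := by
  refine (BaseVal_recO h1 21 20 _ _ _ _ (BaseVal_Oo h2 _ _ (by norm_num)) (BaseVal_O_21_23 h1 h2) (BaseVal_O_21_21 h1 h2) (BaseVal_O_20_22 h1 h2)).trans ?_
  norm_num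
theorem BaseVal_O_24_24 (h1 : P_xO_rec) (h2 : P_x_basic) : xO 24 24 = 17492190577600 := by
  refine (BaseVal_recO h1 23 20 _ _ _ _ (BaseVal_Oo h2 _ _ (by norm_num)) (BaseVal_O_23_23 h1 h2) (BaseVal_Oo h2 _ _ (by norm_num)) (BaseVal_O_22_22 h1 h2)).trans ?_
  norm_num

theorem BaseVal_O_1_25 (h1 : P_xO_rec) (h2 : P_x_basic) : xO 1 25 = 1 / 25 := by
  refine (BaseVal_recO h1 0 21 _ _ _ _ (BaseVal_O_1_21 h1 h2) (BaseVal_O_0_24 h1 h2) (BaseVal_O_0_22 h1 h2) rfl).trans ?_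
  norm_num
theorem BaseVal_O_3_25 (h1 : P_xO_rec) (h2 : P_x_basic) : xO 3 25 = 97222447334 / 101712736125 := by
  refine (BaseVal_recO h1 2 21 _ _ _ _ (BaseVal_O_3_21 h1 h2) (BaseVal_O_2_24 h1 h2) (BaseVal_O_2_22 h1 h2) (BaseVal_O_1_23 h1 h2)).trans ?_
  norm_num
theorem BaseVal_O_5_25 (h1 : P_xO_rec) (h2 : P_x_basic) : xO 5 25 = 1056065031018082 / 44112371428125 := by
  refine (BaseVal_recO h1 4 21 _ _ _ _ (BaseVal_O_5_21 h1 h2) (BaseVal_O_4_24 h1 h2) (BaseVal_O_4_22 h1 h2) (BaseVal_O_3_23 h1 h2)).trans ?_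
  norm_num
theorem BaseVal_O_7_25 (h1 : P_xO_rec) (h2 : P_x_basic) : xO 7 25 = 1483922237648 / 3618239625 := by
  refine (BaseVal_recO h1 6 21 _ _ _ _ (BaseVal_O_7_21 h1 h2) (BaseVal_O_6_24 h1 h2) (BaseVal_O_6_22 h1 h2) (BaseVal_O_5_23 h1 h2)).trans ?_
  norm_num
theorem BaseVal_O_9_25 (h1 : P_xO_rec) (h2 : P_x_basic) : xO 9 25 = 78929249183608 / 7753370625 := by
  refine (BaseVal_recO h1 8 21 _ _ _ _ (BaseVal_O_9_21 h1 h2) (BaseVal_O_8_24 h1 h2) (BaseVal_O_8_22 h1 h2) (BaseVal_O_7_23 h1 h2)).trans ?_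
  norm_num
theorem BaseVal_O_11_25 (h1 : P_xO_rec) (h2 : P_x_basic) : xO 11 25 = 2055244262048 / 11609325 := by
  refine (BaseVal_recO h1 10 21 _ _ _ _ (BaseVal_O_11_21 h1 h2) (BaseVal_O_10_24 h1 h2) (BaseVal_O_10_22 h1 h2) (BaseVal_O_9_23 h1 h2)).trans ?_
  norm_num
theorem BaseVal_O_13_25 (h1 : P_xO_rec) (h2 : P_x_basic) : xO 13 25 = 72260586834992 / 16372125 := by
  refine (BaseVal_recO h1 12 21 _ _ _ _ (BaseVal_O_13_21 h1 h2) (BaseVal_O_12_24 h1 h2) (BaseVal_O_12_22 h1 h2) (BaseVal_O_11_23 h1 h2)).trans ?_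
  norm_num
theorem BaseVal_O_15_25 (h1 : P_xO_rec) (h2 : P_x_basic) : xO 15 25 = 322813845872 / 4455 := by
  refine (BaseVal_recO h1 14 21 _ _ _ _ (BaseVal_O_15_21 h1 h2) (BaseVal_O_14_24 h1 h2) (BaseVal_O_14_22 h1 h2) (BaseVal_O_13_23 h1 h2)).trans ?_
  norm_num
theorem BaseVal_O_17_25 (h1 : P_xO_rec) (h2 : P_x_basic) : xO 17 25 = 24962258614192 / 14175 := by
  refine (BaseVal_recO h1 16 21 _ _ _ _ (BaseVal_O_17_21 h1 h2) (BaseVal_O_16_24 h1 h2) (BaseVal_O_16_22 h1 h2) (BaseVal_O_15_23 h1 h2)).trans ?_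
  norm_num
theorem BaseVal_O_19_25 (h1 : P_xO_rec) (h2 : P_x_basic) : xO 19 25 = 7597517483104 / 315 := by
  refine (BaseVal_recO h1 18 21 _ _ _ _ (BaseVal_O_19_21 h1 h2) (BaseVal_O_18_24 h1 h2) (BaseVal_O_18_22 h1 h2) (BaseVal_O_17_23 h1 h2)).trans ?_
  norm_num
theorem BaseVal_O_21_25 (h1 : P_xO_rec) (h2 : P_x_basic) : xO 21 25 = 8230377854048 / 15 := by
  refine (BaseVal_recO h1 20 21 _ _ _ _ (BaseVal_O_21_21 h1 h2) (BaseVal_O_20_24 h1 h2) (BaseVal_O_20_22 h1 h2) (BaseVal_O_19_23 h1 h2)).trans ?_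
  norm_num
theorem BaseVal_O_23_25 (h1 : P_xO_rec) (h2 : P_x_basic) : xO 23 25 = 14234346694976 / 3 := by
  refine (BaseVal_recO h1 22 21 _ _ _ _ (BaseVal_Oo h2 _ _ (by norm_num)) (BaseVal_O_22_24 h1 h2) (BaseVal_O_22_22 h1 h2) (BaseVal_O_21_23 h1 h2)).trans ?_
  norm_num
theorem BaseVal_O_25_25 (h1 : P_xO_rec) (h2 : P_x_basic) : xO 25 25 = 95680443760576 := by
  refine (BaseVal_recO h1 24 21 _ _ _ _ (BaseVal_Oo h2 _ _ (by norm_num)) (BaseVal_O_24_24 h1 h2) (BaseVal_Oo h2 _ _ (by norm_num)) (BaseVal_O_23_23 h1 h2)).trans ?_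
  norm_num

theorem p_base_tt (h1 : P_xE_rec) (h2 : P_x_basic) : P_base_tt := by
  intro n h hn1 hn2 hh
  interval_cases n
  · have hm := BaseVal_mom.2.2.2.2.2.2.2.2.2.2.2.2.2.2.2.2.2.2.2.2.2.1
    have hh2 : h ≤ 10 := by omega
    interval_cases h
    · rw [show 21 - 2 * 0 = 21 from rfl, BaseVal_E_21_21 h1 h2, hm]; norm_num [tt]
    · rw [show 21 - 2 * 1 = 19 from rfl, BaseVal_E_19_21 h1 h2, hm]; norm_num [tt]
    · rw [show 21 - 2 * 2 = 17 from rfl, BaseVal_E_17_21 h1 h2, hm]; norm_num [tt]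
    · rw [show 21 - 2 * 3 = 15 from rfl, BaseVal_E_15_21 h1 h2, hm]; norm_num [tt]
    · rw [show 21 - 2 * 4 = 13 from rfl, BaseVal_E_13_21 h1 h2, hm]; norm_num [tt]
    · rw [show 21 - 2 * 5 = 11 from rfl, BaseVal_E_11_21 h1 h2, hm]; norm_num [tt]
    · rw [show 21 - 2 * 6 = 9 from rfl, BaseVal_E_9_21 h1 h2, hm]; norm_num [tt]
    · rw [show 21 - 2 * 7 = 7 from rfl, BaseVal_E_7_21 h1 h2, hm]; norm_num [tt]
    · rw [show 21 - 2 * 8 = 5 from rfl, BaseVal_E_5_21 h1 h2, hm]; norm_num [tt]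
    · rw [show 21 - 2 * 9 = 3 from rfl, BaseVal_E_3_21 h1 h2, hm]; norm_num [tt]
    · rw [show 21 - 2 * 10 = 1 from rfl, BaseVal_E_1_21 h1 h2, hm]; norm_num [tt]
  · have hm := BaseVal_mom.2.2.2.2.2.2.2.2.2.2.2.2.2.2.2.2.2.2.2.2.2.2.1
    have hh2 : h ≤ 11 := by omega
    interval_cases h
    · rw [show 22 - 2 * 0 = 22 from rfl, BaseVal_E_22_22 h1 h2, hm]; norm_num [tt]
    · rw [show 22 - 2 * 1 = 20 from rfl, BaseVal_E_20_22 h1 h2, hm]; norm_num [tt]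
    · rw [show 22 - 2 * 2 = 18 from rfl, BaseVal_E_18_22 h1 h2, hm]; norm_num [tt]
    · rw [show 22 - 2 * 3 = 16 from rfl, BaseVal_E_16_22 h1 h2, hm]; norm_num [tt]
    · rw [show 22 - 2 * 4 = 14 from rfl, BaseVal_E_14_22 h1 h2, hm]; norm_num [tt]
    · rw [show 22 - 2 * 5 = 12 from rfl, BaseVal_E_12_22 h1 h2, hm]; norm_num [tt]
    · rw [show 22 - 2 * 6 = 10 from rfl, BaseVal_E_10_22 h1 h2, hm]; norm_num [tt]
    · rw [show 22 - 2 * 7 = 8 from rfl, BaseVal_E_8_22 h1 h2, hm]; norm_num [tt]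
    · rw [show 22 - 2 * 8 = 6 from rfl, BaseVal_E_6_22 h1 h2, hm]; norm_num [tt]
    · rw [show 22 - 2 * 9 = 4 from rfl, BaseVal_E_4_22 h1 h2, hm]; norm_num [tt]
    · rw [show 22 - 2 * 10 = 2 from rfl, BaseVal_E_2_22 h1 h2, hm]; norm_num [tt]
    · rw [show 22 - 2 * 11 = 0 from rfl, BaseVal_E_0_22 h1 h2, hm]; norm_num [tt]

theorem p_base_s1 (h1 : P_xO_rec) (h2 : P_x_basic) (h3 : P_xO_sum) : P_base_s1 := by
  intro n h hn1 hn2 hh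
  interval_cases n
  · have hm := BaseVal_mom.2.2.2.2.2.2.2.2.2.2.2.2.2.2.2.2.2.2.2.2.2.2.1
    have hh2 : h ≤ 11 := by omega
    interval_cases h
    · rw [show 22 - 2 * 0 = 22 from rfl, BaseVal_O_22_22 h1 h2, hm]; norm_num [s1]
    · rw [show 22 - 2 * 1 = 20 from rfl, BaseVal_O_20_22 h1 h2, hm]; norm_num [s1]
    · rw [show 22 - 2 * 2 = 18 from rfl, BaseVal_O_18_22 h1 h2, hm]; norm_num [s1]
    · rw [show 22 - 2 * 3 = 16 from rfl, BaseVal_O_16_22 h1 h2, hm]; norm_num [s1]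
    · rw [show 22 - 2 * 4 = 14 from rfl, BaseVal_O_14_22 h1 h2, hm]; norm_num [s1]
    · rw [show 22 - 2 * 5 = 12 from rfl, BaseVal_O_12_22 h1 h2, hm]; norm_num [s1]
    · rw [show 22 - 2 * 6 = 10 from rfl, BaseVal_O_10_22 h1 h2, hm]; norm_num [s1]
    · rw [show 22 - 2 * 7 = 8 from rfl, BaseVal_O_8_22 h1 h2, hm]; norm_num [s1]
    · rw [show 22 - 2 * 8 = 6 from rfl, BaseVal_O_6_22 h1 h2, hm]; norm_num [s1]
    · rw [show 22 - 2 * 9 = 4 from rfl, BaseVal_O_4_22 h1 h2, hm]; norm_num [s1]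
    · rw [show 22 - 2 * 10 = 2 from rfl, BaseVal_O_2_22 h1 h2, hm]; norm_num [s1]
    · rw [show 22 - 2 * 11 = 0 from rfl, BaseVal_O_0_22 h1 h2, hm]; norm_num [s1]
  · have hm := BaseVal_mom.2.2.2.2.2.2.2.2.2.2.2.2.2.2.2.2.2.2.2.2.2.2.2.1
    have hh2 : h ≤ 11 := by omega
    interval_cases h
    · rw [show 23 - 2 * 0 = 23 from rfl, BaseVal_O_23_23 h1 h2, hm]; norm_num [s1]
    · rw [show 23 - 2 * 1 = 21 from rfl, BaseVal_O_21_23 h1 h2, hm]; norm_num [s1]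
    · rw [show 23 - 2 * 2 = 19 from rfl, BaseVal_O_19_23 h1 h2, hm]; norm_num [s1]
    · rw [show 23 - 2 * 3 = 17 from rfl, BaseVal_O_17_23 h1 h2, hm]; norm_num [s1]
    · rw [show 23 - 2 * 4 = 15 from rfl, BaseVal_O_15_23 h1 h2, hm]; norm_num [s1]
    · rw [show 23 - 2 * 5 = 13 from rfl, BaseVal_O_13_23 h1 h2, hm]; norm_num [s1]
    · rw [show 23 - 2 * 6 = 11 from rfl, BaseVal_O_11_23 h1 h2, hm]; norm_num [s1]
    · rw [show 23 - 2 * 7 = 9 from rfl, BaseVal_O_9_23 h1 h2, hm]; norm_num [s1]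
    · rw [show 23 - 2 * 8 = 7 from rfl, BaseVal_O_7_23 h1 h2, hm]; norm_num [s1]
    · rw [show 23 - 2 * 9 = 5 from rfl, BaseVal_O_5_23 h1 h2, hm]; norm_num [s1]
    · rw [show 23 - 2 * 10 = 3 from rfl, BaseVal_O_3_23 h1 h2, hm]; norm_num [s1]
    · rw [show 23 - 2 * 11 = 1 from rfl, BaseVal_O_1_23 h1 h2, hm]; norm_num [s1]
  · have hm := BaseVal_mom.2.2.2.2.2.2.2.2.2.2.2.2.2.2.2.2.2.2.2.2.2.2.2.2.1
    have hh2 : h ≤ 12 := by omega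
    interval_cases h
    · rw [show 24 - 2 * 0 = 24 from rfl, BaseVal_O_24_24 h1 h2, hm]; norm_num [s1]
    · rw [show 24 - 2 * 1 = 22 from rfl, BaseVal_O_22_24 h1 h2, hm]; norm_num [s1]
    · rw [show 24 - 2 * 2 = 20 from rfl, BaseVal_O_20_24 h1 h2, hm]; norm_num [s1]
    · rw [show 24 - 2 * 3 = 18 from rfl, BaseVal_O_18_24 h1 h2, hm]; norm_num [s1]
    · rw [show 24 - 2 * 4 = 16 from rfl, BaseVal_O_16_24 h1 h2, hm]; norm_num [s1]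
    · rw [show 24 - 2 * 5 = 14 from rfl, BaseVal_O_14_24 h1 h2, hm]; norm_num [s1]
    · rw [show 24 - 2 * 6 = 12 from rfl, BaseVal_O_12_24 h1 h2, hm]; norm_num [s1]
    · rw [show 24 - 2 * 7 = 10 from rfl, BaseVal_O_10_24 h1 h2, hm]; norm_num [s1]
    · rw [show 24 - 2 * 8 = 8 from rfl, BaseVal_O_8_24 h1 h2, hm]; norm_num [s1]
    · rw [show 24 - 2 * 9 = 6 from rfl, BaseVal_O_6_24 h1 h2, hm]; norm_num [s1]
    · rw [show 24 - 2 * 10 = 4 from rfl, BaseVal_O_4_24 h1 h2, hm]; norm_num [s1]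
    · rw [show 24 - 2 * 11 = 2 from rfl, BaseVal_O_2_24 h1 h2, hm]; norm_num [s1]
    · rw [show 24 - 2 * 12 = 0 from rfl, BaseVal_O_0_24 h1 h2, hm]; norm_num [s1]
  · have hm := BaseVal_mom.2.2.2.2.2.2.2.2.2.2.2.2.2.2.2.2.2.2.2.2.2.2.2.2.2
    have hh2 : h ≤ 12 := by omega
    interval_cases h
    · rw [show 25 - 2 * 0 = 25 from rfl, BaseVal_O_25_25 h1 h2, hm]; norm_num [s1]
    · rw [show 25 - 2 * 1 = 23 from rfl, BaseVal_O_23_25 h1 h2, hm]; norm_num [s1]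
    · rw [show 25 - 2 * 2 = 21 from rfl, BaseVal_O_21_25 h1 h2, hm]; norm_num [s1]
    · rw [show 25 - 2 * 3 = 19 from rfl, BaseVal_O_19_25 h1 h2, hm]; norm_num [s1]
    · rw [show 25 - 2 * 4 = 17 from rfl, BaseVal_O_17_25 h1 h2, hm]; norm_num [s1]
    · rw [show 25 - 2 * 5 = 15 from rfl, BaseVal_O_15_25 h1 h2, hm]; norm_num [s1]
    · rw [show 25 - 2 * 6 = 13 from rfl, BaseVal_O_13_25 h1 h2, hm]; norm_num [s1]
    · rw [show 25 - 2 * 7 = 11 from rfl, BaseVal_O_11_25 h1 h2, hm]; norm_num [s1]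
    · rw [show 25 - 2 * 8 = 9 from rfl, BaseVal_O_9_25 h1 h2, hm]; norm_num [s1]
    · rw [show 25 - 2 * 9 = 7 from rfl, BaseVal_O_7_25 h1 h2, hm]; norm_num [s1]
    · rw [show 25 - 2 * 10 = 5 from rfl, BaseVal_O_5_25 h1 h2, hm]; norm_num [s1]
    · rw [show 25 - 2 * 11 = 3 from rfl, BaseVal_O_3_25 h1 h2, hm]; norm_num [s1]
    · rw [show 25 - 2 * 12 = 1 from rfl, BaseVal_O_1_25 h1 h2, hm]; norm_num [s1]

theorem p_base_s2 (h1 : P_xO_rec) (h2 : P_x_basic) (h3 : P_xO_sum) : P_base_s2 := by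
  intro n h hn1 hn2 hh
  interval_cases n
  · have hm := BaseVal_mom.2.2.2.2.2.2.2.2.2.2.2.2.2.2.1
    have hh2 : h ≤ 7 := by omega
    interval_cases h
    · rw [show 14 - 2 * 0 = 14 from rfl, BaseVal_O_14_14 h1 h2, hm]; norm_num [s2]
    · rw [show 14 - 2 * 1 = 12 from rfl, BaseVal_O_12_14 h1 h2, hm]; norm_num [s2]
    · rw [show 14 - 2 * 2 = 10 from rfl, BaseVal_O_10_14 h1 h2, hm]; norm_num [s2]
    · rw [show 14 - 2 * 3 = 8 from rfl, BaseVal_O_8_14 h1 h2, hm]; norm_num [s2]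
    · rw [show 14 - 2 * 4 = 6 from rfl, BaseVal_O_6_14 h1 h2, hm]; norm_num [s2]
    · rw [show 14 - 2 * 5 = 4 from rfl, BaseVal_O_4_14 h1 h2, hm]; norm_num [s2]
    · rw [show 14 - 2 * 6 = 2 from rfl, BaseVal_O_2_14 h1 h2, hm]; norm_num [s2]
    · rw [show 14 - 2 * 7 = 0 from rfl, BaseVal_O_0_14 h1 h2, hm]; norm_num [s2]
  · have hm := BaseVal_mom.2.2.2.2.2.2.2.2.2.2.2.2.2.2.2.1
    have hh2 : h ≤ 7 := by omega
    interval_cases h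
    · rw [show 15 - 2 * 0 = 15 from rfl, BaseVal_O_15_15 h1 h2, hm]; norm_num [s2]
    · rw [show 15 - 2 * 1 = 13 from rfl, BaseVal_O_13_15 h1 h2, hm]; norm_num [s2]
    · rw [show 15 - 2 * 2 = 11 from rfl, BaseVal_O_11_15 h1 h2, hm]; norm_num [s2]
    · rw [show 15 - 2 * 3 = 9 from rfl, BaseVal_O_9_15 h1 h2, hm]; norm_num [s2]
    · rw [show 15 - 2 * 4 = 7 from rfl, BaseVal_O_7_15 h1 h2, hm]; norm_num [s2]
    · rw [show 15 - 2 * 5 = 5 from rfl, BaseVal_O_5_15 h1 h2, hm]; norm_num [s2]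
    · rw [show 15 - 2 * 6 = 3 from rfl, BaseVal_O_3_15 h1 h2, hm]; norm_num [s2]
    · rw [show 15 - 2 * 7 = 1 from rfl, BaseVal_O_1_15 h1 h2, hm]; norm_num [s2]
  · have hm := BaseVal_mom.2.2.2.2.2.2.2.2.2.2.2.2.2.2.2.2.1
    have hh2 : h ≤ 8 := by omega
    interval_cases h
    · rw [show 16 - 2 * 0 = 16 from rfl, BaseVal_O_16_16 h1 h2, hm]; norm_num [s2]
    · rw [show 16 - 2 * 1 = 14 from rfl, BaseVal_O_14_16 h1 h2, hm]; norm_num [s2]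
    · rw [show 16 - 2 * 2 = 12 from rfl, BaseVal_O_12_16 h1 h2, hm]; norm_num [s2]
    · rw [show 16 - 2 * 3 = 10 from rfl, BaseVal_O_10_16 h1 h2, hm]; norm_num [s2]
    · rw [show 16 - 2 * 4 = 8 from rfl, BaseVal_O_8_16 h1 h2, hm]; norm_num [s2]
    · rw [show 16 - 2 * 5 = 6 from rfl, BaseVal_O_6_16 h1 h2, hm]; norm_num [s2]
    · rw [show 16 - 2 * 6 = 4 from rfl, BaseVal_O_4_16 h1 h2, hm]; norm_num [s2]
    · rw [show 16 - 2 * 7 = 2 from rfl, BaseVal_O_2_16 h1 h2, hm]; norm_num [s2]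
    · rw [show 16 - 2 * 8 = 0 from rfl, BaseVal_O_0_16 h1 h2, hm]; norm_num [s2]
  · have hm := BaseVal_mom.2.2.2.2.2.2.2.2.2.2.2.2.2.2.2.2.2.1
    have hh2 : h ≤ 8 := by omega
    interval_cases h
    · rw [show 17 - 2 * 0 = 17 from rfl, BaseVal_O_17_17 h1 h2, hm]; norm_num [s2]
    · rw [show 17 - 2 * 1 = 15 from rfl, BaseVal_O_15_17 h1 h2, hm]; norm_num [s2]
    · rw [show 17 - 2 * 2 = 13 from rfl, BaseVal_O_13_17 h1 h2, hm]; norm_num [s2]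
    · rw [show 17 - 2 * 3 = 11 from rfl, BaseVal_O_11_17 h1 h2, hm]; norm_num [s2]
    · rw [show 17 - 2 * 4 = 9 from rfl, BaseVal_O_9_17 h1 h2, hm]; norm_num [s2]
    · rw [show 17 - 2 * 5 = 7 from rfl, BaseVal_O_7_17 h1 h2, hm]; norm_num [s2]
    · rw [show 17 - 2 * 6 = 5 from rfl, BaseVal_O_5_17 h1 h2, hm]; norm_num [s2]
    · rw [show 17 - 2 * 7 = 3 from rfl, BaseVal_O_3_17 h1 h2, hm]; norm_num [s2]
    · rw [show 17 - 2 * 8 = 1 from rfl, BaseVal_O_1_17 h1 h2, hm]; norm_num [s2]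

theorem BaseVal_ee_0 (h4 : P_ee_zig) : ee 0 = 1 / 1 := by
  rw [h4 0 (by norm_num)]
  norm_num [zig, Nat.factorial]
theorem BaseVal_ee_2 (h4 : P_ee_zig) : ee 2 = 1 / 2 := by
  rw [h4 2 (by norm_num)]
  norm_num [zig, Nat.factorial]
theorem BaseVal_ee_4 (h4 : P_ee_zig) : ee 4 = 5 / 24 := by
  rw [h4 4 (by norm_num)]
  norm_num [zig, Nat.factorial]
theorem BaseVal_ee_6 (h4 : P_ee_zig) : ee 6 = 61 / 720 := by
  rw [h4 6 (by norm_num)]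
  norm_num [zig, Nat.factorial]
theorem BaseVal_ee_8 (h4 : P_ee_zig) : ee 8 = 1385 / 40320 := by
  rw [h4 8 (by norm_num)]
  norm_num [zig, Nat.factorial]
theorem BaseVal_ee_10 (h4 : P_ee_zig) : ee 10 = 50521 / 3628800 := by
  rw [h4 10 (by norm_num)]
  norm_num [zig, Nat.factorial]
theorem BaseVal_ee_12 (h4 : P_ee_zig) : ee 12 = 2702765 / 479001600 := by
  rw [h4 12 (by norm_num)]
  norm_num [zig, Nat.factorial]
theorem BaseVal_ee_14 (h4 : P_ee_zig) : ee 14 = 199360981 / 87178291200 := by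
  rw [h4 14 (by norm_num)]
  norm_num [zig, Nat.factorial]
theorem BaseVal_ee_16 (h4 : P_ee_zig) : ee 16 = 19391512145 / 20922789888000 := by
  rw [h4 16 (by norm_num)]
  norm_num [zig, Nat.factorial]
theorem BaseVal_ee_18 (h4 : P_ee_zig) : ee 18 = 2404879675441 / 6402373705728000 := by
  rw [h4 18 (by norm_num)]
  norm_num [zig, Nat.factorial]
theorem BaseVal_ee_20 (h4 : P_ee_zig) : ee 20 = 370371188237525 / 2432902008176640000 := by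
  rw [h4 20 (by norm_num)]
  norm_num [zig, Nat.factorial]
theorem BaseVal_ee_22 (h4 : P_ee_zig) : ee 22 = 69348874393137901 / 1124000727777607680000 := by
  rw [h4 22 (by norm_num)]
  norm_num [zig, Nat.factorial]

theorem p_alt_small (h1 : P_xO_rec) (h2 : P_x_basic) (h3 : P_xO_sum) (h4 : P_ee_zig) :
    P_alt_small := by
  intro k hk hodd
  have hc : k = 1 ∨ k = 3 ∨ k = 5 ∨ k = 7 ∨ k = 9 ∨ k = 11 ∨ k = 13 ∨ k = 15 ∨ k = 17 ∨ k = 19 ∨ k = 21 := by omega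
  rcases hc with rfl | rfl | rfl | rfl | rfl | rfl | rfl | rfl | rfl | rfl | rfl
  · have e : ∀ j : ℕ, j = j := fun _ => rfl
    simp only [show 1 / 2 + 1 = 1 from rfl, Finset.sum_range_succ, Finset.sum_range_zero]
    simp only [show 1 + 1 - 2 * 0 = 2 from rfl]
    rw [show 1 + 1 = 2 from rfl]
    simp only [BaseVal_O_2_2 h1 h2, BaseVal_ee_2 h4]
    norm_num
  · have e : ∀ j : ℕ, j = j := fun _ => rfl
    simp only [show 3 / 2 + 1 = 2 from rfl, Finset.sum_range_succ, Finset.sum_range_zero]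
    simp only [show 3 + 1 - 2 * 0 = 4 from rfl, show 3 + 1 - 2 * 1 = 2 from rfl]
    rw [show 3 + 1 = 4 from rfl]
    simp only [BaseVal_O_4_4 h1 h2, BaseVal_ee_4 h4, BaseVal_O_2_4 h1 h2, BaseVal_ee_2 h4]
    norm_num
  · have e : ∀ j : ℕ, j = j := fun _ => rfl
    simp only [show 5 / 2 + 1 = 3 from rfl, Finset.sum_range_succ, Finset.sum_range_zero]
    simp only [show 5 + 1 - 2 * 0 = 6 from rfl, show 5 + 1 - 2 * 1 = 4 from rfl, show 5 + 1 - 2 * 2 = 2 from rfl]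
    rw [show 5 + 1 = 6 from rfl]
    simp only [BaseVal_O_6_6 h1 h2, BaseVal_ee_6 h4, BaseVal_O_4_6 h1 h2, BaseVal_ee_4 h4, BaseVal_O_2_6 h1 h2, BaseVal_ee_2 h4]
    norm_num
  · have e : ∀ j : ℕ, j = j := fun _ => rfl
    simp only [show 7 / 2 + 1 = 4 from rfl, Finset.sum_range_succ, Finset.sum_range_zero]
    simp only [show 7 + 1 - 2 * 0 = 8 from rfl, show 7 + 1 - 2 * 1 = 6 from rfl, show 7 + 1 - 2 * 2 = 4 from rfl, show 7 + 1 - 2 * 3 = 2 from rfl]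
    rw [show 7 + 1 = 8 from rfl]
    simp only [BaseVal_O_8_8 h1 h2, BaseVal_ee_8 h4, BaseVal_O_6_8 h1 h2, BaseVal_ee_6 h4, BaseVal_O_4_8 h1 h2, BaseVal_ee_4 h4, BaseVal_O_2_8 h1 h2, BaseVal_ee_2 h4]
    norm_num
  · have e : ∀ j : ℕ, j = j := fun _ => rfl
    simp only [show 9 / 2 + 1 = 5 from rfl, Finset.sum_range_succ, Finset.sum_range_zero]
    simp only [show 9 + 1 - 2 * 0 = 10 from rfl, show 9 + 1 - 2 * 1 = 8 from rfl, show 9 + 1 - 2 * 2 = 6 from rfl, show 9 + 1 - 2 * 3 = 4 from rfl, show 9 + 1 - 2 * 4 = 2 from rfl]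
    rw [show 9 + 1 = 10 from rfl]
    simp only [BaseVal_O_10_10 h1 h2, BaseVal_ee_10 h4, BaseVal_O_8_10 h1 h2, BaseVal_ee_8 h4, BaseVal_O_6_10 h1 h2, BaseVal_ee_6 h4, BaseVal_O_4_10 h1 h2, BaseVal_ee_4 h4, BaseVal_O_2_10 h1 h2, BaseVal_ee_2 h4]
    norm_num
  · have e : ∀ j : ℕ, j = j := fun _ => rfl
    simp only [show 11 / 2 + 1 = 6 from rfl, Finset.sum_range_succ, Finset.sum_range_zero]
    simp only [show 11 + 1 - 2 * 0 = 12 from rfl, show 11 + 1 - 2 * 1 = 10 from rfl, show 11 + 1 - 2 * 2 = 8 from rfl, show 11 + 1 - 2 * 3 = 6 from rfl, show 11 + 1 - 2 * 4 = 4 from rfl, show 11 + 1 - 2 * 5 = 2 from rfl]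
    rw [show 11 + 1 = 12 from rfl]
    simp only [BaseVal_O_12_12 h1 h2, BaseVal_ee_12 h4, BaseVal_O_10_12 h1 h2, BaseVal_ee_10 h4, BaseVal_O_8_12 h1 h2, BaseVal_ee_8 h4, BaseVal_O_6_12 h1 h2, BaseVal_ee_6 h4, BaseVal_O_4_12 h1 h2, BaseVal_ee_4 h4, BaseVal_O_2_12 h1 h2, BaseVal_ee_2 h4]
    norm_num
  · have e : ∀ j : ℕ, j = j := fun _ => rfl
    simp only [show 13 / 2 + 1 = 7 from rfl, Finset.sum_range_succ, Finset.sum_range_zero]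
    simp only [show 13 + 1 - 2 * 0 = 14 from rfl, show 13 + 1 - 2 * 1 = 12 from rfl, show 13 + 1 - 2 * 2 = 10 from rfl, show 13 + 1 - 2 * 3 = 8 from rfl, show 13 + 1 - 2 * 4 = 6 from rfl, show 13 + 1 - 2 * 5 = 4 from rfl, show 13 + 1 - 2 * 6 = 2 from rfl]
    rw [show 13 + 1 = 14 from rfl]
    simp only [BaseVal_O_14_14 h1 h2, BaseVal_ee_14 h4, BaseVal_O_12_14 h1 h2, BaseVal_ee_12 h4, BaseVal_O_10_14 h1 h2, BaseVal_ee_10 h4, BaseVal_O_8_14 h1 h2, BaseVal_ee_8 h4, BaseVal_O_6_14 h1 h2, BaseVal_ee_6 h4, BaseVal_O_4_14 h1 h2, BaseVal_ee_4 h4, BaseVal_O_2_14 h1 h2, BaseVal_ee_2 h4]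
    norm_num
  · have e : ∀ j : ℕ, j = j := fun _ => rfl
    simp only [show 15 / 2 + 1 = 8 from rfl, Finset.sum_range_succ, Finset.sum_range_zero]
    simp only [show 15 + 1 - 2 * 0 = 16 from rfl, show 15 + 1 - 2 * 1 = 14 from rfl, show 15 + 1 - 2 * 2 = 12 from rfl, show 15 + 1 - 2 * 3 = 10 from rfl, show 15 + 1 - 2 * 4 = 8 from rfl, show 15 + 1 - 2 * 5 = 6 from rfl, show 15 + 1 - 2 * 6 = 4 from rfl, show 15 + 1 - 2 * 7 = 2 from rfl]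
    rw [show 15 + 1 = 16 from rfl]
    simp only [BaseVal_O_16_16 h1 h2, BaseVal_ee_16 h4, BaseVal_O_14_16 h1 h2, BaseVal_ee_14 h4, BaseVal_O_12_16 h1 h2, BaseVal_ee_12 h4, BaseVal_O_10_16 h1 h2, BaseVal_ee_10 h4, BaseVal_O_8_16 h1 h2, BaseVal_ee_8 h4, BaseVal_O_6_16 h1 h2, BaseVal_ee_6 h4, BaseVal_O_4_16 h1 h2, BaseVal_ee_4 h4, BaseVal_O_2_16 h1 h2, BaseVal_ee_2 h4]
    norm_num
  · have e : ∀ j : ℕ, j = j := fun _ => rfl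
    simp only [show 17 / 2 + 1 = 9 from rfl, Finset.sum_range_succ, Finset.sum_range_zero]
    simp only [show 17 + 1 - 2 * 0 = 18 from rfl, show 17 + 1 - 2 * 1 = 16 from rfl, show 17 + 1 - 2 * 2 = 14 from rfl, show 17 + 1 - 2 * 3 = 12 from rfl, show 17 + 1 - 2 * 4 = 10 from rfl, show 17 + 1 - 2 * 5 = 8 from rfl, show 17 + 1 - 2 * 6 = 6 from rfl, show 17 + 1 - 2 * 7 = 4 from rfl, show 17 + 1 - 2 * 8 = 2 from rfl]
    rw [show 17 + 1 = 18 from rfl]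
    simp only [BaseVal_O_18_18 h1 h2, BaseVal_ee_18 h4, BaseVal_O_16_18 h1 h2, BaseVal_ee_16 h4, BaseVal_O_14_18 h1 h2, BaseVal_ee_14 h4, BaseVal_O_12_18 h1 h2, BaseVal_ee_12 h4, BaseVal_O_10_18 h1 h2, BaseVal_ee_10 h4, BaseVal_O_8_18 h1 h2, BaseVal_ee_8 h4, BaseVal_O_6_18 h1 h2, BaseVal_ee_6 h4, BaseVal_O_4_18 h1 h2, BaseVal_ee_4 h4, BaseVal_O_2_18 h1 h2, BaseVal_ee_2 h4]
    norm_num
  · have e : ∀ j : ℕ, j = j := fun _ => rfl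
    simp only [show 19 / 2 + 1 = 10 from rfl, Finset.sum_range_succ, Finset.sum_range_zero]
    simp only [show 19 + 1 - 2 * 0 = 20 from rfl, show 19 + 1 - 2 * 1 = 18 from rfl, show 19 + 1 - 2 * 2 = 16 from rfl, show 19 + 1 - 2 * 3 = 14 from rfl, show 19 + 1 - 2 * 4 = 12 from rfl, show 19 + 1 - 2 * 5 = 10 from rfl, show 19 + 1 - 2 * 6 = 8 from rfl, show 19 + 1 - 2 * 7 = 6 from rfl, show 19 + 1 - 2 * 8 = 4 from rfl, show 19 + 1 - 2 * 9 = 2 from rfl]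
    rw [show 19 + 1 = 20 from rfl]
    simp only [BaseVal_O_20_20 h1 h2, BaseVal_ee_20 h4, BaseVal_O_18_20 h1 h2, BaseVal_ee_18 h4, BaseVal_O_16_20 h1 h2, BaseVal_ee_16 h4, BaseVal_O_14_20 h1 h2, BaseVal_ee_14 h4, BaseVal_O_12_20 h1 h2, BaseVal_ee_12 h4, BaseVal_O_10_20 h1 h2, BaseVal_ee_10 h4, BaseVal_O_8_20 h1 h2, BaseVal_ee_8 h4, BaseVal_O_6_20 h1 h2, BaseVal_ee_6 h4, BaseVal_O_4_20 h1 h2, BaseVal_ee_4 h4, BaseVal_O_2_20 h1 h2, BaseVal_ee_2 h4]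
    norm_num
  · have e : ∀ j : ℕ, j = j := fun _ => rfl
    simp only [show 21 / 2 + 1 = 11 from rfl, Finset.sum_range_succ, Finset.sum_range_zero]
    simp only [show 21 + 1 - 2 * 0 = 22 from rfl, show 21 + 1 - 2 * 1 = 20 from rfl, show 21 + 1 - 2 * 2 = 18 from rfl, show 21 + 1 - 2 * 3 = 16 from rfl, show 21 + 1 - 2 * 4 = 14 from rfl, show 21 + 1 - 2 * 5 = 12 from rfl, show 21 + 1 - 2 * 6 = 10 from rfl, show 21 + 1 - 2 * 7 = 8 from rfl, show 21 + 1 - 2 * 8 = 6 from rfl, show 21 + 1 - 2 * 9 = 4 from rfl, show 21 + 1 - 2 * 10 = 2 from rfl]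
    rw [show 21 + 1 = 22 from rfl]
    simp only [BaseVal_O_22_22 h1 h2, BaseVal_ee_22 h4, BaseVal_O_20_22 h1 h2, BaseVal_ee_20 h4, BaseVal_O_18_22 h1 h2, BaseVal_ee_18 h4, BaseVal_O_16_22 h1 h2, BaseVal_ee_16 h4, BaseVal_O_14_22 h1 h2, BaseVal_ee_14 h4, BaseVal_O_12_22 h1 h2, BaseVal_ee_12 h4, BaseVal_O_10_22 h1 h2, BaseVal_ee_10 h4, BaseVal_O_8_22 h1 h2, BaseVal_ee_8 h4, BaseVal_O_6_22 h1 h2, BaseVal_ee_6 h4, BaseVal_O_4_22 h1 h2, BaseVal_ee_4 h4, BaseVal_O_2_22 h1 h2, BaseVal_ee_2 h4]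
    norm_num

end Pool.Agent.Lib.MP_c22e22_co.V
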