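import Pool.Agent.Lib.MP_c22e22_co.V.Defs

section

namespace Pool.Agent.Lib.MP_c22e22_co.V

theorem rib_free {A : Type*} [CommRing A] (h : ℕ → A) (u v : List Lk) : ∀ m : ℕ,
    rib h m (u ++ .a :: v) + rib h m (u ++ .d :: v) = rib h m (u ++ .s :: v) := by
  induction u with
  | nil => intro m; simp only [List.nil_append, rib]; ring
  | cons x u ih =>
    intro m
    cases x with
    | a => simpa only [List.cons_append, rib] using ih (m + 1)
    | s => simp only [List.cons_append, rib, ← mul_add, ih 1]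
    | d =>
      simp only [List.cons_append, rib, ← ih 1, ← ih (m + 1)]
      ring

theorem rib_star {A : Type*} [CommRing A] (h : ℕ → A) (u v : List Lk) : ∀ m : ℕ,
    rib h m (u ++ .s :: v) = rib h m u * rib h 1 v := by
  induction u with
  | nil => intro m; simp only [List.nil_append, rib]
  | cons x u ih =>
    intro m
    cases x with
    | a => simpa only [List.cons_append, rib] using ih (m + 1)
    | s => simp only [List.cons_append, rib, ih 1, mul_assoc]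
    | d =>
      simp only [List.cons_append, rib, ih 1, ih (m + 1)]
      ring

/-- A function on words with the free-letter relation is determined by its values on words
without `d`. -/
theorem uniq {A : Type*} [AddCommGroup A] (F G : List Lk → A)
    (hF : ∀ u v, F (u ++ .a :: v) + F (u ++ .d :: v) = F (u ++ .s :: v))
    (hG : ∀ u v, G (u ++ .a :: v) + G (u ++ .d :: v) = G (u ++ .s :: v))
    (h0 : ∀ w, Lk.d ∉ w → F w = G w) : ∀ w, F w = G w := by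
  have key : ∀ (k : ℕ) (w : List Lk), w.count .d = k → F w = G w := by
    intro k
    induction k with
    | zero => intro w hw; exact h0 w (List.count_eq_zero.mp hw)
    | succ k ih =>
      intro w hw
      have hmem : Lk.d ∈ w := by
        rw [← List.count_pos_iff]; omega
      obtain ⟨u, v, rfl⟩ := List.append_of_mem hmem
      have h1 : F (u ++ .a :: v) = G (u ++ .a :: v) := by
        apply ih
        simp only [List.count_append, List.count_cons] at hw ⊢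
        simp at hw ⊢
        omega
      have h2 : F (u ++ .s :: v) = G (u ++ .s :: v) := by
        apply ih
        simp only [List.count_append, List.count_cons] at hw ⊢
        simp at hw ⊢
        omega
      have h3 := hF u v
      have h4 := hG u v
      rw [h1, h2] at h3
      have : F (u ++ .d :: v) = G (u ++ .s :: v) - G (u ++ .a :: v) := by
        rw [← h3]; abel
      rw [this, ← h4]; abel
  intro w
  exact key _ w rfl

theorem rib_zero_s {A : Type*} [CommRing A] (h : ℕ → A) (h0 : h 0 = 1) (w : List Lk) :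
    rib h 0 (.s :: w) = rib h 1 w := by
  simp [rib, h0]

theorem altw_length : ∀ (k : ℕ) (b : Bool), (altw k b).length = k
  | 0, _ => rfl
  | k + 1, true => by simp [altw, altw_length k]
  | k + 1, false => by simp [altw, altw_length k]

end Pool.Agent.Lib.MP_c22e22_co.V
end

section

open MvPolynomial Finset

namespace Pool.Agent.Lib.MP_c22e22_co.V

theorem Lf_monomial (M : ℕ → ℕ → ℚ) (μ : ℕ →₀ ℕ) (c : ℚ) :
    Lf M (monomial μ c) = c * μ.prod M := by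
  have h : (monomial μ c : MvPolynomial ℕ ℚ) = c • (basisMonomials ℕ ℚ μ) := by
    simp [coe_basisMonomials, smul_monomial]
  rw [h, map_smul, Lf, Module.Basis.constr_basis, smul_eq_mul]

theorem mom_zero (j : ℕ) : mom j 0 = 1 := rfl

theorem mom_nonneg (j : ℕ) : ∀ c, 0 ≤ mom j c := by
  intro c
  induction c using Nat.strong_induction_on with
  | _ c ih =>
    match c, ih with
    | 0, _ => simp [mom]
    | 1, _ => simp only [mom]; split_ifs <;> norm_num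
    | c + 2, ih =>
      simp only [mom]
      have h1 := ih (c + 1) (by omega)
      have h2 := ih c (by omega)
      have : 0 ≤ ((c : ℚ) + 1) * j * mom j c := by positivity
      split_ifs
      · linarith
      · linarith

theorem mom_succ (j c : ℕ) :
    mom j (c + 1) = (if j % 2 = 1 then mom j c else 0) + c * j * mom j (c - 1) := by
  cases c with
  | zero => simp [mom]
  | succ c => simp only [mom, Nat.cast_add, Nat.cast_one, Nat.add_sub_cancel]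

theorem momo_nonneg (j c : ℕ) : 0 ≤ momo j c := by
  unfold momo
  split_ifs
  · exact le_refl _
  · exact mom_nonneg j c

theorem momo_le_mom (j c : ℕ) : momo j c ≤ mom j c := by
  unfold momo
  split_ifs
  · exact mom_nonneg j c
  · exact le_refl _

theorem momo_zero (j : ℕ) : momo j 0 = 1 := by simp [momo, mom]

/-- the product over the support can be taken over any larger finset when `M j 0 = 1` -/
theorem prod_erase (M : ℕ → ℕ → ℚ) (h0 : ∀ j, M j 0 = 1) (μ : ℕ →₀ ℕ) (j : ℕ) :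
    μ.prod M = M j (μ j) * (μ.erase j).prod M := by
  by_cases h : j ∈ μ.support
  · rw [← Finsupp.mul_prod_erase μ j M h]
  · have : μ j = 0 := by simpa using h
    rw [this, h0, one_mul, Finsupp.erase_of_notMem_support h]

theorem prod_split (M : ℕ → ℕ → ℚ) (h0 : ∀ j, M j 0 = 1) (μ ν : ℕ →₀ ℕ) (j : ℕ)
    (h : μ.erase j = ν.erase j) :
    μ.prod M = M j (μ j) * (ν.erase j).prod M := by
  rw [prod_erase M h0 μ j, h]

theorem Lf_X_mul (M : ℕ → ℕ → ℚ) (h0 : ∀ j, M j 0 = 1) (j : ℕ) (A B : ℚ)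
    (hM : ∀ c, M j (c + 1) = A * M j c + B * (c * M j (c - 1))) (F : MvPolynomial ℕ ℚ) :
    Lf M (X j * F) = A * Lf M F + B * Lf M (pderiv j F) := by
  induction F using MvPolynomial.induction_on' with
  | add p q hp hq => rw [mul_add, map_add, hp, hq, map_add, map_add, map_add]; ring
  | monomial μ c =>
    rw [X, monomial_mul, one_mul, pderiv_monomial, Lf_monomial, Lf_monomial, Lf_monomial]
    have e1 : (Finsupp.single j 1 + μ).erase j = μ.erase j := by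
      ext i
      by_cases hi : i = j
      · subst hi; simp
      · simp [Finsupp.erase_ne hi, hi]
    have e2 : (μ - Finsupp.single j 1).erase j = μ.erase j := by
      ext i
      by_cases hi : i = j
      · subst hi; simp
      · simp [Finsupp.erase_ne hi, hi]
    rw [prod_split M h0 _ μ j e1, prod_split M h0 μ μ j rfl, prod_split M h0 _ μ j e2]
    have e3 : ((Finsupp.single j 1 + μ : ℕ →₀ ℕ)) j = μ j + 1 := by simp [add_comm]
    have e4 : ((μ - Finsupp.single j 1 : ℕ →₀ ℕ)) j = μ j - 1 := by simp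
    rw [e3, e4, hM]
    ring

theorem E_one : E 1 = 1 := by
  have : (1 : MvPolynomial ℕ ℚ) = monomial 0 1 := rfl
  rw [E, this, Lf_monomial]; simp

theorem Eo_one : Eo 1 = 1 := by
  have : (1 : MvPolynomial ℕ ℚ) = monomial 0 1 := rfl
  rw [Eo, this, Lf_monomial]; simp

theorem E_X_mul (j : ℕ) (F : MvPolynomial ℕ ℚ) :
    E (X j * F) = (if j % 2 = 1 then E F else 0) + E (DD j F) := by
  have := Lf_X_mul mom mom_zero j (if j % 2 = 1 then 1 else 0) j (by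
    intro c
    rw [mom_succ]
    split_ifs <;> ring) F
  rw [E, this, DD, map_smul, smul_eq_mul]
  split_ifs <;> simp

theorem Eo_X_mul (j : ℕ) (hj : 1 ≤ j) (F : MvPolynomial ℕ ℚ) :
    Eo (X j * F) = if j % 2 = 1 then Eo F + Eo (DD j F) else 0 := by
  by_cases h : j % 2 = 1
  · have h' : ¬ (j % 2 = 0) := by omega
    have := Lf_X_mul momo momo_zero j 1 j (by
      intro c
      simp only [momo, h', false_and, if_false]
      rw [mom_succ, if_pos h]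
      ring) F
    rw [Eo, this, DD, map_smul, smul_eq_mul, if_pos h]
    ring
  · have h' : j % 2 = 0 := by omega
    have := Lf_X_mul momo momo_zero j 0 0 (by
      intro c
      simp [momo, h']) F
    rw [Eo, this, if_neg h]
    ring

theorem E_nonneg (μ : ℕ →₀ ℕ) : 0 ≤ E (monomial μ 1) := by
  rw [E, Lf_monomial, one_mul]
  exact Finset.prod_nonneg fun j _ => mom_nonneg j _

theorem Eo_nonneg (μ : ℕ →₀ ℕ) : 0 ≤ Eo (monomial μ 1) := by
  rw [Eo, Lf_monomial, one_mul]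
  exact Finset.prod_nonneg fun j _ => momo_nonneg j _

theorem Eo_le_E (μ : ℕ →₀ ℕ) : Eo (monomial μ 1) ≤ E (monomial μ 1) := by
  rw [Eo, E, Lf_monomial, Lf_monomial, one_mul, one_mul]
  exact Finset.prod_le_prod (fun j _ => momo_nonneg j _) fun j _ => momo_le_mom j _

theorem DD_mul (l : ℕ) (F G : MvPolynomial ℕ ℚ) : DD l (F * G) = DD l F * G + F * DD l G := by
  simp only [DD, Derivation.leibniz, smul_eq_mul, smul_add, Algebra.smul_def]
  ring

theorem DD_add (l : ℕ) (F G : MvPolynomial ℕ ℚ) : DD l (F + G) = DD l F + DD l G := by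
  simp [DD, smul_add]

theorem DD_sub (l : ℕ) (F G : MvPolynomial ℕ ℚ) : DD l (F - G) = DD l F - DD l G := by
  simp [DD, smul_sub]

theorem DD_smul (l : ℕ) (c : ℚ) (F : MvPolynomial ℕ ℚ) : DD l (c • F) = c • DD l F := by
  rw [DD, DD, Derivation.map_smul, smul_comm]

theorem DD_C (l : ℕ) (c : ℚ) : DD l (C c) = 0 := by simp [DD]

end Pool.Agent.Lib.MP_c22e22_co.V
end

section

/-!
# Statements of all lemmas, as propositions

Each lemma `P_name` is proved in its own file as `theorem p_name (hypotheses) : P_name`, where the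
hypotheses are other statements of this file.
-/

open MvPolynomial Finset

namespace Pool.Agent.Lib.MP_c22e22_co.V

/-! ### complete homogeneous elements -/

def P_cc_succ : Prop := ∀ m n : ℕ,
    (n : ℚ) • cc (m + 1) n = (m + 1 : ℚ) • ∑ j ∈ range n, X (j + 1) * cc m (n - 1 - j)

def P_DD_cc : Prop := ∀ l : ℕ, 1 ≤ l → ∀ m n : ℕ,
    DD l (cc (m + 1) n) = if l ≤ n then (m + 1 : ℚ) • cc m (n - l) else 0

def P_hh_rec : Prop := ∀ n : ℕ, (n : ℚ) • hh n = ∑ j ∈ range n, X (j + 1) * hh (n - 1 - j)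

def P_DD_hh : Prop := ∀ l : ℕ, 1 ≤ l → ∀ n : ℕ, DD l (hh n) = if l ≤ n then hh (n - l) else 0

/-- recursion for products of complete homogeneous elements (list form) -/
def P_E_list : Prop := ∀ (m : ℕ) (r : List ℕ),
    (m : ℚ) * E (hh m * (r.map hh).prod) = ∑ j ∈ Icc 1 m, (E (hh (m - j) * (r.map hh).prod) +
      ∑ i ∈ range r.length, if j ≤ r.getD i 0 then
        E (hh (m - j) * (hh (r.getD i 0 - j) * ((r.eraseIdx i).map hh).prod)) else 0)

/-! ### symmetric matrices -/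

def P_NM_rec : Prop := ∀ (k : ℕ) (α : Fin k → ℕ) (l : Fin k),
    α l * NM α = ∑ j ∈ Icc 1 (α l), (NM (Function.update α l (α l - j)) +
      ∑ i ∈ univ.erase l, if j ≤ α i then
        NM (Function.update (Function.update α l (α l - j)) i (α i - j)) else 0)

def P_NM_eq : Prop := ∀ (k : ℕ) (α : Fin k → ℕ), (NM α : ℚ) = E (∏ i, hh (α i))

/-! ### involutions -/

/-- number of maps `c` (= `β ∘ σ`) -/
noncomputable def CF {n k : ℕ} (β : Fin n → Fin k) : ℕ :=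
  Nat.card {c : Fin n → Fin k // (∀ x y, x < y → β x = β y → c x ≤ c y) ∧
    ∀ i j, #{x | β x = i ∧ c x = j} = #{x | β x = j ∧ c x = i}}

def P_invA : Prop := ∀ (n k : ℕ) (β : Fin n → Fin k), Monotone β →
    Nat.card {σ : Equiv.Perm (Fin n) // σ * σ = 1 ∧ ∀ x y, x < y → β x = β y → σ x < σ y} = CF β

def P_invB : Prop := ∀ (n k : ℕ) (β : Fin n → Fin k), Monotone β →
    CF β = NM (fun i => #{x | β x = i})

def P_block : Prop := ∀ w : List Lk, Lk.d ∉ w →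
    ∃ (k : ℕ) (β : Fin (w.length + 1) → Fin k), Monotone β ∧
      (∀ (i : ℕ) (h : i + 1 < w.length + 1),
        β ⟨i + 1, h⟩ = β ⟨i, by omega⟩ ↔ w[i]? = some Lk.a) ∧
      ∏ i, hh #{x | β x = i} = rib hh 1 w

def P_cnt_rel : Prop := ∀ (n : ℕ) (u v : List Lk), u.length + 1 < n →
    cnt n (u ++ .a :: v) + cnt n (u ++ .d :: v) = cnt n (u ++ .s :: v)

def P_cnt_eq : Prop := ∀ w : List Lk, (cnt (w.length + 1) w : ℚ) = E (rib hh 1 w)

/-! ### star formula -/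

/-- the full star sum -/
noncomputable def XS (K : List Lk) (g : ℕ) (w : List Lk) : MvPolynomial ℕ ℚ :=
  ∑ m ∈ range (w.length + 1), XX K g w m

def P_starA : Prop := ∀ (u v K : List Lk) (g : ℕ),
    XS K g (u ++ .a :: v) + XS K g (u ++ .d :: v) = XS K g (u ++ .s :: v)

def P_starB : Prop := ∀ w : List Lk, Lk.d ∉ w → XS [] 1 w = rib hh 1 w

def P_star : Prop := ∀ w : List Lk, rib hh 1 w = XS [] 1 w

def P_gen_bound : Prop := ∀ (L : MvPolynomial ℕ ℚ →ₗ[ℚ] ℚ), (∀ μ, 0 ≤ L (monomial μ 1)) →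
    ∀ (w K : List Lk) (g m : ℕ) (β : ℚ), 0 ≤ β →
    (∀ K', K'.Sublist w → K'.length = m → K'.count .s = w.count .s → |bw (K ++ K')| ≤ β) →
    |L (XX K g w m)| ≤ L (cg w.length g m) * β

/-- sign change of the even variables -/
noncomputable def tau : MvPolynomial ℕ ℚ →ₐ[ℚ] MvPolynomial ℕ ℚ :=
  aeval fun j => C ((-1) ^ (j + 1)) * X j

def P_E_tau : Prop := ∀ F : MvPolynomial ℕ ℚ, E (tau F) = E F ∧ Eo (tau F) = Eo F

def P_tau_XX : Prop := ∀ (w K : List Lk) (g m : ℕ), m ≤ w.length →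
    tau (XX K g w m) = ((-1 : ℚ) ^ (g + 1 + (w.length - m))) • XX K g w m

def P_XX_co : Prop := ∀ (w K : List Lk) (g m : ℕ), m ≤ w.length →
    XX (K.map Lk.co) g (w.map Lk.co) m = ((-1 : ℚ) ^ (w.length - m)) • XX K g w m

def P_E_co : Prop := ∀ w : List Lk, E (rib hh 1 (w.map Lk.co)) = E (rib hh 1 w)

def P_Eo_top : Prop := ∀ w : List Lk, Eo (XX [] 1 w w.length) = mom 1 (w.length + 1) * bw w

def P_Eo_top1 : Prop := ∀ w : List Lk, 1 ≤ w.length → Eo (XX [] 1 w (w.length - 1)) = 0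

def P_Eo_top2 : Prop := ∀ w : List Lk, 2 ≤ w.length →
    Eo (XX [] 1 w (w.length - 2)) = mom 1 (w.length - 2) / 3 * ds [] w

def P_Eo_altw : Prop := ∀ (k : ℕ) (b : Bool), Eo (rib hh 1 (altw k b)) =
    ∑ j ∈ range (k / 2 + 1), (-1) ^ j * xO (k + 1 - 2 * j) (k + 1) * ee (k + 1 - 2 * j)

/-! ### windows -/

/-- value of the windows of `W` with prefix `P` -/
noncomputable def YY (l : ℕ) (P W : List Lk) : MvPolynomial ℕ ℚ :=
  ((win l W).map fun p => p.1 • rib hh 0 (P ++ p.2)).sum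

def P_winfree : Prop := ∀ (l : ℕ) (u v P : List Lk),
    YY l P (u ++ .a :: v) + YY l P (u ++ .d :: v) = YY l P (u ++ .s :: v)

def P_winstar : Prop := ∀ (l : ℕ), 1 ≤ l → ∀ (u v P : List Lk),
    YY l P (.s :: u ++ .s :: v) =
      YY l P (.s :: u) * rib hh 0 (.s :: v) + rib hh 0 (P ++ .s :: u) * YY l [] (.s :: v)

def P_DD_rib : Prop := ∀ (l : ℕ), 1 ≤ l → ∀ w : List Lk, DD l (rib hh 1 w) = YY l [] (.s :: w)

def P_win_basic : Prop := ∀ (l : ℕ), 1 ≤ l → ∀ (w : List Lk) (p : ℚ × List Lk),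
    p ∈ win l (.s :: w) → p.2.length + l = w.length + 1 ∧ (p.1 = 1 ∨ p.1 = -1) ∧
      (p.2 = [] ∨ ∃ v, p.2 = .s :: v ∧ v.count .s ≤ w.count .s + 1)

def P_win_grow : Prop := ∀ (w : List Lk) (p : ℚ × List Lk), p ∈ win 2 (.s :: w) →
    (win 2 p.2).length ≤ (win 2 (.s :: w)).length + 1

def P_win_co : Prop := ∀ w : List Lk, NoS w →
    (win 2 (.s :: w)).length + (win 2 (.s :: w.map Lk.co)).length ≤ 2 * cl w + 2

/-- even windows of the alternating word `dad...` -/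
def P_win_alt : Prop := ∀ (k l : ℕ), l % 2 = 0 → 2 ≤ l →
    win l (.s :: altw k true) =
      if k % 2 = 0 then [] else
      if l < k + 1 then [((-1 : ℚ) ^ (l / 2), .s :: altw (k - l) true)] else
      if l = k + 1 then [((-1 : ℚ) ^ (l / 2), [])] else []

def P_alt_DD : Prop := ∀ k l : ℕ, l % 2 = 0 → 2 ≤ l → DD l (rib hh 1 (altw k true)) =
    if k % 2 = 0 then 0 else
    if l < k + 1 then ((-1 : ℚ) ^ (l / 2)) • rib hh 1 (altw (k - l) true) else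
    if l = k + 1 then ((-1 : ℚ) ^ (l / 2)) • 1 else 0

/-- only the variables `1, ..., n` occur -/
def P_vars : Prop := ∀ (w : List Lk) (j : ℕ), (j = 0 ∨ w.length + 1 < j) →
    pderiv j (rib hh 1 w) = 0

/-! ### decomposition -/

/-- the rest functional -/
noncomputable def Er (F : MvPolynomial ℕ ℚ) : ℚ :=
  E F - Eo F - 1 / 4 * Eo (DD 2 (DD 2 F)) - 1 / 32 * Eo (DD 2 (DD 2 (DD 2 (DD 2 F))))

def P_Er_mono : Prop := ∀ μ : ℕ →₀ ℕ, 0 ≤ Er (monomial μ 1) ∧ Er (monomial μ 1) ≤ E (monomial μ 1) ∧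
    ((μ.sum fun j e => (j - 1) * e) < 6 → Er (monomial μ 1) = 0)

def P_Er_lin : Prop := ∃ L : MvPolynomial ℕ ℚ →ₗ[ℚ] ℚ, ∀ F, L F = Er F

def P_Er_bound : Prop := ∀ w : List Lk, NoS w →
    |Er (rib hh 1 w)| ≤ ∑ m ∈ range (w.length - 5), xE (m + 1) (w.length + 1) * ee (m + 1)

def P_alt_ge : Prop := ∀ k : ℕ, (∀ j, j % 2 = 1 → 0 ≤ Eo (rib hh 1 (altw j true))) →
    Eo (rib hh 1 (altw k true)) ≤ E (rib hh 1 (altw k true))

/-! ### the numbers `b(w)`, `e_n` -/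

def P_bw_nonneg : Prop := ∀ w : List Lk, 0 ≤ bw w
def P_bw_cheb : Prop := ∀ (u v : List Lk) (x : Lk), x ≠ .s →
    bw (u ++ x :: x :: v) ≤ bw (u ++ [x]) * bw (x :: v)
def P_bw_co : Prop := ∀ w : List Lk, bw (w.map Lk.co) = bw w
def P_bw_altw : Prop := ∀ (k : ℕ) (b : Bool), bw (altw k b) = ee (k + 1)

/-- the functions `f_0 = 1`, `f_{k+1}(x) = ∫_0^{1-x} f_k` -/
noncomputable def ff : ℕ → ℝ → ℝ
  | 0, _ => 1
  | k + 1, x => ∫ t in (0 : ℝ)..(1 - x), ff k t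

def P_ee_ff : Prop := ∀ k : ℕ, ((ee k : ℚ) : ℝ) = ff k 0
/-- single clash: left part `i + 1` cells, right part `j + 1` cells -/
def P_single_int : Prop := ∀ (i j : ℕ) (u v : List Lk) (x : Lk), x ≠ .s → u.length = i → v.length = j →
    cl (u ++ [x]) = 0 → cl (x :: v) = 0 → NoS u → NoS v →
    ((bw (u ++ x :: x :: v) : ℚ) : ℝ) = ∫ t in (0 : ℝ)..1, ff (i + 1) (1 - t) * ff (j + 1) t
def P_sandwich : Prop := ∀ (k : ℕ) (x : ℝ), 0 ≤ x → x ≤ 1 →
    (k % 2 = 0 → ff k 0 * Real.cos (Real.pi * x / 2) ≤ ff k x) ∧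
    (k % 2 = 1 → ff k x ≤ ff k 0 * Real.cos (Real.pi * x / 2))
/-- `c_k = e_k (π/2)^k` -/
def P_c_mono : Prop := ∀ k : ℕ,
    (k % 2 = 0 → ff k 0 ≤ (Real.pi / 2) * ff (k + 1) 0 ∧ ff k 0 ≤ (Real.pi / 2) ^ 2 * ff (k + 2) 0) ∧
    (k % 2 = 1 → (Real.pi / 2) * ff (k + 1) 0 ≤ ff k 0 ∧ (Real.pi / 2) ^ 2 * ff (k + 2) 0 ≤ ff k 0)

def P_ee_val : Prop := ee 0 = 1 ∧ ee 1 = 1 ∧ ee 2 = 1 / 2 ∧ ee 3 = 1 / 3 ∧ ee 4 = 5 / 24 ∧
    ee 5 = 2 / 15 ∧ ee 6 = 61 / 720 ∧ ee 7 = 17 / 315 ∧ ee 8 = 277 / 8064 ∧ ee 9 = 62 / 2835 ∧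
    ee 10 = 50521 / 3628800 ∧ ee 11 = 1382 / 155925 ∧ ee 12 = 540553 / 95800320 ∧
    ee 13 = 21844 / 6081075 ∧ ee 14 = 199360981 / 87178291200
/-- zigzag numbers -/
def zig : List ℕ := [1, 1, 1, 2, 5, 16, 61, 272, 1385, 7936, 50521, 353792, 2702765, 22368256,
  199360981, 1903757312, 19391512145, 209865342976, 2404879675441, 29088885112832,
  370371188237525, 4951498053124096, 69348874393137901]
def P_ee_zig : Prop := ∀ n : ℕ, n ≤ 22 → ee n = (zig.getD n 0 : ℕ) / (n.factorial : ℚ)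
def P_ee_pos : Prop := ∀ n : ℕ, 0 < ee n
def P_ee_two : Prop := ∀ m : ℕ, 6 ≤ m → ee m ≤ 2469 / 1000 * ee (m + 2)
def P_ee_two' : Prop := ∀ m n : ℕ, m ≤ n → (m + n) % 2 = 0 → 6 ≤ n →
    ee m ≤ 5 / 4 * (2469 / 1000) ^ ((n - m) / 2) * ee n
def P_ee_85 : Prop := ∀ i j : ℕ, ¬ (i = 1 ∧ j = 1) → ee i * ee j ≤ 8 / 5 * ee (i + j)
def P_ee_56 : Prop := ∀ i j : ℕ, 2 ≤ i → 2 ≤ j → ee i * ee j ≤ 5 / 6 * ee (i + j - 1)
def P_single : Prop := ∀ (u v : List Lk) (x : Lk), x ≠ .s → cl (u ++ [x]) = 0 → cl (x :: v) = 0 →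
    NoS u → NoS v → bw (u ++ x :: x :: v) ≤ 11 / 16 * ee (u.length + v.length + 3)
def P_bw_gg : Prop := ∀ w : List Lk, NoS w → bw w ≤ gg (cl w) * ee (w.length + 1)

/-- `e_n`, with a factor `5/4` for `n ≤ 5` -/
def ee' (n : ℕ) : ℚ := if n ≤ 5 then 5 / 4 * ee n else ee n

def P_bw_star : Prop := ∀ w : List Lk, w.count .s ≤ 4 →
    bw w ≤ (8 / 5) ^ (w.count .s) * ee' (w.length + 1)

/-! ### label numbers -/

def P_xE_rec : Prop := ∀ m n : ℕ, ((n : ℚ) + 2) * xE (m + 1) (n + 2) =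
    n * xE (m + 1) n + (m + 1) * (xE m (n + 1) + m * xE (m - 1) n)
def P_xO_sum : Prop := ∀ m n : ℕ, (n : ℚ) * xO (m + 1) n = (m + 1) * ∑ j ∈ range (n + 1),
    if j % 2 = 1 then xO m (n - j) + (if 2 * j ≤ n then m * xO (m - 1) (n - 2 * j) else 0) else 0
def P_xO_rec : Prop := ∀ m n : ℕ, ((n : ℚ) + 4) * xO (m + 1) (n + 4) =
    n * xO (m + 1) n + (m + 1) * (xO m (n + 3) + xO m (n + 1) + m * xO (m - 1) (n + 2))
/-- initial values and simple facts -/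
def P_x_basic : Prop := (∀ n, xE n n = mom 1 n) ∧ (∀ n, xO n n = mom 1 n) ∧
    (∀ m n, (m + n) % 2 = 1 → xE m n = 0) ∧ (∀ m n, (m + n) % 2 = 1 → xO m n = 0) ∧
    (∀ m n, 0 ≤ xE m n) ∧ (∀ m n, 0 ≤ xO m n) ∧ (∀ m n, n < m → xE m n = 0) ∧
    (∀ m n, n < m → xO m n = 0) ∧ (∀ n, 1 ≤ n → xE 0 n = 0) ∧ (∀ n, 1 ≤ n → xO 0 n = 0) ∧
    (∀ n, xO n (n + 2) = n * mom 1 (n - 1) / 3)
def P_I_mono : Prop := ∀ m n : ℕ, 1 ≤ m → m ≤ n →
    mom 1 m * mom 1 (n - 1) ≤ mom 1 n * mom 1 (m - 1)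

/-- bounding sequences -/
def tt : ℕ → ℚ
  | 0 => 1
  | h + 1 => if h ≤ 3 then tt h / (4 * (h + 1)) else tt h / (2 * (h + 1))
def s1 : ℕ → ℚ
  | 0 => 1
  | 1 => 519 / 10000
  | 2 => 632 / 100000
  | 3 => 292 / 1000000
  | 4 => 27 / 1000000
  | 5 => 1 / 1000000
  | 6 => 76 / 1000000000
  | h + 7 => 76 / 1000000000 / 8 ^ (h + 1)
def s2 : ℕ → ℚ
  | 0 => 1
  | 1 => 6 / 100
  | 2 => 86 / 10000
  | 3 => 47 / 100000
  | 4 => 51 / 1000000
  | 5 => 22 / 10000000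
  | 6 => 2 / 10000000
  | h + 7 => 2 / 10000000 / 8 ^ (h + 1)

def P_base_tt : Prop := ∀ n h : ℕ, 21 ≤ n → n ≤ 22 → 2 * h ≤ n → xE (n - 2 * h) n ≤ tt h * mom 1 n
def P_base_s1 : Prop := ∀ n h : ℕ, 22 ≤ n → n ≤ 25 → 2 * h ≤ n → xO (n - 2 * h) n ≤ s1 h * mom 1 n
def P_base_s2 : Prop := ∀ n h : ℕ, 14 ≤ n → n ≤ 17 → 2 * h ≤ n → xO (n - 2 * h) n ≤ s2 h * mom 1 n
def P_tt : Prop := ∀ n h : ℕ, 21 ≤ n → 2 * h ≤ n → xE (n - 2 * h) n ≤ tt h * mom 1 n
def P_s1 : Prop := ∀ n h : ℕ, 22 ≤ n → 2 * h ≤ n → xO (n - 2 * h) n ≤ s1 h * mom 1 n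
def P_s2 : Prop := ∀ n h : ℕ, 14 ≤ n → 2 * h ≤ n → xO (n - 2 * h) n ≤ s2 h * mom 1 n
def P_s_gen : Prop := ∀ (N0 : ℕ) (G : ℚ) (s : ℕ → ℚ), 0 < G → 4 ≤ N0 → s 0 = 1 → (∀ h, 0 ≤ s h) →
    (∀ n, N0 ≤ n → G * mom 1 (n - 1) ≤ mom 1 n) → (∀ n, N0 ≤ n → G * mom 1 (n - 2) ≤ mom 1 (n - 1)) →
    (∀ n : ℕ, N0 ≤ n → ((n : ℚ) - 1) / G ≤ 2 * s 1 * (2 * n - 1 + G)) →
    (∀ n : ℕ, N0 ≤ n → ((n : ℚ) - 3) * s 1 / G + 1 ≤ 4 * s 2 * (2 * n - 3 + G)) →
    (∀ h : ℕ, 3 ≤ h → s (h - 1) ≤ 2 * h * G * s h ∧ s (h - 2) ≤ 2 * h * (N0 + G) * s h) →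
    (∀ n h : ℕ, N0 - 3 ≤ n → n ≤ N0 → 2 * h ≤ n → xO (n - 2 * h) n ≤ s h * mom 1 n) →
    ∀ n h : ℕ, N0 - 3 ≤ n → 2 * h ≤ n → xO (n - 2 * h) n ≤ s h * mom 1 n
def P_alt_small : Prop := ∀ k : ℕ, k ≤ 21 → k % 2 = 1 →
    0 ≤ ∑ j ∈ range (k / 2 + 1), (-1) ^ j * xO (k + 1 - 2 * j) (k + 1) * ee (k + 1 - 2 * j)

def P_N1 : Prop := ∀ n : ℕ, 22 ≤ n →
    ∑ m ∈ range (n - 6), xE (m + 1) n * ee (m + 1) ≤ 4712 / 100000 * (mom 1 n * ee n)
def P_N2a : Prop := ∀ n : ℕ, 22 ≤ n →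
    xO (n - 2) n * ee (n - 2) ≤ 1282 / 10000 * (mom 1 n * ee n)
def P_N2b : Prop := ∀ n : ℕ, 22 ≤ n →
    ∑ m ∈ range (n - 3), xO (m + 1) n * ee (m + 1) ≤ 4405 / 100000 * (mom 1 n * ee n)
def P_N2c : Prop := ∀ n : ℕ, 22 ≤ n →
    ∑ m ∈ range (n - 5), xO (m + 1) n * ee (m + 1) ≤ 552 / 100000 * (mom 1 n * ee n)
def P_N3 : Prop := ∀ n : ℕ, 14 ≤ n →
    ∑ m ∈ range n, xO (m + 1) n * ee' (m + 1) ≤ 121 / 100 * (mom 1 n * ee n)
def P_N4 : Prop := ∀ n : ℕ, 22 ≤ n → 128 * mom 1 (n - 3) ≤ mom 1 n ∧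
    620 * mom 1 (n - 4) ≤ mom 1 n ∧ 258000 * mom 1 (n - 8) ≤ mom 1 n
def P_N5 : Prop := ∀ n : ℕ, 22 ≤ n →
    xE (n - 2) n * ee (n - 2) ≤ 6173 / 10000 * (mom 1 n * ee n) ∧
    xE (n - 4) n * ee (n - 4) ≤ 1906 / 10000 * (mom 1 n * ee n)

/-! ### analytic conclusion -/

def P_low : Prop := ∀ n : ℕ, 22 ≤ n → 866 / 1000 * (mom 1 n * ee n) ≤ E (rib hh 1 (altw (n - 1) true))
def P_up5 : Prop := ∀ (n : ℕ) (w : List Lk), 22 ≤ n → NoS w → w.length + 1 = n → 5 ≤ cl w →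
    E (rib hh 1 w) ≤ 81 / 100 * (mom 1 n * ee n)
def P_D2 : Prop := ∀ (n : ℕ) (w : List Lk) (N : ℕ), 22 ≤ n → NoS w → w.length + 1 = n →
    (win 2 (.s :: w)).length ≤ N →
    |Eo (DD 2 (DD 2 (rib hh 1 w)))| ≤ N * (N + 1) * (64 / 25) * (121 / 100) *
      (mom 1 (n - 4) * ee (n - 4))
def P_D4 : Prop := ∀ (n : ℕ) (w : List Lk) (N : ℕ), 22 ≤ n → NoS w → w.length + 1 = n →
    (win 2 (.s :: w)).length ≤ N →
    |Eo (DD 2 (DD 2 (DD 2 (DD 2 (rib hh 1 w)))))| ≤ N * (N + 1) * (N + 2) * (N + 3) *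
      (64 / 25) ^ 2 * (121 / 100) * (mom 1 (n - 8) * ee (n - 8))
def P_ds : Prop := ∀ w : List Lk, NoS w → ds [] w ≤ cl w * ee (w.length - 1)
def P_up4 : Prop := ∀ (n : ℕ) (w : List Lk), 22 ≤ n → NoS w → w.length + 1 = n → 1 ≤ cl w →
    cl w ≤ 4 → E (rib hh 1 w) ≤ 84 / 100 * (mom 1 n * ee n)
def P_large : Prop := ∀ (n : ℕ) (w : List Lk), 22 ≤ n → NoS w → w.length + 1 = n →
    E (rib hh 1 w) ≤ E (rib hh 1 (altw (n - 1) true))
def P_small : Prop := ∀ (n : ℕ) (w : List Lk), n ≤ 21 → NoS w → w.length + 1 = n →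
    E (rib hh 1 w) ≤ E (rib hh 1 (altw (n - 1) true))

end Pool.Agent.Lib.MP_c22e22_co.V
end
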