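import Mathlib
import Pool.Agent.Lib.MP_c22e22_co.V.Props

section

/-!
Alternating words under the functional `Eo`.
-/

namespace Pool.Agent.Lib.MP_c22e22_co.V

open MvPolynomial Finset

theorem altEo_altw_succ (b : Bool) :
    ∃ y, (∀ m, altw (m + 1) b = y :: altw m (!b)) := by
  cases b
  · exact ⟨_, fun m => rfl⟩
  · exact ⟨_, fun m => rfl⟩

theorem altEo_drop2 : ∀ (K : List Lk) (x y : Lk) (w : List Lk) (n : ℕ) (b : Bool),
    K ++ x :: y :: w = altw (n + 2) b → sg x * sg y = -1 ∧ K ++ w = altw n b := by
  intro K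
  induction K with
  | nil =>
    intro x y w n b h
    cases b
    · have h1 : x :: y :: w = .a :: .d :: altw n false := h
      simp only [List.cons.injEq] at h1
      obtain ⟨rfl, rfl, rfl⟩ := h1
      exact ⟨by simp [sg], rfl⟩
    · have h1 : x :: y :: w = .d :: .a :: altw n true := h
      simp only [List.cons.injEq] at h1
      obtain ⟨rfl, rfl, rfl⟩ := h1
      exact ⟨by simp [sg], rfl⟩
  | cons z K ih =>
    intro x y w n b h
    obtain ⟨c, hc⟩ := altEo_altw_succ b
    rw [hc, List.cons_append, List.cons.injEq] at h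
    obtain ⟨rfl, h⟩ := h
    cases n with
    | zero =>
      have := congrArg List.length h
      simp only [List.length_append, List.length_cons, altw_length] at this
      omega
    | succ n =>
      obtain ⟨h1, h2⟩ := ih x y w n (!b) h
      exact ⟨h1, by rw [hc, List.cons_append, h2]⟩

theorem altEo_drop (K : List Lk) (x y : Lk) (w : List Lk) (n : ℕ) (b : Bool)
    (h : K ++ x :: y :: w = altw n b) : sg x * sg y = -1 ∧ ∃ n' b', K ++ w = altw n' b' := by
  match n, h with
  | 0, h =>
    have := congrArg List.length h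
    simp only [List.length_append, List.length_cons, altw_length] at this
    omega
  | 1, h =>
    have := congrArg List.length h
    simp only [List.length_append, List.length_cons, altw_length] at this
    omega
  | n + 2, h =>
    obtain ⟨h1, h2⟩ := altEo_drop2 K x y w n b h
    exact ⟨h1, n, b, h2⟩

/-- coefficient for odd gap -/
def altEo_c (k m : ℕ) : ℚ := if (k - m) % 2 = 0 then (-1) ^ ((k - m) / 2) else 0

/-- coefficient for even gap -/
def altEo_e (k m : ℕ) : ℚ := if (k - m) % 2 = 1 then (-1) ^ ((k - m + 1) / 2) else 0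

theorem altEo_XX_gt : ∀ (w K : List Lk) (g m : ℕ), w.length < m → XX K g w m = 0 := by
  intro w
  induction w with
  | nil =>
    intro K g m h
    cases m with
    | zero => simp at h
    | succ m => simp [XX]
  | cons x w ih =>
    intro K g m h
    cases m with
    | zero => simp at h
    | succ m =>
      simp only [List.length_cons] at h
      rw [XX, ih _ _ _ (by omega), ih _ _ _ (by omega)]
      simp

theorem altEo_cg_gt : ∀ (k g m : ℕ), k < m → cg k g m = 0 := by
  intro k
  induction k with
  | zero =>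
    intro g m h
    cases m with
    | zero => simp at h
    | succ m => simp [cg]
  | succ k ih =>
    intro g m h
    cases m with
    | zero => simp at h
    | succ m =>
      rw [cg, ih _ _ (by omega), ih _ _ (by omega)]
      simp

theorem altEo_even (g : ℕ) (hg : 1 ≤ g) (hg2 : g % 2 = 0) (F G : MvPolynomial ℕ ℚ) :
    Eo (F * (pw g * G)) = 0 := by
  have h1 : F * (pw g * G) = X g * (F * C (1 / (g : ℚ)) * G) := by
    unfold pw
    ring
  rw [h1, Eo_X_mul g hg, if_neg (by omega)]

theorem altEo_main (hb : P_bw_altw) : ∀ (k : ℕ) (b : Bool) (K : List Lk) (g m : ℕ)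
    (F : MvPolynomial ℕ ℚ), m ≤ k → 1 ≤ g →
    (g % 2 = 1 → (∃ n b', K ++ altw k b = altw n b') →
      Eo (F * XX K g (altw k b) m) =
        altEo_c k m * Eo (F * cg k g m) * ee (K.length + m + 1)) ∧
    (g % 2 = 0 → ∀ x, (∃ n b', K ++ x :: altw k b = altw n b') →
      sg x * Eo (F * XX K g (altw k b) m) =
        altEo_e k m * Eo (F * cg k g m) * ee (K.length + m + 1)) := by
  intro k
  induction k with
  | zero =>
    intro b K g m F hm hg
    obtain rfl : m = 0 := by omega
    constructor
    · rintro h1 ⟨n, b', h2⟩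
      simp only [altw, List.append_nil] at h2
      have h3 : bw K = ee (K.length + 1) := by
        rw [h2, hb, altw_length]
      simp only [altw, XX, cg, h3, altEo_c]
      have h4 : F * (pw g * C (ee (K.length + 1))) = ee (K.length + 1) • (F * pw g) := by
        rw [smul_eq_C_mul]; ring
      rw [h4, map_smul, smul_eq_mul]
      norm_num
      ring
    · rintro h1 x -
      simp only [altw, XX, cg, altEo_e]
      rw [altEo_even g hg h1]
      norm_num
  | succ k ih =>
    intro b K g m F hm hg
    obtain ⟨y, hy'⟩ := altEo_altw_succ b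
    have hy := hy' k
    constructor
    · rintro h1 ⟨n, b', h2⟩
      rw [hy] at h2 ⊢
      cases m with
      | zero =>
        have h3 := (ih (!b) K (g + 1) 0 F (by omega) (by omega)).2 (by omega) y ⟨n, b', h2⟩
        rw [XX, cg, mul_smul_comm, map_smul, smul_eq_mul, h3]
        congr 2
        unfold altEo_e altEo_c
        simp only [Nat.sub_zero]
        by_cases h5 : k % 2 = 1
        · rw [if_pos h5, if_pos (by omega)]
        · rw [if_neg h5, if_neg (by omega)]
      | succ m =>
        have h3 := (ih (!b) (K ++ [y]) 1 m (F * pw g) (by omega) (by omega)).1 (by omega)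
          ⟨n, b', by simpa using h2⟩
        have h4 : sg y * Eo (F * XX K (g + 1) (altw k !b) (m + 1)) =
            altEo_c (k + 1) (m + 1) * Eo (F * cg k (g + 1) (m + 1)) *
              ee (K.length + (m + 1) + 1) := by
          by_cases hmk : m + 1 ≤ k
          · rw [(ih (!b) K (g + 1) (m + 1) F hmk (by omega)).2 (by omega) y ⟨n, b', h2⟩]
            congr 2
            unfold altEo_e altEo_c
            have h6 : k + 1 - (m + 1) = (k - (m + 1)) + 1 := by omega
            rw [h6]
            by_cases h5 : (k - (m + 1)) % 2 = 1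
            · rw [if_pos h5, if_pos (by omega)]
            · rw [if_neg h5, if_neg (by omega)]
          · rw [altEo_XX_gt _ _ _ _ (by rw [altw_length]; omega), altEo_cg_gt _ _ _ (by omega)]
            simp
        rw [XX, cg, mul_add, mul_add, map_add, map_add, mul_smul_comm, map_smul, smul_eq_mul,
          h4, ← mul_assoc F, ← mul_assoc F, h3, mul_add, add_mul]
        congr 1
        have h7 : (K ++ [y]).length + m + 1 = K.length + (m + 1) + 1 := by
          simp only [List.length_append, List.length_singleton]; ring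
        rw [h7]
        congr 2
        unfold altEo_c
        have h6 : k + 1 - (m + 1) = k - m := by omega
        rw [h6]
    · rintro h1 x ⟨n, b', h2⟩
      rw [hy] at h2 ⊢
      obtain ⟨hs, h2'⟩ := altEo_drop K x y _ n b' h2
      have key : ∀ m, m ≤ k + 1 → sg x * Eo (F * (sg y • XX K (g + 1) (altw k !b) m)) =
          altEo_e (k + 1) m * Eo (F * cg k (g + 1) m) * ee (K.length + m + 1) := by
        intro m hm
        rw [mul_smul_comm, map_smul, smul_eq_mul, ← mul_assoc, hs]
        by_cases hmk : m ≤ k
        · rw [(ih (!b) K (g + 1) m F hmk (by omega)).1 (by omega) h2']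
          rw [← mul_assoc, ← mul_assoc]
          congr 2
          unfold altEo_e altEo_c
          have h6 : k + 1 - m = (k - m) + 1 := by omega
          rw [h6]
          by_cases h5 : (k - m) % 2 = 0
          · rw [if_pos h5, if_pos (by omega)]
            have h7 : (k - m + 1 + 1) / 2 = (k - m) / 2 + 1 := by omega
            rw [h7, pow_succ]
            ring
          · rw [if_neg h5, if_neg (by omega)]
            ring
        · rw [altEo_XX_gt _ _ _ _ (by rw [altw_length]; omega), altEo_cg_gt _ _ _ (by omega)]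
          simp
      cases m with
      | zero =>
        rw [XX, cg]
        exact key 0 (by omega)
      | succ m =>
        rw [XX, cg, mul_add, mul_add, map_add, map_add, altEo_even g hg h1, altEo_even g hg h1,
          zero_add, zero_add]
        exact key (m + 1) hm

theorem p_Eo_altw (hs : P_star) (hb : P_bw_altw) : P_Eo_altw := by
  intro k b
  rw [hs, XS, map_sum, altw_length]
  have h1 : ∀ m ∈ range (k + 1), Eo (XX [] 1 (altw k b) m) =
      altEo_c k m * xO (m + 1) (k + 1) * ee (m + 1) := by
    intro m hm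
    rw [mem_range] at hm
    have h2 := (altEo_main hb k b [] 1 m 1 (by omega) le_rfl).1 rfl ⟨k, b, by simp⟩
    rw [one_mul, one_mul] at h2
    rw [h2]
    simp only [List.length_nil, zero_add]
    rfl
  rw [Finset.sum_congr rfl h1]
  symm
  refine Finset.sum_of_injOn (fun j => k - 2 * j) ?_ ?_ ?_ ?_
  · intro i hi j hj hij
    simp only [coe_range, Set.mem_Iio] at hi hj hij
    omega
  · intro j hj
    simp only [coe_range, Set.mem_Iio] at hj ⊢
    omega
  · intro m hm h
    rw [mem_range] at hm
    have h3 : ¬ (k - m) % 2 = 0 := by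
      intro h4
      apply h
      refine ⟨(k - m) / 2, ?_, ?_⟩
      · simp only [coe_range, Set.mem_Iio]
        omega
      · show k - 2 * ((k - m) / 2) = m
        omega
    unfold altEo_c
    rw [if_neg h3]
    ring
  · intro j hj
    rw [mem_range] at hj
    show _ = altEo_c k (k - 2 * j) * xO (k - 2 * j + 1) (k + 1) * ee (k - 2 * j + 1)
    have h2 : k - 2 * j + 1 = k + 1 - 2 * j := by omega
    rw [h2]
    unfold altEo_c
    have h3 : k - (k - 2 * j) = 2 * j := by omega
    rw [h3, if_pos (by omega), Nat.mul_div_cancel_left _ (by norm_num)]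

end Pool.Agent.Lib.MP_c22e22_co.V
end

section

open MvPolynomial Finset

namespace Pool.Agent.Lib.MP_c22e22_co.V

theorem NMeq_Icc (m : ℕ) (f : ℕ → ℚ) : ∑ j ∈ Icc 1 m, f j = ∑ j ∈ range m, f (j + 1) := by
  induction m with
  | zero => simp
  | succ m ih => rw [Finset.sum_Icc_succ_top (by omega), ih, Finset.sum_range_succ]

theorem NMeq_parity (m : ℕ) (g : ℕ → ℚ) :
    (∑ j ∈ range m, if (j + 1) % 2 = 1 then 0 else g (j + 1)) =
      ∑ j ∈ range m, if 2 * (j + 1) ≤ m then g (2 * (j + 1)) else 0 := by
  have e1 : (∑ j ∈ range m, if (j + 1) % 2 = 1 then 0 else g (j + 1)) =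
      ∑ j ∈ (range m).filter (fun j => ¬ (j + 1) % 2 = 1), g (j + 1) := by
    rw [Finset.sum_filter]
    refine Finset.sum_congr rfl fun j _ => ?_
    by_cases h : (j + 1) % 2 = 1 <;> simp [h]
  rw [e1, ← Finset.sum_filter]
  refine Finset.sum_nbij' (fun j => (j + 1) / 2 - 1) (fun j => 2 * (j + 1) - 1) ?_ ?_ ?_ ?_ ?_
  · intro j hj
    simp only [Finset.mem_filter, Finset.mem_range] at hj ⊢
    omega
  · intro j hj
    simp only [Finset.mem_filter, Finset.mem_range] at hj ⊢
    omega
  · intro j hj
    simp only [Finset.mem_filter, Finset.mem_range] at hj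
    show 2 * ((j + 1) / 2 - 1 + 1) - 1 = j
    omega
  · intro j hj
    show (2 * (j + 1) - 1 + 1) / 2 - 1 = j
    omega
  · intro j hj
    simp only [Finset.mem_filter, Finset.mem_range] at hj
    congr 1
    omega

theorem NMeq_split (m : ℕ) (f : ℕ → ℚ) :
    ∑ j ∈ range m, ((if (j + 1) % 2 = 1 then f (m - 1 - j) else 0) +
      (if 2 * (j + 1) ≤ m then f (m - 2 * (j + 1)) else 0)) = ∑ j ∈ range m, f (m - 1 - j) := by
  have h := NMeq_parity m (fun t => f (m - t))
  rw [Finset.sum_add_distrib]
  rw [← h, ← Finset.sum_add_distrib]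
  refine Finset.sum_congr rfl fun j hj => ?_
  have e : m - 1 - j = m - (j + 1) := by omega
  rw [e]
  by_cases h' : (j + 1) % 2 = 1 <;> simp [h']

theorem NMeq_DD_prod {ι : Type*} [DecidableEq ι] (h2 : P_DD_hh) (l : ℕ) (hl : 1 ≤ l)
    (s : Finset ι) (α : ι → ℕ) :
    DD l (∏ i ∈ s, hh (α i)) =
      ∑ i ∈ s, if l ≤ α i then hh (α i - l) * ∏ i' ∈ s.erase i, hh (α i') else 0 := by
  induction s using Finset.induction_on with
  | empty =>
    have : (1 : MvPolynomial ℕ ℚ) = C 1 := by simp
    rw [Finset.prod_empty, Finset.sum_empty, this, DD_C]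
  | insert a s ha ih =>
    rw [Finset.prod_insert ha, DD_mul, ih, Finset.sum_insert ha, h2 l hl]
    congr 1
    · rw [Finset.erase_insert ha]
      split_ifs <;> simp
    · rw [Finset.mul_sum]
      refine Finset.sum_congr rfl fun i hi => ?_
      have hia : a ≠ i := fun h => ha (h ▸ hi)
      rw [Finset.erase_insert_of_ne hia, Finset.prod_insert (by simp [ha])]
      split_ifs
      · ring
      · simp

theorem NMeq_upd {k : ℕ} (α : Fin k → ℕ) (l : Fin k) (x : ℕ) :
    ∏ i, hh (Function.update α l x i) = hh x * ∏ i ∈ univ.erase l, hh (α i) := by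
  rw [← Finset.mul_prod_erase univ _ (Finset.mem_univ l), Function.update_self]
  congr 1
  refine Finset.prod_congr rfl fun i hi => ?_
  rw [Function.update_of_ne (Finset.ne_of_mem_erase hi)]

theorem NMeq_upd2 {k : ℕ} (α : Fin k → ℕ) (l i : Fin k) (hi : i ∈ univ.erase l) (x y : ℕ) :
    ∏ i', hh (Function.update (Function.update α l x) i y i') =
      hh x * (hh y * ∏ i' ∈ (univ.erase l).erase i, hh (α i')) := by
  have hil : i ≠ l := Finset.ne_of_mem_erase hi
  rw [Function.update_comm hil.symm, NMeq_upd, ← Finset.mul_prod_erase (univ.erase l) _ hi,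
    Function.update_self]
  congr 2
  refine Finset.prod_congr rfl fun i' hi' => ?_
  rw [Function.update_of_ne (Finset.ne_of_mem_erase hi')]

/-- the recursion for the functional -/
theorem NMeq_E_rec (h1 : P_hh_rec) (h2 : P_DD_hh) {k : ℕ} (α : Fin k → ℕ) (l : Fin k) :
    (α l : ℚ) * E (∏ i, hh (α i)) = ∑ j ∈ Icc 1 (α l),
      (E (∏ i, hh (Function.update α l (α l - j) i)) +
      ∑ i ∈ univ.erase l, if j ≤ α i then
        E (∏ i', hh (Function.update (Function.update α l (α l - j)) i (α i - j) i')) else 0) := by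
  set G : MvPolynomial ℕ ℚ := ∏ i ∈ univ.erase l, hh (α i) with hG
  obtain ⟨m, hm⟩ : ∃ m, m = α l := ⟨_, rfl⟩
  have e0 : ∏ i, hh (α i) = hh m * G := by
    rw [hG, hm]
    exact (Finset.mul_prod_erase univ (fun i => hh (α i)) (Finset.mem_univ l)).symm
  have e1 : (m : ℚ) * E (hh m * G) = ∑ j ∈ range m, E (X (j + 1) * (hh (m - 1 - j) * G)) := by
    rw [← smul_eq_mul, ← map_smul, ← smul_mul_assoc, h1 m, Finset.sum_mul, map_sum]
    refine Finset.sum_congr rfl fun j _ => ?_
    rw [mul_assoc]
  have e2 : ∀ j ∈ range m, E (X (j + 1) * (hh (m - 1 - j) * G)) =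
      ((if (j + 1) % 2 = 1 then E (hh (m - 1 - j) * G) else 0) +
        (if 2 * (j + 1) ≤ m then E (hh (m - 2 * (j + 1)) * G) else 0)) +
      ∑ i ∈ univ.erase l, if j + 1 ≤ α i then
        E (hh (m - (j + 1)) * (hh (α i - (j + 1)) * ∏ i' ∈ (univ.erase l).erase i, hh (α i')))
        else 0 := by
    intro j hj
    rw [Finset.mem_range] at hj
    rw [E_X_mul, DD_mul, map_add, h2 (j + 1) (by omega), hG,
      NMeq_DD_prod h2 (j + 1) (by omega), Finset.mul_sum, map_sum, add_assoc]
    congr 1
    congr 1
    · by_cases h : 2 * (j + 1) ≤ m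
      · rw [if_pos h, if_pos (by omega)]
        have : m - 1 - j - (j + 1) = m - 2 * (j + 1) := by omega
        rw [this]
      · rw [if_neg h, if_neg (by omega)]
        simp
    · refine Finset.sum_congr rfl fun i _ => ?_
      have : m - 1 - j = m - (j + 1) := by omega
      rw [this]
      split_ifs
      · rfl
      · simp
  rw [← hm, e0, e1, Finset.sum_congr rfl e2, Finset.sum_add_distrib,
    NMeq_split m (fun t => E (hh t * G)), ← Finset.sum_add_distrib, NMeq_Icc]
  refine Finset.sum_congr rfl fun j _ => ?_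
  have : m - 1 - j = m - (j + 1) := by omega
  rw [this, NMeq_upd, ← hG]
  congr 1
  refine Finset.sum_congr rfl fun i hi => ?_
  rw [NMeq_upd2 α l i hi]

theorem NMeq_zero {k : ℕ} (α : Fin k → ℕ) (h : ∀ i, α i = 0) : NM α = 1 := by
  unfold NM
  rw [Nat.card_eq_one_iff_unique]
  refine ⟨⟨?_⟩, ⟨⟨fun _ _ => 0, fun _ _ => rfl, fun i => by simp [h i]⟩⟩⟩
  rintro ⟨A, hA, hA'⟩ ⟨B, hB, hB'⟩
  apply Subtype.ext
  funext i j
  have a1 := hA' i
  have b1 := hB' i
  rw [h i, Finset.sum_eq_zero_iff] at a1 b1
  show A i j = B i j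
  rw [a1 j (Finset.mem_univ j), b1 j (Finset.mem_univ j)]

theorem NMeq_hh_zero : hh 0 = 1 := by
  simp [hh, cc]

theorem NMeq_aux (h0 : P_NM_rec) (h1 : P_hh_rec) (h2 : P_DD_hh) (k : ℕ) :
    ∀ (N : ℕ) (α : Fin k → ℕ), ∑ i, α i = N → (NM α : ℚ) = E (∏ i, hh (α i)) := by
  intro N
  induction N using Nat.strong_induction_on with
  | _ N ih =>
    intro α hα
    by_cases hz : ∀ i, α i = 0
    · rw [NMeq_zero α hz]
      have : ∏ i, hh (α i) = 1 := by
        refine Finset.prod_eq_one fun i _ => ?_
        rw [hz i, NMeq_hh_zero]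
      rw [this, E_one]; simp
    · push Not at hz
      obtain ⟨l, hl⟩ := hz
      have hl' : (α l : ℚ) ≠ 0 := by exact_mod_cast hl
      have r1 := NMeq_E_rec h1 h2 α l
      have r2 : ((α l * NM α : ℕ) : ℚ) = _ := congrArg (Nat.cast : ℕ → ℚ) (h0 k α l)
      push_cast at r2
      have hsum1 : ∀ j, 1 ≤ j → j ≤ α l → ∑ i, Function.update α l (α l - j) i < N := by
        intro j hj1 hj2
        rw [← hα]
        refine Finset.sum_lt_sum (fun i _ => ?_) ⟨l, Finset.mem_univ l, ?_⟩
        · by_cases h : i = l
          · subst h; simp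
          · rw [Function.update_of_ne h]
        · rw [Function.update_self]; omega
      have hsum2 : ∀ j, 1 ≤ j → j ≤ α l → ∀ i, i ≠ l →
          ∑ i', Function.update (Function.update α l (α l - j)) i (α i - j) i' < N := by
        intro j hj1 hj2 i hi
        refine lt_of_le_of_lt (Finset.sum_le_sum fun i' _ => ?_) (hsum1 j hj1 hj2)
        by_cases h : i' = i
        · subst h
          rw [Function.update_self, Function.update_of_ne hi]
          omega
        · rw [Function.update_of_ne h]
      apply mul_left_cancel₀ hl'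
      rw [r1, r2]
      refine Finset.sum_congr rfl fun j hj => ?_
      rw [Finset.mem_Icc] at hj
      rw [ih _ (hsum1 j hj.1 hj.2) _ rfl]
      congr 1
      refine Finset.sum_congr rfl fun i hi => ?_
      split_ifs with hji
      · rw [ih _ (hsum2 j hj.1 hj.2 i (Finset.ne_of_mem_erase hi)) _ rfl]
      · simp

theorem p_NM_eq (h0 : P_NM_rec) (h1 : P_hh_rec) (h2 : P_DD_hh) : P_NM_eq := by
  intro k α
  exact NMeq_aux h0 h1 h2 k _ α rfl

end Pool.Agent.Lib.MP_c22e22_co.V
end

section

/-!
# Symmetric matrices with given row sums: the recursion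
-/

set_option autoImplicit false

namespace Pool.Agent.Lib.MP_c22e22_co.V

open Finset

/-- the set of symmetric matrices with row sums `α` -/
def NMrecS {k : ℕ} (α : Fin k → ℕ) : Set (Fin k → Fin k → ℕ) :=
  {A | (∀ i j, A i j = A j i) ∧ ∀ i, ∑ j, A i j = α i}

theorem NMrec_eq {k : ℕ} (α : Fin k → ℕ) : NM α = Nat.card (NMrecS α) := rfl

theorem NMrec_le {k : ℕ} {α : Fin k → ℕ} {A : Fin k → Fin k → ℕ} (hA : A ∈ NMrecS α)
    (i j : Fin k) : A i j ≤ α i := by
  rw [← hA.2 i]
  exact Finset.single_le_sum (f := fun j => A i j) (fun _ _ => Nat.zero_le _) (mem_univ j)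

theorem NMrec_finite {k : ℕ} (α : Fin k → ℕ) : (NMrecS α).Finite := by
  have h : (Set.pi Set.univ fun i : Fin k => Set.pi Set.univ fun _ : Fin k =>
      Set.Iic (α i)).Finite :=
    Set.Finite.pi fun i => Set.Finite.pi fun _ => Set.finite_Iic _
  refine h.subset fun A hA => ?_
  intro i _ j _
  exact NMrec_le hA i j

theorem NMrec_card {k : ℕ} (α δ : Fin k → ℕ) (D : Fin k → Fin k → ℕ)
    (hD : ∀ i j, D i j = D j i) (hr : ∀ i, ∑ j, D i j = δ i) (hle : ∀ i, δ i ≤ α i) :
    Nat.card {A // A ∈ NMrecS α ∧ ∀ i j, D i j ≤ A i j} = NM (fun i => α i - δ i) := by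
  refine Nat.card_congr
    { toFun := fun A => ⟨fun i j => A.1 i j - D i j, ?_, ?_⟩
      invFun := fun B => ⟨fun i j => B.1 i j + D i j, ⟨?_, ?_⟩, ?_⟩
      left_inv := ?_
      right_inv := ?_ }
  · intro i j
    show A.1 i j - D i j = A.1 j i - D j i
    rw [A.2.1.1 i j, hD i j]
  · intro i
    rw [Finset.sum_tsub_distrib _ fun j _ => A.2.2 i j, A.2.1.2 i, hr i]
  · intro i j
    simp only
    rw [B.2.1 i j, hD i j]
  · intro i
    simp only
    rw [Finset.sum_add_distrib, B.2.2 i, hr i]
    exact Nat.sub_add_cancel (hle i)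
  · intro i j
    exact Nat.le_add_left _ _
  · intro A
    apply Subtype.ext
    funext i j
    simp only
    exact Nat.sub_add_cancel (A.2.2 i j)
  · intro B
    apply Subtype.ext
    funext i j
    simp

theorem NMrec_diag {k : ℕ} (α : Fin k → ℕ) (l : Fin k) (j : ℕ) (hj : j ≤ α l) :
    Nat.card {A // A ∈ NMrecS α ∧ j ≤ A l l} = NM (Function.update α l (α l - j)) := by
  have h := NMrec_card α (fun a => if a = l then j else 0)
    (fun a b => if a = l ∧ b = l then j else 0)
    (fun a b => by simp only [and_comm]) (fun a => by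
      by_cases h : a = l
      · simp [h]
      · simp [h]) (fun a => by
      by_cases h : a = l
      · simp [h, hj]
      · simp [h])
  have e : (fun i => α i - (fun a => if a = l then j else 0) i) =
      Function.update α l (α l - j) := by
    funext a
    by_cases h : a = l
    · subst h; simp
    · simp [h]
  rw [e] at h
  rw [← h]
  refine Nat.card_congr (Equiv.subtypeEquivRight fun A => and_congr_right fun _ => ?_)
  constructor
  · intro h a b
    by_cases hh : a = l ∧ b = l
    · rw [if_pos hh, hh.1, hh.2]; exact h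
    · rw [if_neg hh]; exact Nat.zero_le _
  · intro h
    have := h l l
    simpa using this

theorem NMrec_off {k : ℕ} (α : Fin k → ℕ) (l i : Fin k) (hil : i ≠ l) (j : ℕ) (hj : j ≤ α l)
    (hi : j ≤ α i) :
    Nat.card {A // A ∈ NMrecS α ∧ j ≤ A l i} =
      NM (Function.update (Function.update α l (α l - j)) i (α i - j)) := by
  have h := NMrec_card α (fun a => if a = l ∨ a = i then j else 0)
    (fun a b => if (a = l ∧ b = i) ∨ (a = i ∧ b = l) then j else 0)
    (fun a b => by
      have : ((a = l ∧ b = i) ∨ (a = i ∧ b = l)) ↔ ((b = l ∧ a = i) ∨ (b = i ∧ a = l)) := by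
        tauto
      simp only [this])
    (fun a => by
      by_cases h1 : a = l
      · subst h1
        simp [hil.symm]
      · by_cases h2 : a = i
        · subst h2
          simp [hil]
        · simp [h1, h2])
    (fun a => by
      by_cases h1 : a = l
      · subst h1; simp [hj]
      · by_cases h2 : a = i
        · subst h2; simp [hi]
        · simp [h1, h2])
  have e : (fun a => α a - (fun a => if a = l ∨ a = i then j else 0) a) =
      Function.update (Function.update α l (α l - j)) i (α i - j) := by
    funext a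
    by_cases h1 : a = i
    · subst h1; simp
    · by_cases h2 : a = l
      · subst h2; simp [h1]
      · simp [h1, h2]
  rw [e] at h
  rw [← h]
  refine Nat.card_congr (Equiv.subtypeEquivRight fun A => and_congr_right fun hA => ?_)
  constructor
  · intro h a b
    by_cases hh : (a = l ∧ b = i) ∨ (a = i ∧ b = l)
    · rw [if_pos hh]
      rcases hh with ⟨h1, h2⟩ | ⟨h1, h2⟩
      · rw [h1, h2]; exact h
      · rw [h1, h2, hA.1 i l]; exact h
    · rw [if_neg hh]; exact Nat.zero_le _
  · intro h
    have := h l i
    simpa using this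

theorem NMrec_none {k : ℕ} (α : Fin k → ℕ) (l i : Fin k) (j : ℕ) (hi : α i < j) :
    Nat.card {A // A ∈ NMrecS α ∧ j ≤ A l i} = 0 := by
  have : IsEmpty {A // A ∈ NMrecS α ∧ j ≤ A l i} := by
    constructor
    rintro ⟨A, hA, h⟩
    have h1 := NMrec_le hA i l
    rw [hA.1 i l] at h1
    omega
  exact Nat.card_of_isEmpty

theorem p_NM_rec : P_NM_rec := by
  classical
  intro k α l
  set S : Finset (Fin k → Fin k → ℕ) := (NMrec_finite α).toFinset with hS
  have hmem : ∀ A, A ∈ S ↔ A ∈ NMrecS α := fun A => by simp [hS]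
  have hNM : NM α = #S := by
    rw [NMrec_eq, Nat.card_coe_set_eq, Set.ncard_eq_toFinset_card _ (NMrec_finite α)]
  have hc : ∀ (i : Fin k) (j : ℕ), #(S.filter fun A => j ≤ A l i) =
      Nat.card {A // A ∈ NMrecS α ∧ j ≤ A l i} := by
    intro i j
    rw [Nat.subtype_card (S.filter fun A => j ≤ A l i)]
    intro A
    rw [mem_filter, hmem]
  have h1 : α l * NM α = ∑ A ∈ S, ∑ i, ∑ j ∈ Icc 1 (α l), if j ≤ A l i then 1 else 0 := by
    rw [hNM, mul_comm, ← smul_eq_mul, ← Finset.sum_const]
    refine Finset.sum_congr rfl fun A hA => ?_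
    rw [hmem] at hA
    rw [← hA.2 l]
    refine Finset.sum_congr rfl fun i _ => ?_
    rw [hA.2 l, Finset.sum_boole]
    have h2 : (Icc 1 (α l)).filter (fun j => j ≤ A l i) = Icc 1 (A l i) := by
      ext j
      have := NMrec_le hA l i
      simp only [mem_filter, mem_Icc]
      omega
    rw [h2]
    simp
  have h2 : α l * NM α = ∑ j ∈ Icc 1 (α l), ∑ i, #(S.filter fun A => j ≤ A l i) := by
    rw [h1]
    have h3 : ∀ A ∈ S, (∑ i, ∑ j ∈ Icc 1 (α l), if j ≤ A l i then 1 else 0) =
        ∑ j ∈ Icc 1 (α l), ∑ i, if j ≤ A l i then 1 else 0 := fun A _ => Finset.sum_comm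
    rw [Finset.sum_congr rfl h3, Finset.sum_comm]
    refine Finset.sum_congr rfl fun j _ => ?_
    rw [Finset.sum_comm]
    refine Finset.sum_congr rfl fun i _ => ?_
    rw [Finset.sum_boole]
    simp
  rw [h2]
  refine Finset.sum_congr rfl fun j hj => ?_
  rw [mem_Icc] at hj
  rw [← Finset.add_sum_erase _ _ (mem_univ l)]
  congr 1
  · rw [hc, NMrec_diag α l j hj.2]
  · refine Finset.sum_congr rfl fun i hi => ?_
    rw [hc]
    split_ifs with h
    · exact NMrec_off α l i (ne_of_mem_erase hi) j hj.2 h
    · exact NMrec_none α l i j (not_le.mp h)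

theorem NM_zero (k : ℕ) : NM (fun _ : Fin k => 0) = 1 := by
  rw [NMrec_eq, Nat.card_eq_one_iff_unique]
  constructor
  · constructor
    rintro ⟨A, hA⟩ ⟨B, hB⟩
    apply Subtype.ext
    funext i j
    have h1 := NMrec_le hA i j
    have h2 := NMrec_le hB i j
    simp only
    omega
  · exact ⟨⟨fun _ _ => 0, fun _ _ => rfl, fun _ => by simp⟩⟩

end Pool.Agent.Lib.MP_c22e22_co.V
end

section

open MvPolynomial Finset

namespace Pool.Agent.Lib.MP_c22e22_co.V

theorem Sandwich_cont : ∀ k : ℕ, Continuous (ff k) := by
  intro k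
  induction k with
  | zero => exact continuous_const
  | succ k ih =>
    have h1 : Continuous fun b : ℝ => ∫ t in (0:ℝ)..b, ff k t :=
      intervalIntegral.continuous_primitive (fun a b => ih.intervalIntegrable a b) 0
    exact h1.comp (continuous_const.sub continuous_id)

theorem Sandwich_step (f g : ℝ → ℝ) (hf : Continuous f) (hg : Continuous g)
    (h : ∀ t r, 0 ≤ t → t ≤ r → r ≤ 1 → f t * g r ≤ f r * g t) (v u : ℝ) (hv : 0 ≤ v)
    (hvu : v ≤ u) (hu : u ≤ 1) :
    (∫ t in (0:ℝ)..v, f t) * (∫ t in (0:ℝ)..u, g t) ≤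
      (∫ t in (0:ℝ)..u, f t) * (∫ t in (0:ℝ)..v, g t) := by
  have e1 : (∫ t in (0:ℝ)..u, g t) = (∫ t in (0:ℝ)..v, g t) + ∫ t in v..u, g t :=
    (intervalIntegral.integral_add_adjacent_intervals (hg.intervalIntegrable _ _)
      (hg.intervalIntegrable _ _)).symm
  have e2 : (∫ t in (0:ℝ)..u, f t) = (∫ t in (0:ℝ)..v, f t) + ∫ t in v..u, f t :=
    (intervalIntegral.integral_add_adjacent_intervals (hf.intervalIntegrable _ _)
      (hf.intervalIntegrable _ _)).symm
  have h1 : ∀ t ∈ Set.Icc (0:ℝ) v, f t * (∫ r in v..u, g r) ≤ (∫ r in v..u, f r) * g t := by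
    intro t ht
    rw [← intervalIntegral.integral_const_mul, ← intervalIntegral.integral_mul_const]
    apply intervalIntegral.integral_mono_on hvu
    · exact (hg.intervalIntegrable _ _).const_mul _
    · exact (hf.intervalIntegrable _ _).mul_const _
    · intro r hr
      exact h t r ht.1 (ht.2.trans hr.1) (hr.2.trans hu)
  have h2 : (∫ t in (0:ℝ)..v, f t) * (∫ r in v..u, g r) ≤
      (∫ r in v..u, f r) * (∫ t in (0:ℝ)..v, g t) := by
    have e3 : (∫ t in (0:ℝ)..v, f t) * (∫ r in v..u, g r) =
        ∫ t in (0:ℝ)..v, f t * (∫ r in v..u, g r) :=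
      (intervalIntegral.integral_mul_const (∫ r in v..u, g r) f).symm
    have e4 : (∫ r in v..u, f r) * (∫ t in (0:ℝ)..v, g t) =
        ∫ t in (0:ℝ)..v, (∫ r in v..u, f r) * g t :=
      (intervalIntegral.integral_const_mul (∫ r in v..u, f r) g).symm
    rw [e3, e4]
    apply intervalIntegral.integral_mono_on hv
    · exact (hf.intervalIntegrable _ _).mul_const _
    · exact (hg.intervalIntegrable _ _).const_mul _
    · exact h1
  rw [e1, e2]
  nlinarith [h2]

/-- `φ x = cos (π x / 2)` -/
noncomputable def Sandwich_phi (x : ℝ) : ℝ := Real.cos (Real.pi * x / 2)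

theorem Sandwich_phi_cont : Continuous Sandwich_phi := by
  unfold Sandwich_phi
  fun_prop

theorem Sandwich_phi_int (x : ℝ) :
    (∫ t in (0:ℝ)..(1 - x), Sandwich_phi t) = 2 / Real.pi * Sandwich_phi x := by
  have hpi : Real.pi ≠ 0 := Real.pi_ne_zero
  have hd : ∀ t ∈ Set.uIcc (0:ℝ) (1 - x),
      HasDerivAt (fun t : ℝ => 2 / Real.pi * Real.sin (Real.pi * t / 2)) (Sandwich_phi t) t := by
    intro t _
    have h1 : HasDerivAt (fun t : ℝ => Real.pi * t / 2) (Real.pi / 2) t := by
      have := ((hasDerivAt_id t).const_mul Real.pi).div_const 2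
      simpa using this
    have h2 := (h1.sin).const_mul (2 / Real.pi)
    exact h2.congr_deriv (by unfold Sandwich_phi; field_simp)
  rw [intervalIntegral.integral_eq_sub_of_hasDerivAt hd
    (Sandwich_phi_cont.intervalIntegrable _ _)]
  have : Real.sin (Real.pi * (1 - x) / 2) = Real.cos (Real.pi * x / 2) := by
    rw [← Real.cos_pi_div_two_sub]
    congr 1
    ring
  simp [this, Sandwich_phi]

theorem Sandwich_R : ∀ k : ℕ, ∀ x y : ℝ, 0 ≤ x → x ≤ y → y ≤ 1 →
    (k % 2 = 0 → ff k x * Sandwich_phi y ≤ ff k y * Sandwich_phi x) ∧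
    (k % 2 = 1 → ff k y * Sandwich_phi x ≤ ff k x * Sandwich_phi y) := by
  intro k
  induction k with
  | zero =>
    intro x y hx hxy hy
    refine ⟨fun _ => ?_, fun h => by omega⟩
    simp only [ff, one_mul]
    unfold Sandwich_phi
    apply Real.cos_le_cos_of_nonneg_of_le_pi
    · have := Real.pi_pos; positivity
    · nlinarith [Real.pi_pos]
    · nlinarith [Real.pi_pos]
  | succ k ih =>
    intro x y hx hxy hy
    have hpos : 0 < 2 / Real.pi := by have := Real.pi_pos; positivity
    constructor
    · intro hk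
      have hk' : k % 2 = 1 := by omega
      have := Sandwich_step Sandwich_phi (ff k) Sandwich_phi_cont (Sandwich_cont k) (by
        intro t r ht htr hr
        have := (ih t r ht htr hr).2 hk'
        linarith) (1 - y) (1 - x) (by linarith) (by linarith) (by linarith)
      rw [Sandwich_phi_int, Sandwich_phi_int] at this
      simp only [ff]
      have h3 : (2 / Real.pi) * ((∫ t in (0:ℝ)..(1 - x), ff k t) * Sandwich_phi y) ≤
          (2 / Real.pi) * ((∫ t in (0:ℝ)..(1 - y), ff k t) * Sandwich_phi x) := by
        linarith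
      exact le_of_mul_le_mul_left h3 hpos
    · intro hk
      have hk' : k % 2 = 0 := by omega
      have := Sandwich_step (ff k) Sandwich_phi (Sandwich_cont k) Sandwich_phi_cont (by
        intro t r ht htr hr
        exact (ih t r ht htr hr).1 hk') (1 - y) (1 - x) (by linarith) (by linarith) (by linarith)
      rw [Sandwich_phi_int, Sandwich_phi_int] at this
      simp only [ff]
      have h3 : (2 / Real.pi) * ((∫ t in (0:ℝ)..(1 - y), ff k t) * Sandwich_phi x) ≤
          (2 / Real.pi) * ((∫ t in (0:ℝ)..(1 - x), ff k t) * Sandwich_phi y) := by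
        linarith
      exact le_of_mul_le_mul_left h3 hpos

theorem p_sandwich : P_sandwich := by
  intro k x hx hx1
  have h0 : Sandwich_phi 0 = 1 := by simp [Sandwich_phi]
  constructor
  · intro hk
    have := (Sandwich_R k 0 x le_rfl hx hx1).1 hk
    rw [h0, mul_one] at this
    exact this
  · intro hk
    have := (Sandwich_R k 0 x le_rfl hx hx1).2 hk
    rw [h0, mul_one] at this
    exact this

theorem p_c_mono : P_c_mono := by
  intro k
  have hpi := Real.pi_pos
  have h0 : Sandwich_phi 0 = 1 := by simp [Sandwich_phi]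
  have hint : ∀ x : ℝ, (∫ t in (0:ℝ)..(1 - x), ff k 0 * Sandwich_phi t) =
      ff k 0 * (2 / Real.pi * Sandwich_phi x) := by
    intro x
    rw [intervalIntegral.integral_const_mul, Sandwich_phi_int]
  have hint2 : (∫ t in (0:ℝ)..(1 - 0), ff k 0 * (2 / Real.pi * Sandwich_phi t)) =
      ff k 0 * (2 / Real.pi) ^ 2 := by
    rw [intervalIntegral.integral_const_mul, intervalIntegral.integral_const_mul,
      Sandwich_phi_int, h0]
    ring
  have hc1 : Continuous fun t => ff k 0 * Sandwich_phi t :=
    continuous_const.mul Sandwich_phi_cont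
  have hc2 : Continuous fun t => ff k 0 * (2 / Real.pi * Sandwich_phi t) :=
    continuous_const.mul (continuous_const.mul Sandwich_phi_cont)
  constructor
  · intro hk
    have h1 : ∀ x : ℝ, 0 ≤ x → x ≤ 1 → ff k 0 * (2 / Real.pi * Sandwich_phi x) ≤ ff (k + 1) x := by
      intro x hx hx1
      rw [← hint]
      simp only [ff]
      apply intervalIntegral.integral_mono_on (by linarith) (hc1.intervalIntegrable _ _)
        ((Sandwich_cont k).intervalIntegrable _ _)
      intro t ht
      exact (p_sandwich k t ht.1 (by linarith [ht.2])).1 hk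
    have h2 : ff k 0 * (2 / Real.pi) ^ 2 ≤ ff (k + 2) 0 := by
      rw [← hint2]
      change _ ≤ ∫ t in (0:ℝ)..(1 - 0), ff (k + 1) t
      apply intervalIntegral.integral_mono_on (by norm_num) (hc2.intervalIntegrable _ _)
        ((Sandwich_cont (k + 1)).intervalIntegrable _ _)
      intro t ht
      exact h1 t ht.1 (by linarith [ht.2])
    have h3 := h1 0 le_rfl zero_le_one
    rw [h0, mul_one] at h3
    constructor
    · calc ff k 0 = (Real.pi / 2) * (ff k 0 * (2 / Real.pi)) := by field_simp
        _ ≤ _ := mul_le_mul_of_nonneg_left h3 (by positivity)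
    · calc ff k 0 = (Real.pi / 2) ^ 2 * (ff k 0 * (2 / Real.pi) ^ 2) := by field_simp
        _ ≤ _ := mul_le_mul_of_nonneg_left h2 (by positivity)
  · intro hk
    have h1 : ∀ x : ℝ, 0 ≤ x → x ≤ 1 → ff (k + 1) x ≤ ff k 0 * (2 / Real.pi * Sandwich_phi x) := by
      intro x hx hx1
      rw [← hint]
      simp only [ff]
      apply intervalIntegral.integral_mono_on (by linarith)
        ((Sandwich_cont k).intervalIntegrable _ _) (hc1.intervalIntegrable _ _)
      intro t ht
      exact (p_sandwich k t ht.1 (by linarith [ht.2])).2 hk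
    have h2 : ff (k + 2) 0 ≤ ff k 0 * (2 / Real.pi) ^ 2 := by
      rw [← hint2]
      change (∫ t in (0:ℝ)..(1 - 0), ff (k + 1) t) ≤ _
      apply intervalIntegral.integral_mono_on (by norm_num)
        ((Sandwich_cont (k + 1)).intervalIntegrable _ _) (hc2.intervalIntegrable _ _)
      intro t ht
      exact h1 t ht.1 (by linarith [ht.2])
    have h3 := h1 0 le_rfl zero_le_one
    rw [h0, mul_one] at h3
    constructor
    · calc (Real.pi / 2) * ff (k + 1) 0 ≤ (Real.pi / 2) * (ff k 0 * (2 / Real.pi)) :=
          mul_le_mul_of_nonneg_left h3 (by positivity)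
        _ = _ := by field_simp
    · calc (Real.pi / 2) ^ 2 * ff (k + 2) 0 ≤ (Real.pi / 2) ^ 2 * (ff k 0 * (2 / Real.pi) ^ 2) :=
          mul_le_mul_of_nonneg_left h2 (by positivity)
        _ = _ := by field_simp

end Pool.Agent.Lib.MP_c22e22_co.V
end

section

/-!
# WinBasic: length, sign, shape and growth of the windows
-/

set_option autoImplicit false

namespace Pool.Agent.Lib.MP_c22e22_co.V

private theorem WinBasic_eat (k : ℕ) (W : List Lk) (p : ℚ × List Lk) (h : eat k W = some p) :
    p.2.length + k = W.length ∧ (p.1 = 1 ∨ p.1 = -1) ∧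
      (p.2 = [] ∨ ∃ v, p.2 = .s :: v ∧ v.count .s ≤ W.count .s) := by
  induction W generalizing k p with
  | nil =>
    cases k with
    | zero =>
      simp only [eat, Option.some.injEq] at h
      subst h
      simp
    | succ k => simp [eat] at h
  | cons x v ih =>
    cases k with
    | zero =>
      cases x with
      | a => simp [eat] at h
      | d =>
        simp only [eat, Option.some.injEq] at h
        subst h
        simp
      | s =>
        simp only [eat, Option.some.injEq] at h
        subst h
        simp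
    | succ k =>
      cases x with
      | a =>
        simp only [eat] at h
        obtain ⟨h1, h2, h3⟩ := ih k p h
        refine ⟨by simp only [List.length_cons]; omega, h2, ?_⟩
        simpa using h3
      | d =>
        simp only [eat, Option.map_eq_some_iff] at h
        obtain ⟨q, hq, rfl⟩ := h
        obtain ⟨h1, h2, h3⟩ := ih k q hq
        refine ⟨by simp only [List.length_cons]; omega, ?_, ?_⟩
        · rcases h2 with h2 | h2
          · right
            simp [h2]
          · left
            simp [h2]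
        · simpa using h3
      | s => simp [eat] at h

private theorem WinBasic_mem (l : ℕ) (x : Lk) (v : List Lk) (p : ℚ × List Lk)
    (h : p ∈ win l (x :: v)) :
    (x ≠ .d ∧ eat (l - 1) v = some p) ∨ ∃ q ∈ win l v, p = (q.1, x :: q.2) := by
  simp only [win, List.mem_append, List.mem_map] at h
  rcases h with h | h
  · left
    by_cases hx : x = .d
    · simp [hx] at h
    · rw [if_neg hx, Option.mem_toList] at h
      exact ⟨hx, h⟩
  · right
    obtain ⟨q, hq, rfl⟩ := h
    exact ⟨q, hq, rfl⟩

private theorem WinBasic_gen (l : ℕ) (hl : 1 ≤ l) (W : List Lk) (p : ℚ × List Lk)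
    (h : p ∈ win l W) : p.2.length + l = W.length ∧ (p.1 = 1 ∨ p.1 = -1) ∧
      p.2.count .s ≤ W.count .s + 1 := by
  induction W generalizing p with
  | nil => simp [win] at h
  | cons x v ih =>
    rcases WinBasic_mem l x v p h with ⟨-, h1⟩ | ⟨q, hq, rfl⟩
    · obtain ⟨h2, h3, h4⟩ := WinBasic_eat _ _ _ h1
      refine ⟨by simp only [List.length_cons]; omega, h3, ?_⟩
      have h5 : v.count .s ≤ (x :: v).count .s := by
        rw [List.count_cons]
        omega
      rcases h4 with h4 | ⟨v', h4, h6⟩
      · rw [h4]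
        simp
      · rw [h4, List.count_cons_self]
        omega
    · obtain ⟨h2, h3, h4⟩ := ih q hq
      refine ⟨by simp only [List.length_cons]; omega, h3, ?_⟩
      simp only [List.count_cons]
      omega

theorem p_win_basic : P_win_basic := by
  intro l hl w p hp
  obtain ⟨h1, h2, -⟩ := WinBasic_gen l hl _ p hp
  refine ⟨by simpa using h1, h2, ?_⟩
  rcases WinBasic_mem l _ w p hp with ⟨-, h3⟩ | ⟨q, hq, rfl⟩
  · obtain ⟨-, -, h4⟩ := WinBasic_eat _ _ _ h3
    rcases h4 with h4 | ⟨v', h4, h6⟩
    · exact Or.inl h4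
    · exact Or.inr ⟨v', h4, by omega⟩
  · right
    exact ⟨q.2, rfl, (WinBasic_gen l hl _ q hq).2.2⟩

private def WinBasicE (v : List Lk) : ℕ := (eat 1 v).toList.length

private def WinBasicG (v : List Lk) : ℕ := (eat 0 v).toList.length

private def WinBasicN (v : List Lk) : ℕ := (win 2 v).length

private theorem WinBasic_opt {α : Type*} (o : Option α) : o.toList.length ≤ 1 := by
  cases o <;> simp

private theorem WinBasic_E_le (v : List Lk) : WinBasicE v ≤ 1 := WinBasic_opt _

private theorem WinBasic_N_cons (x : Lk) (v : List Lk) :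
    WinBasicN (x :: v) = (if x = .d then 0 else WinBasicE v) + WinBasicN v := by
  unfold WinBasicN WinBasicE
  simp only [win, List.length_append, List.length_map]
  by_cases hx : x = .d
  · simp [hx]
  · simp [hx]

private theorem WinBasic_E_cons (x : Lk) (v : List Lk) :
    WinBasicE (x :: v) = if x = .s then 0 else WinBasicG v := by
  unfold WinBasicE WinBasicG
  cases x with
  | a => simp [eat]
  | d =>
    simp only [eat]
    cases eat 0 v <;> simp
  | s => simp [eat]

private theorem WinBasic_G_cons (x : Lk) (v w : List Lk) :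
    WinBasicG (x :: v) = WinBasicG (x :: w) := by
  unfold WinBasicG
  cases x <;> simp [eat]

/-- the removal of a window at the head -/
private theorem WinBasic_head (x : Lk) (v : List Lk) (p : ℚ × List Lk) (hx : x ≠ .d)
    (h : eat 1 v = some p) : WinBasicN p.2 ≤ WinBasicN (x :: v) ∧ WinBasicE p.2 = 0 := by
  have hE : WinBasicE v = 1 := by
    unfold WinBasicE
    rw [h]
    simp
  rw [WinBasic_N_cons, if_neg hx, hE]
  have key : ∀ (y : Lk) (u : List Lk) (q : ℚ × List Lk), eat 0 u = some q →
      WinBasicN q.2 ≤ 1 + WinBasicN (y :: u) ∧ WinBasicE q.2 = 0 := by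
    intro y u q hq
    rw [WinBasic_N_cons]
    cases u with
    | nil =>
      simp only [eat, Option.some.injEq] at hq
      subst hq
      constructor
      · simp [WinBasicN, win]
      · simp [WinBasicE, eat]
    | cons c u =>
      have h3 := WinBasic_E_le u
      cases c with
      | a => simp [eat] at hq
      | d =>
        simp only [eat, Option.some.injEq] at hq
        subst hq
        have a1 := WinBasic_N_cons .s u
        have a2 := WinBasic_N_cons .d u
        have a3 := WinBasic_E_cons .s u
        simp only [reduceCtorEq, if_false, if_true] at a1 a2 a3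
        constructor
        · dsimp only
          omega
        · exact a3
      | s =>
        simp only [eat, Option.some.injEq] at hq
        subst hq
        have a3 := WinBasic_E_cons .s u
        simp only [if_true] at a3
        constructor
        · dsimp only
          omega
        · exact a3
  cases v with
  | nil => simp [eat] at h
  | cons y u =>
    cases y with
    | a =>
      simp only [eat] at h
      exact key _ u p h
    | d =>
      simp only [eat, Option.map_eq_some_iff] at h
      obtain ⟨q, hq, rfl⟩ := h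
      exact key _ u q hq
    | s => simp [eat] at h

private theorem WinBasic_main (W : List Lk) (p : ℚ × List Lk) (h : p ∈ win 2 W) :
    (WinBasicN p.2 ≤ WinBasicN W ∧ WinBasicE p.2 = 0) ∨
      (WinBasicN p.2 ≤ WinBasicN W + 1 ∧ WinBasicG p.2 = WinBasicG W ∧
        WinBasicN p.2 + WinBasicE p.2 ≤ WinBasicN W + WinBasicE W + 1) := by
  induction W generalizing p with
  | nil => simp [win] at h
  | cons z W ih =>
    rcases WinBasic_mem 2 z W p h with ⟨hz, h1⟩ | ⟨r, hr, rfl⟩
    · exact Or.inl (WinBasic_head z W p hz h1)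
    · right
      have hG : WinBasicG (z :: r.2) = WinBasicG (z :: W) := WinBasic_G_cons z r.2 W
      have hE1 := WinBasic_E_le (z :: r.2)
      have hE2 := WinBasic_E_le r.2
      have hE3 := WinBasic_E_le W
      simp only
      rcases ih r hr with ⟨h2, h3⟩ | ⟨h2, h3, h4⟩
      · rw [WinBasic_N_cons, WinBasic_N_cons, h3]
        refine ⟨?_, hG, ?_⟩ <;> split_ifs <;> omega
      · have hE : WinBasicE (z :: r.2) = WinBasicE (z :: W) := by
          rw [WinBasic_E_cons, WinBasic_E_cons, h3]
        rw [WinBasic_N_cons, WinBasic_N_cons, hE]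
        refine ⟨?_, hG, ?_⟩ <;> split_ifs <;> omega

theorem p_win_grow : P_win_grow := by
  intro w p hp
  have h := WinBasic_main _ p hp
  unfold WinBasicN at h
  rcases h with h | h
  · omega
  · omega

end Pool.Agent.Lib.MP_c22e22_co.V
end

section

/-!
# Bounds for the label numbers `xE`
-/

open MvPolynomial Finset

namespace Pool.Agent.Lib.MP_c22e22_co.V

theorem boundT_rec (c : ℕ) : mom 1 (c + 2) = mom 1 (c + 1) + (c + 1) * mom 1 c := by
  simp [mom]

theorem boundT_vals : mom 1 21 = 119952692896 ∧ mom 1 22 = 618884638912 := by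
  have a0 : mom 1 0 = 1 := rfl
  have a1 : mom 1 1 = 1 := by simp [mom]
  have a2 : mom 1 2 = 2 := by
    have := boundT_rec 0
    norm_num [a0, a1] at this
    exact this
  have a3 : mom 1 3 = 4 := by
    have := boundT_rec 1
    norm_num [a1, a2] at this
    exact this
  have a4 : mom 1 4 = 10 := by
    have := boundT_rec 2
    norm_num [a2, a3] at this
    exact this
  have a5 : mom 1 5 = 26 := by
    have := boundT_rec 3
    norm_num [a3, a4] at this
    exact this
  have a6 : mom 1 6 = 76 := by
    have := boundT_rec 4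
    norm_num [a4, a5] at this
    exact this
  have a7 : mom 1 7 = 232 := by
    have := boundT_rec 5
    norm_num [a5, a6] at this
    exact this
  have a8 : mom 1 8 = 764 := by
    have := boundT_rec 6
    norm_num [a6, a7] at this
    exact this
  have a9 : mom 1 9 = 2620 := by
    have := boundT_rec 7
    norm_num [a7, a8] at this
    exact this
  have a10 : mom 1 10 = 9496 := by
    have := boundT_rec 8
    norm_num [a8, a9] at this
    exact this
  have a11 : mom 1 11 = 35696 := by
    have := boundT_rec 9
    norm_num [a9, a10] at this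
    exact this
  have a12 : mom 1 12 = 140152 := by
    have := boundT_rec 10
    norm_num [a10, a11] at this
    exact this
  have a13 : mom 1 13 = 568504 := by
    have := boundT_rec 11
    norm_num [a11, a12] at this
    exact this
  have a14 : mom 1 14 = 2390480 := by
    have := boundT_rec 12
    norm_num [a12, a13] at this
    exact this
  have a15 : mom 1 15 = 10349536 := by
    have := boundT_rec 13
    norm_num [a13, a14] at this
    exact this
  have a16 : mom 1 16 = 46206736 := by
    have := boundT_rec 14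
    norm_num [a14, a15] at this
    exact this
  have a17 : mom 1 17 = 211799312 := by
    have := boundT_rec 15
    norm_num [a15, a16] at this
    exact this
  have a18 : mom 1 18 = 997313824 := by
    have := boundT_rec 16
    norm_num [a16, a17] at this
    exact this
  have a19 : mom 1 19 = 4809701440 := by
    have := boundT_rec 17
    norm_num [a17, a18] at this
    exact this
  have a20 : mom 1 20 = 23758664096 := by
    have := boundT_rec 18
    norm_num [a18, a19] at this
    exact this
  have a21 : mom 1 21 = 119952692896 := by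
    have := boundT_rec 19
    norm_num [a19, a20] at this
    exact this
  have a22 : mom 1 22 = 618884638912 := by
    have := boundT_rec 20
    norm_num [a20, a21] at this
    exact this
  exact ⟨a21, a22⟩

theorem boundT_tt_nonneg : ∀ h, 0 ≤ tt h
  | 0 => by simp [tt]
  | h + 1 => by
    have := boundT_tt_nonneg h
    rw [tt]
    split_ifs <;> positivity

theorem p_tt (h1 : P_xE_rec) (h2 : P_x_basic) (h3 : P_I_mono) (h4 : P_base_tt) : P_tt := by
  obtain ⟨b1, -, -, -, -, -, -, -, b9, -, -⟩ := h2
  intro n
  induction n using Nat.strong_induction_on with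
  | _ n ih =>
    intro h hn hh
    by_cases hn22 : n ≤ 22
    · exact h4 n h hn hn22 hh
    obtain ⟨N, rfl⟩ : ∃ N, n = N + 2 := ⟨n - 2, by omega⟩
    rcases Nat.eq_zero_or_pos h with rfl | hpos
    · simp [tt, b1]
    by_cases hm : N + 2 - 2 * h = 0
    · rw [hm, b9 _ (by omega)]
      exact mul_nonneg (boundT_tt_nonneg h) (mom_nonneg 1 _)
    obtain ⟨m, hm'⟩ : ∃ m, N + 2 - 2 * h = m + 1 := ⟨N + 1 - 2 * h, by omega⟩
    rw [hm']
    have rec1 := h1 m N
    have e1 : xE (m + 1) N ≤ tt (h - 1) * mom 1 N := by
      have := ih N (by omega) (h - 1) (by omega) (by omega)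
      rwa [show N - 2 * (h - 1) = m + 1 by omega] at this
    have e2 : xE m (N + 1) ≤ tt h * mom 1 (N + 1) := by
      have := ih (N + 1) (by omega) h (by omega) (by omega)
      rwa [show N + 1 - 2 * h = m by omega] at this
    have e3 : (m : ℚ) * xE (m - 1) N ≤ m * (tt h * mom 1 N) := by
      rcases Nat.eq_zero_or_pos m with rfl | hm0
      · simp
      · apply mul_le_mul_of_nonneg_left _ (by positivity)
        have := ih N (by omega) h (by omega) (by omega)
        rwa [show N - 2 * h = m - 1 by omega] at this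
    have hI0 := boundT_rec N
    have hI2 := mom_nonneg 1 N
    have hI1 := mom_nonneg 1 (N + 1)
    have ht := boundT_tt_nonneg h
    have hmR : (m : ℚ) = N + 1 - 2 * h := by
      have : m + 2 * h = N + 1 := by omega
      have h' : ((m + 2 * h : ℕ) : ℚ) = ((N + 1 : ℕ) : ℚ) := by rw [this]
      push_cast at h'
      linarith
    have h5 : 5 * mom 1 N ≤ mom 1 (N + 1) := by
      have := h3 22 (N + 1) (by norm_num) (by omega)
      rw [show (22 : ℕ) - 1 = 21 from rfl, boundT_vals.1, boundT_vals.2,
        Nat.add_sub_cancel] at this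
      nlinarith
    have key : (N : ℚ) * (tt (h - 1) * mom 1 N) + (m + 1) * (tt h * mom 1 (N + 1) +
        m * (tt h * mom 1 N)) ≤ (N + 2) * (tt h * mom 1 (N + 2)) := by
      rw [hI0]
      have hhN : 2 * (h : ℚ) ≤ N + 2 := by exact_mod_cast hh
      have hpR : (0 : ℚ) < h := by exact_mod_cast hpos
      obtain ⟨g, rfl⟩ : ∃ g, h = g + 1 := ⟨h - 1, by omega⟩
      rw [Nat.add_sub_cancel]
      have htt : tt (g + 1) = if g ≤ 3 then tt g / (4 * (g + 1)) else tt g / (2 * (g + 1)) := rfl
      have hg : ((g : ℚ) + 1) ≠ 0 := by positivity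
      by_cases hg3 : g ≤ 3
      · rw [if_pos hg3] at htt
        have e : tt g = 4 * ((g + 1 : ℕ) : ℚ) * tt (g + 1) := by
          rw [htt]; push_cast; field_simp
        have hgR : ((g + 1 : ℕ) : ℚ) ≤ 4 := by exact_mod_cast (by omega : g + 1 ≤ 4)
        rw [e, hmR]
        have k1 : 0 ≤ mom 1 (N + 1) + (3 - 2 * ((g + 1 : ℕ) : ℚ)) * mom 1 N := by
          nlinarith
        have k2 : 0 ≤ tt (g + 1) * (2 * ((g + 1 : ℕ) : ℚ)) *
            (mom 1 (N + 1) + (3 - 2 * ((g + 1 : ℕ) : ℚ)) * mom 1 N) := by positivity
        nlinarith [k2]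
      · rw [if_neg hg3] at htt
        have e : tt g = 2 * ((g + 1 : ℕ) : ℚ) * tt (g + 1) := by
          rw [htt]; push_cast; field_simp
        rw [e, hmR]
        have k1 : 0 ≤ mom 1 (N + 1) + (N + 3 - 2 * ((g + 1 : ℕ) : ℚ)) * mom 1 N := by
          have : 0 ≤ (N + 3 - 2 * ((g + 1 : ℕ) : ℚ)) := by linarith
          positivity
        have k2 : 0 ≤ tt (g + 1) * (2 * ((g + 1 : ℕ) : ℚ)) *
            (mom 1 (N + 1) + (N + 3 - 2 * ((g + 1 : ℕ) : ℚ)) * mom 1 N) := by positivity
        nlinarith [k2]
    have hN2 : (0 : ℚ) < N + 2 := by positivity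
    refine le_of_mul_le_mul_left ?_ hN2
    refine le_trans (le_of_eq rec1) (le_trans ?_ key)
    have m1 : (0 : ℚ) ≤ m + 1 := by positivity
    have n1 : (0 : ℚ) ≤ N := by positivity
    have q1 := mul_le_mul_of_nonneg_left e1 n1
    have q2 := mul_le_mul_of_nonneg_left (add_le_add e2 e3) m1
    exact add_le_add q1 q2

end Pool.Agent.Lib.MP_c22e22_co.V
end
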