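import Pool.Agent.Lib.MP_c22e22_co.V.Defs

/-!
# From descent sets to words
-/

namespace Pool.Agent.Lib.MP_c22e22_co.V

/-- The descent set of a permutation of `Fin n`: the `i` with `1 ≤ i < n` such that the value in
position `i` is larger than the value in position `i + 1`, counting positions from `1`. -/
def Des {n : ℕ} (s : Equiv.Perm (Fin n)) : Finset ℕ :=
  (Finset.Ico 1 n).filter fun i => ∃ (h1 : i - 1 < n) (h2 : i < n), s ⟨i, h2⟩ < s ⟨i - 1, h1⟩

/-- The number of involutions of `Fin n` with descent set `S`. -/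
noncomputable def delta (n : ℕ) (S : Finset ℕ) : ℕ :=
  Nat.card {s : Equiv.Perm (Fin n) // s * s = 1 ∧ Des s = S}

/-- The word of a descent set. -/
def wordOf (n : ℕ) (S : Finset ℕ) : List Lk :=
  (List.range (n - 1)).map fun i => if i + 1 ∈ S then Lk.d else Lk.a

theorem wordOf_length (n : ℕ) (S : Finset ℕ) : (wordOf n S).length = n - 1 := by
  simp [wordOf]

theorem wordOf_noS (n : ℕ) (S : Finset ℕ) : NoS (wordOf n S) := by
  unfold NoS wordOf
  intro h
  rw [List.mem_map] at h
  obtain ⟨i, -, hi⟩ := h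
  split_ifs at hi

theorem delta_get (n : ℕ) (S : Finset ℕ) (i : ℕ) (h : i + 1 < n) :
    (wordOf n S)[i]? = some (if i + 1 ∈ S then Lk.d else Lk.a) := by
  unfold wordOf
  rw [List.getElem?_map, List.getElem?_range (by omega)]
  rfl

theorem delta_mem_Des {n : ℕ} (s : Equiv.Perm (Fin n)) (i : ℕ) (h : i + 1 < n) :
    i + 1 ∈ Des s ↔ s ⟨i + 1, h⟩ < s ⟨i, by omega⟩ := by
  unfold Des
  rw [Finset.mem_filter, Finset.mem_Ico]
  constructor
  · rintro ⟨-, h1, h2, h3⟩
    exact h3
  · intro h3
    exact ⟨⟨by omega, h⟩, by omega, h, h3⟩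

theorem delta_okk_iff {n : ℕ} (S : Finset ℕ) (hS : S ⊆ Finset.Ico 1 n)
    (s : Equiv.Perm (Fin n)) : Des s = S ↔ okk n (wordOf n S) s := by
  constructor
  · rintro h i hi
    rw [delta_get n S i hi]
    have h1 := delta_mem_Des s i hi
    rw [h] at h1
    by_cases hm : i + 1 ∈ S
    · rw [if_pos hm]
      refine ⟨fun h2 => ?_, fun _ => h1.1 hm⟩
      simp at h2
    · rw [if_neg hm]
      refine ⟨fun _ => ?_, fun h2 => ?_⟩
      · have h2 : ¬ s ⟨i + 1, hi⟩ < s ⟨i, by omega⟩ := fun h3 => hm (h1.2 h3)
        have h3 : s ⟨i, by omega⟩ ≠ s ⟨i + 1, hi⟩ := by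
          intro h4
          have h5 := s.injective h4
          simp at h5
        exact lt_of_le_of_ne (not_lt.1 h2) h3
      · simp at h2
  · intro h
    ext j
    constructor
    · intro hj
      have hj' := hj
      unfold Des at hj'
      rw [Finset.mem_filter, Finset.mem_Ico] at hj'
      obtain ⟨⟨h1, h2⟩, -⟩ := hj'
      obtain ⟨i, rfl⟩ : ∃ i, j = i + 1 := ⟨j - 1, by omega⟩
      rw [delta_mem_Des s i h2] at hj
      by_contra hm
      have h3 := (h i h2).1 (by rw [delta_get n S i h2, if_neg hm])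
      exact absurd h3 (not_lt.2 hj.le)
    · intro hj
      have h1 := Finset.mem_Ico.1 (hS hj)
      obtain ⟨i, rfl⟩ : ∃ i, j = i + 1 := ⟨j - 1, by omega⟩
      rw [delta_mem_Des s i h1.2]
      exact (h i h1.2).2 (by rw [delta_get n S i h1.2, if_pos hj])

theorem delta_eq (n : ℕ) (hn : 1 ≤ n) (S : Finset ℕ) (hS : S ⊆ Finset.Ico 1 n) :
    delta n S = cnt n (wordOf n S) := by
  unfold delta cnt
  exact Nat.card_congr (Equiv.subtypeEquivRight fun s =>
    and_congr_right fun _ => delta_okk_iff S hS s)

theorem delta_altw_get : ∀ (k : ℕ) (b : Bool) (i : ℕ), i < k →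
    (altw k b)[i]? = some (if (decide (i % 2 = 0) == b) = true then Lk.d else Lk.a)
  | 0, _, i, h => absurd h (Nat.not_lt_zero i)
  | k + 1, true, 0, _ => by simp [altw]
  | k + 1, false, 0, _ => by simp [altw]
  | k + 1, true, i + 1, h => by
    have e := delta_altw_get k false i (by omega)
    simp only [altw, List.getElem?_cons_succ]
    rw [e]
    rcases Nat.mod_two_eq_zero_or_one i with h0 | h0
    · have h1 : (i + 1) % 2 = 1 := by omega
      simp [h0, h1]
    · have h1 : (i + 1) % 2 = 0 := by omega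
      simp [h0, h1]
  | k + 1, false, i + 1, h => by
    have e := delta_altw_get k true i (by omega)
    simp only [altw, List.getElem?_cons_succ]
    rw [e]
    rcases Nat.mod_two_eq_zero_or_one i with h0 | h0
    · have h1 : (i + 1) % 2 = 1 := by omega
      simp [h0, h1]
    · have h1 : (i + 1) % 2 = 0 := by omega
      simp [h0, h1]

theorem delta_altw_length : ∀ (k : ℕ) (b : Bool), (altw k b).length = k
  | 0, _ => rfl
  | k + 1, true => by simp [altw, delta_altw_length k]
  | k + 1, false => by simp [altw, delta_altw_length k]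

theorem wordOf_odd (n : ℕ) (hn : 1 ≤ n) :
    wordOf n ((Finset.Ico 1 n).filter fun i => i % 2 = 1) = altw (n - 1) true := by
  apply List.ext_getElem?
  intro i
  by_cases hi : i < n - 1
  · rw [delta_get n _ i (by omega), delta_altw_get (n - 1) true i hi]
    congr 1
    have h1 : (i + 1 ∈ (Finset.Ico 1 n).filter fun i => i % 2 = 1) ↔
        (decide (i % 2 = 0) == true) = true := by
      rw [Finset.mem_filter, Finset.mem_Ico]
      simp only [beq_true, decide_eq_true_eq]
      omega
    simp only [h1]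
  · rw [List.getElem?_eq_none (by rw [wordOf_length]; omega),
      List.getElem?_eq_none (by rw [delta_altw_length]; omega)]

end Pool.Agent.Lib.MP_c22e22_co.V
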