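import Pool.Agent.Lib.MP_c22e22_co.V.Props

section

/-!
# Densities: positivity of `bw` and a Chebyshev type inequality
-/

open MeasureTheory

namespace Pool.Agent.Lib.MP_c22e22_co.V

/-- density of the last cell after one more letter -/
noncomputable def densSt : Lk → (ℝ → ℝ) → ℝ → ℝ
  | .a, f => fun t => ∫ s in (0 : ℝ)..t, f s
  | .d, f => fun t => ∫ s in t..(1 : ℝ), f s
  | .s, f => fun _ => ∫ s in (0 : ℝ)..1, f s

/-- density of the first cell after one more letter in front -/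
noncomputable def densTs : Lk → (ℝ → ℝ) → ℝ → ℝ
  | .a, f => fun t => ∫ s in t..(1 : ℝ), f s
  | .d, f => fun t => ∫ s in (0 : ℝ)..t, f s
  | .s, f => fun _ => ∫ s in (0 : ℝ)..1, f s

/-- fold of the densities of the last cell -/
noncomputable def densGf (f : ℝ → ℝ) (w : List Lk) : ℝ → ℝ := w.foldl (fun f x => densSt x f) f

/-- density of the last cell -/
noncomputable def densG (w : List Lk) : ℝ → ℝ := densGf (fun _ => 1) w

/-- density of the first cell -/
noncomputable def densH : List Lk → ℝ → ℝ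
  | [] => fun _ => 1
  | x :: v => densTs x (densH v)

theorem dens_cont0 {f : ℝ → ℝ} (hf : Continuous f) :
    Continuous fun t => ∫ s in (0 : ℝ)..t, f s :=
  intervalIntegral.continuous_primitive (fun a b => hf.intervalIntegrable a b) 0

theorem dens_cont1_eq {f : ℝ → ℝ} (hf : Continuous f) (t : ℝ) :
    ∫ s in t..(1 : ℝ), f s = (∫ s in (0 : ℝ)..1, f s) - ∫ s in (0 : ℝ)..t, f s := by
  rw [intervalIntegral.integral_interval_sub_left (hf.intervalIntegrable _ _)
    (hf.intervalIntegrable _ _)]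

theorem dens_cont1 {f : ℝ → ℝ} (hf : Continuous f) :
    Continuous fun t => ∫ s in t..(1 : ℝ), f s := by
  have h : (fun t => ∫ s in t..(1 : ℝ), f s) =
      fun t => (∫ s in (0 : ℝ)..1, f s) - ∫ s in (0 : ℝ)..t, f s := by
    funext t
    exact dens_cont1_eq hf t
  rw [h]
  exact continuous_const.sub (dens_cont0 hf)

theorem dens_contSt {f : ℝ → ℝ} (hf : Continuous f) : ∀ x : Lk, Continuous (densSt x f)
  | .a => dens_cont0 hf
  | .d => dens_cont1 hf
  | .s => continuous_const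

theorem dens_contTs {f : ℝ → ℝ} (hf : Continuous f) : ∀ x : Lk, Continuous (densTs x f)
  | .a => dens_cont1 hf
  | .d => dens_cont0 hf
  | .s => continuous_const

theorem dens_contGf (w : List Lk) : ∀ {f : ℝ → ℝ}, Continuous f → Continuous (densGf f w) := by
  induction w with
  | nil => intro f hf; exact hf
  | cons x w ih => intro f hf; exact ih (dens_contSt hf x)

theorem dens_contG (w : List Lk) : Continuous (densG w) := dens_contGf w continuous_const

theorem dens_contH : ∀ v : List Lk, Continuous (densH v)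
  | [] => continuous_const
  | x :: v => dens_contTs (dens_contH v) x

theorem dens_int_lin {f g : ℝ → ℝ} (hf : Continuous f) (hg : Continuous g) (c a b : ℝ) :
    ∫ s in a..b, (c * f s - g s) = c * (∫ s in a..b, f s) - ∫ s in a..b, g s := by
  have h1 : Continuous fun s => c * f s := by fun_prop
  rw [intervalIntegral.integral_sub (h1.intervalIntegrable _ _)
    (hg.intervalIntegrable _ _), intervalIntegral.integral_const_mul]

theorem dens_St_lin {f g : ℝ → ℝ} (hf : Continuous f) (hg : Continuous g) (c : ℝ) (x : Lk) :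
    densSt x (fun t => c * f t - g t) = fun t => c * densSt x f t - densSt x g t := by
  funext t
  cases x <;> exact dens_int_lin hf hg _ _ _

theorem dens_Gf_lin (w : List Lk) : ∀ {f g : ℝ → ℝ}, Continuous f → Continuous g → ∀ c : ℝ,
    densGf (fun t => c * f t - g t) w = fun t => c * densGf f w t - densGf g w t := by
  induction w with
  | nil => intro f g _ _ c; rfl
  | cons x w ih =>
    intro f g hf hg c
    have h := ih (dens_contSt hf x) (dens_contSt hg x) c
    rw [← dens_St_lin hf hg c x] at h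
    exact h

theorem dens_zero (w : List Lk) : densGf (fun _ => 0) w = fun _ => 0 := by
  have h := dens_Gf_lin w (continuous_const (y := (0 : ℝ))) (continuous_const (y := (0 : ℝ))) 1
  simp only [one_mul, sub_self] at h
  exact h

/-- the starting densities -/
noncomputable def densP (k : ℕ) : ℝ → ℝ := fun t => t ^ k / (k.factorial : ℝ)

theorem dens_contP (k : ℕ) : Continuous (densP k) := by
  unfold densP
  fun_prop

theorem dens_intP (k : ℕ) (t : ℝ) : ∫ s in (0 : ℝ)..t, densP k s = densP (k + 1) t := by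
  unfold densP
  rw [intervalIntegral.integral_div, integral_pow, Nat.factorial_succ]
  push_cast
  have h1 : (k.factorial : ℝ) ≠ 0 := by positivity
  have h2 : (k : ℝ) + 1 ≠ 0 := by positivity
  field_simp
  ring

theorem dens_P_one (k : ℕ) : densP k 1 = 1 / (k.factorial : ℝ) := by
  simp [densP]

theorem dens_int_eq (w : List Lk) : ∀ k : ℕ, ∫ t in (0 : ℝ)..1, densGf (densP k) w t =
    rib (fun k => 1 / (k.factorial : ℝ)) (k + 1) w := by
  induction w with
  | nil =>
    intro k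
    change ∫ t in (0 : ℝ)..1, densP k t = _
    rw [dens_intP, dens_P_one]
    rfl
  | cons x w ih =>
    intro k
    have e0 : densGf (densP k) (x :: w) = densGf (densSt x (densP k)) w := rfl
    rw [e0]
    have e1 : (fun _ : ℝ => (1 : ℝ)) = densP 0 := by
      funext t
      simp [densP]
    have hs : (fun _ : ℝ => 1 / ((k + 1).factorial : ℝ)) =
        fun t => (1 / ((k + 1).factorial : ℝ)) * densP 0 t - (fun _ : ℝ => (0 : ℝ)) t := by
      funext t
      simp [densP]
    cases x with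
    | a =>
      have : densSt .a (densP k) = densP (k + 1) := by
        funext t
        exact dens_intP k t
      rw [this, ih (k + 1)]
      rfl
    | s =>
      have : densSt .s (densP k) =
          fun t => (1 / ((k + 1).factorial : ℝ)) * densP 0 t - (fun _ : ℝ => (0 : ℝ)) t := by
        rw [← hs]
        funext t
        change ∫ s in (0 : ℝ)..1, densP k s = _
        rw [dens_intP, dens_P_one]
      rw [this, dens_Gf_lin w (dens_contP 0) continuous_const,
        dens_int_lin (dens_contGf w (dens_contP 0)) (dens_contGf w continuous_const), ih 0,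
        dens_zero]
      simp [rib]
    | d =>
      have : densSt .d (densP k) =
          fun t => (1 / ((k + 1).factorial : ℝ)) * densP 0 t - densP (k + 1) t := by
        funext t
        change ∫ s in t..(1 : ℝ), densP k s = _
        rw [dens_cont1_eq (dens_contP k), dens_intP, dens_intP, dens_P_one]
        simp [densP]
      rw [this, dens_Gf_lin w (dens_contP 0) (dens_contP (k + 1)),
        dens_int_lin (dens_contGf w (dens_contP 0)) (dens_contGf w (dens_contP (k + 1))), ih 0,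
        ih (k + 1)]
      rfl

theorem dens_rib_cast (w : List Lk) : ∀ m : ℕ, ((rib (fun k => 1 / (k.factorial : ℚ)) m w : ℚ) : ℝ) =
    rib (fun k => 1 / (k.factorial : ℝ)) m w := by
  induction w with
  | nil => intro m; simp [rib]
  | cons x w ih =>
    intro m
    cases x with
    | a => simp only [rib]; exact ih (m + 1)
    | s => simp only [rib]; push_cast; rw [ih 1]
    | d => simp only [rib]; push_cast; rw [ih 1, ih (m + 1)]

theorem dens_bw (w : List Lk) : ((bw w : ℚ) : ℝ) = ∫ t in (0 : ℝ)..1, densG w t := by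
  unfold bw
  rw [dens_rib_cast]
  have h := dens_int_eq w 0
  have e1 : densP 0 = (fun _ : ℝ => (1 : ℝ)) := by
    funext t
    simp [densP]
  rw [e1] at h
  exact h.symm

theorem dens_St_nonneg {f : ℝ → ℝ} (hf : ∀ t, 0 ≤ t → t ≤ 1 → 0 ≤ f t) (x : Lk) (t : ℝ)
    (h0 : 0 ≤ t) (h1 : t ≤ 1) : 0 ≤ densSt x f t := by
  cases x with
  | a => exact intervalIntegral.integral_nonneg h0 fun s hs => hf s hs.1 (hs.2.trans h1)
  | d => exact intervalIntegral.integral_nonneg h1 fun s hs => hf s (h0.trans hs.1) hs.2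
  | s => exact intervalIntegral.integral_nonneg zero_le_one fun s hs => hf s hs.1 hs.2

theorem dens_Ts_nonneg {f : ℝ → ℝ} (hf : ∀ t, 0 ≤ t → t ≤ 1 → 0 ≤ f t) (x : Lk) (t : ℝ)
    (h0 : 0 ≤ t) (h1 : t ≤ 1) : 0 ≤ densTs x f t := by
  cases x with
  | d => exact intervalIntegral.integral_nonneg h0 fun s hs => hf s hs.1 (hs.2.trans h1)
  | a => exact intervalIntegral.integral_nonneg h1 fun s hs => hf s (h0.trans hs.1) hs.2
  | s => exact intervalIntegral.integral_nonneg zero_le_one fun s hs => hf s hs.1 hs.2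

theorem dens_Gf_nonneg (w : List Lk) : ∀ {f : ℝ → ℝ}, (∀ t, 0 ≤ t → t ≤ 1 → 0 ≤ f t) →
    ∀ t, 0 ≤ t → t ≤ 1 → 0 ≤ densGf f w t := by
  induction w with
  | nil => intro f hf; exact hf
  | cons x w ih => intro f hf; exact ih (dens_St_nonneg hf x)

theorem dens_G_nonneg (w : List Lk) (t : ℝ) (h0 : 0 ≤ t) (h1 : t ≤ 1) : 0 ≤ densG w t :=
  dens_Gf_nonneg w (fun _ _ _ => zero_le_one) t h0 h1

theorem dens_H_nonneg : ∀ (v : List Lk) (t : ℝ), 0 ≤ t → t ≤ 1 → 0 ≤ densH v t
  | [], _, _, _ => zero_le_one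
  | x :: v, t, h0, h1 => dens_Ts_nonneg (dens_H_nonneg v) x t h0 h1

theorem p_bw_nonneg : P_bw_nonneg := by
  intro w
  have h : (0 : ℝ) ≤ ((bw w : ℚ) : ℝ) := by
    rw [dens_bw]
    exact intervalIntegral.integral_nonneg zero_le_one fun t ht => dens_G_nonneg w t ht.1 ht.2
  exact_mod_cast h

theorem dens_deriv0 {f : ℝ → ℝ} (hf : Continuous f) (t : ℝ) :
    HasDerivAt (fun t => ∫ s in (0 : ℝ)..t, f s) (f t) t :=
  intervalIntegral.integral_hasDerivAt_right (hf.intervalIntegrable _ _)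
    (hf.stronglyMeasurableAtFilter _ _) hf.continuousAt

theorem dens_deriv1 {f : ℝ → ℝ} (hf : Continuous f) (t : ℝ) :
    HasDerivAt (fun t => ∫ s in t..(1 : ℝ), f s) (-f t) t := by
  have h : (fun t => ∫ s in t..(1 : ℝ), f s) =
      fun t => (∫ s in (0 : ℝ)..1, f s) - ∫ s in (0 : ℝ)..t, f s := by
    funext t
    exact dens_cont1_eq hf t
  rw [h]
  exact (dens_deriv0 hf t).const_sub _

theorem dens_swap {f g : ℝ → ℝ} (hf : Continuous f) (hg : Continuous g) :
    ∫ t in (0 : ℝ)..1, (∫ s in (0 : ℝ)..t, f s) * g t =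
      ∫ t in (0 : ℝ)..1, f t * ∫ s in t..(1 : ℝ), g s := by
  have h := intervalIntegral.integral_mul_deriv_eq_deriv_mul (a := 0) (b := 1)
    (u := fun t => ∫ s in (0 : ℝ)..t, f s) (v := fun t => ∫ s in t..(1 : ℝ), g s)
    (u' := f) (v' := fun t => -g t) (fun t _ => dens_deriv0 hf t) (fun t _ => dens_deriv1 hg t)
    (hf.intervalIntegrable _ _) (hg.neg.intervalIntegrable _ _)
  simp only [intervalIntegral.integral_same, mul_zero, zero_mul, sub_zero, zero_sub, mul_neg,
    intervalIntegral.integral_neg, neg_inj] at h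
  exact h

theorem dens_adj {f g : ℝ → ℝ} (hf : Continuous f) (hg : Continuous g) (x : Lk) :
    ∫ t in (0 : ℝ)..1, densSt x f t * g t = ∫ t in (0 : ℝ)..1, f t * densTs x g t := by
  cases x with
  | a => exact dens_swap hf hg
  | d =>
    have h := dens_swap hg hf
    calc ∫ t in (0 : ℝ)..1, densSt .d f t * g t = ∫ t in (0 : ℝ)..1, g t * densSt .d f t := by
          simp only [mul_comm]
      _ = ∫ t in (0 : ℝ)..1, (∫ s in (0 : ℝ)..t, g s) * f t := h.symm
      _ = ∫ t in (0 : ℝ)..1, f t * densTs .d g t := by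
          simp only [densTs, mul_comm]
  | s =>
    simp only [densSt, densTs]
    rw [intervalIntegral.integral_const_mul, intervalIntegral.integral_mul_const]

theorem dens_G_snoc (u : List Lk) (x : Lk) : densG (u ++ [x]) = densSt x (densG u) := by
  simp [densG, densGf]

theorem dens_mirror (v : List Lk) : ∀ u : List Lk,
    ((bw (u ++ v) : ℚ) : ℝ) = ∫ t in (0 : ℝ)..1, densG u t * densH v t := by
  induction v with
  | nil =>
    intro u
    rw [List.append_nil, dens_bw]
    simp [densH]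
  | cons x v ih =>
    intro u
    have e : u ++ x :: v = (u ++ [x]) ++ v := by simp
    rw [e, ih, dens_G_snoc, dens_adj (dens_contG u) (dens_contH v)]
    rfl

theorem dens_bw_H (v : List Lk) : ((bw v : ℚ) : ℝ) = ∫ t in (0 : ℝ)..1, densH v t := by
  have h := dens_mirror v []
  rw [List.nil_append] at h
  rw [h]
  simp [densG, densGf]

theorem dens_cheb {A B : ℝ → ℝ} (hA : Continuous A) (hB : Continuous B)
    (h : ∀ s t, 0 ≤ s → s ≤ 1 → 0 ≤ t → t ≤ 1 → (A s - A t) * (B s - B t) ≤ 0) :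
    ∫ t in (0 : ℝ)..1, A t * B t ≤ (∫ t in (0 : ℝ)..1, A t) * ∫ t in (0 : ℝ)..1, B t := by
  have h1 : ∀ t, 0 ≤ t → t ≤ 1 → (∫ s in (0 : ℝ)..1, A s * B s) - A t * (∫ s in (0 : ℝ)..1, B s)
      - B t * (∫ s in (0 : ℝ)..1, A s) + A t * B t ≤ 0 := by
    intro t ht0 ht1
    have e : ∫ s in (0 : ℝ)..1, (A s - A t) * (B s - B t) =
        (∫ s in (0 : ℝ)..1, A s * B s) - A t * (∫ s in (0 : ℝ)..1, B s)
        - B t * (∫ s in (0 : ℝ)..1, A s) + A t * B t := by
      have e1 : (fun s => (A s - A t) * (B s - B t)) =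
          fun s => ((A s * B s - A t * B s) - B t * A s) + A t * B t := by
        funext s
        ring
      rw [e1, intervalIntegral.integral_add (Continuous.intervalIntegrable (by fun_prop) _ _)
        (Continuous.intervalIntegrable (by fun_prop) _ _),
        intervalIntegral.integral_sub (Continuous.intervalIntegrable (by fun_prop) _ _)
        (Continuous.intervalIntegrable (by fun_prop) _ _),
        intervalIntegral.integral_sub (Continuous.intervalIntegrable (by fun_prop) _ _)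
        (Continuous.intervalIntegrable (by fun_prop) _ _),
        intervalIntegral.integral_const_mul, intervalIntegral.integral_const_mul]
      simp
    rw [← e]
    have h2 : 0 ≤ ∫ s in (0 : ℝ)..1, -((A s - A t) * (B s - B t)) :=
      intervalIntegral.integral_nonneg zero_le_one fun s hs => by
        have h3 := h s t hs.1 hs.2 ht0 ht1
        linarith
    rw [intervalIntegral.integral_neg] at h2
    linarith
  set P := ∫ s in (0 : ℝ)..1, A s * B s with hP
  set a := ∫ s in (0 : ℝ)..1, A s with ha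
  set b := ∫ s in (0 : ℝ)..1, B s with hb
  have h2 : 0 ≤ ∫ t in (0 : ℝ)..1, -(P - A t * b - B t * a + A t * B t) :=
    intervalIntegral.integral_nonneg zero_le_one fun t ht => by
      have h3 := h1 t ht.1 ht.2
      linarith
  have e2 : ∫ t in (0 : ℝ)..1, -(P - A t * b - B t * a + A t * B t) = -(P - a * b - b * a + P) := by
    rw [intervalIntegral.integral_neg,
      intervalIntegral.integral_add (Continuous.intervalIntegrable (by fun_prop) _ _)
        (Continuous.intervalIntegrable (by fun_prop) _ _),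
      intervalIntegral.integral_sub (Continuous.intervalIntegrable (by fun_prop) _ _)
        (Continuous.intervalIntegrable (by fun_prop) _ _),
      intervalIntegral.integral_sub (Continuous.intervalIntegrable (by fun_prop) _ _)
        (Continuous.intervalIntegrable (by fun_prop) _ _),
      intervalIntegral.integral_mul_const, intervalIntegral.integral_mul_const, ← hP, ← ha, ← hb]
    simp
  rw [e2] at h2
  nlinarith

theorem dens_mono0 {f : ℝ → ℝ} (hf : Continuous f) (hn : ∀ t, 0 ≤ t → t ≤ 1 → 0 ≤ f t)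
    {s t : ℝ} (h0 : 0 ≤ s) (hst : s ≤ t) (h1 : t ≤ 1) :
    ∫ r in (0 : ℝ)..s, f r ≤ ∫ r in (0 : ℝ)..t, f r := by
  have h := intervalIntegral.integral_add_adjacent_intervals
    (hf.intervalIntegrable (μ := volume) 0 s) (hf.intervalIntegrable (μ := volume) s t)
  have h2 : 0 ≤ ∫ r in s..t, f r := intervalIntegral.integral_nonneg hst fun r hr =>
    hn r (h0.trans hr.1) (hr.2.trans h1)
  linarith

theorem dens_anti1 {f : ℝ → ℝ} (hf : Continuous f) (hn : ∀ t, 0 ≤ t → t ≤ 1 → 0 ≤ f t)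
    {s t : ℝ} (h0 : 0 ≤ s) (hst : s ≤ t) (h1 : t ≤ 1) :
    ∫ r in t..(1 : ℝ), f r ≤ ∫ r in s..(1 : ℝ), f r := by
  rw [dens_cont1_eq hf t, dens_cont1_eq hf s]
  have := dens_mono0 hf hn h0 hst h1
  linarith

theorem dens_opp {f g : ℝ → ℝ} (hf : Continuous f) (hn : ∀ t, 0 ≤ t → t ≤ 1 → 0 ≤ f t)
    (hg : Continuous g) (hm : ∀ t, 0 ≤ t → t ≤ 1 → 0 ≤ g t) (x : Lk) (hx : x ≠ .s) (s t : ℝ)
    (hs0 : 0 ≤ s) (hs1 : s ≤ 1) (ht0 : 0 ≤ t) (ht1 : t ≤ 1) :
    (densSt x f s - densSt x f t) * (densTs x g s - densTs x g t) ≤ 0 := by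
  cases x with
  | a =>
    rcases le_total s t with h | h
    · have h1 := dens_mono0 hf hn hs0 h ht1
      have h2 := dens_anti1 hg hm hs0 h ht1
      exact mul_nonpos_of_nonpos_of_nonneg (sub_nonpos.2 h1) (sub_nonneg.2 h2)
    · have h1 := dens_mono0 hf hn ht0 h hs1
      have h2 := dens_anti1 hg hm ht0 h hs1
      exact mul_nonpos_of_nonneg_of_nonpos (sub_nonneg.2 h1) (sub_nonpos.2 h2)
  | d =>
    rcases le_total s t with h | h
    · have h1 := dens_mono0 hg hm hs0 h ht1
      have h2 := dens_anti1 hf hn hs0 h ht1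
      exact mul_nonpos_of_nonneg_of_nonpos (sub_nonneg.2 h2) (sub_nonpos.2 h1)
    · have h1 := dens_mono0 hg hm ht0 h hs1
      have h2 := dens_anti1 hf hn ht0 h hs1
      exact mul_nonpos_of_nonpos_of_nonneg (sub_nonpos.2 h2) (sub_nonneg.2 h1)
  | s => exact absurd rfl hx

theorem p_bw_cheb : P_bw_cheb := by
  intro u v x hx
  have h : ((bw (u ++ x :: x :: v) : ℚ) : ℝ) ≤ ((bw (u ++ [x]) : ℚ) : ℝ) * ((bw (x :: v) : ℚ) : ℝ) := by
    have e : u ++ x :: x :: v = (u ++ [x]) ++ x :: v := by simp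
    rw [e, dens_mirror, dens_bw (u ++ [x]), dens_bw_H (x :: v)]
    apply dens_cheb (dens_contG _) (dens_contH _)
    intro s t hs0 hs1 ht0 ht1
    rw [dens_G_snoc]
    exact dens_opp (dens_contG u) (fun t h0 h1 => dens_G_nonneg u t h0 h1) (dens_contH v)
      (fun t h0 h1 => dens_H_nonneg v t h0 h1) x hx s t hs0 hs1 ht0 ht1
  exact_mod_cast h

end Pool.Agent.Lib.MP_c22e22_co.V
end

section

/-!
# Summed numeric bounds
-/

open Finset

namespace Pool.Agent.Lib.MP_c22e22_co.V

/-- reindexing of a sum supported on the indices `n - 2h` -/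
lemma Nsum_reidx (n M h0 : ℕ) (f g : ℕ → ℚ) (hf0 : ∀ m, (m + n) % 2 = 1 → f m = 0)
    (hg : ∀ h, h0 ≤ h → 0 ≤ g h) (hfg : ∀ h, 2 * h ≤ n → h0 ≤ h → f (n - 2 * h) ≤ g h)
    (hMn : M ≤ n) (hM : M + 2 * h0 ≤ n + 1) :
    ∑ m ∈ range M, f (m + 1) ≤ ∑ h ∈ range (n + 1), (if h < h0 then 0 else g h) := by
  have e1 : ∑ m ∈ range M, f (m + 1) = ∑ m ∈ (range M).filter (fun m => (m + 1 + n) % 2 = 0),
      f (m + 1) := by
    rw [sum_filter]
    apply sum_congr rfl
    intro m _
    by_cases hp : (m + 1 + n) % 2 = 0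
    · rw [if_pos hp]
    · rw [if_neg hp]
      exact hf0 (m + 1) (by omega)
  rw [e1]
  have hinj : Set.InjOn (fun m => (n - (m + 1)) / 2)
      ((range M).filter (fun m => (m + 1 + n) % 2 = 0) : Finset ℕ) := by
    intro a ha b hb hab
    simp only [coe_filter, mem_range, Set.mem_setOf_eq] at ha hb
    simp only at hab
    omega
  calc ∑ m ∈ (range M).filter (fun m => (m + 1 + n) % 2 = 0), f (m + 1)
      ≤ ∑ m ∈ (range M).filter (fun m => (m + 1 + n) % 2 = 0),
          (fun h => if h < h0 then 0 else g h) ((n - (m + 1)) / 2) := by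
        apply sum_le_sum
        intro m hm
        rw [mem_filter, mem_range] at hm
        have h1 : h0 ≤ (n - (m + 1)) / 2 := by omega
        have h2 : 2 * ((n - (m + 1)) / 2) ≤ n := by omega
        have h3 : n - 2 * ((n - (m + 1)) / 2) = m + 1 := by omega
        have h4 := hfg _ h2 h1
        rw [h3] at h4
        simp only
        rw [if_neg (by omega)]
        exact h4
    _ = ∑ h ∈ ((range M).filter (fun m => (m + 1 + n) % 2 = 0)).image
          (fun m => (n - (m + 1)) / 2), (fun h => if h < h0 then 0 else g h) h := by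
        rw [sum_image hinj]
    _ ≤ ∑ h ∈ range (n + 1), (if h < h0 then 0 else g h) := by
        apply sum_le_sum_of_subset_of_nonneg
        · intro h hh
          rw [mem_image] at hh
          obtain ⟨m, _, rfl⟩ := hh
          rw [mem_range]
          omega
        · intro h _ _
          by_cases hlt : h < h0
          · rw [if_pos hlt]
          · rw [if_neg hlt]
            exact hg h (by omega)

/-- geometric tail -/
lemma Nsum_geo (a : ℕ → ℚ) (K q : ℚ) (N0 : ℕ) (ha : ∀ h, 0 ≤ a h)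
    (hq : ∀ h, N0 ≤ h → a (h + 1) ≤ q * a h) (hK0 : 0 ≤ K) (hK : 1 + K * q ≤ K) (N : ℕ) :
    ∑ h ∈ range N, a h ≤ ∑ h ∈ range N0, a h + K * a N0 := by
  have key : ∀ j, ∑ h ∈ range (N0 + j), a h + K * a (N0 + j) ≤
      ∑ h ∈ range N0, a h + K * a N0 := by
    intro j
    induction j with
    | zero => simp
    | succ j ih =>
      have e : N0 + (j + 1) = N0 + j + 1 := by ring
      rw [e, sum_range_succ]
      have h1 := hq (N0 + j) (by omega)
      have h2 : K * a (N0 + j + 1) ≤ K * (q * a (N0 + j)) := mul_le_mul_of_nonneg_left h1 hK0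
      have h3 : (1 + K * q) * a (N0 + j) ≤ K * a (N0 + j) :=
        mul_le_mul_of_nonneg_right hK (ha _)
      linarith
  have hs : ∑ h ∈ range N, a h ≤ ∑ h ∈ range (N0 + N), a h := by
    apply sum_le_sum_of_subset_of_nonneg
    · intro h hh
      rw [mem_range] at hh ⊢
      omega
    · intro h _ _
      exact ha h
  have h4 := key N
  have h5 : 0 ≤ K * a (N0 + N) := mul_nonneg hK0 (ha _)
  linarith

/-- iteration of `P_ee_two` -/
lemma Nsum_ee_iter (d : P_ee_two) (n : ℕ) : ∀ h : ℕ, 2 * h + 6 ≤ n →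
    ee (n - 2 * h) ≤ (2469 / 1000) ^ h * ee n := by
  intro h
  induction h with
  | zero => intro _; simp
  | succ h ih =>
    intro hn
    have h1 := ih (by omega)
    have h2 := d (n - 2 * (h + 1)) (by omega)
    have e : n - 2 * (h + 1) + 2 = n - 2 * h := by omega
    rw [e] at h2
    calc ee (n - 2 * (h + 1)) ≤ 2469 / 1000 * ee (n - 2 * h) := h2
      _ ≤ 2469 / 1000 * ((2469 / 1000) ^ h * ee n) := by
        apply mul_le_mul_of_nonneg_left h1 (by norm_num)
      _ = (2469 / 1000) ^ (h + 1) * ee n := by ring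

lemma Nsum_ee_any (c : P_ee_two') (n h : ℕ) (hn : 6 ≤ n) (h2 : 2 * h ≤ n) :
    ee (n - 2 * h) ≤ 5 / 4 * (2469 / 1000) ^ h * ee n := by
  have h1 := c (n - 2 * h) n (by omega) (by omega) hn
  have e : (n - (n - 2 * h)) / 2 = h := by omega
  rw [e] at h1
  exact h1

/-- common factor for the bounds on `ee` -/
def Nsum_u (H : ℕ) (K : ℚ) (h : ℕ) : ℚ := (if h ≤ H then 1 else K) * (2469 / 1000) ^ h

lemma Nsum_u_nonneg (H : ℕ) (K : ℚ) (hK : 0 ≤ K) (h : ℕ) : 0 ≤ Nsum_u H K h := by
  unfold Nsum_u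
  split_ifs <;> positivity

lemma Nsum_ee_u (c : P_ee_two') (d : P_ee_two) (n h : ℕ) (hn : 22 ≤ n) (h2 : 2 * h ≤ n) :
    ee (n - 2 * h) ≤ Nsum_u 8 (5 / 4) h * ee n := by
  unfold Nsum_u
  by_cases h8 : h ≤ 8
  · rw [if_pos h8, one_mul]
    exact Nsum_ee_iter d n h (by omega)
  · rw [if_neg h8]
    exact Nsum_ee_any c n h (by omega) h2

lemma Nsum_ee'_u (c : P_ee_two') (d : P_ee_two) (n h : ℕ) (hn : 14 ≤ n) (h2 : 2 * h ≤ n)
    (hpos : P_ee_pos) : ee' (n - 2 * h) ≤ Nsum_u 4 (25 / 16) h * ee n := by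
  unfold Nsum_u
  by_cases h4 : h ≤ 4
  · rw [if_pos h4, one_mul]
    unfold ee'
    rw [if_neg (by omega)]
    exact Nsum_ee_iter d n h (by omega)
  · rw [if_neg h4]
    have h1 := Nsum_ee_any c n h (by omega) h2
    have h3 : ee' (n - 2 * h) ≤ 5 / 4 * ee (n - 2 * h) := by
      unfold ee'
      split_ifs
      · exact le_rfl
      · have := hpos (n - 2 * h)
        linarith
    calc ee' (n - 2 * h) ≤ 5 / 4 * ee (n - 2 * h) := h3
      _ ≤ 5 / 4 * (5 / 4 * (2469 / 1000) ^ h * ee n) := by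
        apply mul_le_mul_of_nonneg_left h1 (by norm_num)
      _ = 25 / 16 * (2469 / 1000) ^ h * ee n := by ring

lemma Nsum_tt_nonneg : ∀ h, 0 ≤ tt h := by
  intro h
  induction h with
  | zero => simp [tt]
  | succ h ih =>
    unfold tt
    split_ifs
    · positivity
    · positivity

lemma Nsum_s1_nonneg (h : ℕ) : 0 ≤ s1 h := by
  rcases h with _ | _ | _ | _ | _ | _ | _ | h <;> simp only [s1] <;> positivity

lemma Nsum_s2_nonneg (h : ℕ) : 0 ≤ s2 h := by
  rcases h with _ | _ | _ | _ | _ | _ | _ | h <;> simp only [s2] <;> positivity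

lemma Nsum_tt_step (h : ℕ) (hh : 9 ≤ h) : tt (h + 1) * (2469 / 1000) ≤ 1 / 7 * tt h := by
  have h1 : tt (h + 1) = tt h / (2 * (h + 1)) := by
    rw [tt, if_neg (by omega)]
  rw [h1]
  have h2 : (9 : ℚ) ≤ h := by exact_mod_cast hh
  have h3 := Nsum_tt_nonneg h
  rw [div_mul_eq_mul_div, div_le_iff₀ (by positivity)]
  nlinarith

lemma Nsum_s1_step (h : ℕ) (hh : 6 ≤ h) : s1 (h + 1) = s1 h / 8 := by
  obtain ⟨k, rfl⟩ := Nat.exists_eq_add_of_le hh
  rcases k with _ | k
  · simp only [s1]; norm_num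
  · have e1 : 6 + (k + 1) + 1 = (k + 1) + 7 := by ring
    have e2 : 6 + (k + 1) = k + 7 := by ring
    rw [e1, e2]
    simp only [s1]
    rw [pow_succ (8 : ℚ) (k + 1)]
    field_simp

lemma Nsum_s2_step (h : ℕ) (hh : 6 ≤ h) : s2 (h + 1) = s2 h / 8 := by
  obtain ⟨k, rfl⟩ := Nat.exists_eq_add_of_le hh
  rcases k with _ | k
  · simp only [s2]; norm_num
  · have e1 : 6 + (k + 1) + 1 = (k + 1) + 7 := by ring
    have e2 : 6 + (k + 1) = k + 7 := by ring
    rw [e1, e2]
    simp only [s2]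
    rw [pow_succ (8 : ℚ) (k + 1)]
    field_simp

/-- the main summation lemma -/
lemma Nsum_main (n M h0 : ℕ) (x e s u : ℕ → ℚ) (I E B K q : ℚ) (N0 : ℕ)
    (hI : 0 ≤ I) (hE : 0 ≤ E) (hx : ∀ m, 0 ≤ x m) (he : ∀ m, 0 ≤ e m)
    (hs : ∀ h, 0 ≤ s h) (hu : ∀ h, 0 ≤ u h)
    (hx0 : ∀ m, (m + n) % 2 = 1 → x m = 0)
    (hxs : ∀ h, 2 * h ≤ n → x (n - 2 * h) ≤ s h * I)
    (heu : ∀ h, 2 * h ≤ n → e (n - 2 * h) ≤ u h * E)
    (hMn : M ≤ n) (hM : M + 2 * h0 ≤ n + 1)
    (hh0 : h0 ≤ N0) (hq : ∀ h, N0 ≤ h → s (h + 1) * u (h + 1) ≤ q * (s h * u h))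
    (hK0 : 0 ≤ K) (hK : 1 + K * q ≤ K)
    (hB : ∑ h ∈ range N0, (if h < h0 then 0 else s h * u h) + K * (s N0 * u N0) ≤ B) :
    ∑ m ∈ range M, x (m + 1) * e (m + 1) ≤ B * (I * E) := by
  have h1 := Nsum_reidx n M h0 (fun m => x m * e m) (fun h => (s h * I) * (u h * E))
    (fun m hm => by simp only [hx0 m hm, zero_mul])
    (fun h _ => mul_nonneg (mul_nonneg (hs h) hI) (mul_nonneg (hu h) hE))
    (fun h hn _ => mul_le_mul (hxs h hn) (heu h hn) (he _) (mul_nonneg (hs h) hI)) hMn hM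
  have h2 : ∑ h ∈ range (n + 1), (if h < h0 then 0 else (s h * I) * (u h * E)) =
      (∑ h ∈ range (n + 1), (if h < h0 then 0 else s h * u h)) * (I * E) := by
    rw [sum_mul]
    apply sum_congr rfl
    intro h _
    split_ifs
    · ring
    · ring
  have h3 := Nsum_geo (fun h => if h < h0 then 0 else s h * u h) K q N0
    (fun h => by
      show (0 : ℚ) ≤ if h < h0 then 0 else s h * u h
      split_ifs
      · exact le_rfl
      · exact mul_nonneg (hs h) (hu h))
    (fun h hh => by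
      show (if h + 1 < h0 then (0 : ℚ) else s (h + 1) * u (h + 1)) ≤
        q * (if h < h0 then 0 else s h * u h)
      rw [if_neg (by omega), if_neg (by omega)]
      exact hq h hh) hK0 hK (n + 1)
  rw [if_neg (by omega : ¬ N0 < h0)] at h3
  calc ∑ m ∈ range M, x (m + 1) * e (m + 1)
      ≤ ∑ h ∈ range (n + 1), (if h < h0 then 0 else (s h * I) * (u h * E)) := h1
    _ = (∑ h ∈ range (n + 1), (if h < h0 then 0 else s h * u h)) * (I * E) := h2
    _ ≤ B * (I * E) := by
      apply mul_le_mul_of_nonneg_right _ (mul_nonneg hI hE)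
      linarith

lemma Nsum_qtt (h : ℕ) (hh : 9 ≤ h) : tt (h + 1) * Nsum_u 8 (5 / 4) (h + 1) ≤
    1 / 7 * (tt h * Nsum_u 8 (5 / 4) h) := by
  unfold Nsum_u
  rw [if_neg (by omega), if_neg (by omega)]
  have h1 := Nsum_tt_step h hh
  have h2 : (0 : ℚ) ≤ 5 / 4 * (2469 / 1000) ^ h := by positivity
  calc tt (h + 1) * (5 / 4 * (2469 / 1000) ^ (h + 1))
      = (tt (h + 1) * (2469 / 1000)) * (5 / 4 * (2469 / 1000) ^ h) := by ring
    _ ≤ (1 / 7 * tt h) * (5 / 4 * (2469 / 1000) ^ h) := mul_le_mul_of_nonneg_right h1 h2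
    _ = 1 / 7 * (tt h * (5 / 4 * (2469 / 1000) ^ h)) := by ring

lemma Nsum_qs (s : ℕ → ℚ) (hs : ∀ h, 0 ≤ s h) (H : ℕ) (K : ℚ) (hK : 0 ≤ K)
    (h : ℕ) (hH : H < h) (hst : s (h + 1) = s h / 8) :
    s (h + 1) * Nsum_u H K (h + 1) ≤ 1 / 3 * (s h * Nsum_u H K h) := by
  unfold Nsum_u
  rw [if_neg (by omega), if_neg (by omega), hst]
  have h2 : (0 : ℚ) ≤ s h * (K * (2469 / 1000) ^ h) := mul_nonneg (hs h) (by positivity)
  calc s h / 8 * (K * (2469 / 1000) ^ (h + 1))
      = (2469 / 8000) * (s h * (K * (2469 / 1000) ^ h)) := by ring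
    _ ≤ 1 / 3 * (s h * (K * (2469 / 1000) ^ h)) := mul_le_mul_of_nonneg_right (by norm_num) h2

lemma Nsum_mom_nonneg (b : P_x_basic) (n : ℕ) : 0 ≤ mom 1 n := by
  obtain ⟨b1, _, _, _, b5, _⟩ := b
  rw [← b1 n]
  exact b5 n n

theorem p_N1 (a : P_tt) (b : P_x_basic) (c : P_ee_two') (d : P_ee_two) (e : P_ee_pos) :
    P_N1 := by
  intro n hn
  have hI := Nsum_mom_nonneg b n
  obtain ⟨b1, b2, b3, b4, b5, b6, _⟩ := b
  refine Nsum_main n (n - 6) 3 (fun m => xE m n) ee tt (Nsum_u 8 (5 / 4)) (mom 1 n) (ee n)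
    (4712 / 100000) (7 / 6) (1 / 7) 9 hI (e n).le (fun m => b5 m n) (fun m => (e m).le)
    Nsum_tt_nonneg (Nsum_u_nonneg _ _ (by norm_num)) (fun m hm => b3 m n hm)
    (fun h hh => a n h (by omega) hh) (fun h hh => Nsum_ee_u c d n h hn hh) (by omega) (by omega)
    (by omega) Nsum_qtt (by norm_num) (by norm_num) ?_
  simp only [sum_range_succ, range_zero, sum_empty, Nsum_u, tt]
  norm_num

theorem p_N2a (a : P_s1) (b : P_x_basic) (c : P_ee_two') (d : P_ee_two) (e : P_ee_pos) :
    P_N2a := by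
  intro n hn
  have hI := Nsum_mom_nonneg b n
  obtain ⟨b1, b2, b3, b4, b5, b6, _⟩ := b
  have h1 := a n 1 hn (by omega)
  have h2 := d (n - 2) (by omega)
  have e1 : n - 2 + 2 = n := by omega
  rw [e1] at h2
  have e2 : n - 2 * 1 = n - 2 := by omega
  rw [e2] at h1
  have h3 : (0 : ℚ) ≤ s1 1 * mom 1 n := mul_nonneg (Nsum_s1_nonneg 1) hI
  calc xO (n - 2) n * ee (n - 2) ≤ (s1 1 * mom 1 n) * (2469 / 1000 * ee n) :=
        mul_le_mul h1 h2 (e _).le h3
    _ = (s1 1 * (2469 / 1000)) * (mom 1 n * ee n) := by ring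
    _ ≤ 1282 / 10000 * (mom 1 n * ee n) := by
      apply mul_le_mul_of_nonneg_right _ (mul_nonneg hI (e n).le)
      simp only [s1]
      norm_num

theorem p_N2b (a : P_s1) (b : P_x_basic) (c : P_ee_two') (d : P_ee_two) (e : P_ee_pos) :
    P_N2b := by
  intro n hn
  have hI := Nsum_mom_nonneg b n
  obtain ⟨b1, b2, b3, b4, b5, b6, _⟩ := b
  refine Nsum_main n (n - 3) 2 (fun m => xO m n) ee s1 (Nsum_u 8 (5 / 4)) (mom 1 n) (ee n)
    (4405 / 100000) (3 / 2) (1 / 3) 9 hI (e n).le (fun m => b6 m n) (fun m => (e m).le)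
    Nsum_s1_nonneg (Nsum_u_nonneg _ _ (by norm_num)) (fun m hm => b4 m n hm)
    (fun h hh => a n h hn hh) (fun h hh => Nsum_ee_u c d n h hn hh) (by omega) (by omega)
    (by omega) (fun h hh => Nsum_qs s1 Nsum_s1_nonneg 8 (5 / 4) (by norm_num) h (by omega)
      (Nsum_s1_step h (by omega))) (by norm_num) (by norm_num) ?_
  simp only [sum_range_succ, range_zero, sum_empty, Nsum_u, s1]
  norm_num

theorem p_N2c (a : P_s1) (b : P_x_basic) (c : P_ee_two') (d : P_ee_two) (e : P_ee_pos) :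
    P_N2c := by
  intro n hn
  have hI := Nsum_mom_nonneg b n
  obtain ⟨b1, b2, b3, b4, b5, b6, _⟩ := b
  refine Nsum_main n (n - 5) 3 (fun m => xO m n) ee s1 (Nsum_u 8 (5 / 4)) (mom 1 n) (ee n)
    (552 / 100000) (3 / 2) (1 / 3) 9 hI (e n).le (fun m => b6 m n) (fun m => (e m).le)
    Nsum_s1_nonneg (Nsum_u_nonneg _ _ (by norm_num)) (fun m hm => b4 m n hm)
    (fun h hh => a n h hn hh) (fun h hh => Nsum_ee_u c d n h hn hh) (by omega) (by omega)
    (by omega) (fun h hh => Nsum_qs s1 Nsum_s1_nonneg 8 (5 / 4) (by norm_num) h (by omega)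
      (Nsum_s1_step h (by omega))) (by norm_num) (by norm_num) ?_
  simp only [sum_range_succ, range_zero, sum_empty, Nsum_u, s1]
  norm_num

theorem p_N3 (a : P_s2) (b : P_x_basic) (c : P_ee_two') (d : P_ee_two) (e : P_ee_pos) :
    P_N3 := by
  intro n hn
  have hI := Nsum_mom_nonneg b n
  obtain ⟨b1, b2, b3, b4, b5, b6, _⟩ := b
  have he' : ∀ m, 0 ≤ ee' m := by
    intro m
    have := e m
    unfold ee'
    split_ifs
    · linarith
    · exact this.le
  refine Nsum_main n n 0 (fun m => xO m n) ee' s2 (Nsum_u 4 (25 / 16)) (mom 1 n) (ee n)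
    (121 / 100) (3 / 2) (1 / 3) 7 hI (e n).le (fun m => b6 m n) he'
    Nsum_s2_nonneg (Nsum_u_nonneg _ _ (by norm_num)) (fun m hm => b4 m n hm)
    (fun h hh => a n h hn hh) (fun h hh => Nsum_ee'_u c d n h hn hh e) le_rfl (by omega)
    (by omega) (fun h hh => Nsum_qs s2 Nsum_s2_nonneg 4 (25 / 16) (by norm_num) h (by omega)
      (Nsum_s2_step h (by omega))) (by norm_num) (by norm_num) ?_
  simp only [sum_range_succ, range_zero, sum_empty, Nsum_u, s2]
  norm_num

theorem p_N5 (a : P_tt) (b : P_x_basic) (c : P_ee_two') (d : P_ee_two) (e : P_ee_pos) :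
    P_N5 := by
  intro n hn
  have hI := Nsum_mom_nonneg b n
  obtain ⟨b1, b2, b3, b4, b5, b6, _⟩ := b
  have key : ∀ h : ℕ, 2 * h + 6 ≤ n → xE (n - 2 * h) n * ee (n - 2 * h) ≤
      (tt h * (2469 / 1000) ^ h) * (mom 1 n * ee n) := by
    intro h hh
    have h1 := a n h (by omega) (by omega)
    have h2 := Nsum_ee_iter d n h hh
    have h3 : (0 : ℚ) ≤ tt h * mom 1 n := mul_nonneg (Nsum_tt_nonneg h) hI
    calc xE (n - 2 * h) n * ee (n - 2 * h) ≤ (tt h * mom 1 n) * ((2469 / 1000) ^ h * ee n) :=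
          mul_le_mul h1 h2 (e _).le h3
      _ = (tt h * (2469 / 1000) ^ h) * (mom 1 n * ee n) := by ring
  have hnn : 0 ≤ mom 1 n * ee n := mul_nonneg hI (e n).le
  constructor
  · have h1 := key 1 (by omega)
    have h2 : (tt 1 * (2469 / 1000) ^ 1 : ℚ) ≤ 6173 / 10000 := by
      simp only [tt]
      norm_num
    exact h1.trans (mul_le_mul_of_nonneg_right h2 hnn)
  · have h1 := key 2 (by omega)
    have h2 : (tt 2 * (2469 / 1000) ^ 2 : ℚ) ≤ 1906 / 10000 := by
      simp only [tt]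
      norm_num
    exact h1.trans (mul_le_mul_of_nonneg_right h2 hnn)

end Pool.Agent.Lib.MP_c22e22_co.V
end

section

/-!
# Ratio bounds for the numbers `e_n`
-/

open MvPolynomial Finset

namespace Pool.Agent.Lib.MP_c22e22_co.V

/-- real value of `e_k (π/2)^k` -/
noncomputable def eeB (k : ℕ) : ℝ := ((ee k : ℚ) : ℝ) * (Real.pi / 2) ^ k

theorem eeBounds_pos : 0 < Real.pi / 2 := by positivity

theorem eeBounds_lo : (1570796 / 1000000 : ℝ) < Real.pi / 2 := by
  have := Real.pi_gt_d6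
  norm_num at this ⊢
  linarith

theorem eeBounds_hi : Real.pi / 2 < (15707965 / 10000000 : ℝ) := by
  have := Real.pi_lt_d6
  norm_num at this ⊢
  linarith

theorem eeBounds_step (h1 : P_ee_ff) (h2 : P_c_mono) (k : ℕ) :
    (k % 2 = 0 → eeB k ≤ eeB (k + 1) ∧ eeB k ≤ eeB (k + 2)) ∧
    (k % 2 = 1 → eeB (k + 1) ≤ eeB k ∧ eeB (k + 2) ≤ eeB k) := by
  have hp : 0 < (Real.pi / 2) ^ k := pow_pos eeBounds_pos k
  obtain ⟨ha, hb⟩ := h2 k
  rw [← h1 k, ← h1 (k + 1), ← h1 (k + 2)] at ha hb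
  refine ⟨fun hk => ?_, fun hk => ?_⟩
  · obtain ⟨a1, a2⟩ := ha hk
    have b1 := mul_le_mul_of_nonneg_right a1 hp.le
    have b2 := mul_le_mul_of_nonneg_right a2 hp.le
    constructor
    · calc eeB k ≤ _ := b1
        _ = _ := by simp only [eeB]; ring
    · calc eeB k ≤ _ := b2
        _ = _ := by simp only [eeB]; ring
  · obtain ⟨a1, a2⟩ := hb hk
    have b1 := mul_le_mul_of_nonneg_right a1 hp.le
    have b2 := mul_le_mul_of_nonneg_right a2 hp.le
    constructor
    · calc eeB (k + 1) = _ := by simp only [eeB]; ring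
        _ ≤ _ := b1
    · calc eeB (k + 2) = _ := by simp only [eeB]; ring
        _ ≤ _ := b2

theorem eeBounds_mem (h1 : P_ee_ff) (h2 : P_c_mono) (K : ℕ) (hK : K % 2 = 0) (k : ℕ) :
    K ≤ k → eeB K ≤ eeB k ∧ eeB k ≤ eeB (K + 1) := by
  induction k using Nat.strong_induction_on with
  | _ k ih =>
    intro hk
    rcases Nat.eq_or_lt_of_le hk with rfl | hlt
    · exact ⟨le_rfl, ((eeBounds_step h1 h2 K).1 hK).1⟩
    rcases Nat.eq_or_lt_of_le (Nat.succ_le_of_lt hlt) with h' | hlt2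
    · obtain rfl : k = K + 1 := h'.symm
      exact ⟨((eeBounds_step h1 h2 K).1 hK).1, le_rfl⟩
    · obtain ⟨l, rfl⟩ : ∃ l, k = l + 2 := ⟨k - 2, by omega⟩
      have i1 := ih l (by omega) (by omega)
      have i2 := ih (l + 1) (by omega) (by omega)
      rcases Nat.mod_two_eq_zero_or_one l with hl | hl
      · have s1' := (eeBounds_step h1 h2 l).1 hl
        have s2' := (eeBounds_step h1 h2 (l + 1)).2 (by omega)
        exact ⟨i1.1.trans s1'.2, s2'.1.trans i2.2⟩
      · have s1' := (eeBounds_step h1 h2 l).2 hl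
        have s2' := (eeBounds_step h1 h2 (l + 1)).1 (by omega)
        exact ⟨i2.1.trans s2'.1, s1'.2.trans i1.2⟩

theorem eeBounds_vals (h3 : P_ee_val) : eeB 2 = 1 / 2 * (Real.pi / 2) ^ 2 ∧
    eeB 3 = 1 / 3 * (Real.pi / 2) ^ 3 ∧ eeB 4 = 5 / 24 * (Real.pi / 2) ^ 4 ∧
    eeB 5 = 2 / 15 * (Real.pi / 2) ^ 5 ∧ eeB 6 = 61 / 720 * (Real.pi / 2) ^ 6 ∧
    eeB 7 = 17 / 315 * (Real.pi / 2) ^ 7 := by
  obtain ⟨-, -, v2, v3, v4, v5, v6, v7, -⟩ := h3
  simp only [eeB, v2, v3, v4, v5, v6, v7]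
  push_cast
  exact ⟨rfl, rfl, rfl, rfl, rfl, rfl⟩

theorem eeBounds_castpos (h4 : P_ee_pos) (k : ℕ) : (0 : ℝ) < ((ee k : ℚ) : ℝ) := by
  exact_mod_cast h4 k

/-- transfer: an inequality between the `eeB` gives one between the `ee` -/
theorem eeBounds_transfer (κ : ℚ) (m l : ℕ)
    (h : eeB m * (Real.pi / 2) ^ l ≤ (κ : ℝ) * eeB (m + l)) : ee m ≤ κ * ee (m + l) := by
  have hp : 0 < (Real.pi / 2) ^ (m + l) := pow_pos eeBounds_pos _
  have : ((ee m : ℚ) : ℝ) * (Real.pi / 2) ^ (m + l) ≤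
      ((κ : ℝ) * ((ee (m + l) : ℚ) : ℝ)) * (Real.pi / 2) ^ (m + l) := by
    calc _ = eeB m * (Real.pi / 2) ^ l := by simp only [eeB]; ring
      _ ≤ _ := h
      _ = _ := by simp only [eeB]; ring
  have := le_of_mul_le_mul_right this hp
  exact_mod_cast this

theorem eeBounds_num1 : 17 / 315 * (Real.pi / 2) ^ 7 * (Real.pi / 2) ^ 2 ≤
    2469 / 1000 * (61 / 720 * (Real.pi / 2) ^ 6) := by
  have hp := eeBounds_pos
  have h3 : (Real.pi / 2) ^ 3 ≤ (15707965 / 10000000 : ℝ) ^ 3 :=
    pow_le_pow_left₀ hp.le eeBounds_hi.le 3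
  have h6 : 0 < (Real.pi / 2) ^ 6 := by positivity
  have e : 17 / 315 * (Real.pi / 2) ^ 7 * (Real.pi / 2) ^ 2 =
      17 / 315 * (Real.pi / 2) ^ 3 * (Real.pi / 2) ^ 6 := by ring
  rw [e, ← mul_assoc]
  apply mul_le_mul_of_nonneg_right _ h6.le
  norm_num at h3 ⊢
  linarith

theorem p_ee_two (h1 : P_ee_ff) (h2 : P_c_mono) (h3 : P_ee_val) (h4 : P_ee_pos) : P_ee_two := by
  intro m hm
  apply eeBounds_transfer (2469 / 1000) m 2
  obtain ⟨-, -, -, -, v6, v7⟩ := eeBounds_vals h3
  have hp := eeBounds_pos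
  rcases Nat.mod_two_eq_zero_or_one m with h | h
  · have s := ((eeBounds_step h1 h2 m).1 h).2
    have hc : 0 < eeB (m + 2) := mul_pos (eeBounds_castpos h4 _) (pow_pos hp _)
    have h2' : (Real.pi / 2) ^ 2 ≤ (15707965 / 10000000 : ℝ) ^ 2 :=
      pow_le_pow_left₀ hp.le eeBounds_hi.le 2
    have h2'' : (Real.pi / 2) ^ 2 ≤ (2469 / 1000 : ℝ) := h2'.trans (by norm_num)
    have hc0 : 0 < eeB m := mul_pos (eeBounds_castpos h4 _) (pow_pos hp _)
    push_cast
    calc eeB m * (Real.pi / 2) ^ 2 ≤ eeB (m + 2) * (2469 / 1000) :=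
          mul_le_mul s h2'' (by positivity) hc.le
      _ = _ := by ring
  · have a := (eeBounds_mem h1 h2 6 rfl m hm).2
    have b := (eeBounds_mem h1 h2 6 rfl (m + 2) (by omega)).1
    rw [v7] at a
    rw [v6] at b
    have a' := mul_le_mul_of_nonneg_right a (by positivity : 0 ≤ (Real.pi / 2) ^ 2)
    have b' := mul_le_mul_of_nonneg_left b (by norm_num : (0 : ℝ) ≤ 2469 / 1000)
    push_cast
    exact a'.trans (eeBounds_num1.trans b')

theorem eeBounds_iter (h : P_ee_two) (m : ℕ) (hm : 6 ≤ m) : ∀ j : ℕ,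
    ee m ≤ (2469 / 1000) ^ j * ee (m + 2 * j)
  | 0 => by simp
  | j + 1 => by
    have i := eeBounds_iter h m hm j
    have := h (m + 2 * j) (by omega)
    calc ee m ≤ _ := i
      _ ≤ (2469 / 1000) ^ j * (2469 / 1000 * ee (m + 2 * j + 2)) :=
          mul_le_mul_of_nonneg_left this (by positivity)
      _ = _ := by rw [show m + 2 * (j + 1) = m + 2 * j + 2 by ring]; ring

theorem p_ee_two' (h1 : P_ee_ff) (h2 : P_c_mono) (h3 : P_ee_val) (h4 : P_ee_pos) :
    P_ee_two' := by
  have two := p_ee_two h1 h2 h3 h4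
  obtain ⟨v0, v1, v2, v3, v4, v5, v6, v7, -⟩ := h3
  intro m n hmn hpar hn
  have hen := h4 n
  rcases Nat.lt_or_ge m 6 with hlt | hge
  · -- base b
    have key : ∀ b j : ℕ, 6 ≤ b → b ≤ n → (b + n) % 2 = 0 → m + 2 * j = b →
        ee m ≤ 5 / 4 * (2469 / 1000) ^ j * ee b →
        ee m ≤ 5 / 4 * (2469 / 1000) ^ ((n - m) / 2) * ee n := by
      intro b j hb hbn hpb hj hle
      have i := eeBounds_iter two b hb ((n - b) / 2)
      rw [show b + 2 * ((n - b) / 2) = n by omega] at i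
      calc ee m ≤ _ := hle
        _ ≤ 5 / 4 * (2469 / 1000) ^ j * ((2469 / 1000) ^ ((n - b) / 2) * ee n) :=
          mul_le_mul_of_nonneg_left i (by positivity)
        _ = _ := by
          rw [show (n - m) / 2 = j + (n - b) / 2 by omega, pow_add]; ring
    interval_cases m
    · exact key 6 3 (by norm_num) (by omega) (by omega) rfl (by rw [v0, v6]; norm_num)
    · exact key 7 3 (by norm_num) (by omega) (by omega) rfl (by rw [v1, v7]; norm_num)
    · exact key 6 2 (by norm_num) (by omega) (by omega) rfl (by rw [v2, v6]; norm_num)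
    · exact key 7 2 (by norm_num) (by omega) (by omega) rfl (by rw [v3, v7]; norm_num)
    · exact key 6 1 (by norm_num) (by omega) (by omega) rfl (by rw [v4, v6]; norm_num)
    · exact key 7 1 (by norm_num) (by omega) (by omega) rfl (by rw [v5, v7]; norm_num)
  · have i := eeBounds_iter two m hge ((n - m) / 2)
    rw [show m + 2 * ((n - m) / 2) = n by omega] at i
    have : 0 ≤ (2469 / 1000 : ℚ) ^ ((n - m) / 2) * ee n := by positivity
    calc ee m ≤ _ := i
      _ ≤ 5 / 4 * ((2469 / 1000) ^ ((n - m) / 2) * ee n) := by linarith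
      _ = _ := by ring

/-- product form of the transfer -/
theorem eeBounds_prod (κ : ℚ) (i j l s : ℕ) (hs : i + j = s + l)
    (h : eeB i * eeB j ≤ (κ : ℝ) * (Real.pi / 2) ^ l * eeB s) : ee i * ee j ≤ κ * ee s := by
  have hp : 0 < (Real.pi / 2) ^ (s + l) := pow_pos eeBounds_pos _
  have : (((ee i : ℚ) : ℝ) * ((ee j : ℚ) : ℝ)) * (Real.pi / 2) ^ (s + l) ≤
      ((κ : ℝ) * ((ee s : ℚ) : ℝ)) * (Real.pi / 2) ^ (s + l) := by
    calc _ = eeB i * eeB j := by rw [← hs]; simp only [eeB]; ring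
      _ ≤ _ := h
      _ = _ := by simp only [eeB]; ring
  have := le_of_mul_le_mul_right this hp
  exact_mod_cast this

theorem eeBounds_one (h1 : P_ee_ff) (h2 : P_c_mono) (h3 : P_ee_val) (h4 : P_ee_pos) (j : ℕ)
    (hj : 2 ≤ j) : ee j ≤ 8 / 5 * ee (j + 1) := by
  have hp := eeBounds_pos
  have hhi := eeBounds_hi
  rcases Nat.mod_two_eq_zero_or_one j with h | h
  · apply eeBounds_transfer (8 / 5) j 1
    have s := ((eeBounds_step h1 h2 j).1 h).1
    have hc : 0 < eeB (j + 1) := mul_pos (eeBounds_castpos h4 _) (pow_pos hp _)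
    have hc0 : 0 < eeB j := mul_pos (eeBounds_castpos h4 _) (pow_pos hp _)
    rw [pow_one]
    push_cast
    calc eeB j * (Real.pi / 2) ≤ eeB (j + 1) * (8 / 5) :=
          mul_le_mul s (by linarith) hp.le hc.le
      _ = _ := by ring
  · rcases Nat.lt_or_ge j 7 with hl | hge
    · obtain ⟨-, -, -, v3, v4, v5, v6, -⟩ := h3
      obtain rfl | rfl : j = 3 ∨ j = 5 := by omega
      · rw [v3, v4]; norm_num
      · rw [v5, v6]; norm_num
    · apply eeBounds_transfer (8 / 5) j 1
      obtain ⟨-, -, -, -, v6, v7⟩ := eeBounds_vals h3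
      have a := (eeBounds_mem h1 h2 6 rfl j (by omega)).2
      have b := (eeBounds_mem h1 h2 6 rfl (j + 1) (by omega)).1
      rw [v7] at a
      rw [v6] at b
      have a' := mul_le_mul_of_nonneg_right a (by positivity : 0 ≤ (Real.pi / 2) ^ 1)
      have b' := mul_le_mul_of_nonneg_left b (by norm_num : (0 : ℝ) ≤ 8 / 5)
      have h2' : (Real.pi / 2) ^ 2 ≤ (15707965 / 10000000 : ℝ) ^ 2 :=
        pow_le_pow_left₀ hp.le hhi.le 2
      have h6 : 0 < (Real.pi / 2) ^ 6 := by positivity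
      have c : 17 / 315 * (Real.pi / 2) ^ 7 * (Real.pi / 2) ^ 1 ≤
          8 / 5 * (61 / 720 * (Real.pi / 2) ^ 6) := by
        have e : 17 / 315 * (Real.pi / 2) ^ 7 * (Real.pi / 2) ^ 1 =
            17 / 315 * (Real.pi / 2) ^ 2 * (Real.pi / 2) ^ 6 := by ring
        rw [e, ← mul_assoc]
        apply mul_le_mul_of_nonneg_right _ h6.le
        norm_num at h2' ⊢
        linarith
      push_cast
      exact a'.trans (c.trans b')

theorem p_ee_85 (h1 : P_ee_ff) (h2 : P_c_mono) (h3 : P_ee_val) (h4 : P_ee_pos) : P_ee_85 := by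
  intro i j hij
  have hp := eeBounds_pos
  obtain ⟨v0, v1, -⟩ := id h3
  rcases Nat.eq_zero_or_pos i with rfl | hi
  · have := h4 j
    rw [v0, zero_add]; linarith
  rcases Nat.eq_zero_or_pos j with rfl | hj
  · have := h4 i
    rw [v0, add_zero]; linarith
  rcases Nat.eq_or_lt_of_le hi with h | hi2
  · obtain rfl : i = 1 := h.symm
    rw [v1, one_mul, add_comm]
    exact eeBounds_one h1 h2 h3 h4 j (by omega)
  rcases Nat.eq_or_lt_of_le hj with h | hj2
  · obtain rfl : j = 1 := h.symm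
    rw [v1, mul_one]
    exact eeBounds_one h1 h2 h3 h4 i (by omega)
  · apply eeBounds_prod (8 / 5) i j 0 (i + j) rfl
    obtain ⟨-, w3, w4, -, -, -⟩ := eeBounds_vals h3
    have a := (eeBounds_mem h1 h2 2 rfl i (by omega)).2
    have b := (eeBounds_mem h1 h2 2 rfl j (by omega)).2
    have c := (eeBounds_mem h1 h2 4 rfl (i + j) (by omega)).1
    rw [w3] at a b
    rw [w4] at c
    have hi0 : 0 < eeB i := mul_pos (eeBounds_castpos h4 _) (pow_pos hp _)
    have hj0 : 0 < eeB j := mul_pos (eeBounds_castpos h4 _) (pow_pos hp _)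
    have ab := mul_le_mul a b hj0.le (by positivity)
    have h2' : (Real.pi / 2) ^ 2 ≤ (15707965 / 10000000 : ℝ) ^ 2 :=
      pow_le_pow_left₀ hp.le eeBounds_hi.le 2
    have hf : 0 < (Real.pi / 2) ^ 4 := by positivity
    have d : 1 / 3 * (Real.pi / 2) ^ 3 * (1 / 3 * (Real.pi / 2) ^ 3) ≤
        8 / 5 * (5 / 24 * (Real.pi / 2) ^ 4) := by
      have e : 1 / 3 * (Real.pi / 2) ^ 3 * (1 / 3 * (Real.pi / 2) ^ 3) =
          1 / 9 * (Real.pi / 2) ^ 2 * (Real.pi / 2) ^ 4 := by ring
      rw [e, ← mul_assoc]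
      apply mul_le_mul_of_nonneg_right _ hf.le
      norm_num at h2' ⊢
      linarith
    have c' := mul_le_mul_of_nonneg_left c (by norm_num : (0 : ℝ) ≤ 8 / 5)
    push_cast
    rw [pow_zero, mul_one]
    exact ab.trans (d.trans c')

theorem p_ee_56 (h1 : P_ee_ff) (h2 : P_c_mono) (h3 : P_ee_val) (h4 : P_ee_pos) : P_ee_56 := by
  have hp := eeBounds_pos
  obtain ⟨-, -, v2, v3, v4, v5, v6, -⟩ := id h3
  obtain ⟨w2, w3, w4, w5, w6, -⟩ := eeBounds_vals h3
  have hlo := eeBounds_lo
  have hhi := eeBounds_hi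
  -- general step for `2 ≤ i ≤ j`
  have main : ∀ i j : ℕ, 2 ≤ i → i ≤ j → ee i * ee j ≤ 5 / 6 * ee (i + j - 1) := by
    intro i j hi hij
    rcases Nat.lt_or_ge j 4 with hj | hj
    · obtain rfl | rfl : j = 2 ∨ j = 3 := by omega
      · obtain rfl : i = 2 := by omega
        norm_num [v2, v3]
      · obtain rfl | rfl : i = 2 ∨ i = 3 := by omega
        · norm_num [v2, v3, v4]
        · norm_num [v3, v5]
    · have hi0 : 0 < eeB i := mul_pos (eeBounds_castpos h4 _) (pow_pos hp _)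
      have hj0 : 0 < eeB j := mul_pos (eeBounds_castpos h4 _) (pow_pos hp _)
      have b := (eeBounds_mem h1 h2 4 rfl j (by omega)).2
      rw [w5] at b
      apply eeBounds_prod (5 / 6) i j 1 (i + j - 1) (by omega)
      rw [pow_one]
      push_cast
      have h2u : (Real.pi / 2) ^ 2 ≤ (15707965 / 10000000 : ℝ) ^ 2 :=
        pow_le_pow_left₀ hp.le hhi.le 2
      have h3u : (Real.pi / 2) ^ 3 ≤ (15707965 / 10000000 : ℝ) ^ 3 :=
        pow_le_pow_left₀ hp.le hhi.le 3
      rcases Nat.lt_or_ge i 4 with hi4 | hi4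
      · obtain rfl | rfl : i = 2 ∨ i = 3 := by omega
        · have c := (eeBounds_mem h1 h2 4 rfl (2 + j - 1) (by omega)).1
          rw [w4] at c
          have hf : 0 < (Real.pi / 2) ^ 5 := by positivity
          have d : 1 / 2 * (Real.pi / 2) ^ 2 * (2 / 15 * (Real.pi / 2) ^ 5) ≤
              5 / 6 * (Real.pi / 2) * (5 / 24 * (Real.pi / 2) ^ 4) := by
            have e1 : 1 / 2 * (Real.pi / 2) ^ 2 * (2 / 15 * (Real.pi / 2) ^ 5) =
              1 / 15 * (Real.pi / 2) ^ 2 * (Real.pi / 2) ^ 5 := by ring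
            have e2 : 5 / 6 * (Real.pi / 2) * (5 / 24 * (Real.pi / 2) ^ 4) =
              25 / 144 * (Real.pi / 2) ^ 5 := by ring
            rw [e1, e2]
            apply mul_le_mul_of_nonneg_right _ hf.le
            norm_num at h2u ⊢
            linarith
          rw [w2]
          have b' := mul_le_mul_of_nonneg_left b
            (by positivity : 0 ≤ 1 / 2 * (Real.pi / 2) ^ 2)
          have c' := mul_le_mul_of_nonneg_left c (by positivity : 0 ≤ 5 / 6 * (Real.pi / 2))
          exact b'.trans (d.trans c')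
        · have c := (eeBounds_mem h1 h2 6 rfl (3 + j - 1) (by omega)).1
          rw [w6] at c
          have hf : 0 < (Real.pi / 2) ^ 7 := by positivity
          have d : 1 / 3 * (Real.pi / 2) ^ 3 * (2 / 15 * (Real.pi / 2) ^ 5) ≤
              5 / 6 * (Real.pi / 2) * (61 / 720 * (Real.pi / 2) ^ 6) := by
            have e1 : 1 / 3 * (Real.pi / 2) ^ 3 * (2 / 15 * (Real.pi / 2) ^ 5) =
              2 / 45 * (Real.pi / 2) * (Real.pi / 2) ^ 7 := by ring
            have e2 : 5 / 6 * (Real.pi / 2) * (61 / 720 * (Real.pi / 2) ^ 6) =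
              61 / 864 * (Real.pi / 2) ^ 7 := by ring
            rw [e1, e2]
            apply mul_le_mul_of_nonneg_right _ hf.le
            norm_num at hhi ⊢
            linarith
          rw [w3]
          have b' := mul_le_mul_of_nonneg_left b
            (by positivity : 0 ≤ 1 / 3 * (Real.pi / 2) ^ 3)
          have c' := mul_le_mul_of_nonneg_left c (by positivity : 0 ≤ 5 / 6 * (Real.pi / 2))
          exact b'.trans (d.trans c')
      · have a := (eeBounds_mem h1 h2 4 rfl i (by omega)).2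
        rw [w5] at a
        have c := (eeBounds_mem h1 h2 6 rfl (i + j - 1) (by omega)).1
        rw [w6] at c
        have hf : 0 < (Real.pi / 2) ^ 7 := by positivity
        have d : 2 / 15 * (Real.pi / 2) ^ 5 * (2 / 15 * (Real.pi / 2) ^ 5) ≤
            5 / 6 * (Real.pi / 2) * (61 / 720 * (Real.pi / 2) ^ 6) := by
          have e1 : 2 / 15 * (Real.pi / 2) ^ 5 * (2 / 15 * (Real.pi / 2) ^ 5) =
            4 / 225 * (Real.pi / 2) ^ 3 * (Real.pi / 2) ^ 7 := by ring
          have e2 : 5 / 6 * (Real.pi / 2) * (61 / 720 * (Real.pi / 2) ^ 6) =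
            61 / 864 * (Real.pi / 2) ^ 7 := by ring
          rw [e1, e2]
          apply mul_le_mul_of_nonneg_right _ hf.le
          norm_num at h3u ⊢
          linarith
        have ab := mul_le_mul a b hj0.le (by positivity)
        have c' := mul_le_mul_of_nonneg_left c (by positivity : 0 ≤ 5 / 6 * (Real.pi / 2))
        exact ab.trans (d.trans c')
  intro i j hi hj
  rcases Nat.le_total i j with h | h
  · exact main i j hi h
  · have := main j i hj h
    rw [mul_comm, add_comm j i] at this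
    exact this

end Pool.Agent.Lib.MP_c22e22_co.V
end
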