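import Pool.Agent.Lib.MP_c22e22_co.V.Defs
import Pool.Agent.Lib.MP_c22e22_co.V.Props

section

/-!
# Soundness of the packed comparison
-/

namespace Pool.Agent.Lib.MP_c22e22_co.V

open Finset

/-- land of two numbers split at bit `c` -/
theorem fchk_land_split (c x y X Y : ℕ) (hx : x < 2 ^ c) (hy : y < 2 ^ c) :
    Nat.land (x + 2 ^ c * X) (y + 2 ^ c * Y) = Nat.land x y + 2 ^ c * Nat.land X Y := by
  have hxy : x &&& y < 2 ^ c := Nat.and_lt_two_pow x hy
  change (x + 2 ^ c * X) &&& (y + 2 ^ c * Y) = (x &&& y) + 2 ^ c * (X &&& Y)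
  apply Nat.eq_of_testBit_eq
  intro i
  rw [Nat.testBit_and, add_comm x, add_comm y, add_comm (x &&& y)]
  rw [Nat.testBit_two_pow_mul_add _ hx, Nat.testBit_two_pow_mul_add _ hy,
    Nat.testBit_two_pow_mul_add _ hxy]
  split_ifs with h
  · rw [Nat.testBit_and]
  · rw [Nat.testBit_and]

theorem fchk_pack_lt (B N : ℕ) (f : ℕ → ℕ) (hf : ∀ i < N, f i < B) :
    ∑ j ∈ range N, f j * B ^ j < B ^ N := by
  induction N with
  | zero => simp
  | succ N ih =>
    rw [Finset.sum_range_succ]
    have h1 := ih (fun i hi => hf i (by omega))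
    have h2 : f N + 1 ≤ B := hf N (by omega)
    have h3 : (f N + 1) * B ^ N ≤ B * B ^ N := Nat.mul_le_mul_right _ h2
    rw [pow_succ']
    linarith [h3, add_mul (f N) 1 (B ^ N)]

theorem digit (b N i : ℕ) (f : ℕ → ℕ) (hf : ∀ i < N, f i < 2 ^ (b + 1)) (hi : i < N) :
    (∑ j ∈ range N, f j * (2 ^ (b + 1)) ^ j) / 2 ^ ((b + 1) * i) % 2 ^ (b + 1) = f i := by
  rw [pow_mul]
  set B := 2 ^ (b + 1) with hB
  have hBpos : 0 < B := by positivity
  obtain ⟨d, rfl⟩ : ∃ d, N = i + 1 + d := ⟨N - (i + 1), by omega⟩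
  rw [Finset.sum_range_add, Finset.sum_range_succ]
  have h1 : ∑ j ∈ range i, f j * B ^ j < B ^ i :=
    fchk_pack_lt B i f (fun j hj => hf j (by omega))
  have h2 : ∑ x ∈ range d, f (i + 1 + x) * B ^ (i + 1 + x)
      = B ^ i * (B * ∑ x ∈ range d, f (i + 1 + x) * B ^ x) := by
    rw [Finset.mul_sum, Finset.mul_sum]
    apply Finset.sum_congr rfl
    intro x _
    rw [pow_add, pow_add]; ring
  rw [h2, show ∑ j ∈ range i, f j * B ^ j + f i * B ^ i
      + B ^ i * (B * ∑ x ∈ range d, f (i + 1 + x) * B ^ x)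
      = ∑ j ∈ range i, f j * B ^ j
        + B ^ i * (f i + B * ∑ x ∈ range d, f (i + 1 + x) * B ^ x) by ring]
  rw [Nat.add_mul_div_left _ _ (by positivity), Nat.div_eq_of_lt h1, zero_add,
    Nat.add_mul_mod_self_left, Nat.mod_eq_of_lt (hf i (by omega))]

theorem fchk_land_pack (c N : ℕ) : ∀ (x y : ℕ → ℕ), (∀ i < N, x i < 2 ^ c) →
    (∀ i < N, y i < 2 ^ c) →
    Nat.land (∑ i ∈ range N, x i * (2 ^ c) ^ i) (∑ i ∈ range N, y i * (2 ^ c) ^ i)
      = ∑ i ∈ range N, Nat.land (x i) (y i) * (2 ^ c) ^ i := by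
  induction N with
  | zero => intro x y _ _; simp
  | succ N ih =>
    intro x y hx hy
    have e : ∀ g : ℕ → ℕ, ∑ i ∈ range (N + 1), g i * (2 ^ c) ^ i
        = g 0 + 2 ^ c * ∑ i ∈ range N, g (i + 1) * (2 ^ c) ^ i := by
      intro g
      rw [Finset.sum_range_succ', Finset.mul_sum, pow_zero, mul_one, add_comm]
      congr 1
      apply Finset.sum_congr rfl
      intro i _
      rw [pow_succ]; ring
    rw [e x, e y, e (fun i => Nat.land (x i) (y i)),
      fchk_land_split c _ _ _ _ (hx 0 (by omega)) (hy 0 (by omega)),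
      ih (fun i => x (i + 1)) (fun i => y (i + 1)) (fun i hi => hx (i + 1) (by omega))
        (fun i hi => hy (i + 1) (by omega))]

theorem fchk_ones (b k : ℕ) : ones (b + 1) k = ∑ i ∈ range (2 ^ k), (2 ^ (b + 1)) ^ i := by
  change (2 ^ ((b + 1) * 2 ^ k) - 1) / (2 ^ (b + 1) - 1) = _
  have hB : 2 ≤ 2 ^ (b + 1) := by
    calc 2 = 2 ^ 1 := by norm_num
      _ ≤ 2 ^ (b + 1) := Nat.pow_le_pow_right (by norm_num) (by omega)
  rw [pow_mul, Nat.geomSum_eq hB]

theorem fchk_land_pow (b x : ℕ) (hx : x < 2 ^ (b + 1)) (h : Nat.land x (2 ^ b) = 0) :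
    x < 2 ^ b := by
  by_contra hcon
  rw [not_lt] at hcon
  obtain ⟨r, rfl⟩ : ∃ r, x = 2 ^ b + r := ⟨x - 2 ^ b, by omega⟩
  have hr : r < 2 ^ b := by rw [pow_succ] at hx; omega
  have h2 : (2 ^ b + r).testBit b = true := by
    have := Nat.testBit_two_pow_mul_add 1 hr b
    rw [mul_one] at this
    rw [this]
    simp
  have h3 : ((2 ^ b + r) &&& (2 ^ b)).testBit b = true := by
    rw [Nat.testBit_and, h2]
    simp
  change (2 ^ b + r) &&& (2 ^ b) = 0 at h
  rw [h] at h3
  simp at h3

theorem chk_sound (b k M : ℕ) (f : ℕ → ℕ) (hf : ∀ i < 2 ^ k, f i < 2 ^ b) (hM : M < 2 ^ b)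
    (h : chk (∑ i ∈ range (2 ^ k), f i * (2 ^ (b + 1)) ^ i) b k M = true) :
    ∀ i < 2 ^ k, f i ≤ M := by
  have h1 : Nat.land ((∑ i ∈ range (2 ^ k), f i * (2 ^ (b + 1)) ^ i)
      + (2 ^ b - 1 - M) * ones (b + 1) k) (2 ^ b * ones (b + 1) k) = 0 := by
    unfold chk at h
    exact Nat.eq_of_beq_eq_true h
  rw [fchk_ones] at h1
  have e1 : (∑ i ∈ range (2 ^ k), f i * (2 ^ (b + 1)) ^ i)
      + (2 ^ b - 1 - M) * ∑ i ∈ range (2 ^ k), (2 ^ (b + 1)) ^ i
      = ∑ i ∈ range (2 ^ k), (f i + (2 ^ b - 1 - M)) * (2 ^ (b + 1)) ^ i := by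
    rw [Finset.mul_sum, ← Finset.sum_add_distrib]
    apply Finset.sum_congr rfl
    intro i _
    ring
  have e2 : 2 ^ b * ∑ i ∈ range (2 ^ k), (2 ^ (b + 1)) ^ i
      = ∑ i ∈ range (2 ^ k), (2 ^ b) * (2 ^ (b + 1)) ^ i := by
    rw [Finset.mul_sum]
  have hx : ∀ i < 2 ^ k, f i + (2 ^ b - 1 - M) < 2 ^ (b + 1) := by
    intro i hi
    have := hf i hi
    rw [pow_succ]; omega
  rw [e1, e2, fchk_land_pack (b + 1) (2 ^ k) (fun i => f i + (2 ^ b - 1 - M)) (fun _ => 2 ^ b) hx
    (fun i _ => Nat.pow_lt_pow_right (by norm_num) (by omega))] at h1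
  intro i hi
  have h2 := (Finset.sum_eq_zero_iff.mp h1) i (Finset.mem_range.mpr hi)
  have h3 : Nat.land (f i + (2 ^ b - 1 - M)) (2 ^ b) = 0 := by
    rcases Nat.mul_eq_zero.mp h2 with h3 | h3
    · exact h3
    · exact absurd h3 (by positivity)
  have h4 := fchk_land_pow b _ (hx i hi) h3
  omega

end Pool.Agent.Lib.MP_c22e22_co.V
end

section

/-!
# Kernel evaluations of the finite check
-/

namespace Pool.Agent.Lib.MP_c22e22_co.V

set_option maxRecDepth 100000 in
theorem fev_0 : fchk 0 3 1 = true := by decide +kernel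

set_option maxRecDepth 100000 in
theorem fev_1 : fchk 1 4 2 = true := by decide +kernel

set_option maxRecDepth 100000 in
theorem fev_2 : fchk 2 5 3 = true := by decide +kernel

set_option maxRecDepth 100000 in
theorem fev_3 : fchk 3 7 6 = true := by decide +kernel

set_option maxRecDepth 100000 in
theorem fev_4 : fchk 4 8 11 = true := by decide +kernel

set_option maxRecDepth 100000 in
theorem fev_5 : fchk 5 10 24 = true := by decide +kernel

set_option maxRecDepth 100000 in
theorem fev_6 : fchk 6 12 51 = true := by decide +kernel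

set_option maxRecDepth 100000 in
theorem fev_7 : fchk 7 14 120 = true := by decide +kernel

set_option maxRecDepth 100000 in
theorem fev_8 : fchk 8 16 283 = true := by decide +kernel

set_option maxRecDepth 100000 in
theorem fev_9 : fchk 9 18 716 = true := by decide +kernel

set_option maxRecDepth 100000 in
theorem fev_10 : fchk 10 20 1833 = true := by decide +kernel

set_option maxRecDepth 100000 in
theorem fev_11 : fchk 11 22 4948 = true := by decide +kernel

set_option maxRecDepth 100000 in
theorem fev_12 : fchk 12 24 13561 = true := by decide +kernel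

set_option maxRecDepth 100000 in
theorem fev_13 : fchk 13 26 38788 = true := by decide +kernel

set_option maxRecDepth 100000 in
theorem fev_14 : fchk 14 28 112745 = true := by decide +kernel

set_option maxRecDepth 100000 in
theorem fev_15 : fchk 15 30 339676 = true := by decide +kernel

set_option maxRecDepth 100000 in
theorem fev_16 : fchk 16 33 1039929 = true := by decide +kernel

end Pool.Agent.Lib.MP_c22e22_co.V
end

section

/-!
# Words without `d` and block maps
-/

open MvPolynomial Finset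

namespace Pool.Agent.Lib.MP_c22e22_co.V

theorem block_card_succ {k n : ℕ} (β : Fin (n + 1) → Fin k) (i : Fin k) :
    #{x | β x = i} = (if β 0 = i then 1 else 0) + #{x : Fin n | β x.succ = i} := by
  rw [Finset.card_filter, Fin.sum_univ_succ, Finset.card_filter]

theorem block_mono_cons {k n : ℕ} (b : Fin k) (β : Fin n → Fin k) (hb : ∀ x, b ≤ β x)
    (hβ : Monotone β) : Monotone (Fin.cons b β : Fin (n + 1) → Fin k) := by
  intro x y hxy
  induction x using Fin.cases with
  | zero =>
    induction y using Fin.cases with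
    | zero => simp
    | succ y => simpa using hb y
  | succ x =>
    induction y using Fin.cases with
    | zero => exact absurd hxy (by simp [Fin.le_def])
    | succ y =>
      simp only [Fin.cons_succ]
      exact hβ (by simpa using hxy)

theorem block_gen {A : Type*} [CommRing A] (h : ℕ → A) : ∀ w : List Lk, Lk.d ∉ w → ∀ m : ℕ,
    ∃ (k : ℕ) (β : Fin (w.length + 1) → Fin (k + 1)), Monotone β ∧ β 0 = 0 ∧
      (∀ (i : ℕ) (hi : i + 1 < w.length + 1),
        β ⟨i + 1, hi⟩ = β ⟨i, by omega⟩ ↔ w[i]? = some Lk.a) ∧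
      ∏ i, h (#{x | β x = i} + if i = 0 then m else 0) = rib h (m + 1) w := by
  intro w
  induction w with
  | nil =>
    intro _ m
    refine ⟨0, fun _ => 0, fun _ _ _ => le_rfl, rfl, ?_, ?_⟩
    · intro i hi
      simp at hi
    · simp [rib, add_comm]
  | cons c w ih =>
    intro hd m
    have hw : Lk.d ∉ w := fun hh => hd (List.mem_cons_of_mem _ hh)
    cases c with
    | d => exact absurd List.mem_cons_self hd
    | a =>
      obtain ⟨k, β, hmono, h0, hadj, hprod⟩ := ih hw (m + 1)
      refine ⟨k, (Fin.cons 0 β : Fin (w.length + 1 + 1) → Fin (k + 1)),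
        block_mono_cons 0 β (fun x => Fin.zero_le _) hmono, rfl, ?_, ?_⟩
      · intro i hi
        cases i with
        | zero =>
          have h1 : (⟨0 + 1, hi⟩ : Fin (w.length + 1 + 1)) = Fin.succ 0 := rfl
          have h2 : (⟨0, by omega⟩ : Fin (w.length + 1 + 1)) = 0 := rfl
          rw [h1, h2, Fin.cons_succ, Fin.cons_zero, h0]
          simp
        | succ i =>
          have hi' : i + 1 < w.length + 1 := by
            simpa using hi
          have h1 : (⟨i + 1 + 1, hi⟩ : Fin (w.length + 1 + 1)) = Fin.succ ⟨i + 1, hi'⟩ := rfl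
          have h2 : (⟨i + 1, by omega⟩ : Fin (w.length + 1 + 1)) =
            Fin.succ ⟨i, by omega⟩ := rfl
          rw [h1, h2, Fin.cons_succ, Fin.cons_succ, hadj i hi']
          simp
      · rw [rib, ← hprod]
        refine Finset.prod_congr rfl fun i _ => ?_
        congr 1
        have := block_card_succ (Fin.cons 0 β : Fin (w.length + 1 + 1) → Fin (k + 1)) i
        simp only [Fin.cons_zero, Fin.cons_succ] at this
        erw [this]
        by_cases hi : i = 0
        · subst hi
          simp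
          omega
        · have hi' : ¬ (0 = i) := fun hh => hi hh.symm
          simp [hi, hi']
    | s =>
      obtain ⟨k, β, hmono, h0, hadj, hprod⟩ := ih hw 0
      refine ⟨k + 1, (Fin.cons 0 (fun x => (β x).succ) : Fin (w.length + 1 + 1) → Fin (k + 1 + 1)),
        block_mono_cons 0 _ (fun x => Fin.zero_le _)
          (fun x y hxy => Fin.succ_le_succ_iff.mpr (hmono hxy)), rfl, ?_, ?_⟩
      · intro i hi
        cases i with
        | zero =>
          have h1 : (⟨0 + 1, hi⟩ : Fin (w.length + 1 + 1)) = Fin.succ 0 := rfl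
          have h2 : (⟨0, by omega⟩ : Fin (w.length + 1 + 1)) = 0 := rfl
          rw [h1, h2, Fin.cons_succ, Fin.cons_zero]
          simp
        | succ i =>
          have hi' : i + 1 < w.length + 1 := by
            simpa using hi
          have h1 : (⟨i + 1 + 1, hi⟩ : Fin (w.length + 1 + 1)) = Fin.succ ⟨i + 1, hi'⟩ := rfl
          have h2 : (⟨i + 1, by omega⟩ : Fin (w.length + 1 + 1)) =
            Fin.succ ⟨i, by omega⟩ := rfl
          rw [h1, h2, Fin.cons_succ, Fin.cons_succ, Fin.succ_inj, hadj i hi']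
          simp
      · rw [rib, ← hprod, Fin.prod_univ_succ]
        congr 1
        · congr 1
          have := block_card_succ
            (Fin.cons 0 (fun x => (β x).succ) : Fin (w.length + 1 + 1) → Fin (k + 1 + 1)) 0
          simp only [Fin.cons_zero, Fin.cons_succ] at this
          erw [this]
          simp [add_comm]
        · refine Finset.prod_congr rfl fun i _ => ?_
          congr 1
          have := block_card_succ
            (Fin.cons 0 (fun x => (β x).succ) : Fin (w.length + 1 + 1) → Fin (k + 1 + 1)) i.succ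
          simp only [Fin.cons_zero, Fin.cons_succ] at this
          erw [this]
          have hi' : ¬ ((0 : Fin (k + 1 + 1)) = i.succ) := (Fin.succ_ne_zero i).symm
          simp [hi', Fin.succ_ne_zero]

theorem p_block : P_block := by
  intro w hd
  obtain ⟨k, β, hmono, _, hadj, hprod⟩ := block_gen hh w hd 0
  refine ⟨k + 1, β, hmono, hadj, ?_⟩
  simpa using hprod

end Pool.Agent.Lib.MP_c22e22_co.V
end

section

open MvPolynomial Finset

namespace Pool.Agent.Lib.MP_c22e22_co.V

/-- the condition of one letter at position `i` -/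
def CntRel_cond (n : ℕ) (i : ℕ) (x : Lk) (σ : Equiv.Perm (Fin n)) : Prop :=
  ∀ h : i + 1 < n, (x = Lk.a → σ ⟨i, by omega⟩ < σ ⟨i + 1, h⟩) ∧
    (x = Lk.d → σ ⟨i + 1, h⟩ < σ ⟨i, by omega⟩)

theorem CntRel_get_ne (u v : List Lk) (x y : Lk) (i : ℕ) (hi : i ≠ u.length) :
    (u ++ x :: v)[i]? = (u ++ y :: v)[i]? := by
  rcases lt_or_gt_of_ne hi with h | h
  · rw [List.getElem?_append_left h, List.getElem?_append_left h]
  · rw [List.getElem?_append_right h.le, List.getElem?_append_right h.le]
    obtain ⟨k, hk⟩ : ∃ k, i - u.length = k + 1 := ⟨i - u.length - 1, by omega⟩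
    rw [hk]; simp

theorem CntRel_get_eq (u v : List Lk) (x : Lk) :
    (u ++ x :: v)[u.length]? = some x := by simp

theorem CntRel_iff (n : ℕ) (u v : List Lk) (x : Lk) (σ : Equiv.Perm (Fin n)) :
    okk n (u ++ x :: v) σ ↔ okk n (u ++ .s :: v) σ ∧ CntRel_cond n u.length x σ := by
  constructor
  · intro h
    refine ⟨?_, ?_⟩
    · intro i hi
      by_cases hiu : i = u.length
      · subst hiu
        rw [CntRel_get_eq]
        refine ⟨fun h => ?_, fun h => ?_⟩ <;> cases h
      · rw [CntRel_get_ne u v .s x i hiu]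
        exact h i hi
    · intro hi
      have := h u.length hi
      rw [CntRel_get_eq] at this
      refine ⟨fun hx => this.1 (by rw [hx]), fun hx => this.2 (by rw [hx])⟩
  · rintro ⟨h1, h2⟩ i hi
    by_cases hiu : i = u.length
    · subst hiu
      rw [CntRel_get_eq]
      have := h2 hi
      refine ⟨fun h => this.1 (Option.some.inj h), fun h => this.2 (Option.some.inj h)⟩
    · rw [CntRel_get_ne u v x .s i hiu]
      exact h1 i hi

theorem p_cnt_rel : P_cnt_rel := by
  intro n u v hn
  unfold cnt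
  set S : Set (Equiv.Perm (Fin n)) := {σ | σ * σ = 1 ∧ okk n (u ++ .s :: v) σ} with hS
  set A : Set (Equiv.Perm (Fin n)) := {σ | σ * σ = 1 ∧ okk n (u ++ .a :: v) σ} with hA
  set D : Set (Equiv.Perm (Fin n)) := {σ | σ * σ = 1 ∧ okk n (u ++ .d :: v) σ} with hD
  have e : S = A ∪ D := by
    ext σ
    simp only [hS, hA, hD, Set.mem_union, Set.mem_ofPred_eq]
    rw [CntRel_iff n u v .a σ, CntRel_iff n u v .d σ]
    constructor
    · rintro ⟨h1, h2⟩
      have hne : σ ⟨u.length, by omega⟩ ≠ σ ⟨u.length + 1, hn⟩ := by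
        intro h
        have := σ.injective h
        simp at this
      rcases lt_or_gt_of_ne hne with h | h
      · left
        refine ⟨h1, h2, fun _ => ⟨fun _ => h, fun hx => by cases hx⟩⟩
      · right
        refine ⟨h1, h2, fun _ => ⟨fun hx => (by cases hx), fun _ => h⟩⟩
    · rintro (⟨h1, h2, _⟩ | ⟨h1, h2, _⟩)
      · exact ⟨h1, h2⟩
      · exact ⟨h1, h2⟩
  have dj : Disjoint A D := by
    rw [Set.disjoint_left]
    intro σ h1 h2
    simp only [hA, hD, Set.mem_ofPred_eq] at h1 h2
    rw [CntRel_iff] at h1 h2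
    exact absurd ((h1.2.2 hn).1 rfl) (not_lt.mpr ((h2.2.2 hn).2 rfl).le)
  have h1 : S.ncard = A.ncard + D.ncard := by
    rw [e, Set.ncard_union_eq dj (Set.toFinite _) (Set.toFinite _)]
  have c1 : Nat.card {σ : Equiv.Perm (Fin n) // σ * σ = 1 ∧ okk n (u ++ .s :: v) σ} = S.ncard := rfl
  have c2 : Nat.card {σ : Equiv.Perm (Fin n) // σ * σ = 1 ∧ okk n (u ++ .a :: v) σ} = A.ncard := rfl
  have c3 : Nat.card {σ : Equiv.Perm (Fin n) // σ * σ = 1 ∧ okk n (u ++ .d :: v) σ} = D.ncard := rfl
  rw [c1, c2, c3, h1]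

theorem CntRel_incr {n k : ℕ} (w : List Lk) (_hw : w.length + 1 = n) (β : Fin n → Fin k)
    (hm : Monotone β)
    (hb : ∀ (i : ℕ) (h : i + 1 < n), β ⟨i + 1, h⟩ = β ⟨i, by omega⟩ ↔ w[i]? = some Lk.a)
    (hd : Lk.d ∉ w) (σ : Equiv.Perm (Fin n)) :
    okk n w σ ↔ ∀ x y, x < y → β x = β y → σ x < σ y := by
  constructor
  · intro h
    have key : ∀ (j i : ℕ) (hij : i + (j + 1) < n),
        β ⟨i, by omega⟩ = β ⟨i + (j + 1), hij⟩ → σ ⟨i, by omega⟩ < σ ⟨i + (j + 1), hij⟩ := by
      intro j
      induction j with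
      | zero =>
        intro i hij he
        have := (hb i hij).mp he.symm
        exact (h i hij).1 this
      | succ j ih =>
        intro i hij he
        have hij' : i + (j + 1) < n := by omega
        have e1 : β ⟨i, by omega⟩ ≤ β ⟨i + (j + 1), hij'⟩ := hm (by
          rw [Fin.mk_le_mk]; omega)
        have e2 : β ⟨i + (j + 1), hij'⟩ ≤ β ⟨i + (j + 1 + 1), hij⟩ := hm (by
          rw [Fin.mk_le_mk]; omega)
        have e3 : β ⟨i, by omega⟩ = β ⟨i + (j + 1), hij'⟩ := le_antisymm e1 (by rw [he]; exact e2)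
        have e4 : β ⟨i + (j + 1) + 1, hij⟩ = β ⟨i + (j + 1), by omega⟩ := by
          rw [← e3]; exact he.symm
        have := (hb (i + (j + 1)) hij).mp e4
        exact (ih i hij' e3).trans ((h (i + (j + 1)) hij).1 this)
    rintro ⟨x, hx⟩ ⟨y, hy⟩ hxy he
    rw [Fin.mk_lt_mk] at hxy
    obtain ⟨j, rfl⟩ : ∃ j, y = x + (j + 1) := ⟨y - x - 1, by omega⟩
    exact key j x hy he
  · intro h i hi
    refine ⟨fun ha => ?_, fun hdd => ?_⟩
    · exact h _ _ (by rw [Fin.mk_lt_mk]; omega) ((hb i hi).mpr ha).symm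
    · exact absurd (List.mem_of_getElem? hdd) hd

theorem p_cnt_eq (hA : P_invA) (hB : P_invB) (hN : P_NM_eq) (hb : P_block) : P_cnt_eq := by
  refine uniq (fun w => (cnt (w.length + 1) w : ℚ)) (fun w => E (rib hh 1 w)) ?_ ?_ ?_
  · intro u v
    have h := p_cnt_rel (u.length + v.length + 2) u v (by omega)
    have l1 : ∀ x : Lk, (u ++ x :: v).length + 1 = u.length + v.length + 2 := by
      intro x; simp; ring
    simp only [l1]
    exact_mod_cast h
  · intro u v
    rw [← map_add, rib_free]
  · intro w hw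
    obtain ⟨k, β, hm, hβ, hp⟩ := hb w hw
    have e1 : cnt (w.length + 1) w = CF β := by
      rw [← hA (w.length + 1) k β hm]
      unfold cnt
      congr 1
      apply congrArg
      funext σ
      rw [CntRel_incr w rfl β hm hβ hw σ]
    show (cnt (w.length + 1) w : ℚ) = E (rib hh 1 w)
    rw [e1, hB _ _ β hm, hN, hp]

theorem cnt_le (n : ℕ) (w : List Lk) : cnt n w ≤ cnt n (List.replicate (n - 1) Lk.s) := by
  unfold cnt
  apply Nat.card_mono (Set.toFinite _)
  rintro σ ⟨h1, _⟩
  refine ⟨h1, ?_⟩
  intro i hi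
  have : ∀ x : Lk, (List.replicate (n - 1) Lk.s)[i]? = some x → x = Lk.s := by
    intro x hx
    exact List.eq_of_mem_replicate (List.mem_of_getElem? hx)
  refine ⟨fun h => ?_, fun h => ?_⟩
  · cases this _ h
  · cases this _ h

end Pool.Agent.Lib.MP_c22e22_co.V
end

section

open MvPolynomial Finset

namespace Pool.Agent.Lib.MP_c22e22_co.V

theorem ddrib_hh_zero : hh 0 = 1 := by
  simp [hh, cc]

theorem ddrib_rib_rep {A : Type*} [CommRing A] (h : ℕ → A) : ∀ k m : ℕ,
    rib h m (List.replicate k Lk.a) = h (m + k) := by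
  intro k
  induction k with
  | zero => intro m; simp [rib]
  | succ k ih =>
    intro m
    rw [List.replicate_succ, rib, ih, add_right_comm, add_assoc]

theorem ddrib_eat_rep : ∀ j i : ℕ,
    eat j (List.replicate i Lk.a) = if j = i then some (1, []) else none := by
  intro j
  induction j with
  | zero =>
    intro i
    cases i with
    | zero => simp [eat]
    | succ i => simp [List.replicate_succ, eat]
  | succ j ih =>
    intro i
    cases i with
    | zero => simp [eat]
    | succ i => simp [List.replicate_succ, eat, ih]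

theorem ddrib_win_rep (l : ℕ) (hl : 1 ≤ l) : ∀ k : ℕ,
    win l (List.replicate k Lk.a) =
      if l ≤ k then [((1 : ℚ), List.replicate (k - l) Lk.a)] else [] := by
  intro k
  induction k with
  | zero =>
    have : ¬ l ≤ 0 := by omega
    simp [win, this]
  | succ k ih =>
    rw [List.replicate_succ, win, ih, ddrib_eat_rep]
    rcases lt_trichotomy l (k + 1) with h | h | h
    · have h1 : ¬ (l - 1 = k) := by omega
      have h2 : l ≤ k := by omega
      have h3 : l ≤ k + 1 := by omega
      have h4 : k + 1 - l = (k - l) + 1 := by omega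
      simp [h1, h2, h3, h4, List.replicate_succ]
    · have h1 : l - 1 = k := by omega
      have h2 : ¬ l ≤ k := by omega
      have h3 : l ≤ k + 1 := by omega
      have h4 : k + 1 - l = 0 := by omega
      simp [h1, h2, h3, h4]
    · have h1 : ¬ (l - 1 = k) := by omega
      have h2 : ¬ l ≤ k := by omega
      have h3 : ¬ l ≤ k + 1 := by omega
      simp [h1, h2, h3]

theorem ddrib_YY_rep (l : ℕ) (hl : 1 ≤ l) (k : ℕ) :
    YY l [] (Lk.s :: List.replicate k Lk.a) = if l ≤ k + 1 then hh (k + 1 - l) else 0 := by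
  rw [YY, win, ddrib_win_rep l hl, ddrib_eat_rep]
  rcases lt_trichotomy l (k + 1) with h | h | h
  · have h1 : ¬ (l - 1 = k) := by omega
    have h2 : l ≤ k := by omega
    have h3 : l ≤ k + 1 := by omega
    have h4 : k + 1 - l = 1 + (k - l) := by omega
    simp only [h1, h2, h3, h4, if_true, if_false, Option.toList_none, List.map_cons, List.map_nil,
      List.nil_append, List.sum_cons, List.sum_nil, one_smul, add_zero,
      reduceCtorEq]
    rw [rib_zero_s hh ddrib_hh_zero, ddrib_rib_rep]
  · have h1 : l - 1 = k := by omega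
    have h2 : ¬ l ≤ k := by omega
    have h3 : l ≤ k + 1 := by omega
    have h4 : k + 1 - l = 0 := by omega
    simp only [h1, h2, h3, h4, if_true, if_false, Option.toList_some, List.map_cons, List.map_nil,
      List.nil_append, List.append_nil, List.sum_cons, List.sum_nil, one_smul, add_zero,
      reduceCtorEq, rib]
  · have h1 : ¬ (l - 1 = k) := by omega
    have h2 : ¬ l ≤ k := by omega
    have h3 : ¬ l ≤ k + 1 := by omega
    simp only [h1, h2, h3, if_false, Option.toList_none, List.map_nil,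
      List.nil_append, List.sum_nil, reduceCtorEq]

theorem ddrib_all_a (w : List Lk) (hd : Lk.d ∉ w) (hs : Lk.s ∉ w) :
    w = List.replicate w.length Lk.a := by
  rw [List.eq_replicate_iff]
  refine ⟨rfl, ?_⟩
  intro x hx
  cases x with
  | a => rfl
  | d => exact absurd hx hd
  | s => exact absurd hx hs

theorem ddrib_noD (h1 : P_DD_hh) (h3 : P_winstar) (l : ℕ) (hl : 1 ≤ l) : ∀ (n : ℕ)
    (w : List Lk), w.length ≤ n → Lk.d ∉ w → DD l (rib hh 1 w) = YY l [] (.s :: w) := by
  intro n
  induction n with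
  | zero =>
    intro w hw _
    have : w = [] := List.length_eq_zero_iff.mp (by omega)
    subst this
    have := ddrib_YY_rep l hl 0
    simp only [List.replicate_zero, zero_add] at this
    rw [this, rib, h1 l hl]
  | succ n ih =>
    intro w hw hd
    by_cases hs : Lk.s ∈ w
    · obtain ⟨u, v, rfl⟩ := List.append_of_mem hs
      have hlen : u.length + (v.length + 1) ≤ n + 1 := by
        simpa [List.length_append] using hw
      have hdu : Lk.d ∉ u := fun h => hd (List.mem_append_left _ h)
      have hdv : Lk.d ∉ v := fun h => hd (List.mem_append_right _ (List.mem_cons_of_mem _ h))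
      have eu := ih u (by omega) hdu
      have ev := ih v (by omega) hdv
      rw [rib_star, DD_mul, eu, ev]
      have := h3 l hl u v []
      rw [List.cons_append] at this
      rw [this, List.nil_append, rib_zero_s hh ddrib_hh_zero, rib_zero_s hh ddrib_hh_zero]
    · have hw2 := ddrib_all_a w hd hs
      rw [hw2, ddrib_rib_rep, h1 l hl, ddrib_YY_rep l hl, add_comm 1 w.length]

theorem p_DD_rib (h1 : P_DD_hh) (h2 : P_winfree) (h3 : P_winstar) : P_DD_rib := by
  intro l hl
  apply uniq
  · intro u v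
    rw [← DD_add, rib_free]
  · intro u v
    exact h2 l (.s :: u) v []
  · intro w hw
    exact ddrib_noD h1 h3 l hl w.length w le_rfl hw

end Pool.Agent.Lib.MP_c22e22_co.V
end

section

/-!
# Recursion for products of complete homogeneous elements, in list form
-/

open MvPolynomial Finset

namespace Pool.Agent.Lib.MP_c22e22_co.V

theorem elist_half (b : ℕ → ℚ) (m : ℕ) :
    ∑ j ∈ range m, (if 2 * (j + 1) ≤ m then b (2 * (j + 1)) else 0) =
      ∑ j ∈ range m, if (j + 1) % 2 = 0 then b (j + 1) else 0 := by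
  rw [← Finset.sum_filter, ← Finset.sum_filter]
  refine Finset.sum_nbij' (fun j => 2 * j + 1) (fun j => j / 2) ?_ ?_ ?_ ?_ ?_
  · intro j hj
    simp only [mem_filter, mem_range] at hj ⊢
    omega
  · intro j hj
    simp only [mem_filter, mem_range] at hj ⊢
    omega
  · intro j hj
    simp only [mem_filter, mem_range] at hj ⊢
    omega
  · intro j hj
    simp only [mem_filter, mem_range] at hj ⊢
    omega
  · intro j _
    congr 1

theorem elist_Icc (f : ℕ → ℚ) (m : ℕ) : ∑ j ∈ Icc 1 m, f j = ∑ j ∈ range m, f (j + 1) := by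
  induction m with
  | zero => simp
  | succ m ih => rw [Finset.sum_Icc_succ_top (by omega), ih, Finset.sum_range_succ]

theorem elist_DD_prod (h2 : P_DD_hh) (l : ℕ) (hl : 1 ≤ l) (r : List ℕ) :
    DD l ((r.map hh).prod) = ∑ i ∈ range r.length, if l ≤ r.getD i 0 then
      hh (r.getD i 0 - l) * ((r.eraseIdx i).map hh).prod else 0 := by
  induction r with
  | nil =>
    have h := DD_C l 1
    rw [map_one] at h
    simpa using h
  | cons x r ih =>
    rw [List.map_cons, List.prod_cons, DD_mul, h2 l hl, ih, List.length_cons,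
      Finset.sum_range_succ', mul_sum, add_comm]
    congr 1
    · refine sum_congr rfl fun i _ => ?_
      rw [List.getD_cons_succ, List.eraseIdx_cons_succ, List.map_cons, List.prod_cons]
      split_ifs
      · ring
      · rw [mul_zero]
    · rw [List.getD_cons_zero, List.eraseIdx_cons_zero]
      split_ifs
      · rfl
      · rw [zero_mul]

theorem elist_term (h2 : P_DD_hh) (m : ℕ) (r : List ℕ) (j : ℕ) (hj : j < m) :
    E (X (j + 1) * (hh (m - 1 - j) * (r.map hh).prod)) =
      (if (j + 1) % 2 = 1 then E (hh (m - (j + 1)) * (r.map hh).prod) else 0) +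
      (if 2 * (j + 1) ≤ m then E (hh (m - 2 * (j + 1)) * (r.map hh).prod) else 0) +
      ∑ i ∈ range r.length, if j + 1 ≤ r.getD i 0 then
        E (hh (m - (j + 1)) * (hh (r.getD i 0 - (j + 1)) * ((r.eraseIdx i).map hh).prod)) else 0 := by
  have e : m - 1 - j = m - (j + 1) := by omega
  rw [e, E_X_mul, DD_mul, h2 (j + 1) (by omega), elist_DD_prod h2 (j + 1) (by omega), map_add,
    mul_sum, map_sum, ← add_assoc]
  congr 1
  · congr 1
    by_cases h : 2 * (j + 1) ≤ m
    · rw [if_pos h, if_pos (show j + 1 ≤ m - (j + 1) by omega)]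
      congr 3
      omega
    · rw [if_neg h, if_neg (show ¬ j + 1 ≤ m - (j + 1) by omega), zero_mul, map_zero]
  · refine sum_congr rfl fun i _ => ?_
    split_ifs
    · rfl
    · rw [mul_zero, map_zero]

theorem p_E_list (h1 : P_hh_rec) (h2 : P_DD_hh) : P_E_list := by
  intro m r
  have e1 : (m : ℚ) * E (hh m * (r.map hh).prod) =
      ∑ j ∈ range m, E (X (j + 1) * (hh (m - 1 - j) * (r.map hh).prod)) := by
    rw [← smul_eq_mul, ← map_smul, ← smul_mul_assoc, h1 m, Finset.sum_mul, map_sum]
    exact sum_congr rfl fun j _ => by rw [mul_assoc]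
  rw [e1, sum_congr rfl fun j hj => elist_term h2 m r j (mem_range.1 hj), sum_add_distrib,
    sum_add_distrib, elist_half (fun t => E (hh (m - t) * (r.map hh).prod)) m, elist_Icc,
    sum_add_distrib, ← sum_add_distrib]
  congr 1
  refine sum_congr rfl fun j _ => ?_
  rcases Nat.mod_two_eq_zero_or_one (j + 1) with h | h
  · rw [if_neg (by omega), if_pos h, zero_add]
  · rw [if_pos h, if_neg (by omega), add_zero]

end Pool.Agent.Lib.MP_c22e22_co.V
end

section

open MvPolynomial Finset

namespace Pool.Agent.Lib.MP_c22e22_co.V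

/-- value of a word with closed blocks `μ` and open block `c` -/
noncomputable def QQ (μ : List ℕ) (c : ℕ) (w : List Lk) : ℚ :=
  E ((μ.map hh).prod * rib hh c w)

/-- packed value over all words of length `r` -/
noncomputable def PW (b : ℕ) : ℕ → List ℕ → ℕ → ℚ
  | 0, μ, c => E ((μ.map hh).prod * hh c)
  | r + 1, μ, c => PW b r μ (c + 1) +
      ((2 : ℚ) ^ b) ^ (2 ^ r) * (PW b r (c :: μ) 1 - PW b r μ (c + 1))

/-- the word with code `i` -/
def wd : ℕ → ℕ → List Lk
  | 0, _ => []
  | r + 1, i => if i < 2 ^ r then .a :: wd r i else .d :: wd r (i - 2 ^ r)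

theorem wd_length : ∀ r i, (wd r i).length = r
  | 0, _ => rfl
  | r + 1, i => by
    rw [wd]; split_ifs <;> simp [wd_length r]

theorem wd_noS : ∀ r i, NoS (wd r i)
  | 0, _ => by simp [wd, NoS]
  | r + 1, i => by
    have h := wd_noS r
    rw [wd]; split_ifs
    · intro hm; rw [List.mem_cons] at hm
      rcases hm with hm | hm
      · exact Lk.noConfusion hm
      · exact h _ hm
    · intro hm; rw [List.mem_cons] at hm
      rcases hm with hm | hm
      · exact Lk.noConfusion hm
      · exact h _ hm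

/-- every word without `s` has a code -/
theorem wd_surj : ∀ (w : List Lk), NoS w → ∃ i, i < 2 ^ w.length ∧ wd w.length i = w
  | [], _ => ⟨0, by simp, rfl⟩
  | x :: w, h => by
    have hs : NoS w := fun hm => h (List.mem_cons_of_mem _ hm)
    obtain ⟨i, hi, hw⟩ := wd_surj w hs
    cases x with
    | a =>
      refine ⟨i, ?_, ?_⟩
      · rw [List.length_cons, pow_succ]; omega
      · rw [List.length_cons, wd, if_pos hi, hw]
    | d =>
      refine ⟨i + 2 ^ w.length, ?_, ?_⟩
      · rw [List.length_cons, pow_succ]; omega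
      · rw [List.length_cons, wd, if_neg (by omega), Nat.add_sub_cancel, hw]
    | s => exact absurd List.mem_cons_self h

theorem QQ_a (μ : List ℕ) (c : ℕ) (w : List Lk) : QQ μ c (.a :: w) = QQ μ (c + 1) w := rfl

theorem QQ_d (μ : List ℕ) (c : ℕ) (w : List Lk) :
    QQ μ c (.d :: w) = QQ (c :: μ) 1 w - QQ μ (c + 1) w := by
  unfold QQ
  rw [← map_sub]
  congr 1
  rw [rib, List.map_cons, List.prod_cons]
  ring

theorem PW_eq (b r : ℕ) : ∀ (μ : List ℕ) (c : ℕ),
    PW b r μ c = ∑ i ∈ range (2 ^ r), QQ μ c (wd r i) * ((2 : ℚ) ^ b) ^ i := by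
  induction r with
  | zero => intro μ c; simp [PW, QQ, wd, rib]
  | succ r ih =>
    intro μ c
    rw [PW, ih, ih, pow_succ, mul_two, sum_range_add]
    have e1 : ∑ i ∈ range (2 ^ r), QQ μ c (wd (r + 1) i) * ((2 : ℚ) ^ b) ^ i =
        ∑ i ∈ range (2 ^ r), QQ μ (c + 1) (wd r i) * ((2 : ℚ) ^ b) ^ i := by
      refine sum_congr rfl fun i hi => ?_
      rw [mem_range] at hi
      rw [wd, if_pos hi, QQ_a]
    have e2 : ∑ i ∈ range (2 ^ r), QQ μ c (wd (r + 1) (2 ^ r + i)) * ((2 : ℚ) ^ b) ^ (2 ^ r + i) =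
        ((2 : ℚ) ^ b) ^ (2 ^ r) * (∑ i ∈ range (2 ^ r), QQ (c :: μ) 1 (wd r i) * ((2 : ℚ) ^ b) ^ i -
          ∑ i ∈ range (2 ^ r), QQ μ (c + 1) (wd r i) * ((2 : ℚ) ^ b) ^ i) := by
      rw [← sum_sub_distrib, mul_sum]
      refine sum_congr rfl fun i _ => ?_
      rw [wd, if_neg (by omega), Nat.add_sub_cancel_left, QQ_d, pow_add]
      ring
    rw [e1, e2]

theorem QQ_perm {μ ν : List ℕ} (h : μ.Perm ν) (c : ℕ) (w : List Lk) : QQ μ c w = QQ ν c w := by
  unfold QQ
  rw [(h.map hh).prod_eq]

theorem PW_perm (b r : ℕ) {μ ν : List ℕ} (h : μ.Perm ν) (c : ℕ) : PW b r μ c = PW b r ν c := by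
  rw [PW_eq, PW_eq]
  exact sum_congr rfl fun i _ => by rw [QQ_perm h]

/-- the word with closed blocks `μ`, open block `c`, then `w` -/
def pre : List ℕ → ℕ → List Lk → List Lk
  | [], c, w => List.replicate (c - 1) .a ++ w
  | p :: μ, c, w => List.replicate (p - 1) .a ++ .s :: pre μ c w

theorem rib_rep {A : Type*} [CommRing A] (h : ℕ → A) (k m : ℕ) (w : List Lk) :
    rib h m (List.replicate k .a ++ w) = rib h (m + k) w := by
  induction k generalizing m with
  | zero => simp
  | succ k ih =>
    rw [List.replicate_succ, List.cons_append, rib, ih]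
    congr 1; omega

theorem rib_pre (μ : List ℕ) (c : ℕ) (w : List Lk) (hμ : ∀ p ∈ μ, 1 ≤ p) (hc : 1 ≤ c) :
    rib hh 1 (pre μ c w) = (μ.map hh).prod * rib hh c w := by
  induction μ with
  | nil =>
    rw [pre, rib_rep]
    simp only [List.map_nil, List.prod_nil, one_mul]
    congr 1; omega
  | cons p μ ih =>
    have hp := hμ p List.mem_cons_self
    rw [pre, rib_rep, rib, ih fun q hq => hμ q (List.mem_cons_of_mem _ hq), List.map_cons,
      List.prod_cons, mul_assoc]
    congr 2; omega

theorem QQ_nat (h : P_cnt_eq) (μ : List ℕ) (c : ℕ) (w : List Lk) (hμ : ∀ p ∈ μ, 1 ≤ p)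
    (hc : 1 ≤ c) : ∃ N : ℕ, (N : ℚ) = QQ μ c w := by
  refine ⟨cnt ((pre μ c w).length + 1) (pre μ c w), ?_⟩
  rw [h, rib_pre μ c w hμ hc]
  rfl

theorem QQ_nonneg (h : P_cnt_eq) (μ : List ℕ) (c : ℕ) (w : List Lk) (hμ : ∀ p ∈ μ, 1 ≤ p)
    (hc : 1 ≤ c) : 0 ≤ QQ μ c w := by
  obtain ⟨N, hN⟩ := QQ_nat h μ c w hμ hc
  rw [← hN]; positivity

/-- the difference is nonnegative -/
theorem PW_sub_nonneg (h : P_cnt_eq) (b r : ℕ) (μ : List ℕ) (c : ℕ) (hμ : ∀ p ∈ μ, 1 ≤ p)
    (hc : 1 ≤ c) : 0 ≤ PW b r (c :: μ) 1 - PW b r μ (c + 1) := by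
  rw [PW_eq, PW_eq, ← sum_sub_distrib]
  refine sum_nonneg fun i _ => ?_
  rw [← sub_mul, ← QQ_d]
  exact mul_nonneg (QQ_nonneg h _ _ _ hμ hc) (by positivity)

/-- one step with natural numbers -/
theorem PW_step (h : P_cnt_eq) (b r : ℕ) (μ : List ℕ) (c : ℕ) (hμ : ∀ p ∈ μ, 1 ≤ p)
    (hc : 1 ≤ c) (v x B : ℕ) (hv : (v : ℚ) = PW b r μ (c + 1)) (hx : (x : ℚ) = PW b r (c :: μ) 1)
    (hB : B = (2 ^ b) ^ (2 ^ r)) :
    ((v + B * (x - v) : ℕ) : ℚ) = PW b (r + 1) μ c := by
  have h0 := PW_sub_nonneg h b r μ c hμ hc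
  rw [← hv, ← hx] at h0
  have hle : v ≤ x := by
    have : (v : ℚ) ≤ x := by linarith
    exact_mod_cast this
  rw [PW, ← hv, ← hx, hB]
  push_cast [Nat.cast_sub hle]
  ring

end Pool.Agent.Lib.MP_c22e22_co.V
end

section

open MvPolynomial Finset

namespace Pool.Agent.Lib.MP_c22e22_co.V

/-- positivity of `L` on `monomial μ 1 * cg k g m` -/
theorem GenBound_pos (L : MvPolynomial ℕ ℚ →ₗ[ℚ] ℚ) (hL : ∀ μ, 0 ≤ L (monomial μ 1)) :
    ∀ (k g m : ℕ) (μ : ℕ →₀ ℕ), 0 ≤ L (monomial μ 1 * cg k g m) := by
  have hpw : ∀ (g : ℕ) (μ : ℕ →₀ ℕ) (F : MvPolynomial ℕ ℚ),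
      L (monomial μ 1 * (pw g * F)) = (1 / (g : ℚ)) * L (monomial (μ + Finsupp.single g 1) 1 * F) := by
    intro g μ F
    have : monomial μ (1:ℚ) * (pw g * F) =
        (1 / (g : ℚ)) • (monomial (μ + Finsupp.single g 1) (1:ℚ) * F) := by
      have e : monomial (μ + Finsupp.single g 1) (1:ℚ) = monomial μ 1 * X g := by
        rw [X, monomial_mul, one_mul]
      rw [e, pw, smul_eq_C_mul]
      ring
    rw [this, map_smul, smul_eq_mul]
  intro k
  induction k with
  | zero =>
    intro g m μ
    cases m with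
    | zero =>
      have := hpw g μ 1
      rw [mul_one, mul_one] at this
      simp only [cg]
      rw [this]
      exact mul_nonneg (by positivity) (hL _)
    | succ m => simp [cg]
  | succ k ih =>
    intro g m μ
    cases m with
    | zero => simpa only [cg] using ih (g + 1) 0 μ
    | succ m =>
      simp only [cg]
      rw [mul_add, map_add, hpw]
      exact add_nonneg (mul_nonneg (by positivity) (ih _ _ _)) (ih _ _ _)

theorem GenBound_pw (L : MvPolynomial ℕ ℚ →ₗ[ℚ] ℚ) (g : ℕ) (μ : ℕ →₀ ℕ) (F : MvPolynomial ℕ ℚ) :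
    L (monomial μ 1 * (pw g * F)) =
      (1 / (g : ℚ)) * L (monomial (μ + Finsupp.single g 1) 1 * F) := by
  have : monomial μ (1:ℚ) * (pw g * F) =
      (1 / (g : ℚ)) • (monomial (μ + Finsupp.single g 1) (1:ℚ) * F) := by
    have e : monomial (μ + Finsupp.single g 1) (1:ℚ) = monomial μ 1 * X g := by
      rw [X, monomial_mul, one_mul]
    rw [e, pw, smul_eq_C_mul]
    ring
  rw [this, map_smul, smul_eq_mul]

theorem GenBound_main (L : MvPolynomial ℕ ℚ →ₗ[ℚ] ℚ) (hL : ∀ μ, 0 ≤ L (monomial μ 1)) :
    ∀ (w K : List Lk) (g m : ℕ) (β : ℚ) (μ : ℕ →₀ ℕ), 0 ≤ β →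
    (∀ K', K'.Sublist w → K'.length = m → K'.count .s = w.count .s → |bw (K ++ K')| ≤ β) →
    |L (monomial μ 1 * XX K g w m)| ≤ L (monomial μ 1 * cg w.length g m) * β := by
  intro w
  induction w with
  | nil =>
    intro K g m β μ hβ h
    cases m with
    | zero =>
      have h1 := h [] (List.Sublist.refl _) rfl rfl
      rw [List.append_nil] at h1
      simp only [XX, List.length_nil, cg]
      have e := GenBound_pw L g μ 1
      rw [mul_one, mul_one] at e
      rw [GenBound_pw, e, mul_comm (monomial (μ + Finsupp.single g 1) (1:ℚ)) (C _),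
        ← smul_eq_C_mul, map_smul, smul_eq_mul, abs_mul, abs_mul, abs_of_nonneg (hL _),
        abs_of_nonneg (show (0:ℚ) ≤ 1 / (g:ℚ) by positivity)]
      have h2 := hL (μ + Finsupp.single g 1)
      have h3 : (0:ℚ) ≤ 1 / (g:ℚ) * L (monomial (μ + Finsupp.single g 1) 1) :=
        mul_nonneg (by positivity) h2
      calc 1 / (g:ℚ) * (|bw K| * L (monomial (μ + Finsupp.single g 1) 1))
          = (1 / (g:ℚ) * L (monomial (μ + Finsupp.single g 1) 1)) * |bw K| := by ring
        _ ≤ _ := mul_le_mul_of_nonneg_left h1 h3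
    | succ m => simp [XX, cg]
  | cons x w ih =>
    intro K g m β μ hβ h
    have hsg : |sg x| ≤ 1 := by cases x <;> simp [sg]
    have hdrop : ∀ (g' m' : ℕ), (∀ K', K'.Sublist (x :: w) → K'.length = m' →
        K'.count .s = (x :: w).count .s → |bw (K ++ K')| ≤ β) →
        |L (monomial μ 1 * (sg x • XX K g' w m'))| ≤ L (monomial μ 1 * cg w.length g' m') * β := by
      intro g' m' h'
      have hp := GenBound_pos L hL w.length g' m' μ
      by_cases hx : x = .s
      · subst hx
        have : sg Lk.s = 0 := rfl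
        rw [this, zero_smul, mul_zero, map_zero, abs_zero]
        exact mul_nonneg hp hβ
      · rw [mul_smul_comm, map_smul, smul_eq_mul, abs_mul]
        have hh := ih K g' m' β μ hβ (by
          intro K' h1 h2 h3
          apply h' K' (h1.cons x) h2
          rw [h3, List.count_cons_of_ne hx])
        calc |sg x| * |L (monomial μ 1 * XX K g' w m')|
            ≤ 1 * |L (monomial μ 1 * XX K g' w m')| :=
              mul_le_mul_of_nonneg_right hsg (abs_nonneg _)
          _ = |L (monomial μ 1 * XX K g' w m')| := one_mul _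
          _ ≤ _ := hh
    cases m with
    | zero =>
      simp only [XX, List.length_cons, cg]
      exact hdrop (g + 1) 0 h
    | succ m =>
      simp only [XX, List.length_cons, cg]
      rw [mul_add, mul_add, map_add, map_add, add_mul]
      refine (abs_add_le _ _).trans (add_le_add ?_ (hdrop (g + 1) (m + 1) h))
      rw [GenBound_pw, GenBound_pw, abs_mul,
        abs_of_nonneg (show (0:ℚ) ≤ 1 / (g:ℚ) by positivity), mul_assoc]
      apply mul_le_mul_of_nonneg_left _ (by positivity)
      apply ih (K ++ [x]) 1 m β _ hβ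
      intro K' h1 h2 h3
      have := h (x :: K') (h1.cons_cons x) (by simp [h2]) (by
        rw [List.count_cons, List.count_cons, h3])
      simpa using this

theorem p_gen_bound : P_gen_bound := by
  intro L hL w K g m β hβ h
  have := GenBound_main L hL w K g m β 0 hβ h
  have e : (monomial (0 : ℕ →₀ ℕ) (1:ℚ)) = 1 := rfl
  rwa [e, one_mul, one_mul] at this

end Pool.Agent.Lib.MP_c22e22_co.V
end

section

open MvPolynomial Finset

namespace Pool.Agent.Lib.MP_c22e22_co.V

theorem XX_top_zero (w : List Lk) : ∀ (K : List Lk) (g m : ℕ), w.length < m → XX K g w m = 0 := by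
  induction w with
  | nil =>
    intro K g m h
    match m, h with
    | m + 1, _ => rfl
  | cons x w ih =>
    intro K g m h
    match m, h with
    | m + 1, h =>
      have h' : w.length < m := by simpa using h
      rw [XX, ih _ _ _ h', ih _ _ _ (by omega), mul_zero, smul_zero, add_zero]

theorem XS_nil (K : List Lk) (g : ℕ) : XS K g [] = pw g * C (bw K) := by
  simp [XS, XX]

theorem XS_cons (K : List Lk) (g : ℕ) (x : Lk) (w : List Lk) :
    XS K g (x :: w) = pw g * XS (K ++ [x]) 1 w + sg x • XS K (g + 1) w := by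
  have e1 : XS K g (x :: w) = ∑ m ∈ range (w.length + 1), (pw g * XX (K ++ [x]) 1 w m +
      sg x • XX K (g + 1) w (m + 1)) + sg x • XX K (g + 1) w 0 := by
    rw [XS, List.length_cons, Finset.sum_range_succ']
    simp only [XX]
  have e2 : XS K (g + 1) w = ∑ m ∈ range (w.length + 1), XX K (g + 1) w (m + 1) +
      XX K (g + 1) w 0 := by
    rw [← Finset.sum_range_succ' (fun m => XX K (g + 1) w m), Finset.sum_range_succ,
      XX_top_zero w K (g + 1) (w.length + 1) (by omega), add_zero, XS]
  rw [e1, e2, Finset.sum_add_distrib, XS, Finset.mul_sum, smul_add, Finset.smul_sum, add_assoc]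

theorem XS_K (K1 K2 : List Lk) (g : ℕ) (w : List Lk) :
    XS (K1 ++ .a :: K2) g w + XS (K1 ++ .d :: K2) g w = XS (K1 ++ .s :: K2) g w := by
  induction w generalizing K2 g with
  | nil =>
    rw [XS_nil, XS_nil, XS_nil, ← mul_add, ← C_add]
    have : bw (K1 ++ .a :: K2) + bw (K1 ++ .d :: K2) = bw (K1 ++ .s :: K2) := by
      exact rib_free _ _ _ _
    rw [this]
  | cons x w ih =>
    rw [XS_cons, XS_cons, XS_cons, ← ih (K2 := K2) (g := g + 1)]
    have h := ih (K2 := K2 ++ [x]) (g := 1)
    simp only [List.append_assoc, List.cons_append] at h ⊢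
    rw [← h, smul_add]
    ring

theorem p_starA : P_starA := by
  intro u v
  induction u with
  | nil =>
    intro K g
    rw [List.nil_append, List.nil_append, List.nil_append, XS_cons, XS_cons, XS_cons,
      ← XS_K K [] 1 v]
    simp only [sg, one_smul, neg_smul, zero_smul]
    ring
  | cons x u ih =>
    intro K g
    simp only [List.cons_append]
    rw [XS_cons, XS_cons, XS_cons, ← ih, ← ih, smul_add]
    ring

end Pool.Agent.Lib.MP_c22e22_co.V
end

section

/-!
# Top terms of the star expansion under `Eo`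
-/

set_option autoImplicit false

open MvPolynomial Finset

namespace Pool.Agent.Lib.MP_c22e22_co.V

theorem top_gt (w : List Lk) : ∀ (K : List Lk) (g m : ℕ), w.length < m → XX K g w m = 0 := by
  induction w with
  | nil =>
    intro K g m h
    cases m with
    | zero => simp at h
    | succ m => rfl
  | cons x w ih =>
    intro K g m h
    cases m with
    | zero => simp at h
    | succ m =>
      simp only [List.length_cons] at h
      rw [XX, ih _ _ _ (by omega), ih _ _ _ (by omega)]
      simp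

theorem top_len (w : List Lk) : ∀ (K : List Lk) (g : ℕ),
    XX K g w w.length = pw g * X 1 ^ w.length * C (bw (K ++ w)) := by
  induction w with
  | nil => intro K g; simp [XX]
  | cons x w ih =>
    intro K g
    rw [List.length_cons, XX, ih, top_gt w _ _ _ (by omega)]
    have h1 : pw 1 = X 1 := by simp [pw]
    rw [h1, List.append_assoc, List.singleton_append, smul_zero, add_zero]
    ring

theorem top_dvd (w : List Lk) : ∀ (K : List Lk) (x : Lk),
    (X 2 : MvPolynomial ℕ ℚ) ∣ XX K 1 (x :: w) w.length := by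
  have h2 : (X 2 : MvPolynomial ℕ ℚ) ∣ pw 2 := Dvd.intro_left _ rfl
  induction w with
  | nil =>
    intro K x
    simp only [List.length_nil, XX, smul_eq_C_mul]
    exact Dvd.dvd.mul_left (Dvd.dvd.mul_right h2 _) _
  | cons y w ih =>
    intro K x
    rw [List.length_cons, XX]
    refine dvd_add (Dvd.dvd.mul_left (ih _ _) _) ?_
    have h := top_len (y :: w) K (1 + 1)
    rw [List.length_cons] at h
    rw [h, smul_eq_C_mul]
    exact Dvd.dvd.mul_left (Dvd.dvd.mul_right (Dvd.dvd.mul_right h2 _) _) _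

theorem top_two (w : List Lk) : ∀ (K : List Lk) (x y : Lk), ∃ F : MvPolynomial ℕ ℚ,
    XX K 1 (x :: y :: w) w.length =
      pw 3 * X 1 ^ w.length * C (ds K (x :: y :: w)) + X 2 * F := by
  induction w with
  | nil =>
    intro K x y
    refine ⟨0, ?_⟩
    simp only [List.length_nil, XX, ds, smul_eq_C_mul, List.append_nil, add_zero, map_mul]
    ring
  | cons z w ih =>
    intro K x y
    obtain ⟨F, hF⟩ := ih (K ++ [x]) y z
    have h := top_len (z :: w) K (1 + 1 + 1)
    rw [List.length_cons] at h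
    refine ⟨X 1 * F + C (sg x) * (C (1 / 2) * XX (K ++ [y]) 1 (z :: w) w.length), ?_⟩
    have hd : ds K (x :: y :: z :: w) =
        sg x * sg y * bw (K ++ z :: w) + ds (K ++ [x]) (y :: z :: w) := rfl
    rw [List.length_cons, XX, hF, XX, h, hd]
    have h1 : pw 1 = X 1 := by simp [pw]
    have h2 : pw (1 + 1) = C (1 / 2) * X 2 := by simp [pw]
    rw [h1, h2]
    simp only [smul_eq_C_mul, map_add, map_mul]
    ring

theorem top_E_two (F : MvPolynomial ℕ ℚ) : Eo (X 2 * F) = 0 := by
  rw [Eo_X_mul 2 (by norm_num)]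
  simp

theorem top_E_one (n : ℕ) (c : ℚ) : Eo (X 1 ^ n * C c) = mom 1 n * c := by
  have h : (X 1 ^ n * C c : MvPolynomial ℕ ℚ) = monomial (Finsupp.single 1 n) c := by
    rw [mul_comm, C_mul_X_pow_eq_monomial]
  rw [h, Eo, Lf_monomial, Finsupp.prod_single_index (momo_zero 1), mul_comm]
  simp [momo]

theorem top_E_three (n : ℕ) (c : ℚ) : Eo (pw 3 * X 1 ^ n * C c) = mom 1 n / 3 * c := by
  have h : (pw 3 * X 1 ^ n * C c : MvPolynomial ℕ ℚ) =
      X 3 * (X 1 ^ n * C (1 / 3 * c)) := by
    simp only [pw, map_mul]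
    push_cast
    ring
  have hD : DD 3 (X 1 ^ n * C (1 / 3 * c) : MvPolynomial ℕ ℚ) = 0 := by
    rw [mul_comm, C_mul_X_pow_eq_monomial, DD, pderiv_monomial]
    simp
  rw [h, Eo_X_mul 3 (by norm_num), hD, top_E_one, map_zero, add_zero, if_pos (by norm_num)]
  ring

theorem p_Eo_top : P_Eo_top := by
  intro w
  have h1 : pw 1 = X 1 := by simp [pw]
  rw [top_len, h1, ← pow_succ', top_E_one, List.nil_append]

theorem p_Eo_top1 : P_Eo_top1 := by
  intro w hw
  cases w with
  | nil => simp at hw
  | cons x w =>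
    rw [List.length_cons, Nat.add_sub_cancel]
    obtain ⟨F, hF⟩ := top_dvd w [] x
    rw [hF, top_E_two]

theorem p_Eo_top2 : P_Eo_top2 := by
  intro w hw
  match w, hw with
  | x :: y :: w, _ =>
    obtain ⟨F, hF⟩ := top_two w [] x y
    have e : (x :: y :: w).length - 2 = w.length := by simp
    rw [e, hF, map_add, top_E_two, add_zero, top_E_three]

end Pool.Agent.Lib.MP_c22e22_co.V
end

section

open MvPolynomial Finset

namespace Pool.Agent.Lib.MP_c22e22_co.V

theorem winAlt_eat : ∀ (t j : ℕ), eat (2 * t + 1) (altw j true) =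
    if j = 2 * t + 1 then some ((-1 : ℚ) ^ (t + 1), []) else none := by
  intro t
  induction t with
  | zero =>
    intro j
    match j with
    | 0 => simp [altw, eat]
    | 1 => simp [altw, eat]
    | j + 2 => simp [altw, eat]
  | succ t ih =>
    intro j
    have e1 : 2 * (t + 1) + 1 = (2 * t + 1 + 1) + 1 := by ring
    rw [e1]
    match j with
    | 0 => simp [altw, eat]
    | 1 => simp [altw, eat]
    | j + 2 =>
      simp only [altw, eat]
      rw [ih j]
      by_cases hj : j = 2 * t + 1
      · rw [if_pos hj, if_pos (by omega)]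
        simp only [Option.map_some]
        congr 2
        ring
      · rw [if_neg hj, if_neg (by omega)]
        rfl

theorem winAlt_win (t : ℕ) : ∀ j : ℕ, win (2 * t + 2) (altw j true) =
    if j % 2 = 1 ∧ 2 * t + 2 < j + 1 then [((-1 : ℚ) ^ (t + 1), altw (j - (2 * t + 2)) true)]
    else [] := by
  intro j
  induction j using Nat.strong_induction_on with
  | _ j ih =>
    match j, ih with
    | 0, _ => simp [altw, win]
    | 1, _ =>
      have : ¬ (1 % 2 = 1 ∧ 2 * t + 2 < 1 + 1) := by omega
      rw [if_neg this]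
      simp [altw, win]
    | j + 2, ih =>
      have h1 := ih j (by omega)
      have e1 : 2 * t + 2 - 1 = 2 * t + 1 := by omega
      simp only [altw, win]
      rw [h1, e1, winAlt_eat t j]
      by_cases hj : j = 2 * t + 1
      · have c1 : ¬ (j % 2 = 1 ∧ 2 * t + 2 < j + 1) := by omega
        have c2 : (j + 2) % 2 = 1 ∧ 2 * t + 2 < j + 2 + 1 := by omega
        rw [if_pos hj, if_neg c1, if_pos c2]
        have e2 : j + 2 - (2 * t + 2) = 1 := by omega
        rw [e2]
        simp [altw]
      · rw [if_neg hj]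
        by_cases c1 : j % 2 = 1 ∧ 2 * t + 2 < j + 1
        · have c2 : (j + 2) % 2 = 1 ∧ 2 * t + 2 < j + 2 + 1 := by omega
          rw [if_pos c1, if_pos c2]
          have e2 : j + 2 - (2 * t + 2) = (j - (2 * t + 2)) + 1 + 1 := by omega
          rw [e2]
          simp [altw]
        · have c2 : ¬ ((j + 2) % 2 = 1 ∧ 2 * t + 2 < j + 2 + 1) := by omega
          rw [if_neg c1, if_neg c2]
          simp

theorem p_win_alt : P_win_alt := by
  intro k l hl hl2
  obtain ⟨t, rfl⟩ : ∃ t, l = 2 * t + 2 := ⟨l / 2 - 1, by omega⟩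
  have e0 : (2 * t + 2) / 2 = t + 1 := by omega
  have e1 : 2 * t + 2 - 1 = 2 * t + 1 := by omega
  have hs : ¬ (Lk.s = Lk.d) := by decide
  simp only [win, if_neg hs]
  rw [e1, winAlt_eat t k, winAlt_win t k, e0]
  by_cases hk : k % 2 = 0
  · rw [if_pos hk]
    have c1 : ¬ (k = 2 * t + 1) := by omega
    have c2 : ¬ (k % 2 = 1 ∧ 2 * t + 2 < k + 1) := by omega
    rw [if_neg c1, if_neg c2]
    simp
  · rw [if_neg hk]
    by_cases h1 : 2 * t + 2 < k + 1
    · have c1 : ¬ (k = 2 * t + 1) := by omega
      have c2 : (k % 2 = 1 ∧ 2 * t + 2 < k + 1) := by omega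
      rw [if_neg c1, if_pos c2, if_pos h1]
      simp
    · rw [if_neg h1]
      by_cases h2 : 2 * t + 2 = k + 1
      · have c1 : (k = 2 * t + 1) := by omega
        have c2 : ¬ (k % 2 = 1 ∧ 2 * t + 2 < k + 1) := by omega
        rw [if_pos c1, if_neg c2, if_pos h2]
        simp
      · have c1 : ¬ (k = 2 * t + 1) := by omega
        have c2 : ¬ (k % 2 = 1 ∧ 2 * t + 2 < k + 1) := by omega
        rw [if_neg c1, if_neg c2, if_neg h2]
        simp

theorem winAlt_hh_zero : hh 0 = 1 := by
  simp [hh, cc]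

theorem p_alt_DD (h : P_DD_rib) : P_alt_DD := by
  intro k l hl hl2
  rw [h l (by omega), YY, p_win_alt k l hl hl2]
  by_cases hk : k % 2 = 0
  · rw [if_pos hk, if_pos hk]
    simp
  · rw [if_neg hk, if_neg hk]
    by_cases h1 : l < k + 1
    · rw [if_pos h1, if_pos h1]
      simp only [List.map_cons, List.map_nil, List.sum_cons, List.sum_nil, List.nil_append,
        add_zero]
      rw [rib_zero_s hh winAlt_hh_zero]
    · rw [if_neg h1, if_neg h1]
      by_cases h2 : l = k + 1
      · rw [if_pos h2, if_pos h2]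
        simp only [List.map_cons, List.map_nil, List.sum_cons, List.sum_nil, List.nil_append,
          add_zero, rib, winAlt_hh_zero]
      · rw [if_neg h2, if_neg h2]
        simp

end Pool.Agent.Lib.MP_c22e22_co.V
end

section

/-!
# Windows of a word and of its complement
-/

set_option autoImplicit false

namespace Pool.Agent.Lib.MP_c22e22_co.V

theorem WinCo_len (x : Lk) (v : List Lk) : (win 2 (x :: v)).length =
    (if x = .d then 0 else (eat 1 v).toList.length) + (win 2 v).length := by
  simp only [win, List.length_append, List.length_map]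
  split_ifs <;> simp

theorem WinCo_nil : (win 2 []).length = 0 := rfl

theorem WinCo_aux : ∀ (u : List Lk) (y z : Lk), NoS (y :: z :: u) →
    (win 2 (y :: z :: u)).length + (win 2 ((y :: z :: u).map Lk.co)).length +
      (if y = z then 1 else 0) ≤ 1 + 2 * cl (y :: z :: u)
  | [], y, z, h => by
    cases y <;> cases z <;>
      simp [NoS, WinCo_len, WinCo_nil, eat, Lk.co, cl] at h ⊢
  | x :: u, y, z, h => by
    have h' : NoS (z :: x :: u) := by
      simp only [NoS, List.mem_cons, not_or] at h ⊢
      exact h.2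
    have ih := WinCo_aux u z x h'
    have e1 := WinCo_len y (z :: x :: u)
    have e2 := WinCo_len y.co (z.co :: x.co :: u.map Lk.co)
    have hc : cl (y :: z :: x :: u) = (if y = z ∧ y ≠ .s then 1 else 0) + cl (z :: x :: u) := rfl
    simp only [List.map_cons] at ih ⊢
    rw [e1, e2, hc]
    generalize (win 2 (z :: x :: u)).length = A at *
    generalize (win 2 (z.co :: x.co :: u.map Lk.co)).length = B at *
    generalize cl (z :: x :: u) = C at *
    cases y <;> cases z <;> cases x <;>
      simp [NoS, eat, Lk.co] at h ih ⊢ <;> omega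

theorem p_win_co : P_win_co := by
  intro w hw
  rcases w with _ | ⟨y, _ | ⟨z, u⟩⟩
  · simp [WinCo_len, WinCo_nil, eat]
  · cases y <;> simp [NoS, WinCo_len, WinCo_nil, eat, Lk.co, cl] at hw ⊢
  · have h := WinCo_aux u y z hw
    have e1 := WinCo_len .s (y :: z :: u)
    have e2 := WinCo_len .s (y.co :: z.co :: u.map Lk.co)
    simp only [List.map_cons] at h ⊢
    rw [e1, e2]
    generalize (win 2 (y :: z :: u)).length = A at *
    generalize (win 2 (y.co :: z.co :: u.map Lk.co)).length = B at *
    generalize cl (y :: z :: u) = C at *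
    cases y <;> cases z <;> simp [NoS, eat, Lk.co] at hw h ⊢ <;> omega

end Pool.Agent.Lib.MP_c22e22_co.V
end

section

/-!
# The free letter relation for windows
-/

set_option autoImplicit false

open MvPolynomial Finset

namespace Pool.Agent.Lib.MP_c22e22_co.V

/-- value of the window at the start of `W`, with `k` further letters -/
noncomputable def wf_e (P : List Lk) (k : ℕ) (W : List Lk) : MvPolynomial ℕ ℚ :=
  ((eat k W).toList.map fun p => p.1 • rib hh 0 (P ++ p.2)).sum

theorem wf_YY_nil (l : ℕ) (P : List Lk) : YY l P [] = 0 := rfl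

theorem wf_YY_cons (l : ℕ) (P : List Lk) (x : Lk) (v : List Lk) :
    YY l P (x :: v) = (if x = .d then 0 else wf_e P (l - 1) v) + YY l (P ++ [x]) v := by
  rw [YY, win, List.map_append, List.sum_append, List.map_map, YY]
  congr 1
  · split_ifs
    · rfl
    · rfl
  · congr 1
    apply List.map_congr_left
    intro p _
    simp

theorem wf_e_zero_a (P v : List Lk) : wf_e P 0 (.a :: v) = 0 := rfl

theorem wf_e_zero_d (P v : List Lk) : wf_e P 0 (.d :: v) = rib hh 0 (P ++ .s :: v) := by
  simp [wf_e, eat]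

theorem wf_e_zero_s (P v : List Lk) : wf_e P 0 (.s :: v) = rib hh 0 (P ++ .s :: v) := by
  simp [wf_e, eat]

theorem wf_e_succ_a (P : List Lk) (k : ℕ) (v : List Lk) :
    wf_e P (k + 1) (.a :: v) = wf_e P k v := rfl

theorem wf_e_succ_d (P : List Lk) (k : ℕ) (v : List Lk) :
    wf_e P (k + 1) (.d :: v) = - wf_e P k v := by
  rw [wf_e, wf_e, eat]
  cases eat k v with
  | none => simp
  | some p => simp

theorem wf_e_succ_s (P : List Lk) (k : ℕ) (v : List Lk) : wf_e P (k + 1) (.s :: v) = 0 := rfl

theorem wf_claim (P v : List Lk) (u : List Lk) : ∀ k : ℕ,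
    wf_e P k (u ++ .a :: v) + wf_e P k (u ++ .d :: v) = wf_e P k (u ++ .s :: v) := by
  induction u with
  | nil =>
    intro k
    simp only [List.nil_append]
    cases k with
    | zero => rw [wf_e_zero_a, wf_e_zero_d, wf_e_zero_s, zero_add]
    | succ k => rw [wf_e_succ_a, wf_e_succ_d, wf_e_succ_s, add_neg_cancel]
  | cons x u ih =>
    intro k
    simp only [List.cons_append]
    have h := rib_free hh (P ++ .s :: u) v 0
    simp only [List.append_assoc, List.cons_append] at h
    cases k with
    | zero =>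
      cases x with
      | a => simp only [wf_e_zero_a, add_zero]
      | d => simpa only [wf_e_zero_d] using h
      | s => simpa only [wf_e_zero_s] using h
    | succ k =>
      cases x with
      | a => simpa only [wf_e_succ_a] using ih k
      | d =>
        simp only [wf_e_succ_d]
        rw [← ih k]
        ring
      | s => simp only [wf_e_succ_s, add_zero]

theorem wf_prefix (l : ℕ) (v : List Lk) (P Q : List Lk) :
    YY l (P ++ .a :: Q) v + YY l (P ++ .d :: Q) v = YY l (P ++ .s :: Q) v := by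
  rw [YY, YY, YY]
  generalize win l v = L
  induction L with
  | nil => simp
  | cons p L ih =>
    simp only [List.map_cons, List.sum_cons]
    rw [← ih]
    have h := rib_free hh P (Q ++ p.2) 0
    simp only [List.append_assoc, List.cons_append]
    rw [← h, smul_add]
    ring

theorem p_winfree : P_winfree := by
  intro l u v
  induction u with
  | nil =>
    intro P
    simp only [List.nil_append, wf_YY_cons]
    have h := wf_prefix l v P []
    rw [← h]
    simp
    ring
  | cons x u ih =>
    intro P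
    simp only [List.cons_append, wf_YY_cons]
    rw [← ih (P ++ [x])]
    split_ifs
    · ring
    · rw [← wf_claim P v u (l - 1)]
      ring

end Pool.Agent.Lib.MP_c22e22_co.V
end

section

/-!
# Kernel evaluations of the finite check
-/

namespace Pool.Agent.Lib.MP_c22e22_co.V

set_option maxRecDepth 100000 in
theorem fev_17 : fchk 17 35 3283876 = true := by decide +kernel

end Pool.Agent.Lib.MP_c22e22_co.V
end
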