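import Pool.Agent.Lib.MP_c22e22_co.V.Defs
import Pool.Agent.Lib.MP_c22e22_co.V.FEval2

/-!
# Kernel evaluations of the finite check
-/

namespace Pool.Agent.Lib.MP_c22e22_co.V

set_option maxRecDepth 100000 in
theorem fev_18 : fchk 18 37 10532747 = true := by decide +kernel

/-- summary: for `n = k + 3 <= 21` cells the check is true with fields wider than the number of
involutions -/
theorem fev (k : ℕ) (hk : k ≤ 18) : ∃ b M, ([1, 1, 2, 4, 10, 26, 76, 232, 764, 2620, 9496, 35696, 140152, 568504, 2390480, 10349536, 46206736, 211799312, 997313824, 4809701440, 23758664096, 119952692896] : List ℕ).getD (k + 3) 0 < 2 ^ b ∧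
    fchk k b M = true := by
  interval_cases k
  · exact ⟨3, 1, by decide, fev_0⟩
  · exact ⟨4, 2, by decide, fev_1⟩
  · exact ⟨5, 3, by decide, fev_2⟩
  · exact ⟨7, 6, by decide, fev_3⟩
  · exact ⟨8, 11, by decide, fev_4⟩
  · exact ⟨10, 24, by decide, fev_5⟩
  · exact ⟨12, 51, by decide, fev_6⟩
  · exact ⟨14, 120, by decide, fev_7⟩
  · exact ⟨16, 283, by decide, fev_8⟩
  · exact ⟨18, 716, by decide, fev_9⟩
  · exact ⟨20, 1833, by decide, fev_10⟩
  · exact ⟨22, 4948, by decide, fev_11⟩
  · exact ⟨24, 13561, by decide, fev_12⟩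
  · exact ⟨26, 38788, by decide, fev_13⟩
  · exact ⟨28, 112745, by decide, fev_14⟩
  · exact ⟨30, 339676, by decide, fev_15⟩
  · exact ⟨33, 1039929, by decide, fev_16⟩
  · exact ⟨35, 3283876, by decide, fev_17⟩
  · exact ⟨37, 10532747, by decide, fev_18⟩

end Pool.Agent.Lib.MP_c22e22_co.V
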