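import Pool.Agent.Lib.MP_c22e22_co.V.FEval2
import Pool.Agent.Lib.MP_c22e22_co.V.FEval3
import Pool.Agent.Lib.MP_c22e22_co.V.AltGe

/-!
# The case `n ≤ 21`
-/

open MvPolynomial Finset

namespace Pool.Agent.Lib.MP_c22e22_co.V

theorem ffin_hh1 : hh 1 = X 1 := by
  rw [hh, sum_range_succ, sum_range_one]
  simp [cc, cg, pw]

theorem ffin_stars : ∀ k, rib hh 1 (List.replicate k Lk.s) = (X 1) ^ (k + 1)
  | 0 => by simp [rib, ffin_hh1]
  | k + 1 => by
    rw [List.replicate_succ, rib, ffin_stars k, ffin_hh1]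
    ring

theorem ffin_Epow : ∀ n, E ((X 1 : MvPolynomial ℕ ℚ) ^ n) = mom 1 n := by
  intro n
  have : (X 1 : MvPolynomial ℕ ℚ) ^ n = monomial (Finsupp.single 1 n) 1 := by
    rw [X_pow_eq_monomial]
  rw [this, E, Lf_monomial, one_mul, Finsupp.prod_single_index (mom_zero 1)]

/-- every count is at most the number of involutions -/
theorem ffin_cnt_le (h : P_cnt_eq) (w : List Lk) :
    (cnt (w.length + 1) w : ℚ) ≤ mom 1 (w.length + 1) := by
  have h1 := cnt_le (w.length + 1) w
  rw [Nat.add_sub_cancel] at h1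
  have h2 := h (List.replicate w.length Lk.s)
  rw [List.length_replicate, ffin_stars, ffin_Epow] at h2
  rw [← h2]
  exact_mod_cast h1

/-- the list of involution numbers -/
theorem ffin_inv (k : ℕ) (hk : k ≤ 18) : mom 1 (k + 3) =
    (([1, 1, 2, 4, 10, 26, 76, 232, 764, 2620, 9496, 35696, 140152, 568504, 2390480, 10349536,
      46206736, 211799312, 997313824, 4809701440, 23758664096, 119952692896] : List ℕ).getD
      (k + 3) 0 : ℕ) := by
  interval_cases k <;> norm_num [mom]

theorem ffin_code : ∀ k, (acode k).1 < 2 ^ k ∧ (acode k).2 < 2 ^ k ∧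
    wd k (acode k).1 = altw k false ∧ wd k (acode k).2 = altw k true
  | 0 => by simp [acode, wd, altw]
  | k + 1 => by
    obtain ⟨h1, h2, h3, h4⟩ := ffin_code k
    have e1 : (acode (k + 1)).1 = (acode k).2 := rfl
    have e2 : (acode (k + 1)).2 = 2 ^ k + (acode k).1 := rfl
    have hp : 2 ^ (k + 1) = 2 ^ k + 2 ^ k := by ring
    refine ⟨?_, ?_, ?_, ?_⟩
    · rw [e1]; omega
    · rw [e2]; omega
    · rw [e1, wd, if_pos h2, h4]; rfl
    · rw [e2, wd, if_neg (by omega), Nat.add_sub_cancel_left, h3]; rfl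

/-- statement about the computed tables -/
def P_top : Prop := ∀ k b : ℕ, ((topT k b).root : ℚ) = PW b k [] 3 ∧
    ((topT k b).get [2] : ℚ) = PW b k [2] 1

theorem ffin_aux (hc : P_cnt_eq) (ht : P_top) (k b M : ℕ) (hI : mom 1 (k + 3) < 2 ^ b)
    (hf : fchk k b M = true) :
    (∀ w : List Lk, NoS w → w.length = k → E (rib hh 1 (.a :: .a :: w)) ≤ M) ∧
    (∀ w : List Lk, NoS w → w.length = k → E (rib hh 1 (.a :: .d :: w)) ≤ M) ∧
    E (rib hh 1 (altw (k + 2) false)) = M := by
  obtain ⟨t0, t2⟩ := ht k (b + 1)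
  -- the two families of counts
  set f0 : ℕ → ℕ := fun i => cnt (k + 3) (.a :: .a :: wd k i) with hf0
  set f1 : ℕ → ℕ := fun i => cnt (k + 3) (.a :: .d :: wd k i) with hf1
  have c0 : ∀ i, (f0 i : ℚ) = E (rib hh 1 (.a :: .a :: wd k i)) := by
    intro i
    rw [← hc]
    simp only [hf0, List.length_cons, wd_length]
  have c1 : ∀ i, (f1 i : ℚ) = E (rib hh 1 (.a :: .d :: wd k i)) := by
    intro i
    rw [← hc]
    simp only [hf1, List.length_cons, wd_length]
  have b0 : ∀ i < 2 ^ k, f0 i < 2 ^ b := by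
    intro i _
    have := ffin_cnt_le hc (.a :: .a :: wd k i)
    simp only [List.length_cons, wd_length] at this
    have h' : (f0 i : ℚ) < ((2 ^ b : ℕ) : ℚ) := by
      push_cast
      exact lt_of_le_of_lt this hI
    exact_mod_cast h'
  have b1 : ∀ i < 2 ^ k, f1 i < 2 ^ b := by
    intro i _
    have := ffin_cnt_le hc (.a :: .d :: wd k i)
    simp only [List.length_cons, wd_length] at this
    have h' : (f1 i : ℚ) < ((2 ^ b : ℕ) : ℚ) := by
      push_cast
      exact lt_of_le_of_lt this hI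
    exact_mod_cast h'
  have V0 : (topT k (b + 1)).root = ∑ i ∈ range (2 ^ k), f0 i * (2 ^ (b + 1)) ^ i := by
    have : ((topT k (b + 1)).root : ℚ) =
        ((∑ i ∈ range (2 ^ k), f0 i * (2 ^ (b + 1)) ^ i : ℕ) : ℚ) := by
      rw [t0, PW_eq]
      push_cast
      refine sum_congr rfl fun i _ => ?_
      rw [c0]
      simp only [QQ, List.map_nil, List.prod_nil, one_mul, rib]
    exact_mod_cast this
  have V1 : (topT k (b + 1)).get [2] - (topT k (b + 1)).root =
      ∑ i ∈ range (2 ^ k), f1 i * (2 ^ (b + 1)) ^ i := by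
    have : ((topT k (b + 1)).get [2] : ℚ) = (((topT k (b + 1)).root +
        ∑ i ∈ range (2 ^ k), f1 i * (2 ^ (b + 1)) ^ i : ℕ) : ℚ) := by
      push_cast
      rw [t2, t0, PW_eq, PW_eq, ← sum_add_distrib]
      refine sum_congr rfl fun i _ => ?_
      rw [c1]
      simp only [QQ, List.map_nil, List.prod_nil, one_mul, rib, List.map_cons, List.prod_cons,
        mul_one, map_sub]
      ring
    have h2 : (topT k (b + 1)).get [2] = (topT k (b + 1)).root +
        ∑ i ∈ range (2 ^ k), f1 i * (2 ^ (b + 1)) ^ i := by exact_mod_cast this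
    rw [h2, Nat.add_sub_cancel_left]
  have hf' : ((chk (topT k (b + 1)).root b k M && chk ((topT k (b + 1)).get [2] -
      (topT k (b + 1)).root) b k M) && Nat.beq ((((topT k (b + 1)).get [2] -
      (topT k (b + 1)).root) / (2 ^ ((b + 1) * (acode k).1))) % (2 ^ (b + 1))) M) = true := hf
  rw [Bool.and_eq_true, Bool.and_eq_true, V1, V0] at hf'
  obtain ⟨⟨k0, k1⟩, k2⟩ := hf'
  obtain ⟨a1, -, a3, -⟩ := ffin_code k
  have hd := digit b (2 ^ k) (acode k).1 f1 (fun i hi => (b1 i hi).trans (by
    rw [pow_succ]; have : 0 < 2 ^ b := by positivity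
    omega)) a1
  have hM : f1 (acode k).1 = M := by
    rw [← hd]
    exact Nat.eq_of_beq_eq_true k2
  have hMlt : M < 2 ^ b := by rw [← hM]; exact b1 _ a1
  have s0 := chk_sound b k M f0 b0 hMlt k0
  have s1 := chk_sound b k M f1 b1 hMlt k1
  refine ⟨?_, ?_, ?_⟩
  · intro w hw hl
    obtain ⟨i, hi, hwi⟩ := wd_surj w hw
    rw [hl] at hi hwi
    rw [← hwi, ← c0]
    exact_mod_cast s0 i hi
  · intro w hw hl
    obtain ⟨i, hi, hwi⟩ := wd_surj w hw
    rw [hl] at hi hwi
    rw [← hwi, ← c1]
    exact_mod_cast s1 i hi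
  · have : altw (k + 2) false = .a :: .d :: wd k (acode k).1 := by rw [a3]; rfl
    rw [this, ← c1, hM]

theorem p_small (hc : P_cnt_eq) (ht : P_top) (hco : P_E_co) : P_small := by
  intro n w hn hw hl
  have halt : ∀ k, E (rib hh 1 (altw k false)) = E (rib hh 1 (altw k true)) := by
    intro k
    rw [← (altw_co k).1, hco]
  -- reduce to words starting with `a`
  have key : ∀ w : List Lk, NoS w → w.length + 1 = n → (∀ v, w ≠ .d :: v) →
      E (rib hh 1 w) ≤ E (rib hh 1 (altw (n - 1) true)) := by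
    intro w hw hl hd
    match w, hw, hl, hd with
    | [], _, hl, _ =>
      have : n = 1 := by simpa using hl.symm
      subst this
      exact le_refl _
    | .d :: v, _, _, hd => exact absurd rfl (hd v)
    | .s :: v, hw, _, _ => exact absurd List.mem_cons_self hw
    | [.a], _, hl, _ =>
      have : n = 2 := by simpa using hl.symm
      subst this
      have := halt 1
      exact le_of_eq this
    | .a :: .s :: v, hw, _, _ => exact absurd (List.mem_cons_of_mem _ List.mem_cons_self) hw
    | .a :: .a :: v, hw, hl, _ =>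
      simp only [List.length_cons] at hl
      obtain ⟨b, M, hb, hf⟩ := fev v.length (by omega)
      have hI : mom 1 (v.length + 3) < 2 ^ b := by
        rw [ffin_inv v.length (by omega)]
        exact_mod_cast hb
      obtain ⟨r0, -, r2⟩ := ffin_aux hc ht v.length b M hI hf
      have hn' : n - 1 = v.length + 2 := by omega
      rw [hn', ← halt, r2]
      exact r0 v (fun hm => hw (List.mem_cons_of_mem _ (List.mem_cons_of_mem _ hm))) rfl
    | .a :: .d :: v, hw, hl, _ =>
      simp only [List.length_cons] at hl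
      obtain ⟨b, M, hb, hf⟩ := fev v.length (by omega)
      have hI : mom 1 (v.length + 3) < 2 ^ b := by
        rw [ffin_inv v.length (by omega)]
        exact_mod_cast hb
      obtain ⟨-, r1, r2⟩ := ffin_aux hc ht v.length b M hI hf
      have hn' : n - 1 = v.length + 2 := by omega
      rw [hn', ← halt, r2]
      exact r1 v (fun hm => hw (List.mem_cons_of_mem _ (List.mem_cons_of_mem _ hm))) rfl
  by_cases hd : ∃ v, w = .d :: v
  · obtain ⟨v, rfl⟩ := hd
    rw [← hco]
    refine key _ (noS_co _ hw) (by rw [List.length_map]; exact hl) ?_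
    intro v' hv'
    simp [Lk.co] at hv'
  · exact key w hw hl fun v hv => hd ⟨v, hv⟩

end Pool.Agent.Lib.MP_c22e22_co.V
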