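import Pool.Agent.Lib.MP_c22e22_co.V.FEval2
import Pool.Agent.Lib.MP_c22e22_co.V.AltGe

/-!
# Correctness of the computed tables
-/

open MvPolynomial Finset

namespace Pool.Agent.Lib.MP_c22e22_co.V

/-- value of a list of blocks -/
noncomputable def Nq (l : List ℕ) : ℚ := E ((l.map hh).prod)

theorem ftab_hh0 : hh 0 = 1 := by
  rw [hh, sum_range_one]
  simp [cc]

theorem ftab_Nq_drop0 (c : ℕ) (l : List ℕ) : Nq (drop0 c l) = E (hh c * (l.map hh).prod) := by
  rw [drop0_eq]
  split_ifs with h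
  · rw [h, ftab_hh0, one_mul]; rfl
  · rfl

theorem ftab_ins (c : ℕ) (l : List ℕ) : ((ins c l).map hh).prod = hh c * (l.map hh).prod := by
  rw [((ins_perm c l).map hh).prod_eq, List.map_cons, List.prod_cons]

theorem ftab_SP_drop0 (c : ℕ) (l : List ℕ) (hl : SP l) (hc : ∀ x ∈ l, c ≤ x) : SP (drop0 c l) := by
  rw [drop0_eq]
  split_ifs with h
  · exact hl
  · refine ⟨List.pairwise_cons.mpr ⟨hc, hl.1⟩, fun x hx => ?_⟩
    rcases List.mem_cons.mp hx with rfl | hx
    · omega
    · exact hl.2 x hx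

theorem ftab_sum_drop0 (c : ℕ) (l : List ℕ) : (drop0 c l).sum = c + l.sum := by
  rw [drop0_eq]
  split_ifs with h
  · rw [h, zero_add]
  · rw [List.sum_cons]

/-- one key of `sumI` -/
theorem ftab_key (t : ℕ) (T : Tb) (hT : Good Nq t T) (m j p : ℕ) (L : List ℕ) (hL : SP L)
    (hm : ∀ x ∈ L, m ≤ x) (hp : m ≤ p) (hj : 1 ≤ j) (hjm : j ≤ m)
    (hs : m + p + L.sum ≤ t + 1) :
    (T.get (drop0 (m - j) (if p = j then L else ins (p - j) L)) : ℚ) =
      E (hh (m - j) * (hh (p - j) * (L.map hh).prod)) := by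
  have hSP : SP (drop0 (m - j) (if p = j then L else ins (p - j) L)) := by
    split_ifs with h
    · exact ftab_SP_drop0 _ _ hL fun x hx => (Nat.sub_le _ _).trans (hm x hx)
    · refine ftab_SP_drop0 _ _ (SP_ins _ _ (by omega) hL) fun x hx => ?_
      rcases (ins_mem _ _ _).mp hx with rfl | hx
      · omega
      · exact (Nat.sub_le _ _).trans (hm x hx)
  have hsum : (drop0 (m - j) (if p = j then L else ins (p - j) L)).sum ≤ t := by
    rw [ftab_sum_drop0]
    split_ifs with h
    · omega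
    · rw [ins_sum]; omega
  rw [Tb_get_ok Nq t T hT _ hSP hsum, ftab_Nq_drop0]
  congr 2
  split_ifs with h
  · rw [h, Nat.sub_self, ftab_hh0, one_mul]
  · rw [ftab_ins]

theorem ftab_erase (pre ps : List ℕ) (p : ℕ) :
    (pre.reverse ++ p :: ps).eraseIdx pre.length = pre.reverse ++ ps := by
  rw [List.eraseIdx_append_of_length_le (by simp)]
  simp

theorem ftab_sumI (t : ℕ) (T : Tb) (hT : Good Nq t T) (m j : ℕ) (hj : 1 ≤ j) (hjm : j ≤ m) :
    ∀ (ps pre : List ℕ), SP (pre.reverse ++ ps) → (∀ x ∈ pre.reverse ++ ps, m ≤ x) →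
    m + (pre.reverse ++ ps).sum ≤ t + 1 →
    (sumI T (m - j) j ps pre : ℚ) = ∑ i ∈ range ps.length,
      if j ≤ (pre.reverse ++ ps).getD (pre.length + i) 0 then
        E (hh (m - j) * (hh ((pre.reverse ++ ps).getD (pre.length + i) 0 - j) *
          (((pre.reverse ++ ps).eraseIdx (pre.length + i)).map hh).prod)) else 0 := by
  intro ps
  induction ps with
  | nil => intro pre _ _ _; simp [sumI_nil]
  | cons p ps ih =>
    intro pre hSP hm hs
    have hsub : (pre.reverse ++ ps).Sublist (pre.reverse ++ p :: ps) :=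
      List.Sublist.append_left (List.sublist_cons_self p ps) _
    have hSP' : SP (pre.reverse ++ ps) :=
      ⟨hSP.1.sublist hsub, fun x hx => hSP.2 x (hsub.subset hx)⟩
    have hm' : ∀ x ∈ pre.reverse ++ ps, m ≤ x := fun x hx => hm x (hsub.subset hx)
    have hpm : m ≤ p := hm p (by simp)
    have hsum : (pre.reverse ++ p :: ps).sum = p + (pre.reverse ++ ps).sum := by
      simp only [List.sum_append, List.sum_cons]; omega
    have hkey := ftab_key t T hT m j p (pre.reverse ++ ps) hSP' hm' hpm hj hjm (by omega)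
    have hrev : (p :: pre).reverse ++ ps = pre.reverse ++ p :: ps := by simp
    have hrec := ih (p :: pre) (by rw [hrev]; exact hSP) (by rw [hrev]; exact hm)
      (by rw [hrev]; exact hs)
    rw [hrev] at hrec
    rw [sumI_cons, Nat.cast_add, rapp_eq, hkey, hrec]
    simp only [List.length_cons]
    rw [sum_range_succ', add_comm]
    congr 1
    · refine sum_congr rfl fun i _ => ?_
      rw [show pre.length + 1 + i = pre.length + (i + 1) by ring]
    · have hget : (pre.reverse ++ p :: ps).getD (pre.length + 0) 0 = p := by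
        rw [Nat.add_zero, List.getD_eq_getElem?_getD, List.getElem?_append_right (by simp)]
        simp
      rw [hget, if_pos (by omega), Nat.add_zero, ftab_erase]

theorem ftab_sumJ (t : ℕ) (T : Tb) (hT : Good Nq t T) (m : ℕ) (rest : List ℕ)
    (hSP : SP (m :: rest)) (hs : m + rest.sum = t + 1) : ∀ j, j ≤ m →
    (sumJ T m rest j : ℚ) = ∑ i ∈ Icc 1 j, (E (hh (m - i) * (rest.map hh).prod) +
      ∑ k ∈ range rest.length, if i ≤ rest.getD k 0 then
        E (hh (m - i) * (hh (rest.getD k 0 - i) * ((rest.eraseIdx k).map hh).prod)) else 0) := by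
  have hrest : SP rest := ⟨(List.pairwise_cons.mp hSP.1).2,
    fun x hx => hSP.2 x (List.mem_cons_of_mem _ hx)⟩
  have hmr : ∀ x ∈ rest, m ≤ x := (List.pairwise_cons.mp hSP.1).1
  intro j
  induction j with
  | zero => intro _; simp [sumJ_zero]
  | succ j ih =>
    intro hj
    rw [sumJ_succ, Nat.cast_add, Nat.cast_add, ih (by omega),
      Finset.sum_Icc_succ_top (by omega), add_comm]
    congr 1
    congr 1
    · have hSP1 : SP (drop0 (m - (j + 1)) rest) :=
        ftab_SP_drop0 _ _ hrest fun x hx => (Nat.sub_le _ _).trans (hmr x hx)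
      rw [Tb_get_ok Nq t T hT _ hSP1 (by rw [ftab_sum_drop0]; omega), ftab_Nq_drop0]
    · have := ftab_sumI t T hT m (j + 1) (by omega) hj rest [] (by simpa using hrest)
        (by simpa using hmr) (by simpa using hs.le)
      simpa using this

theorem ftab_Nval (hl : P_E_list) (hc : P_cnt_eq) (t : ℕ) (T : Tb) (hT : Good Nq t T)
    (l : List ℕ) (hSP : SP l) (hs : l.sum = t + 1) : (Nval T l : ℚ) = Nq l := by
  cases l with
  | nil => simp at hs
  | cons m rest =>
    have hm : 1 ≤ m := hSP.2 m List.mem_cons_self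
    rw [List.sum_cons] at hs
    have h1 := ftab_sumJ t T hT m rest hSP hs m le_rfl
    have h2 := hl m rest
    rw [← h1] at h2
    -- natural value
    have hnat : ∃ N : ℕ, (N : ℚ) = E (hh m * (rest.map hh).prod) := by
      obtain ⟨N, hN⟩ := QQ_nat hc rest m [] (fun p hp => hSP.2 p (List.mem_cons_of_mem _ hp)) hm
      refine ⟨N, ?_⟩
      rw [hN, QQ, rib, mul_comm]
    obtain ⟨N, hN⟩ := hnat
    rw [← hN] at h2
    have h3 : m * N = sumJ T m rest m := by exact_mod_cast h2
    rw [Nval_cons, ← h3, Nat.mul_div_cancel_left N (by omega), hN]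
    rw [Nq, List.map_cons, List.prod_cons]

theorem ftab_NT (hl : P_E_list) (hc : P_cnt_eq) (t : ℕ) : Good Nq t (NT t) := by
  refine NT_ok Nq ?_ (fun t T hT l h1 h2 => ftab_Nval hl hc t T hT l h1 h2) t
  rw [Nq, List.map_nil, List.prod_nil, E_one]

theorem ftab_base (hl : P_E_list) (hc : P_cnt_eq) (b n : ℕ) (hn : 1 ≤ n) :
    Good (fun l => PW b 0 l (n - l.sum)) (n - 1) (baseTb (NT n) n) := by
  refine baseTb_ok Nq _ n n (by omega) hn (NT n) (ftab_NT hl hc n) ?_
  intro l hSP hs
  have hSP' : SP (ins (n - l.sum) l) := SP_ins _ _ (by omega) hSP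
  rw [Tb_get_ok Nq n (NT n) (ftab_NT hl hc n) _ hSP' (by rw [ins_sum]; omega)]
  show E ((l.map hh).prod * hh (n - l.sum)) = _
  rw [Nq, ftab_ins, mul_comm]

theorem ftab_step (hc : P_cnt_eq) (b r s : ℕ) (hs : 1 ≤ s) (T : Tb)
    (hT : Good (fun l => PW b r l (s + 1 - l.sum)) s T) :
    Good (fun l => PW b (r + 1) l (s - l.sum)) (s - 1) (stepTb T s ((2 ^ b) ^ (2 ^ r))) := by
  refine stepTb_ok _ _ s _ hs T hT ?_
  intro l hSP hls
  have hSP' : SP (ins (s - l.sum) l) := SP_ins _ _ (by omega) hSP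
  have hv := Tb_get_ok _ s T hT l hSP (by omega)
  have hx := Tb_get_ok _ s T hT _ hSP' (by rw [ins_sum]; omega)
  rw [ins_sum, show s + 1 - (s - l.sum + l.sum) = 1 by omega,
    PW_perm b r (ins_perm (s - l.sum) l)] at hx
  rw [show s + 1 - l.sum = s - l.sum + 1 by omega] at hv
  exact (PW_step hc b r l (s - l.sum) hSP.2 (by omega) _ _ _ hv hx rfl).symm

theorem ftab_go (hc : P_cnt_eq) (b : ℕ) : ∀ (k r : ℕ) (T : Tb),
    Good (fun l => PW b r l (k + 3 - l.sum)) (k + 2) T →
    Good (fun l => PW b (r + k) l (3 - l.sum)) 2 (go k ((2 ^ b) ^ (2 ^ r)) T) := by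
  intro k
  induction k with
  | zero =>
    intro r T hT
    rw [go_zero]
    simpa using hT
  | succ k ih =>
    intro r T hT
    have e1 : (2 ^ b : ℕ) ^ (2 ^ r) * (2 ^ b) ^ (2 ^ r) = (2 ^ b) ^ (2 ^ (r + 1)) := by
      rw [← pow_add, pow_succ, mul_two]
    rw [go_succ, e1, show r + (k + 1) = (r + 1) + k by ring]
    refine ih (r + 1) _ ?_
    have := ftab_step hc b r (k + 3) (by omega) T (by
      have e : k + 1 + 3 = k + 3 + 1 := by ring
      have e' : k + 1 + 2 = k + 3 := by ring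
      rw [e, e'] at hT
      exact hT)
    exact this

theorem ftab_top (hl : P_E_list) (hc : P_cnt_eq) (k b : ℕ) :
    ((topT k b).root : ℚ) = PW b k [] 3 ∧ ((topT k b).get [2] : ℚ) = PW b k [2] 1 := by
  have h0 := ftab_base hl hc b (k + 3) (by omega)
  have h1 := ftab_go hc b k 0 (baseTb (NT (k + 3)) (k + 3)) h0
  rw [pow_zero, pow_one, zero_add, ← topT_eq] at h1
  refine ⟨?_, ?_⟩
  · have := h1.1
    simpa using this
  · have := Tb_get_ok _ 2 _ h1 [2] ⟨by simp, by simp⟩ (by simp)
    simpa using this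

end Pool.Agent.Lib.MP_c22e22_co.V
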