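import Mathlib
import Pool.Agent.Lib.MP_c22e22_co.V.Props

section

open MvPolynomial Finset

namespace Pool.Agent.Lib.MP_c22e22_co.V

theorem d2d4_hh_zero : hh 0 = 1 := by
  simp [hh, cc]

/-- The first bound. -/
theorem d2d4_base (h4 : P_star) (h5 : P_gen_bound) (h6 : P_bw_star) (h7 : P_bw_nonneg)
    (h8 : P_N3) (h9 : P_ee_pos) (v : List Lk) (hv : 14 ≤ v.length + 1) (hs : v.count .s ≤ 4) :
    |Eo (rib hh 0 (.s :: v))| ≤ (8 / 5) ^ (v.count .s) * (121 / 100) *
      (mom 1 (v.length + 1) * ee (v.length + 1)) := by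
  have hee : ∀ n, 0 < ee' n := by
    intro n
    unfold ee'
    split_ifs
    · have := h9 n; positivity
    · exact h9 n
  rw [rib_zero_s hh d2d4_hh_zero, h4 v, XS, map_sum]
  refine (Finset.abs_sum_le_sum_abs _ _).trans ?_
  have hterm : ∀ m ∈ range (v.length + 1), |Eo (XX [] 1 v m)| ≤
      xO (m + 1) (v.length + 1) * ((8 / 5) ^ (v.count .s) * ee' (m + 1)) := by
    intro m _
    have h10 := h5 Eo Eo_nonneg v [] 1 m ((8 / 5) ^ (v.count .s) * ee' (m + 1))
      (mul_nonneg (by positivity) (hee _).le) (fun K' _ hlen hcnt => by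
        rw [List.nil_append, abs_of_nonneg (h7 K')]
        have h11 := h6 K' (by rw [hcnt]; exact hs)
        rw [hcnt, hlen] at h11
        exact h11)
    exact h10
  refine (Finset.sum_le_sum hterm).trans ?_
  have h12 := h8 (v.length + 1) hv
  have e : ∑ m ∈ range (v.length + 1), xO (m + 1) (v.length + 1) *
      ((8 / 5) ^ (v.count .s) * ee' (m + 1)) = (8 / 5) ^ (v.count .s) *
      ∑ m ∈ range (v.length + 1), xO (m + 1) (v.length + 1) * ee' (m + 1) := by
    rw [Finset.mul_sum]
    apply Finset.sum_congr rfl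
    intro m _
    ring
  rw [e]
  calc (8 / 5 : ℚ) ^ (v.count .s) *
        ∑ m ∈ range (v.length + 1), xO (m + 1) (v.length + 1) * ee' (m + 1)
      ≤ (8 / 5) ^ (v.count .s) * (121 / 100 * (mom 1 (v.length + 1) * ee (v.length + 1))) :=
        mul_le_mul_of_nonneg_left h12 (by positivity)
    _ = _ := by ring

theorem d2d4_add (j : ℕ) (F G : MvPolynomial ℕ ℚ) :
    (DD 2)^[j] (F + G) = (DD 2)^[j] F + (DD 2)^[j] G := by
  induction j with
  | zero => rfl
  | succ j ih => rw [Function.iterate_succ_apply', ih, DD_add, Function.iterate_succ_apply',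
      Function.iterate_succ_apply']

theorem d2d4_smul (j : ℕ) (c : ℚ) (F : MvPolynomial ℕ ℚ) :
    (DD 2)^[j] (c • F) = c • (DD 2)^[j] F := by
  induction j with
  | zero => rfl
  | succ j ih => rw [Function.iterate_succ_apply', ih, DD_smul, Function.iterate_succ_apply']

theorem d2d4_zero (j : ℕ) : (DD 2)^[j] (0 : MvPolynomial ℕ ℚ) = 0 := by
  have := d2d4_smul j 0 0
  rwa [zero_smul, zero_smul] at this

theorem d2d4_sum (j : ℕ) (β : ℚ) (hβ : 0 ≤ β) (l : List (ℚ × List Lk))
    (h : ∀ p ∈ l, (p.1 = 1 ∨ p.1 = -1) ∧ |Eo ((DD 2)^[j] (rib hh 0 p.2))| ≤ β) :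
    |Eo ((DD 2)^[j] ((l.map fun p => p.1 • rib hh 0 ([] ++ p.2)).sum))| ≤ l.length * β := by
  induction l with
  | nil => simp [d2d4_zero]
  | cons p l ih =>
    rw [List.map_cons, List.sum_cons, d2d4_add, map_add, d2d4_smul, map_smul, List.nil_append]
    have h1 := ih (fun q hq => h q (List.mem_cons_of_mem _ hq))
    obtain ⟨h2, h3⟩ := h p List.mem_cons_self
    refine (abs_add_le _ _).trans ?_
    have h4 : |p.1 • Eo ((DD 2)^[j] (rib hh 0 p.2))| ≤ β := by
      rw [smul_eq_mul, abs_mul]
      rcases h2 with h2 | h2 <;> rw [h2] <;> simpa using h3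
    rw [List.length_cons]
    push_cast
    linarith

/-- The general bound. -/
theorem d2d4_gen (h1 : P_DD_rib) (h2 : P_win_basic) (h3 : P_win_grow) (h4 : P_star)
    (h5 : P_gen_bound) (h6 : P_bw_star) (h7 : P_bw_nonneg) (h8 : P_N3) (h9 : P_ee_pos) :
    ∀ (j : ℕ) (v : List Lk) (N c : ℕ), v.count .s ≤ c → c + j ≤ 4 → 2 * j + 14 ≤ v.length + 1 →
      (win 2 (.s :: v)).length ≤ N →
      |Eo ((DD 2)^[j] (rib hh 0 (.s :: v)))| ≤ (∏ i ∈ range j, ((N : ℚ) + i)) *
        ((8 / 5) ^ (c + j) * (121 / 100) *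
          (mom 1 (v.length + 1 - 2 * j) * ee (v.length + 1 - 2 * j))) := by
  have hme : ∀ n, 0 ≤ mom 1 n * ee n := fun n => mul_nonneg (mom_nonneg 1 n) (h9 n).le
  intro j
  induction j with
  | zero =>
    intro v N c hc hcj hv _
    rw [Function.iterate_zero, id, Finset.range_zero, Finset.prod_empty, one_mul, mul_zero,
      Nat.sub_zero, add_zero]
    refine (d2d4_base h4 h5 h6 h7 h8 h9 v (by omega) (by omega)).trans ?_
    apply mul_le_mul_of_nonneg_right _ (hme _)
    apply mul_le_mul_of_nonneg_right _ (by norm_num)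
    exact pow_le_pow_right₀ (by norm_num) hc
  | succ j ih =>
    intro v N c hc hcj hv hN
    have e0 : rib hh 0 (.s :: v) = rib hh 1 v := rib_zero_s hh d2d4_hh_zero v
    rw [Function.iterate_succ_apply, e0, h1 2 (by norm_num) v, YY]
    obtain ⟨β, hβ⟩ : ∃ β : ℚ, β = (∏ i ∈ range j, (((N + 1 : ℕ) : ℚ) + i)) *
        ((8 / 5) ^ (c + 1 + j) * (121 / 100) *
          (mom 1 (v.length + 1 - 2 * (j + 1)) * ee (v.length + 1 - 2 * (j + 1)))) := ⟨_, rfl⟩
    have hβ0 : 0 ≤ β := by
      rw [hβ]
      apply mul_nonneg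
      · exact Finset.prod_nonneg fun i _ => by positivity
      · apply mul_nonneg (by positivity) (hme _)
    have hall : ∀ p ∈ win 2 (.s :: v), (p.1 = 1 ∨ p.1 = -1) ∧
        |Eo ((DD 2)^[j] (rib hh 0 p.2))| ≤ β := by
      intro p hp
      obtain ⟨g1, g2, g3⟩ := h2 2 (by norm_num) v p hp
      refine ⟨g2, ?_⟩
      rcases g3 with g3 | ⟨v', g3, g4⟩
      · rw [g3, List.length_nil] at g1
        omega
      have g5 : v'.length + 1 + 2 = v.length + 1 := by
        rw [g3, List.length_cons] at g1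
        exact g1
      have g6 := h3 v p hp
      rw [g3] at g6 ⊢
      have g7 := ih v' (N + 1) (c + 1) (by omega) (by omega) (by omega) (by omega)
      rw [hβ]
      have e1 : v'.length + 1 - 2 * j = v.length + 1 - 2 * (j + 1) := by omega
      rw [e1] at g7
      exact g7
    refine (d2d4_sum j β hβ0 _ hall).trans ?_
    have hNr : ((win 2 (.s :: v)).length : ℚ) ≤ N := by exact_mod_cast hN
    calc ((win 2 (.s :: v)).length : ℚ) * β ≤ N * β := mul_le_mul_of_nonneg_right hNr hβ0
      _ = _ := by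
        rw [hβ, Finset.prod_range_succ', show c + 1 + j = c + (j + 1) by ring]
        have e2 : ∏ i ∈ range j, (((N + 1 : ℕ) : ℚ) + (i : ℕ)) =
            ∏ i ∈ range j, ((N : ℚ) + ((i + 1 : ℕ) : ℚ)) := by
          apply Finset.prod_congr rfl
          intro i _
          push_cast
          ring
        rw [e2]
        push_cast
        ring

theorem p_D2 (h1 : P_DD_rib) (h2 : P_win_basic) (h3 : P_win_grow) (h4 : P_star)
    (h5 : P_gen_bound) (h6 : P_bw_star) (h7 : P_bw_nonneg) (h8 : P_N3) (h9 : P_ee_pos) :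
    P_D2 := by
  intro n w N hn hw hlen hN
  have hc : w.count .s = 0 := List.count_eq_zero.mpr hw
  have := d2d4_gen h1 h2 h3 h4 h5 h6 h7 h8 h9 2 w N 0 (by omega) (by norm_num) (by omega) hN
  rw [rib_zero_s hh d2d4_hh_zero] at this
  rw [hlen] at this
  refine this.trans (le_of_eq ?_)
  simp only [Finset.prod_range_succ, Finset.prod_range_zero]
  push_cast
  norm_num
  ring

theorem p_D4 (h1 : P_DD_rib) (h2 : P_win_basic) (h3 : P_win_grow) (h4 : P_star)
    (h5 : P_gen_bound) (h6 : P_bw_star) (h7 : P_bw_nonneg) (h8 : P_N3) (h9 : P_ee_pos) :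
    P_D4 := by
  intro n w N hn hw hlen hN
  have hc : w.count .s = 0 := List.count_eq_zero.mpr hw
  have := d2d4_gen h1 h2 h3 h4 h5 h6 h7 h8 h9 4 w N 0 (by omega) (by norm_num) (by omega) hN
  rw [rib_zero_s hh d2d4_hh_zero] at this
  rw [hlen] at this
  refine this.trans (le_of_eq ?_)
  simp only [Finset.prod_range_succ, Finset.prod_range_zero]
  push_cast
  norm_num
  ring

end Pool.Agent.Lib.MP_c22e22_co.V
end

section

open MvPolynomial Finset

namespace Pool.Agent.Lib.MP_c22e22_co.V

theorem Ds_gg_nonneg (k : ℕ) : 0 ≤ gg k := by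
  cases k with
  | zero => simp [gg]
  | succ k => simp only [gg]; positivity

theorem Ds_gg_le_one (k : ℕ) : gg k ≤ 1 := by
  cases k with
  | zero => simp [gg]
  | succ k =>
    simp only [gg]
    have h : ((5 : ℚ) / 6) ^ k ≤ 1 := pow_le_one₀ (by norm_num) (by norm_num)
    linarith

theorem Ds_bw_le (h6 : P_bw_gg) (h8 : P_ee_pos) (w : List Lk) (hw : NoS w) :
    bw w ≤ ee (w.length + 1) := by
  refine (h6 w hw).trans ?_
  have := h8 (w.length + 1)
  nlinarith [Ds_gg_le_one (cl w)]

theorem Ds_noS_append {u v : List Lk} (hu : NoS u) (hv : NoS v) : NoS (u ++ v) := by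
  unfold NoS at *
  simp [List.mem_append, hu, hv]

theorem Ds_aux (h1 : P_bw_gg) (h2 : P_bw_nonneg) (h3 : P_ee_pos) :
    ∀ w K : List Lk, NoS K → NoS w → ds K w ≤ cl w * ee (K.length + w.length - 1)
  | [], K, _, _ => by simp [ds, cl]
  | [x], K, _, _ => by simp [ds, cl]
  | x :: y :: w, K, hK, hw => by
    have hx : x ≠ .s := fun h => hw (by simp [h])
    have hy : y ≠ .s := fun h => hw (by simp [h])
    have hw1 : NoS (y :: w) := fun h => hw (List.mem_cons_of_mem _ h)
    have hw2 : NoS w := fun h => hw1 (List.mem_cons_of_mem _ h)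
    have hKx : NoS (K ++ [x]) := Ds_noS_append hK (by
      intro h
      rw [List.mem_singleton] at h
      exact hx h.symm)
    have ih := Ds_aux h1 h2 h3 (y :: w) (K ++ [x]) hKx hw1
    have e1 : (K ++ [x]).length + (y :: w).length - 1 = K.length + w.length + 1 := by
      simp only [List.length_append, List.length_cons, List.length_nil]; omega
    have e2 : K.length + (x :: y :: w).length - 1 = K.length + w.length + 1 := by
      simp only [List.length_cons]; omega
    rw [e1] at ih
    rw [e2]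
    simp only [ds, cl]
    have hb := Ds_bw_le h1 h3 (K ++ w) (Ds_noS_append hK hw2)
    rw [List.length_append] at hb
    have hb0 := h2 (K ++ w)
    have hp := h3 (K.length + w.length + 1)
    cases x <;> cases y <;> simp [sg] at hx hy ⊢ <;> push_cast at ih ⊢ <;> nlinarith

theorem p_ds (h1 : P_bw_gg) (h2 : P_bw_nonneg) (h3 : P_ee_pos) : P_ds := by
  intro w hw
  have := Ds_aux h1 h2 h3 w [] (by simp [NoS]) hw
  simpa using this

/-- `F` is a nonnegative combination of monomials of weight `d` (dual form) -/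
def Ds_P (d : ℕ) (F : MvPolynomial ℕ ℚ) : Prop :=
  ∀ L : MvPolynomial ℕ ℚ →ₗ[ℚ] ℚ,
    (∀ μ : ℕ →₀ ℕ, (μ.sum fun j e => (j - 1) * e) = d → 0 ≤ L (monomial μ 1)) → 0 ≤ L F

theorem Ds_P_zero (d : ℕ) : Ds_P d 0 := fun L _ => by simp

theorem Ds_P_add {d : ℕ} {F G : MvPolynomial ℕ ℚ} (hF : Ds_P d F) (hG : Ds_P d G) :
    Ds_P d (F + G) := fun L hL => by
  rw [map_add]; exact add_nonneg (hF L hL) (hG L hL)

theorem Ds_P_mul {d g : ℕ} {F : MvPolynomial ℕ ℚ} (hF : Ds_P d F) :
    Ds_P ((g - 1) + d) (pw g * F) := fun L hL => by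
  have := hF (L ∘ₗ LinearMap.mulLeft ℚ (pw g)) (by
    intro μ hμ
    simp only [LinearMap.comp_apply, LinearMap.mulLeft_apply]
    have e : pw g * monomial μ (1 : ℚ) = (1 / (g : ℚ)) • monomial (Finsupp.single g 1 + μ) 1 := by
      rw [pw, X, C_mul_monomial, monomial_mul, smul_monomial]
      simp
    rw [e, map_smul, smul_eq_mul]
    refine mul_nonneg (by positivity) (hL _ ?_)
    rw [Finsupp.sum_add_index' (by simp) (by intro a b c; ring), Finsupp.sum_single_index (by simp), hμ,
      mul_one])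
  simpa using this

theorem Ds_P_one : Ds_P 0 1 := fun L hL => hL 0 (by simp)

theorem Ds_cg_zero : ∀ (k g m : ℕ), k < m → cg k g m = 0
  | 0, _, m + 1, _ => by simp [cg]
  | k + 1, g, m + 1, h => by
    rw [cg, Ds_cg_zero k 1 m (by omega), Ds_cg_zero k (g + 1) (m + 1) (by omega)]
    simp

theorem Ds_P_cg : ∀ (k g m : ℕ), 1 ≤ g → Ds_P ((g - 1) + (k - m)) (cg k g m)
  | 0, g, 0, _ => by
    have := Ds_P_mul (g := g) Ds_P_one
    simpa [cg] using this
  | 0, g, m + 1, _ => by simpa [cg] using Ds_P_zero _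
  | k + 1, g, 0, hg => by
    have := Ds_P_cg k (g + 1) 0 (by omega)
    rw [cg]
    have e : g - 1 + (k + 1 - 0) = g + 1 - 1 + (k - 0) := by omega
    rw [e]; exact this
  | k + 1, g, m + 1, hg => by
    rw [cg]
    have h1 := Ds_P_mul (g := g) (Ds_P_cg k 1 m le_rfl)
    have e1 : g - 1 + (1 - 1 + (k - m)) = g - 1 + (k + 1 - (m + 1)) := by omega
    rw [e1] at h1
    refine Ds_P_add h1 ?_
    rcases Nat.lt_or_ge k (m + 1) with h | h
    · rw [Ds_cg_zero k (g + 1) (m + 1) h]; exact Ds_P_zero _
    · have h2 := Ds_P_cg k (g + 1) (m + 1) (by omega)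
      have e2 : g + 1 - 1 + (k - (m + 1)) = g - 1 + (k + 1 - (m + 1)) := by omega
      rw [e2] at h2
      exact h2

theorem p_Er_bound (h1 : P_star) (h2 : P_Er_mono) (h3 : P_Er_lin) (h5 : P_gen_bound)
    (h6 : P_bw_gg) (h7 : P_bw_nonneg) (h8 : P_ee_pos) : P_Er_bound := by
  intro w hw
  obtain ⟨L, hL⟩ := h3
  have hLn : ∀ μ, 0 ≤ L (monomial μ 1) := fun μ => by rw [hL]; exact (h2 μ).1
  have hterm : ∀ m, |L (XX [] 1 w m)| ≤ L (cg w.length 1 m) * ee (m + 1) := by
    intro m
    refine h5 L hLn w [] 1 m (ee (m + 1)) (h8 _).le ?_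
    intro K' hK' hlen _
    have hn : NoS K' := fun h => hw (hK'.subset h)
    rw [List.nil_append, abs_of_nonneg (h7 K')]
    have := Ds_bw_le h6 h8 K' hn
    rwa [hlen] at this
  have hzero : ∀ m, w.length - m < 6 → L (cg w.length 1 m) = 0 := by
    intro m hm
    have hc := Ds_P_cg w.length 1 m le_rfl
    have h0 : ∀ μ : ℕ →₀ ℕ, (μ.sum fun j e => (j - 1) * e) = 1 - 1 + (w.length - m) →
        L (monomial μ 1) = 0 := by
      intro μ hμ
      rw [hL]
      exact (h2 μ).2.2 (by rw [hμ]; omega)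
    have a := hc L (fun μ hμ => (h0 μ hμ).ge)
    have b := hc (-L) (fun μ hμ => by rw [LinearMap.neg_apply, h0 μ hμ, neg_zero])
    rw [LinearMap.neg_apply] at b
    linarith
  have hle : ∀ m, L (cg w.length 1 m) ≤ xE (m + 1) (w.length + 1) := by
    intro m
    have hc := Ds_P_cg w.length 1 m le_rfl (E - L) (by
      intro μ _
      rw [LinearMap.sub_apply, hL]
      linarith [(h2 μ).2.1])
    rw [LinearMap.sub_apply] at hc
    have : xE (m + 1) (w.length + 1) = E (cg w.length 1 m) := rfl
    rw [this]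
    linarith
  rw [h1 w, XS, ← hL, map_sum]
  refine (Finset.abs_sum_le_sum_abs _ _).trans ?_
  have hsub : range (w.length - 5) ⊆ range (w.length + 1) := by
    intro i hi
    simp only [Finset.mem_range] at hi ⊢
    omega
  calc ∑ m ∈ range (w.length + 1), |L (XX [] 1 w m)|
      ≤ ∑ m ∈ range (w.length + 1), L (cg w.length 1 m) * ee (m + 1) :=
        Finset.sum_le_sum fun m _ => hterm m
    _ = ∑ m ∈ range (w.length - 5), L (cg w.length 1 m) * ee (m + 1) := by
        refine (Finset.sum_subset hsub ?_).symm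
        intro m hm hm'
        simp only [Finset.mem_range] at hm hm'
        rw [hzero m (by omega), zero_mul]
    _ ≤ ∑ m ∈ range (w.length - 5), xE (m + 1) (w.length + 1) * ee (m + 1) :=
        Finset.sum_le_sum fun m _ => mul_le_mul_of_nonneg_right (hle m) (h8 _).le

end Pool.Agent.Lib.MP_c22e22_co.V
end

section

/-!
# The numbers `e_n` as values of iterated integrals
-/

namespace Pool.Agent.Lib.MP_c22e22_co.V

open intervalIntegral MeasureTheory

theorem EeFf_altw_co : ∀ k : ℕ, (altw k true).map Lk.co = altw k false ∧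
    (altw k false).map Lk.co = altw k true
  | 0 => ⟨rfl, rfl⟩
  | k + 1 => by
      have h := EeFf_altw_co k
      exact ⟨by simp [altw, Lk.co, h.2], by simp [altw, Lk.co, h.1]⟩

theorem p_bw_altw (h : P_bw_co) : P_bw_altw := by
  intro k b
  cases b with
  | true => rfl
  | false =>
      rw [← (EeFf_altw_co k).1, h]
      rfl

theorem EeFf_cont : ∀ k : ℕ, Continuous (ff k)
  | 0 => by
      have : ff 0 = fun _ => (1 : ℝ) := by funext x; rfl
      rw [this]; exact continuous_const
  | k + 1 => by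
      have h := EeFf_cont k
      have e : ff (k + 1) = (fun y => ∫ t in (0 : ℝ)..y, ff k t) ∘ (fun x => 1 - x) := by
        funext x; rfl
      rw [e]
      exact (intervalIntegral.continuous_primitive (fun a b => h.intervalIntegrable a b) 0).comp
        (continuous_const.sub continuous_id)

theorem EeFf_prim (k : ℕ) (y : ℝ) :
    HasDerivAt (fun y => ∫ t in (0 : ℝ)..y, ff k t) (ff k y) y :=
  intervalIntegral.integral_hasDerivAt_right ((EeFf_cont k).intervalIntegrable _ _)
    ((EeFf_cont k).stronglyMeasurableAtFilter _ _) (EeFf_cont k).continuousAt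

theorem EeFf_deriv (k : ℕ) (x : ℝ) : HasDerivAt (ff (k + 1)) (-ff k (1 - x)) x := by
  have h1 := EeFf_prim k (1 - x)
  have h2 : HasDerivAt (fun x : ℝ => 1 - x) (-1) x := by
    simpa using (hasDerivAt_id x).const_sub 1
  have h3 := h1.comp x h2
  have e : ff (k + 1) = (fun y => ∫ t in (0 : ℝ)..y, ff k t) ∘ (fun x => 1 - x) := by
    funext x; rfl
  rw [e]
  simpa using h3

theorem EeFf_deriv' (k : ℕ) (x : ℝ) : HasDerivAt (fun x => ff (k + 1) (1 - x)) (ff k x) x := by
  have h1 := EeFf_prim k x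
  have e : (fun x => ff (k + 1) (1 - x)) = fun y => ∫ t in (0 : ℝ)..y, ff k t := by
    funext x
    show (∫ t in (0 : ℝ)..(1 - (1 - x)), ff k t) = _
    congr 1; ring
  rw [e]; exact h1

theorem EeFf_pow (m : ℕ) (x : ℝ) :
    HasDerivAt (fun x : ℝ => x ^ (m + 1) / ((m + 1).factorial : ℝ)) (x ^ m / (m.factorial : ℝ)) x := by
  have h := (hasDerivAt_pow (m + 1) x).div_const ((m + 1).factorial : ℝ)
  have e : ((m + 1 : ℕ) : ℝ) * x ^ (m + 1 - 1) / ((m + 1).factorial : ℝ) =
      x ^ m / (m.factorial : ℝ) := by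
    rw [Nat.factorial_succ]
    push_cast
    have : (m.factorial : ℝ) ≠ 0 := by positivity
    have h2 : ((m : ℝ) + 1) ≠ 0 := by positivity
    field_simp
  rw [← e]
  exact h

/-- integration by parts with `x^(m+1)/(m+1)!` -/
theorem EeFf_parts (m : ℕ) {F f : ℝ → ℝ} (hF : ∀ x, HasDerivAt F (f x) x) (hf : Continuous f) :
    ∫ x in (0 : ℝ)..1, x ^ m / (m.factorial : ℝ) * F x =
      1 / ((m + 1).factorial : ℝ) * F 1 -
        ∫ x in (0 : ℝ)..1, x ^ (m + 1) / ((m + 1).factorial : ℝ) * f x := by
  have h := intervalIntegral.integral_deriv_mul_eq_sub (a := (0 : ℝ)) (b := 1)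
    (u := fun x : ℝ => x ^ (m + 1) / ((m + 1).factorial : ℝ)) (v := F)
    (u' := fun x => x ^ m / (m.factorial : ℝ)) (v' := f)
    (fun x _ => EeFf_pow m x) (fun x _ => hF x)
    (by apply Continuous.intervalIntegrable; fun_prop) (hf.intervalIntegrable _ _)
  have hFc : Continuous F := continuous_iff_continuousAt.mpr fun x => (hF x).continuousAt
  rw [intervalIntegral.integral_add] at h
  · simp only [one_pow, ne_eq, Nat.add_eq_zero_iff, one_ne_zero, and_false, not_false_eq_true,
      zero_pow, zero_div, zero_mul, sub_zero] at h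
    linarith
  · apply Continuous.intervalIntegrable; fun_prop
  · apply Continuous.intervalIntegrable; fun_prop

theorem EeFf_rib : ∀ (k m : ℕ),
    (((rib (fun k => 1 / (k.factorial : ℚ)) (m + 1) (altw k false) : ℚ) : ℝ) =
      ∫ x in (0 : ℝ)..1, x ^ m / (m.factorial : ℝ) * ff k x) ∧
    (((rib (fun k => 1 / (k.factorial : ℚ)) (m + 1) (altw k true) : ℚ) : ℝ) =
      ∫ x in (0 : ℝ)..1, x ^ m / (m.factorial : ℝ) * ff k (1 - x))
  | 0, m => by
      have h : ∫ x in (0 : ℝ)..1, x ^ m / (m.factorial : ℝ) = 1 / ((m + 1).factorial : ℝ) := by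
        have := intervalIntegral.integral_eq_sub_of_hasDerivAt (a := (0 : ℝ)) (b := 1)
          (f := fun x : ℝ => x ^ (m + 1) / ((m + 1).factorial : ℝ))
          (f' := fun x => x ^ m / (m.factorial : ℝ))
          (fun x _ => EeFf_pow m x) (by apply Continuous.intervalIntegrable; fun_prop)
        rw [this]; simp
      constructor
      · simp only [altw, rib, ff, mul_one]
        rw [h]; push_cast; rfl
      · simp only [altw, rib, ff, mul_one]
        rw [h]; push_cast; rfl
  | k + 1, m => by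
      constructor
      · have h := EeFf_parts m (F := ff (k + 1)) (f := fun x => -ff k (1 - x))
          (EeFf_deriv k) (by have := EeFf_cont k; fun_prop)
        have h1 : ff (k + 1) 1 = 0 := by
          show (∫ t in (0 : ℝ)..(1 - 1), ff k t) = 0
          simp
        have h2 := (EeFf_rib k (m + 1)).2
        rw [h, h1]
        simp only [altw, rib]
        rw [h2]
        simp [intervalIntegral.integral_neg]
      · have h := EeFf_parts m (F := fun x => ff (k + 1) (1 - x)) (f := ff k)
          (EeFf_deriv' k) (EeFf_cont k)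
        have h2 := (EeFf_rib k (m + 1)).1
        have h3 := (EeFf_rib k 0).1
        rw [h]
        simp only [altw, rib]
        push_cast
        rw [h2]
        rw [h3]
        have h4 : ff (k + 1) (1 - 1) = ∫ x in (0 : ℝ)..1, ff k x := by
          show (∫ t in (0 : ℝ)..(1 - (1 - 1)), ff k t) = _
          simp
        rw [h4]
        simp

theorem p_ee_ff : P_ee_ff := by
  intro k
  cases k with
  | zero => simp [ee, ff]
  | succ k =>
      have h := (EeFf_rib k 0).2
      have h2 : ff (k + 1) 0 = ∫ x in (0 : ℝ)..1, ff k (1 - x) := by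
        rw [intervalIntegral.integral_comp_sub_left (fun x => ff k x) 1]
        show (∫ t in (0 : ℝ)..(1 - 0), ff k t) = _
        simp
      rw [h2]
      show ((rib (fun k => 1 / (k.factorial : ℚ)) 1 (altw k true) : ℚ) : ℝ) = _
      rw [h]
      simp

theorem EeFf_pos : ∀ (k : ℕ) (x : ℝ), 0 ≤ x → x < 1 → 0 < ff k x
  | 0, _, _, _ => by show (0 : ℝ) < 1; exact one_pos
  | k + 1, x, h0, h1 => by
      show 0 < ∫ t in (0 : ℝ)..(1 - x), ff k t
      apply intervalIntegral.intervalIntegral_pos_of_pos_on ((EeFf_cont k).intervalIntegrable _ _)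
      · intro t ht
        exact EeFf_pos k t ht.1.le (by linarith [ht.2])
      · linarith

theorem p_ee_pos : P_ee_pos := by
  intro n
  have h := p_ee_ff n
  have h2 := EeFf_pos n 0 le_rfl one_pos
  rw [← h] at h2
  exact_mod_cast h2

theorem EeFf_zig : ∀ n : ℕ, n < 23 → ee n = (zig.getD n 0 : ℕ) / (n.factorial : ℚ) := by
  decide +kernel

theorem p_ee_zig : P_ee_zig := fun n hn => EeFf_zig n (by omega)

theorem p_ee_val : P_ee_val := by
  refine ⟨?_, ?_, ?_, ?_, ?_, ?_, ?_, ?_, ?_, ?_, ?_, ?_, ?_, ?_, ?_⟩ <;> decide +kernel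

end Pool.Agent.Lib.MP_c22e22_co.V
end

section

/-!
Log-convexity of the involution numbers and the numeric bounds `P_N4`.
-/

namespace Pool.Agent.Lib.MP_c22e22_co.V

theorem Imono_succ (n : ℕ) : mom 1 (n + 2) = mom 1 (n + 1) + ((n : ℚ) + 1) * mom 1 n := by
  rw [mom]
  simp

theorem Imono_zero : mom 1 0 = 1 := by rw [mom]

theorem Imono_one : mom 1 1 = 1 := by rw [mom]; simp

/-- positivity, monotonicity and the two inequalities -/
theorem Imono_aux (k : ℕ) : 0 < mom 1 k ∧ mom 1 k ≤ mom 1 (k + 1) ∧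
    mom 1 (k + 1) ^ 2 ≤ mom 1 k * mom 1 (k + 1) + ((k : ℚ) + 1) * mom 1 k ^ 2 ∧
    ((k : ℚ) + 1) * (mom 1 (k + 1) + ((k : ℚ) + 1) * mom 1 k) * mom 1 k ≤
      ((k : ℚ) + 2) * mom 1 (k + 1) ^ 2 := by
  induction k with
  | zero =>
    rw [zero_add, Imono_zero, Imono_one]
    norm_num
  | succ n ih =>
    obtain ⟨h0, h1, hA, hB⟩ := ih
    rw [Imono_succ n]
    push_cast
    set x := mom 1 n with hx
    set y := mom 1 (n + 1) with hy
    have hn : (0 : ℚ) ≤ n := Nat.cast_nonneg n
    have hy0 : 0 < y := lt_of_lt_of_le h0 h1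
    set N : ℚ := (n : ℚ) + 1 with hN
    have hN0 : 0 < N := by positivity
    have e1 : (n : ℚ) + 2 = N + 1 := by rw [hN]; ring
    rw [e1] at hB
    refine ⟨hy0, ?_, ?_, ?_⟩
    · nlinarith [mul_pos hN0 h0]
    · nlinarith
    · have h2 : 0 ≤ N * (x * y) := by positivity
      have h3 : 0 ≤ N * ((N + 2) * (x * y + N * x ^ 2 - y ^ 2)) := by
        apply mul_nonneg hN0.le
        apply mul_nonneg (by positivity)
        linarith
      nlinarith

theorem Imono_pos (k : ℕ) : 0 < mom 1 k := (Imono_aux k).1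

theorem Imono_sq (k : ℕ) : mom 1 (k + 1) * mom 1 (k + 1) ≤ mom 1 (k + 2) * mom 1 k := by
  have h := (Imono_aux k).2.2.1
  rw [Imono_succ]
  nlinarith

/-- the quotients increase -/
theorem Imono_quot (m d : ℕ) : mom 1 (m + 1) * mom 1 (m + d) ≤ mom 1 (m + 1 + d) * mom 1 m := by
  induction d with
  | zero => simp
  | succ d ih =>
    have h1 := Imono_sq (m + d)
    have h2 := Imono_pos (m + d)
    have h3 := Imono_pos (m + 1 + d)
    have h4 := Imono_pos m
    have e1 : m + (d + 1) = m + 1 + d := by ring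
    have e2 : m + 1 + (d + 1) = m + d + 2 := by ring
    have e3 : m + d + 1 = m + 1 + d := by ring
    rw [e3] at h1
    rw [e1, e2]
    have h5 : mom 1 (m + d) * (mom 1 (m + 1) * mom 1 (m + 1 + d)) ≤
        mom 1 (m + d) * (mom 1 (m + d + 2) * mom 1 m) := by
      calc mom 1 (m + d) * (mom 1 (m + 1) * mom 1 (m + 1 + d))
          = (mom 1 (m + 1) * mom 1 (m + d)) * mom 1 (m + 1 + d) := by ring
        _ ≤ (mom 1 (m + 1 + d) * mom 1 m) * mom 1 (m + 1 + d) :=
            mul_le_mul_of_nonneg_right ih h3.le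
        _ = (mom 1 (m + 1 + d) * mom 1 (m + 1 + d)) * mom 1 m := by ring
        _ ≤ (mom 1 (m + d + 2) * mom 1 (m + d)) * mom 1 m := mul_le_mul_of_nonneg_right h1 h4.le
        _ = mom 1 (m + d) * (mom 1 (m + d + 2) * mom 1 m) := by ring
    exact le_of_mul_le_mul_left h5 h2

theorem p_I_mono : P_I_mono := by
  intro m n hm hmn
  obtain ⟨m, rfl⟩ : ∃ k, m = k + 1 := ⟨m - 1, by omega⟩
  obtain ⟨d, rfl⟩ : ∃ d, n = m + 1 + d := ⟨n - (m + 1), by omega⟩
  have e : m + 1 + d - 1 = m + d := by omega
  rw [e, Nat.add_sub_cancel]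
  exact Imono_quot m d

/-- several steps -/
theorem Imono_steps (m d j : ℕ) : mom 1 (m + j) * mom 1 (m + d) ≤ mom 1 (m + j + d) * mom 1 m := by
  induction j with
  | zero => simp [mul_comm]
  | succ j ih =>
    have h1 := Imono_quot (m + j) d
    have h2 := Imono_pos (m + j)
    have h3 := Imono_pos m
    have h4 := Imono_pos (m + j + 1)
    have h5 : mom 1 (m + j) * (mom 1 (m + (j + 1)) * mom 1 (m + d)) ≤
        mom 1 (m + j) * (mom 1 (m + (j + 1) + d) * mom 1 m) := by
      have e1 : m + (j + 1) = m + j + 1 := by ring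
      rw [e1]
      calc mom 1 (m + j) * (mom 1 (m + j + 1) * mom 1 (m + d))
          = mom 1 (m + j + 1) * (mom 1 (m + j) * mom 1 (m + d)) := by ring
        _ ≤ mom 1 (m + j + 1) * (mom 1 (m + j + d) * mom 1 m) :=
            mul_le_mul_of_nonneg_left ih h4.le
        _ = (mom 1 (m + j + 1) * mom 1 (m + j + d)) * mom 1 m := by ring
        _ ≤ (mom 1 (m + j + 1 + d) * mom 1 (m + j)) * mom 1 m :=
            mul_le_mul_of_nonneg_right h1 h3.le
        _ = mom 1 (m + j) * (mom 1 (m + j + 1 + d) * mom 1 m) := by ring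
    exact le_of_mul_le_mul_left h5 h2

theorem Imono_vals : mom 1 14 = 2390480 ∧ mom 1 18 = 997313824 ∧ mom 1 19 = 4809701440 ∧
    mom 1 22 = 618884638912 := by
  have h2 := Imono_succ 0
  have h3 := Imono_succ 1
  have h4 := Imono_succ 2
  have h5 := Imono_succ 3
  have h6 := Imono_succ 4
  have h7 := Imono_succ 5
  have h8 := Imono_succ 6
  have h9 := Imono_succ 7
  have h10 := Imono_succ 8
  have h11 := Imono_succ 9
  have h12 := Imono_succ 10
  have h13 := Imono_succ 11
  have h14 := Imono_succ 12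
  have h15 := Imono_succ 13
  have h16 := Imono_succ 14
  have h17 := Imono_succ 15
  have h18 := Imono_succ 16
  have h19 := Imono_succ 17
  have h20 := Imono_succ 18
  have h21 := Imono_succ 19
  have h22 := Imono_succ 20
  norm_num [Imono_zero, Imono_one] at h2
  norm_num [Imono_one, h2] at h3
  norm_num [h2, h3] at h4
  norm_num [h3, h4] at h5
  norm_num [h4, h5] at h6
  norm_num [h5, h6] at h7
  norm_num [h6, h7] at h8
  norm_num [h7, h8] at h9
  norm_num [h8, h9] at h10
  norm_num [h9, h10] at h11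
  norm_num [h10, h11] at h12
  norm_num [h11, h12] at h13
  norm_num [h12, h13] at h14
  norm_num [h13, h14] at h15
  norm_num [h14, h15] at h16
  norm_num [h15, h16] at h17
  norm_num [h16, h17] at h18
  norm_num [h17, h18] at h19
  norm_num [h18, h19] at h20
  norm_num [h19, h20] at h21
  norm_num [h20, h21] at h22
  exact ⟨h14, h18, h19, h22⟩

theorem p_N4 (_h : P_I_mono) : P_N4 := by
  intro n hn
  obtain ⟨e14, e18, e19, e22⟩ := Imono_vals
  obtain ⟨d, rfl⟩ : ∃ d, n = 22 + d := ⟨n - 22, by omega⟩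
  have h1 := Imono_steps 19 d 3
  have h2 := Imono_steps 18 d 4
  have h3 := Imono_steps 14 d 8
  have f1 : 22 + d - 3 = 19 + d := by omega
  have f2 : 22 + d - 4 = 18 + d := by omega
  have f3 : 22 + d - 8 = 14 + d := by omega
  rw [f1, f2, f3]
  norm_num only at h1 h2 h3
  rw [e19, e22] at h1
  rw [e18, e22] at h2
  rw [e14, e22] at h3
  have g1 := Imono_pos (19 + d)
  have g2 := Imono_pos (18 + d)
  have g3 := Imono_pos (14 + d)
  refine ⟨?_, ?_, ?_⟩ <;> linarith

end Pool.Agent.Lib.MP_c22e22_co.V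
end

section

/-!
Involutions increasing on the fibres of a monotone block map correspond to block maps.
-/

namespace Pool.Agent.Lib.MP_c22e22_co.V

open Finset

theorem invA_perm_of_fibres {α : Type*} [DecidableEq α] {n : ℕ} (f g : Fin n → α)
    (h : ∀ y, #{x | g x = y} = #{x | f x = y}) :
    ∃ ρ : Equiv.Perm (Fin n), ∀ x, f (ρ x) = g x := by
  classical
  have e : ∀ y, Nonempty ({x // g x = y} ≃ {x // f x = y}) := by
    intro y
    refine ⟨Fintype.equivOfCardEq ?_⟩
    rw [Fintype.card_subtype, Fintype.card_subtype]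
    exact h y
  let e' := fun y => (e y).some
  refine ⟨(Equiv.sigmaFiberEquiv g).symm.trans
    ((Equiv.sigmaCongrRight fun y => e' y).trans (Equiv.sigmaFiberEquiv f)), ?_⟩
  intro x
  have h1 : ∀ z : Σ y, {x // g x = y},
      f ((Equiv.sigmaFiberEquiv f) ((Equiv.sigmaCongrRight fun y => e' y) z)) = z.1 := by
    rintro ⟨y, z⟩
    exact ((e' y) z).2
  exact h1 ((Equiv.sigmaFiberEquiv g).symm x)

theorem p_invA : P_invA := by
  classical
  intro n k β hβ
  unfold CF
  apply Nat.card_congr
  have hwd : ∀ σ : Equiv.Perm (Fin n), σ * σ = 1 →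
      (∀ x y, x < y → β x = β y → σ x < σ y) →
      (∀ x y, x < y → β x = β y → β (σ x) ≤ β (σ y)) ∧
      ∀ i j, #{x | β x = i ∧ β (σ x) = j} = #{x | β x = j ∧ β (σ x) = i} := by
    intro σ h1 h2
    have h3 : ∀ x, σ (σ x) = x := fun x => by
      have := congrArg (fun τ : Equiv.Perm (Fin n) => τ x) h1
      simpa using this
    refine ⟨fun x y hxy hb => hβ (h2 x y hxy hb).le, ?_⟩
    intro i j
    refine Finset.card_bij' (fun x _ => σ x) (fun x _ => σ x) ?_ ?_ ?_ ?_
    · intro x hx
      simp only [mem_filter, mem_univ, true_and] at hx ⊢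
      exact ⟨hx.2, by rw [h3]; exact hx.1⟩
    · intro x hx
      simp only [mem_filter, mem_univ, true_and] at hx ⊢
      exact ⟨hx.2, by rw [h3]; exact hx.1⟩
    · intro x _
      exact h3 x
    · intro x _
      exact h3 x
  let F : {σ : Equiv.Perm (Fin n) // σ * σ = 1 ∧ ∀ x y, x < y → β x = β y → σ x < σ y} →
      {c : Fin n → Fin k // (∀ x y, x < y → β x = β y → c x ≤ c y) ∧
        ∀ i j, #{x | β x = i ∧ c x = j} = #{x | β x = j ∧ c x = i}} :=
    fun σ => ⟨fun x => β (σ.1 x), (hwd σ.1 σ.2.1 σ.2.2).1, (hwd σ.1 σ.2.1 σ.2.2).2⟩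
  -- characterisation
  have hsort : ∀ σ : Equiv.Perm (Fin n), σ * σ = 1 →
      (∀ x y, x < y → β x = β y → σ x < σ y) →
      σ = Tuple.sort (fun x => toLex (β (σ x), β x)) := by
    intro σ h1 h2
    have h3 : ∀ x, σ (σ x) = x := fun x => by
      have := congrArg (fun τ : Equiv.Perm (Fin n) => τ x) h1
      simpa using this
    rw [Tuple.eq_sort_iff]
    constructor
    · intro x y hxy
      show toLex (β (σ (σ x)), β (σ x)) ≤ toLex (β (σ (σ y)), β (σ y))
      rw [h3, h3, Prod.Lex.toLex_le_toLex]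
      rcases (hβ hxy).lt_or_eq with h4 | h4
      · exact Or.inl h4
      · rcases hxy.lt_or_eq with h5 | h5
        · exact Or.inr ⟨h4, hβ (h2 x y h5 h4).le⟩
        · subst h5
          exact Or.inr ⟨rfl, le_rfl⟩
    · intro i j hij hf
      have h4 : toLex (β (σ (σ i)), β (σ i)) = toLex (β (σ (σ j)), β (σ j)) := hf
      rw [h3, h3] at h4
      have h5 := (Prod.ext_iff.mp (toLex.injective h4)).1
      exact h2 i j hij h5
  refine Equiv.ofBijective F ⟨?_, ?_⟩
  · intro σ τ h
    have h1 : ∀ x, β (σ.1 x) = β (τ.1 x) := fun x => congrFun (congrArg Subtype.val h) x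
    apply Subtype.ext
    rw [hsort σ.1 σ.2.1 σ.2.2, hsort τ.1 τ.2.1 τ.2.2]
    congr 1
    funext x
    rw [h1]
  · rintro ⟨c, hc1, hc2⟩
    let f : Fin n → Lex (Fin k × Fin k) := fun x => toLex (c x, β x)
    let g : Fin n → Lex (Fin k × Fin k) := fun x => toLex (β x, c x)
    have hg : Monotone g := by
      intro x y hxy
      show toLex (β x, c x) ≤ toLex (β y, c y)
      rw [Prod.Lex.toLex_le_toLex]
      rcases (hβ hxy).lt_or_eq with h4 | h4
      · exact Or.inl h4
      · rcases hxy.lt_or_eq with h5 | h5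
        · exact Or.inr ⟨h4, hc1 x y h5 h4⟩
        · subst h5
          exact Or.inr ⟨rfl, le_rfl⟩
    obtain ⟨ρ, hρ⟩ := invA_perm_of_fibres f g (by
      intro y
      obtain ⟨⟨i, j⟩, rfl⟩ : ∃ z, toLex z = y := ⟨ofLex y, rfl⟩
      have h1 : (univ.filter fun x => g x = toLex (i, j)) =
          univ.filter fun x => β x = i ∧ c x = j := by
        ext x
        simp only [mem_filter, mem_univ, true_and, g]
        rw [toLex.injective.eq_iff, Prod.mk.injEq]
      have h2 : (univ.filter fun x => f x = toLex (i, j)) =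
          univ.filter fun x => β x = j ∧ c x = i := by
        ext x
        simp only [mem_filter, mem_univ, true_and, f]
        rw [toLex.injective.eq_iff, Prod.mk.injEq, and_comm]
      rw [h1, h2]
      exact hc2 i j)
    set π := Tuple.sort f with hπ
    have hπe := (Tuple.eq_sort_iff (σ := π) (f := f)).mp hπ
    have hfπ : f ∘ π = g := by
      have h1 : f ∘ ρ = g := funext hρ
      rw [← h1]
      refine Tuple.unique_monotone hπe.1 ?_
      rw [h1]
      exact hg
    have h1 : ∀ x, c (π x) = β x := fun x =>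
      (Prod.ext_iff.mp (toLex.injective (congrFun hfπ x))).1
    have h2 : ∀ x, β (π x) = c x := fun x =>
      (Prod.ext_iff.mp (toLex.injective (congrFun hfπ x))).2
    have hi1 : ∀ x, π⁻¹ (π x) = x := fun x => π.symm_apply_apply x
    have hi2 : ∀ x, π (π⁻¹ x) = x := fun x => π.apply_symm_apply x
    have h3 : ∀ z, f (π⁻¹ z) = g z := by
      intro z
      obtain ⟨x, rfl⟩ := π.surjective z
      rw [hi1]
      show toLex (c x, β x) = toLex (β (π x), c (π x))
      rw [h1, h2]
    have h4 : π⁻¹ = π := by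
      rw [hπ, ← hπ]
      rw [show (π⁻¹ = π) ↔ (π⁻¹ = Tuple.sort f) from by rw [← hπ]]
      rw [Tuple.eq_sort_iff]
      constructor
      · have : f ∘ (π⁻¹ : Equiv.Perm (Fin n)) = g := funext h3
        rw [this]
        exact hg
      · intro i j hij hf
        rw [h3, h3] at hf
        by_contra hcon
        have h5 : π⁻¹ j < π⁻¹ i := by
          rcases lt_or_eq_of_le (not_lt.mp hcon) with h6 | h6
          · exact h6
          · exact absurd (π⁻¹.injective h6) hij.ne'
        have h6 : f i = f j := by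
          have h7 := Prod.ext_iff.mp (toLex.injective hf)
          show toLex (c i, β i) = toLex (c j, β j)
          have h8 : β i = β j := h7.1
          have h9 : c i = c j := h7.2
          rw [h8, h9]
        have h7 := hπe.2 _ _ h5 (by
          rw [hi2, hi2]
          exact h6.symm)
        rw [hi2, hi2] at h7
        exact absurd h7 hij.not_gt
    refine ⟨⟨π, ?_, ?_⟩, ?_⟩
    · nth_rewrite 1 [← h4]
      exact inv_mul_cancel π
    · intro x y hxy hb
      rcases (hc1 x y hxy hb).lt_or_eq with h5 | h5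
      · by_contra hcon
        have h6 := hβ (not_lt.mp hcon)
        rw [h2, h2] at h6
        exact absurd h5 (not_lt.mpr h6)
      · refine hπe.2 x y hxy ?_
        have h6 : f (π x) = g x := congrFun hfπ x
        have h7 : f (π y) = g y := congrFun hfπ y
        rw [h6, h7]
        show toLex (β x, c x) = toLex (β y, c y)
        rw [hb, h5]
    · apply Subtype.ext
      funext x
      exact h2 x

end Pool.Agent.Lib.MP_c22e22_co.V
end

section

/-!
# The rest functional on monomials
-/

open MvPolynomial Finset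

namespace Pool.Agent.Lib.MP_c22e22_co.V

lemma Rest_DD (μ : ℕ →₀ ℕ) (c : ℚ) :
    DD 2 (monomial μ c) = monomial (μ - Finsupp.single 2 1) (2 * (c * (μ 2 : ℕ))) := by
  rw [DD, pderiv_monomial, smul_monomial]
  simp

lemma Rest_Eo (ν : ℕ →₀ ℕ) (c : ℚ) :
    Eo (monomial ν c) = c * (momo 2 (ν 2) * (ν.erase 2).prod momo) := by
  rw [Eo, Lf_monomial, prod_erase momo momo_zero ν 2]

lemma Rest_E (ν : ℕ →₀ ℕ) (c : ℚ) :
    E (monomial ν c) = c * (mom 2 (ν 2) * (ν.erase 2).prod mom) := by
  rw [E, Lf_monomial, prod_erase mom mom_zero ν 2]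

lemma Rest_erase (ν : ℕ →₀ ℕ) : (ν - Finsupp.single 2 1).erase 2 = ν.erase 2 := by
  ext i
  by_cases hi : i = 2
  · subst hi; simp
  · simp [Finsupp.erase_ne hi, hi]

lemma Rest_at (ν : ℕ →₀ ℕ) : (ν - Finsupp.single 2 1 : ℕ →₀ ℕ) 2 = ν 2 - 1 := by simp

lemma Rest_Eo2 (μ : ℕ →₀ ℕ) : Eo (DD 2 (DD 2 (monomial μ 1))) =
    (if μ 2 = 2 then 8 else 0) * (μ.erase 2).prod momo := by
  rw [Rest_DD, Rest_DD, Rest_Eo]
  simp only [Rest_erase, Rest_at]
  generalize (μ.erase 2).prod momo = N
  generalize μ 2 = x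
  rcases x with _ | _ | _ | a
  · simp
  · simp
  · norm_num [momo, mom]
  · have h1 : momo 2 (a + 1 + 1 + 1 - 1 - 1) = 0 := by
      unfold momo
      rw [if_pos ⟨rfl, by omega⟩]
    rw [h1, if_neg (by omega)]
    ring

lemma Rest_Eo4 (μ : ℕ →₀ ℕ) : Eo (DD 2 (DD 2 (DD 2 (DD 2 (monomial μ 1))))) =
    (if μ 2 = 4 then 384 else 0) * (μ.erase 2).prod momo := by
  rw [Rest_DD, Rest_DD, Rest_DD, Rest_DD, Rest_Eo]
  simp only [Rest_erase, Rest_at]
  generalize (μ.erase 2).prod momo = N
  generalize μ 2 = x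
  rcases x with _ | _ | _ | _ | _ | a
  · simp
  · simp
  · simp
  · simp
  · norm_num [momo, mom]
  · have h1 : momo 2 (a + 1 + 1 + 1 + 1 + 1 - 1 - 1 - 1 - 1) = 0 := by
      unfold momo
      rw [if_pos ⟨rfl, by omega⟩]
    rw [h1, if_neg (by omega)]
    ring

lemma Rest_dich (μ : ℕ →₀ ℕ) :
    ((μ.erase 2).prod momo = (μ.erase 2).prod mom) ∨
    ((μ.erase 2).prod momo = 0 ∧ ∃ j, j ≠ 2 ∧ j % 2 = 0 ∧ μ j ≠ 0) := by
  by_cases h : ∃ j ∈ (μ.erase 2).support, j % 2 = 0
  · right
    obtain ⟨j, hj, hj2⟩ := h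
    have hj' := hj
    rw [Finsupp.support_erase, Finset.mem_erase, Finsupp.mem_support_iff] at hj'
    refine ⟨?_, j, hj'.1, hj2, hj'.2⟩
    apply Finset.prod_eq_zero hj
    unfold momo
    have h3 : 0 < (Finsupp.erase 2 μ) j := by
      rw [Finsupp.erase_ne hj'.1]
      exact Nat.pos_of_ne_zero hj'.2
    rw [if_pos ⟨hj2, h3⟩]
  · left
    push Not at h
    apply Finset.prod_congr rfl
    intro j hj
    unfold momo
    rw [if_neg]
    rintro ⟨h1, _⟩
    exact h j hj h1

lemma Rest_mom2 : mom 2 0 = 1 ∧ mom 2 1 = 0 ∧ mom 2 2 = 2 ∧ mom 2 3 = 0 ∧ mom 2 4 = 12 ∧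
    mom 2 5 = 0 := by
  refine ⟨?_, ?_, ?_, ?_, ?_, ?_⟩ <;> norm_num [mom]

theorem p_Er_mono : P_Er_mono := by
  intro μ
  have hE : E (monomial μ 1) = mom 2 (μ 2) * (μ.erase 2).prod mom := by
    rw [Rest_E, one_mul]
  have hEo : Eo (monomial μ 1) = momo 2 (μ 2) * (μ.erase 2).prod momo := by
    rw [Rest_Eo, one_mul]
  have hEr : Er (monomial μ 1) = mom 2 (μ 2) * (μ.erase 2).prod mom -
      (momo 2 (μ 2) + 1 / 4 * (if μ 2 = 2 then 8 else 0) + 1 / 32 * (if μ 2 = 4 then 384 else 0)) *
        (μ.erase 2).prod momo := by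
    rw [Er, hE, hEo, Rest_Eo2, Rest_Eo4]
    ring
  have hE0 : 0 ≤ E (monomial μ 1) := E_nonneg μ
  have hw : ∀ j, μ j ≠ 0 → (j - 1) * μ j ≤ μ.sum fun j e => (j - 1) * e := by
    intro j hj
    rw [Finsupp.sum]
    exact Finset.single_le_sum (f := fun j => (j - 1) * μ j) (fun _ _ => Nat.zero_le _)
      (Finsupp.mem_support_iff.mpr hj)
  rcases Rest_dich μ with h | ⟨h, j, hj2, hje, hj0⟩
  · -- equal products
    have hEr' : Er (monomial μ 1) = (mom 2 (μ 2) - (momo 2 (μ 2) +
        1 / 4 * (if μ 2 = 2 then 8 else 0) + 1 / 32 * (if μ 2 = 4 then 384 else 0))) *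
        (μ.erase 2).prod mom := by
      rw [hEr, h]; ring
    obtain ⟨m0, m1, m2, m3, m4, m5⟩ := Rest_mom2
    by_cases h6 : μ 2 < 6
    · have hz : Er (monomial μ 1) = 0 := by
        rw [hEr']
        have : mom 2 (μ 2) - (momo 2 (μ 2) +
            1 / 4 * (if μ 2 = 2 then 8 else 0) + 1 / 32 * (if μ 2 = 4 then 384 else 0)) = 0 := by
          generalize μ 2 = a at h6
          interval_cases a
          · norm_num [momo, m0]
          · norm_num [momo, m1]
          · norm_num [momo, m2]
          · norm_num [momo, m3]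
          · norm_num [momo, m4]
          · norm_num [momo, m5]
        rw [this, zero_mul]
      exact ⟨hz.ge, hz.le.trans hE0, fun _ => hz⟩
    · have hz : Er (monomial μ 1) = E (monomial μ 1) := by
        rw [hEr', hE]
        have e1 : momo 2 (μ 2) = 0 := by
          unfold momo
          rw [if_pos ⟨rfl, by omega⟩]
        rw [e1, if_neg (by omega), if_neg (by omega)]
        ring
      refine ⟨hz ▸ hE0, hz.le, fun hlt => ?_⟩
      exfalso
      have := hw 2 (by omega)
      omega
  · have hz : Er (monomial μ 1) = E (monomial μ 1) := by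
      rw [hEr, hE, h]
      ring
    refine ⟨hz ▸ hE0, hz.le, fun hlt => ?_⟩
    rw [hz]
    have hfac : mom j (μ j) = 0 := by
      have hwj := hw j hj0
      rcases Nat.exists_eq_succ_of_ne_zero hj0 with ⟨e, he⟩
      rw [he] at hwj ⊢
      rcases e with _ | e
      · simp only [mom]
        rw [if_neg (by omega)]
      · by_cases hj00 : j = 0
        · subst hj00
          rw [Nat.succ_eq_add_one, mom_succ]
          simp
        · exfalso
          have h4 : 4 ≤ j := by omega
          have h5 : 3 * 2 ≤ (j - 1) * (e + 1).succ :=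
            Nat.mul_le_mul (by omega) (by omega)
          omega
    rw [E, Lf_monomial, one_mul]
    exact Finset.prod_eq_zero (Finsupp.mem_support_iff.mpr hj0) hfac

theorem p_Er_lin : P_Er_lin := by
  let D : MvPolynomial ℕ ℚ →ₗ[ℚ] MvPolynomial ℕ ℚ := (2 : ℚ) • (pderiv 2 :
    Derivation ℚ (MvPolynomial ℕ ℚ) (MvPolynomial ℕ ℚ)).toLinearMap
  have hD : ∀ F, D F = DD 2 F := by
    intro F
    simp [D, DD]
  refine ⟨E - Eo - (1 / 4 : ℚ) • (Eo ∘ₗ D ∘ₗ D) - (1 / 32 : ℚ) • (Eo ∘ₗ D ∘ₗ D ∘ₗ D ∘ₗ D), ?_⟩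
  intro F
  simp only [LinearMap.sub_apply, LinearMap.smul_apply, LinearMap.comp_apply, hD, smul_eq_mul, Er]

end Pool.Agent.Lib.MP_c22e22_co.V
end

section

open MvPolynomial Finset

namespace Pool.Agent.Lib.MP_c22e22_co.V

theorem StarB_XX_zero : ∀ (w K : List Lk) (g m : ℕ), w.length < m → XX K g w m = 0 := by
  intro w
  induction w with
  | nil =>
    intro K g m hm
    cases m with
    | zero => simp at hm
    | succ m => simp [XX]
  | cons x w ih =>
    intro K g m hm
    cases m with
    | zero => simp at hm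
    | succ m =>
      simp only [List.length_cons] at hm
      rw [XX, ih _ _ _ (by omega), ih _ _ _ (by omega)]
      simp

theorem StarB_XS_cons (x : Lk) (w K : List Lk) (g : ℕ) :
    XS K g (x :: w) = pw g * XS (K ++ [x]) 1 w + sg x • XS K (g + 1) w := by
  have h0 : ∑ m ∈ range (w.length + 1 + 1), XX K (g + 1) w m = XS K (g + 1) w := by
    rw [sum_range_succ, StarB_XX_zero w K (g + 1) (w.length + 1) (by omega), add_zero, XS]
  rw [← h0, XS, List.length_cons, sum_range_succ', sum_range_succ' _ (w.length + 1)]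
  simp only [XX]
  rw [sum_add_distrib, ← mul_sum, XS, smul_add, ← smul_sum]
  ring

theorem StarB_XS_nil (K : List Lk) (g : ℕ) : XS K g [] = pw g * C (bw K) := by
  simp [XS, XX]

theorem StarB_bw_star (u v : List Lk) : bw (u ++ .s :: v) = bw u * bw v := by
  unfold bw
  rw [rib_star]

theorem StarB_i (w : List Lk) : ∀ (K K' : List Lk) (g : ℕ),
    XS (K ++ .s :: K') g w = bw K • XS K' g w := by
  induction w with
  | nil =>
    intro K K' g
    rw [StarB_XS_nil, StarB_XS_nil, StarB_bw_star, C_mul, smul_eq_C_mul]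
    ring
  | cons x w ih =>
    intro K K' g
    rw [StarB_XS_cons, StarB_XS_cons, List.append_assoc, List.cons_append, ih, ih, smul_add,
      mul_smul_comm, smul_comm]

theorem StarB_ii (u v : List Lk) : ∀ (K : List Lk) (g : ℕ),
    XS K g (u ++ .s :: v) = XS K g u * XS [] 1 v := by
  induction u with
  | nil =>
    intro K g
    rw [List.nil_append, StarB_XS_cons, StarB_XS_nil, StarB_i v K [] 1, smul_eq_C_mul]
    simp only [sg, zero_smul, add_zero]
    ring
  | cons x u ih =>
    intro K g
    rw [List.cons_append, StarB_XS_cons, StarB_XS_cons, ih, ih, add_mul, smul_mul_assoc]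
    ring

theorem StarB_bw_rep : ∀ (i : ℕ), bw (List.replicate i .a) = 1 / ((i + 1).factorial : ℚ) := by
  intro i
  unfold bw
  have : ∀ (i m : ℕ), rib (fun k => 1 / (k.factorial : ℚ)) m (List.replicate i .a)
      = 1 / ((i + m).factorial : ℚ) := by
    intro i
    induction i with
    | zero => intro m; simp [rib]
    | succ i ih => intro m; rw [List.replicate_succ, rib, ih]; congr 3; omega
  exact this i 1

theorem StarB_cg_zero : ∀ (k g m : ℕ), k < m → cg k g m = 0 := by
  intro k
  induction k with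
  | zero =>
    intro g m hm
    cases m with
    | zero => simp at hm
    | succ m => simp [cg]
  | succ k ih =>
    intro g m hm
    cases m with
    | zero => simp at hm
    | succ m => rw [cg, ih _ _ (by omega), ih _ _ (by omega)]; simp

theorem StarB_iii (k : ℕ) : ∀ (i g : ℕ),
    XS (List.replicate i .a) g (List.replicate k .a) =
      ∑ m ∈ range (k + 1), (1 / ((i + m + 1).factorial : ℚ)) • cg k g m := by
  induction k with
  | zero =>
    intro i g
    rw [List.replicate_zero, StarB_XS_nil, StarB_bw_rep]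
    simp [cg, smul_eq_C_mul, mul_comm]
  | succ k ih =>
    intro i g
    have h1 : List.replicate i Lk.a ++ [Lk.a] = List.replicate (i + 1) Lk.a := by
      rw [List.replicate_succ']
    have h2 : ∑ m ∈ range (k + 1 + 1), (1 / ((i + m + 1).factorial : ℚ)) • cg k (g + 1) m =
        ∑ m ∈ range (k + 1), (1 / ((i + m + 1).factorial : ℚ)) • cg k (g + 1) m := by
      rw [sum_range_succ, StarB_cg_zero k (g + 1) (k + 1) (by omega)]
      simp
    rw [List.replicate_succ, StarB_XS_cons, h1, ih, ih, ← h2,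
      sum_range_succ' _ (k + 1), sum_range_succ' _ (k + 1), mul_sum]
    simp only [cg, sg, one_smul, smul_add, sum_add_distrib]
    simp only [← add_assoc]
    congr 2
    apply sum_congr rfl
    intro m _
    rw [mul_smul_comm]
    congr 4
    omega

theorem StarB_hh (k : ℕ) : XS [] 1 (List.replicate k .a) = hh (k + 1) := by
  have h := StarB_iii k 0 1
  rw [List.replicate_zero] at h
  have h2 : hh (k + 1) = ∑ m ∈ range (k + 1), C (1 / ((m + 1).factorial : ℚ)) * cg k 1 m := by
    rw [hh, sum_range_succ' _ (k + 1)]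
    simp [cc]
  rw [h, h2]
  apply sum_congr rfl
  intro m _
  rw [smul_eq_C_mul, zero_add]

theorem StarB_rib_rep {A : Type*} [CommRing A] (h : ℕ → A) (k : ℕ) :
    ∀ m, rib h m (List.replicate k .a) = h (m + k) := by
  induction k with
  | zero => intro m; simp [rib]
  | succ k ih => intro m; rw [List.replicate_succ, rib, ih]; congr 1; omega

theorem p_starB : P_starB := by
  have key : ∀ (n : ℕ) (w : List Lk), w.length ≤ n → Lk.d ∉ w → XS [] 1 w = rib hh 1 w := by
    intro n
    induction n with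
    | zero =>
      intro w hw _
      have : w = [] := List.length_eq_zero_iff.mp (by omega)
      subst this
      have := StarB_hh 0
      simpa [rib] using this
    | succ n ih =>
      intro w hw hd
      by_cases hs : Lk.s ∈ w
      · obtain ⟨u, v, rfl⟩ := List.append_of_mem hs
        simp only [List.length_append, List.length_cons] at hw
        have hu : Lk.d ∉ u := fun h => hd (List.mem_append_left _ h)
        have hv : Lk.d ∉ v := fun h => hd (List.mem_append_right _ (List.mem_cons_of_mem _ h))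
        rw [StarB_ii, rib_star, ih u (by omega) hu, ih v (by omega) hv]
      · have hw' : w = List.replicate w.length .a := by
          apply List.eq_replicate_of_mem
          intro b hb
          cases b with
          | a => rfl
          | d => exact absurd hb hd
          | s => exact absurd hb hs
        rw [hw', StarB_hh, StarB_rib_rep]
        congr 1
        omega
  intro w hw
  exact key w.length w le_rfl hw

theorem p_star (hA : P_starA) : P_star := by
  intro w
  refine uniq (fun w => rib hh 1 w) (fun w => XS [] 1 w) ?_ ?_ ?_ w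
  · intro u v; exact rib_free hh u v 1
  · intro u v; exact hA u v [] 1
  · intro w hw; exact (p_starB w hw).symm

end Pool.Agent.Lib.MP_c22e22_co.V
end

section

/-!
# Block maps and symmetric matrices
-/

open Finset

namespace Pool.Agent.Lib.MP_c22e22_co.V

/-- two monotone functions on `Fin n` with the same fibre counts are equal -/
theorem invB_uniq {n : ℕ} {α : Type*} [LinearOrder α] {f g : Fin n → α} (hf : Monotone f)
    (hg : Monotone g) (h : ∀ a, #{x | f x = a} = #{x | g x = a}) : f = g := by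
  have e : ∀ c, {a // g a = c} ≃ {b // f b = c} := fun c =>
    Fintype.equivOfCardEq (by simp only [Fintype.card_subtype, h])
  let τ : Equiv.Perm (Fin n) := Equiv.ofFiberEquiv e
  have hτ : f ∘ τ = g := by
    funext x
    exact Equiv.ofFiberEquiv_map e x
  have h1 : Monotone (f ∘ (1 : Equiv.Perm (Fin n))) := hf
  have h2 : Monotone (f ∘ τ) := by rw [hτ]; exact hg
  have h3 := Tuple.unique_monotone h1 h2
  rw [hτ] at h3
  exact h3

theorem invB_mono {n k : ℕ} {β c : Fin n → Fin k} (hβ : Monotone β)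
    (hc : ∀ x y, x < y → β x = β y → c x ≤ c y) :
    Monotone (fun x => toLex (β x, c x)) := by
  intro x y hxy
  rcases hxy.eq_or_lt with h | h
  · subst h; exact le_refl _
  · rw [Prod.Lex.le_iff]
    rcases (hβ hxy).eq_or_lt with h1 | h1
    · exact Or.inr ⟨h1, hc x y h h1⟩
    · exact Or.inl h1

theorem invB_row {n k : ℕ} (β c : Fin n → Fin k) (i : Fin k) :
    ∑ j, #{x | β x = i ∧ c x = j} = #{x | β x = i} := by
  rw [Finset.card_eq_sum_card_fiberwise (f := c) (t := univ) (fun _ _ => by simp)]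
  refine Finset.sum_congr rfl fun j _ => ?_
  rw [Finset.filter_filter]

theorem invB_exists {n k : ℕ} (A : Fin k → Fin k → ℕ) (hA : ∑ i, ∑ j, A i j = n) :
    ∃ h : Fin n → Fin k × Fin k, ∀ p, #{x | h x = p} = A p.1 p.2 := by
  have hc : Fintype.card (Fin n) = Fintype.card (Σ p : Fin k × Fin k, Fin (A p.1 p.2)) := by
    rw [Fintype.card_fin, Fintype.card_sigma]
    simp only [Fintype.card_fin]
    rw [Fintype.sum_prod_type]
    exact hA.symm
  let e := Fintype.equivOfCardEq hc
  refine ⟨fun x => (e x).1, fun p => ?_⟩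
  have h1 : #{x | (e x).1 = p} = #{s : Σ p : Fin k × Fin k, Fin (A p.1 p.2) | s.1 = p} := by
    refine Finset.card_equiv e ?_
    intro x
    simp
  rw [h1]
  have h2 : (univ.filter fun s : Σ p : Fin k × Fin k, Fin (A p.1 p.2) => s.1 = p) =
      ({p} : Finset (Fin k × Fin k)).sigma (fun q => (univ : Finset (Fin (A q.1 q.2)))) := by
    ext s
    simp
  rw [h2, Finset.card_sigma]
  simp

theorem p_invB : P_invB := by
  intro n k β hβ
  unfold CF NM
  let F : {c : Fin n → Fin k // (∀ x y, x < y → β x = β y → c x ≤ c y) ∧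
      ∀ i j, #{x | β x = i ∧ c x = j} = #{x | β x = j ∧ c x = i}} →
      {A : Fin k → Fin k → ℕ // (∀ i j, A i j = A j i) ∧ ∀ i, ∑ j, A i j = #{x | β x = i}} :=
    fun c => ⟨fun i j => #{x | β x = i ∧ c.1 x = j}, fun i j => c.2.2 i j,
      fun i => invB_row β c.1 i⟩
  refine Nat.card_eq_of_bijective F ⟨?_, ?_⟩
  · rintro ⟨c, hc1, hc2⟩ ⟨c', hc1', hc2'⟩ h
    have h0 : ∀ i j, #{x | β x = i ∧ c x = j} = #{x | β x = i ∧ c' x = j} := by
      intro i j
      have := congrArg Subtype.val h
      exact congrFun (congrFun this i) j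
    have h1 := invB_uniq (invB_mono hβ hc1) (invB_mono hβ hc1') (by
      intro a
      have e1 : ∀ d : Fin n → Fin k, (univ.filter fun x => toLex (β x, d x) = a) =
          univ.filter fun x => β x = (ofLex a).1 ∧ d x = (ofLex a).2 := by
        intro d
        ext x
        simp only [mem_filter, mem_univ, true_and]
        constructor
        · intro hx
          rw [← hx]
          exact ⟨rfl, rfl⟩
        · rintro ⟨hx1, hx2⟩
          apply ofLex.injective
          exact Prod.ext hx1 hx2
      rw [e1, e1]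
      exact h0 _ _)
    apply Subtype.ext
    funext x
    have h2 := congrArg ofLex (congrFun h1 x)
    exact congrArg Prod.snd h2
  · rintro ⟨A, hA1, hA2⟩
    have hsum : ∑ i, ∑ j, A i j = n := by
      rw [Finset.sum_congr rfl fun i _ => hA2 i]
      have := Finset.card_eq_sum_card_fiberwise (f := β) (s := (univ : Finset (Fin n)))
        (t := univ) (fun _ _ => by simp)
      rw [← this]
      simp
    obtain ⟨h, hh⟩ := invB_exists A hsum
    let g : Fin n → Fin k ×ₗ Fin k := fun x => toLex (h x)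
    let G : Fin n → Fin k ×ₗ Fin k := g ∘ Tuple.sort g
    have hG : Monotone G := Tuple.monotone_sort g
    have hGc : ∀ p : Fin k × Fin k, #{x | ofLex (G x) = p} = A p.1 p.2 := by
      intro p
      rw [← hh p]
      refine Finset.card_equiv (Tuple.sort g) ?_
      intro x
      simp only [mem_filter, mem_univ, true_and]
      exact Iff.rfl
    have hβ' : (fun x => (ofLex (G x)).1) = β := by
      refine invB_uniq ?_ hβ ?_
      · intro x y hxy
        have := hG hxy
        rw [Prod.Lex.le_iff] at this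
        rcases this with h1 | h1
        · exact le_of_lt h1
        · exact le_of_eq h1.1
      · intro i
        have h3 : ∑ j, A i j = #{x | β x = i} := hA2 i
        rw [← h3, ← invB_row (fun x => (ofLex (G x)).1) (fun x => (ofLex (G x)).2) i]
        refine Finset.sum_congr rfl fun j _ => ?_
        rw [← hGc (i, j)]
        congr 1
        ext x
        simp only [mem_filter, mem_univ, true_and]
        exact (Prod.ext_iff (x := ofLex (G x)) (y := (i, j))).symm
    have hcount : ∀ i j, #{x | β x = i ∧ (ofLex (G x)).2 = j} = A i j := by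
      intro i j
      rw [← hGc (i, j)]
      congr 1
      ext x
      simp only [mem_filter, mem_univ, true_and]
      rw [← congrFun hβ' x]
      exact (Prod.ext_iff (x := ofLex (G x)) (y := (i, j))).symm
    refine ⟨⟨fun x => (ofLex (G x)).2, ?_, ?_⟩, ?_⟩
    · intro x y hxy hb
      have h1 := hG hxy.le
      rw [Prod.Lex.le_iff] at h1
      have e1 : (ofLex (G x)).1 = β x := congrFun hβ' x
      have e2 : (ofLex (G y)).1 = β y := congrFun hβ' y
      rcases h1 with h1 | h1
      · rw [e1, e2, hb] at h1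
        exact absurd h1 (lt_irrefl _)
      · exact h1.2
    · intro i j
      rw [hcount, hcount]
      exact hA1 i j
    · apply Subtype.ext
      funext i j
      exact hcount i j

end Pool.Agent.Lib.MP_c22e22_co.V
end
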