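import Pool.Agent.Lib.MP_c22e22_co.V.BoundT

open MvPolynomial Finset

namespace Pool.Agent.Lib.MP_c22e22_co.V

noncomputable def Single_S (a b : ℕ) : ℝ := ∫ t in (0 : ℝ)..1, ff a (1 - t) * ff b t

theorem Single_symm (a b : ℕ) : Single_S a b = Single_S b a := by
  unfold Single_S
  have := intervalIntegral.integral_comp_sub_left (a := (0:ℝ)) (b := 1)
    (fun t : ℝ => ff a (1 - t) * ff b t) 1
  simp only [sub_self, sub_zero, sub_sub_cancel] at this
  rw [← this]
  congr 1
  ext t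
  ring

theorem Single_zero (b : ℕ) : Single_S 0 b = ff (b + 1) 0 := by
  simp [Single_S, ff]

theorem Single_rec (a b : ℕ) :
    Single_S (a + 1) b + Single_S a (b + 1) = ff (a + 1) 0 * ff (b + 1) 0 := by
  rw [Single_symm a (b + 1)]
  have hA : ∀ t : ℝ, HasDerivAt (fun x : ℝ => ∫ s in (0:ℝ)..x, ff a s) (ff a t) t := fun t =>
    intervalIntegral.integral_hasDerivAt_right ((Sandwich_cont a).intervalIntegrable _ _)
      ((Sandwich_cont a).stronglyMeasurableAtFilter _ _) (Sandwich_cont a).continuousAt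
  have hB : ∀ t : ℝ, HasDerivAt (fun x : ℝ => ∫ s in (0:ℝ)..x, ff b s) (ff b t) t := fun t =>
    intervalIntegral.integral_hasDerivAt_right ((Sandwich_cont b).intervalIntegrable _ _)
      ((Sandwich_cont b).stronglyMeasurableAtFilter _ _) (Sandwich_cont b).continuousAt
  have hcA : Continuous fun x : ℝ => ∫ s in (0:ℝ)..x, ff a s :=
    continuous_iff_continuousAt.2 fun t => (hA t).continuousAt
  have hcB : Continuous fun x : ℝ => ∫ s in (0:ℝ)..x, ff b s :=
    continuous_iff_continuousAt.2 fun t => (hB t).continuousAt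
  have hd : ∀ t ∈ Set.uIcc (0:ℝ) 1, HasDerivAt
      (fun x : ℝ => (∫ s in (0:ℝ)..x, ff a s) * (∫ s in (0:ℝ)..x, ff b s))
      (ff a t * (∫ s in (0:ℝ)..t, ff b s) + (∫ s in (0:ℝ)..t, ff a s) * ff b t) t :=
    fun t _ => (hA t).mul (hB t)
  have key := intervalIntegral.integral_eq_sub_of_hasDerivAt hd
    ((((Sandwich_cont a).mul hcB).add (hcA.mul (Sandwich_cont b))).intervalIntegrable _ _)
  have e1 : Single_S (a + 1) b = ∫ t in (0:ℝ)..1, (∫ s in (0:ℝ)..t, ff a s) * ff b t := by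
    unfold Single_S
    congr 1
    ext t
    simp [ff]
  have e2 : Single_S (b + 1) a = ∫ t in (0:ℝ)..1, ff a t * (∫ s in (0:ℝ)..t, ff b s) := by
    unfold Single_S
    congr 1
    ext t
    simp [ff, mul_comm]
  have hadd : (∫ t in (0:ℝ)..1, (ff a t * (∫ s in (0:ℝ)..t, ff b s) +
      (∫ s in (0:ℝ)..t, ff a s) * ff b t)) =
      (∫ t in (0:ℝ)..1, ff a t * (∫ s in (0:ℝ)..t, ff b s)) +
      ∫ t in (0:ℝ)..1, (∫ s in (0:ℝ)..t, ff a s) * ff b t :=
    intervalIntegral.integral_add (((Sandwich_cont a).mul hcB).intervalIntegrable _ _)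
      ((hcA.mul (Sandwich_cont b)).intervalIntegrable _ _)
  rw [e1, e2, add_comm, ← hadd, key]
  simp [ff]

/-! ### small cases -/

def Single_rr (e : ℕ → ℚ) : ℕ → ℕ → ℚ
  | 0, b => e (b + 1)
  | a + 1, b => e (a + 1) * e (b + 1) - Single_rr e a (b + 1)

theorem Single_rr_eq (h1 : P_ee_ff) (a : ℕ) : ∀ b, Single_S a b = ((Single_rr ee a b : ℚ) : ℝ) := by
  induction a with
  | zero => intro b; rw [Single_zero, Single_rr, h1]
  | succ a ih =>
    intro b
    rw [Single_rr, Rat.cast_sub, Rat.cast_mul, ← ih, h1, h1, ← Single_rec]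
    ring

theorem Single_rr_congr (e f : ℕ → ℚ) (M : ℕ) (h : ∀ k ≤ M, e k = f k) (a : ℕ) :
    ∀ b, a + b + 1 ≤ M → Single_rr e a b = Single_rr f a b := by
  induction a with
  | zero => intro b hb; rw [Single_rr, Single_rr]; exact h _ (by omega)
  | succ a ih =>
    intro b hb
    rw [Single_rr, Single_rr, h _ (by omega), h _ (by omega), ih _ (by omega)]

def Single_list : List ℚ := [1, 1, 1/2, 1/3, 5/24, 2/15, 61/720, 17/315, 277/8064, 62/2835,
  50521/3628800, 1382/155925, 540553/95800320, 21844/6081075, 199360981/87178291200]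

def Single_e (k : ℕ) : ℚ := Single_list.getD k 0

theorem Single_e_eq (h3 : P_ee_val) : ∀ k ≤ 14, ee k = Single_e k := by
  obtain ⟨g0, g1, g2, g3, g4, g5, g6, g7, g8, g9, g10, g11, g12, g13, g14⟩ := h3
  intro k hk
  interval_cases k
  all_goals first
    | exact g0 | exact g1 | exact g2 | exact g3 | exact g4 | exact g5 | exact g6 | exact g7
    | exact g8 | exact g9 | exact g10 | exact g11 | exact g12 | exact g13 | exact g14

theorem Single_check : ∀ a < 14, ∀ b < 14, 1 ≤ a → 1 ≤ b → a + b + 1 ≤ 14 →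
    Single_rr Single_e a b ≤ 11 / 16 * Single_e (a + b + 1) := by
  decide +kernel

theorem Single_small (h1 : P_ee_ff) (h3 : P_ee_val) (a b : ℕ) (ha : 1 ≤ a) (hb : 1 ≤ b)
    (hab : a + b + 1 ≤ 14) : Single_S a b ≤ 11 / 16 * ff (a + b + 1) 0 := by
  rw [Single_rr_eq h1, ← h1, Single_rr_congr ee Single_e 14 (Single_e_eq h3) a b hab,
    Single_e_eq h3 _ hab]
  have := Single_check a (by omega) b (by omega) ha hb hab
  have h : ((Single_rr Single_e a b : ℚ) : ℝ) ≤ ((11 / 16 * Single_e (a + b + 1) : ℚ) : ℝ) := by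
    exact_mod_cast this
  push_cast at h
  exact h

/-! ### numbers `c_k` -/

noncomputable def Single_c (k : ℕ) : ℝ := ff k 0 * (Real.pi / 2) ^ k

theorem Single_c_odd (h2 : P_c_mono) (k : ℕ) : Single_c (2 * k + 9) ≤ Single_c (2 * k + 7) := by
  have h := ((h2 (2 * k + 7)).2 (by omega)).2
  have hq : (0:ℝ) < (Real.pi / 2) ^ (2 * k + 7) := by have := Real.pi_pos; positivity
  unfold Single_c
  calc ff (2 * k + 9) 0 * (Real.pi / 2) ^ (2 * k + 9)
      = ((Real.pi / 2) ^ 2 * ff (2 * k + 7 + 2) 0) * (Real.pi / 2) ^ (2 * k + 7) := by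
        rw [show 2 * k + 9 = 2 * k + 7 + 2 from rfl]; ring
    _ ≤ _ := mul_le_mul_of_nonneg_right h hq.le

theorem Single_c_even (h2 : P_c_mono) (k : ℕ) : Single_c (2 * k + 8) ≤ Single_c (2 * k + 10) := by
  have h := ((h2 (2 * k + 8)).1 (by omega)).2
  have hq : (0:ℝ) < (Real.pi / 2) ^ (2 * k + 8) := by have := Real.pi_pos; positivity
  unfold Single_c
  calc _ ≤ ((Real.pi / 2) ^ 2 * ff (2 * k + 8 + 2) 0) * (Real.pi / 2) ^ (2 * k + 8) :=
        mul_le_mul_of_nonneg_right h hq.le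
    _ = _ := by rw [show 2 * k + 10 = 2 * k + 8 + 2 from rfl]; ring

theorem Single_c_oe (h2 : P_c_mono) (k : ℕ) : Single_c (2 * k + 8) ≤ Single_c (2 * k + 7) := by
  have h := ((h2 (2 * k + 7)).2 (by omega)).1
  have hq : (0:ℝ) < (Real.pi / 2) ^ (2 * k + 7) := by have := Real.pi_pos; positivity
  unfold Single_c
  calc ff (2 * k + 8) 0 * (Real.pi / 2) ^ (2 * k + 8)
      = ((Real.pi / 2) * ff (2 * k + 7 + 1) 0) * (Real.pi / 2) ^ (2 * k + 7) := by
        rw [show 2 * k + 8 = 2 * k + 7 + 1 from rfl]; ring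
    _ ≤ _ := mul_le_mul_of_nonneg_right h hq.le

theorem Single_c_eo (h2 : P_c_mono) (k : ℕ) : Single_c (2 * k + 8) ≤ Single_c (2 * k + 9) := by
  have h := ((h2 (2 * k + 8)).1 (by omega)).1
  have hq : (0:ℝ) < (Real.pi / 2) ^ (2 * k + 8) := by have := Real.pi_pos; positivity
  unfold Single_c
  calc _ ≤ ((Real.pi / 2) * ff (2 * k + 8 + 1) 0) * (Real.pi / 2) ^ (2 * k + 8) :=
        mul_le_mul_of_nonneg_right h hq.le
    _ = _ := by rw [show 2 * k + 9 = 2 * k + 8 + 1 from rfl]; ring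

theorem Single_c_le7 (h2 : P_c_mono) (k : ℕ) : Single_c (2 * k + 7) ≤ Single_c 7 := by
  induction k with
  | zero => exact le_rfl
  | succ k ih => exact (Single_c_odd h2 k).trans ih

theorem Single_c_ge8 (h2 : P_c_mono) (k : ℕ) : Single_c 8 ≤ Single_c (2 * k + 8) := by
  induction k with
  | zero => exact le_rfl
  | succ k ih => exact ih.trans (Single_c_even h2 k)

theorem Single_c_up (h2 : P_c_mono) (k : ℕ) (hk : 7 ≤ k) : Single_c k ≤ Single_c 7 := by
  rcases Nat.even_or_odd' (k - 7) with ⟨j, hj | hj⟩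
  · have : k = 2 * j + 7 := by omega
    rw [this]; exact Single_c_le7 h2 j
  · have : k = 2 * j + 8 := by omega
    rw [this]; exact (Single_c_oe h2 j).trans (Single_c_le7 h2 j)

theorem Single_c_low (h2 : P_c_mono) (k : ℕ) (hk : 8 ≤ k) : Single_c 8 ≤ Single_c k := by
  rcases Nat.even_or_odd' (k - 8) with ⟨j, hj | hj⟩
  · have : k = 2 * j + 8 := by omega
    rw [this]; exact Single_c_ge8 h2 j
  · have : k = 2 * j + 9 := by omega
    rw [this]; exact (Single_c_ge8 h2 j).trans (Single_c_eo h2 j)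

theorem Single_c7 (h1 : P_ee_ff) (h3 : P_ee_val) :
    Single_c 7 = 17 / 315 * (Real.pi / 2) ^ 7 := by
  unfold Single_c
  rw [← h1, h3.2.2.2.2.2.2.2.1]
  push_cast
  ring

theorem Single_c8 (h1 : P_ee_ff) (h3 : P_ee_val) :
    Single_c 8 = 277 / 8064 * (Real.pi / 2) ^ 8 := by
  unfold Single_c
  rw [← h1, h3.2.2.2.2.2.2.2.2.1]
  push_cast
  ring

/-- ratio bounds: `E (n - k) / E n` is close to `(π/2)^k` -/
theorem Single_ratio (h1 : P_ee_ff) (h2 : P_c_mono) (h3 : P_ee_val)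
    (m k : ℕ) (hm : 8 ≤ m) :
    ff m 0 ≤ (10003 / 10000) * (Real.pi / 2) ^ k * ff (m + k) 0 ∧
      (9997 / 10000) * (Real.pi / 2) ^ k * ff (m + k) 0 ≤ ff m 0 := by
  have hpi := Real.pi_pos
  have p1 := Real.pi_gt_d4
  have p2 := Real.pi_lt_d4
  have hq : (0:ℝ) < (Real.pi / 2) ^ m := by positivity
  have a1 := Single_c_up h2 m (by omega)
  have a2 := Single_c_low h2 m hm
  have b1 := Single_c_up h2 (m + k) (by omega)
  have b2 := Single_c_low h2 (m + k) (by omega)
  have hc8 : 0 < Single_c 8 := by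
    rw [Single_c8 h1 h3]; positivity
  have c78 : Single_c 7 ≤ (10003 / 10000) * Single_c 8 := by
    rw [Single_c7 h1 h3, Single_c8 h1 h3]
    have : (0:ℝ) < (Real.pi / 2) ^ 7 := by positivity
    nlinarith
  have e1 : (10003 / 10000) * (Real.pi / 2) ^ k * ff (m + k) 0 * (Real.pi / 2) ^ m =
      (10003 / 10000) * Single_c (m + k) := by
    unfold Single_c; rw [pow_add]; ring
  have e2 : (9997 / 10000) * (Real.pi / 2) ^ k * ff (m + k) 0 * (Real.pi / 2) ^ m =
      (9997 / 10000) * Single_c (m + k) := by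
    unfold Single_c; rw [pow_add]; ring
  have e3 : ff m 0 * (Real.pi / 2) ^ m = Single_c m := rfl
  constructor
  · apply le_of_mul_le_mul_right _ hq
    rw [e1, e3]
    linarith
  · apply le_of_mul_le_mul_right _ hq
    rw [e2, e3]
    linarith

theorem Single_pows : (15707 / 10000 ≤ Real.pi / 2 ∧ Real.pi / 2 ≤ 15708 / 10000) ∧
    (2467 / 1000 ≤ (Real.pi / 2) ^ 2 ∧ (Real.pi / 2) ^ 2 ≤ 2468 / 1000) ∧
    (3875 / 1000 ≤ (Real.pi / 2) ^ 3 ∧ (Real.pi / 2) ^ 3 ≤ 3876 / 1000) ∧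
    (6086 / 1000 ≤ (Real.pi / 2) ^ 4 ∧ (Real.pi / 2) ^ 4 ≤ 6089 / 1000) ∧
    (9559 / 1000 ≤ (Real.pi / 2) ^ 5 ∧ (Real.pi / 2) ^ 5 ≤ 9565 / 1000) ∧
    (15013 / 1000 ≤ (Real.pi / 2) ^ 6 ∧ (Real.pi / 2) ^ 6 ≤ 15025 / 1000) := by
  have p1 := Real.pi_gt_d4
  have p2 := Real.pi_lt_d4
  have q1 : 15707 / 10000 ≤ Real.pi / 2 := by linarith
  have q2 : Real.pi / 2 ≤ 15708 / 10000 := by linarith
  have lo : ∀ k, (15707 / 10000 : ℝ) ^ k ≤ (Real.pi / 2) ^ k := fun k =>
    pow_le_pow_left₀ (by norm_num) q1 k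
  have hi : ∀ k, (Real.pi / 2) ^ k ≤ (15708 / 10000 : ℝ) ^ k := fun k =>
    pow_le_pow_left₀ (by linarith) q2 k
  refine ⟨⟨q1, q2⟩, ⟨le_trans ?_ (lo 2), (hi 2).trans ?_⟩, ⟨le_trans ?_ (lo 3), (hi 3).trans ?_⟩,
    ⟨le_trans ?_ (lo 4), (hi 4).trans ?_⟩, ⟨le_trans ?_ (lo 5), (hi 5).trans ?_⟩,
    ⟨le_trans ?_ (lo 6), (hi 6).trans ?_⟩⟩ <;> norm_num

theorem Single_pos (h1 : P_ee_ff) (h4 : P_ee_pos) (k : ℕ) : 0 < ff k 0 := by
  rw [← h1]; exact_mod_cast h4 k

/-- left part short -/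
theorem Single_left (h1 : P_ee_ff) (h2 : P_c_mono) (h3 : P_ee_val) (h4 : P_ee_pos)
    (m a : ℕ) (ha : 1 ≤ a) (ha6 : a ≤ 6) :
    Single_S a (m + 14 - a) ≤ 11 / 16 * ff (m + 15) 0 := by
  have E0 := Single_pos h1 h4 (m + 15)
  obtain ⟨⟨l1, u1⟩, ⟨l2, u2⟩, ⟨l3, u3⟩, ⟨l4, u4⟩, ⟨l5, u5⟩, ⟨l6, u6⟩⟩ := Single_pows
  have r1 := Single_ratio h1 h2 h3 (m + 14) 1 (by omega)
  have r2 := Single_ratio h1 h2 h3 (m + 13) 2 (by omega)
  have r3 := Single_ratio h1 h2 h3 (m + 12) 3 (by omega)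
  have r4 := Single_ratio h1 h2 h3 (m + 11) 4 (by omega)
  have r5 := Single_ratio h1 h2 h3 (m + 10) 5 (by omega)
  have r6 := Single_ratio h1 h2 h3 (m + 9) 6 (by omega)
  simp only [pow_one, show m + 14 + 1 = m + 15 from rfl, show m + 13 + 2 = m + 15 from rfl,
    show m + 12 + 3 = m + 15 from rfl, show m + 11 + 4 = m + 15 from rfl,
    show m + 10 + 5 = m + 15 from rfl, show m + 9 + 6 = m + 15 from rfl] at r1 r2 r3 r4 r5 r6
  have s0 := Single_zero (m + 14)
  have s1 := Single_rec 0 (m + 13)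
  have s2 := Single_rec 1 (m + 12)
  have s3 := Single_rec 2 (m + 11)
  have s4 := Single_rec 3 (m + 10)
  have s5 := Single_rec 4 (m + 9)
  have s6 := Single_rec 5 (m + 8)
  have v1 : ff 1 0 = 1 := by rw [← h1, h3.2.1]; norm_num
  have v2 : ff 2 0 = 1 / 2 := by rw [← h1, h3.2.2.1]; norm_num
  have v3 : ff 3 0 = 1 / 3 := by rw [← h1, h3.2.2.2.1]; norm_num
  have v4 : ff 4 0 = 5 / 24 := by rw [← h1, h3.2.2.2.2.1]; norm_num
  have v5 : ff 5 0 = 2 / 15 := by rw [← h1, h3.2.2.2.2.2.1]; norm_num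
  have v6 : ff 6 0 = 61 / 720 := by rw [← h1, h3.2.2.2.2.2.2.1]; norm_num
  simp only [zero_add, Nat.reduceAdd, add_assoc, v1, v2, v3, v4, v5, v6, one_mul]
    at s0 s1 s2 s3 s4 s5 s6
  set e0 := ff (m + 15) 0 with he0
  have up : ∀ {q U x : ℝ}, q ≤ U → x ≤ (10003 / 10000) * q * e0 → x ≤ (10003 / 10000) * U * e0 := by
    intro q U x hq hx
    refine hx.trans ?_
    apply mul_le_mul_of_nonneg_right _ E0.le
    linarith
  have lo : ∀ {q L x : ℝ}, L ≤ q → (9997 / 10000) * q * e0 ≤ x → (9997 / 10000) * L * e0 ≤ x := by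
    intro q L x hq hx
    refine le_trans ?_ hx
    apply mul_le_mul_of_nonneg_right _ E0.le
    linarith
  have t1 := up u1 r1.1
  have t1' := lo l1 r1.2
  have t2 := up u2 r2.1
  have t2' := lo l2 r2.2
  have t3 := up u3 r3.1
  have t3' := lo l3 r3.2
  have t4 := up u4 r4.1
  have t4' := lo l4 r4.2
  have t5 := up u5 r5.1
  have t5' := lo l5 r5.2
  have t6 := up u6 r6.1
  have t6' := lo l6 r6.2
  interval_cases a
  · rw [show m + 14 - 1 = m + 13 by omega]; linarith
  · rw [show m + 14 - 2 = m + 12 by omega]; linarith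
  · rw [show m + 14 - 3 = m + 11 by omega]; linarith
  · rw [show m + 14 - 4 = m + 10 by omega]; linarith
  · rw [show m + 14 - 5 = m + 9 by omega]; linarith
  · rw [show m + 14 - 6 = m + 8 by omega]; linarith

/-- bound of `ff k` by a cosine -/
theorem Single_cos (h2 : P_c_mono) (h5 : P_sandwich) (k : ℕ) (hk : 7 ≤ k) (x : ℝ) (hx : 0 ≤ x)
    (hx1 : x ≤ 1) : (Real.pi / 2) ^ k * ff k x ≤ Single_c 7 * Sandwich_phi x := by
  have hpi := Real.pi_pos
  have hodd : ∀ j : ℕ, 7 ≤ j → j % 2 = 1 → ∀ y : ℝ, 0 ≤ y → y ≤ 1 →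
      (Real.pi / 2) ^ j * ff j y ≤ Single_c 7 * Sandwich_phi y := by
    intro j hj hj2 y hy hy1
    have hphi : 0 ≤ Sandwich_phi y := by
      unfold Sandwich_phi
      apply Real.cos_nonneg_of_neg_pi_div_two_le_of_le
      · nlinarith
      · nlinarith
    have h := (h5 j y hy hy1).2 hj2
    calc (Real.pi / 2) ^ j * ff j y ≤ (Real.pi / 2) ^ j * (ff j 0 * Sandwich_phi y) :=
          mul_le_mul_of_nonneg_left h (by positivity)
      _ = Single_c j * Sandwich_phi y := by unfold Single_c; ring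
      _ ≤ _ := mul_le_mul_of_nonneg_right (Single_c_up h2 j hj) hphi
  rcases Nat.mod_two_eq_zero_or_one k with h0 | h1
  · obtain ⟨j, rfl⟩ : ∃ j, k = j + 1 := ⟨k - 1, by omega⟩
    have hj : j % 2 = 1 := by omega
    have e1 : ∫ t in (0:ℝ)..(1 - x), (Real.pi / 2) ^ j * ff j t =
        (Real.pi / 2) ^ j * ff (j + 1) x := by
      rw [intervalIntegral.integral_const_mul]; rfl
    have e2 : ∫ t in (0:ℝ)..(1 - x), Single_c 7 * Sandwich_phi t =
        Single_c 7 * (2 / Real.pi * Sandwich_phi x) := by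
      rw [intervalIntegral.integral_const_mul, Sandwich_phi_int]
    have h : (Real.pi / 2) ^ j * ff (j + 1) x ≤ Single_c 7 * (2 / Real.pi * Sandwich_phi x) := by
      rw [← e1, ← e2]
      apply intervalIntegral.integral_mono_on (by linarith)
      · exact (continuous_const.mul (Sandwich_cont j)).intervalIntegrable _ _
      · exact (continuous_const.mul Sandwich_phi_cont).intervalIntegrable _ _
      · intro t ht
        exact hodd j (by omega) hj t ht.1 (by linarith [ht.2])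
    calc (Real.pi / 2) ^ (j + 1) * ff (j + 1) x
        = (Real.pi / 2) * ((Real.pi / 2) ^ j * ff (j + 1) x) := by ring
      _ ≤ (Real.pi / 2) * (Single_c 7 * (2 / Real.pi * Sandwich_phi x)) :=
          mul_le_mul_of_nonneg_left h (by positivity)
      _ = _ := by field_simp
  · exact hodd k hk h1 x hx hx1

theorem Single_ff_nonneg : ∀ (k : ℕ) (x : ℝ), x ≤ 1 → 0 ≤ x → 0 ≤ ff k x := by
  intro k
  induction k with
  | zero => intro x _ _; exact zero_le_one
  | succ k ih =>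
    intro x hx hx0
    apply intervalIntegral.integral_nonneg (by linarith)
    intro t ht
    exact ih t (by linarith [ht.2]) ht.1

/-- both parts long -/
theorem Single_long (h1 : P_ee_ff) (h2 : P_c_mono) (h3 : P_ee_val) (h5 : P_sandwich) (a b : ℕ)
    (ha : 7 ≤ a) (hb : 7 ≤ b) : Single_S a b ≤ 11 / 16 * ff (a + b + 1) 0 := by
  have hpi := Real.pi_pos
  have hq : (0:ℝ) < (Real.pi / 2) ^ (a + b + 1) := by positivity
  have hint : (∫ t in (0:ℝ)..1, Sandwich_phi (1 - t) * Sandwich_phi t) = 1 / Real.pi := by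
    have hd : ∀ t ∈ Set.uIcc (0:ℝ) 1,
        HasDerivAt (fun t : ℝ => 1 / Real.pi * Real.sin (Real.pi * t / 2) ^ 2)
          (Sandwich_phi (1 - t) * Sandwich_phi t) t := by
      intro t _
      have g1 : HasDerivAt (fun t : ℝ => Real.pi * t / 2) (Real.pi / 2) t := by
        have := ((hasDerivAt_id t).const_mul Real.pi).div_const 2
        simpa using this
      have g2 := ((g1.sin).pow 2).const_mul (1 / Real.pi)
      refine g2.congr_deriv ?_
      have g3 : Sandwich_phi (1 - t) = Real.sin (Real.pi * t / 2) := by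
        unfold Sandwich_phi
        rw [← Real.cos_pi_div_two_sub]
        congr 1
        ring
      rw [g3]
      unfold Sandwich_phi
      field_simp
      simp
      ring
    rw [intervalIntegral.integral_eq_sub_of_hasDerivAt hd
      (((Sandwich_phi_cont.comp (continuous_const.sub continuous_id)).mul
        Sandwich_phi_cont).intervalIntegrable _ _)]
    simp
  have hb1 : (Real.pi / 2) ^ (a + b) * Single_S a b ≤ Single_c 7 ^ 2 * (1 / Real.pi) := by
    rw [← hint, ← intervalIntegral.integral_const_mul]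
    unfold Single_S
    rw [← intervalIntegral.integral_const_mul]
    apply intervalIntegral.integral_mono_on zero_le_one
    · exact (continuous_const.mul (((Sandwich_cont a).comp
        (continuous_const.sub continuous_id)).mul (Sandwich_cont b))).intervalIntegrable _ _
    · exact (continuous_const.mul ((Sandwich_phi_cont.comp
        (continuous_const.sub continuous_id)).mul Sandwich_phi_cont)).intervalIntegrable _ _
    · intro t ht
      have c1 := Single_cos h2 h5 a ha (1 - t) (by linarith [ht.2]) (by linarith [ht.1])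
      have c2 := Single_cos h2 h5 b hb t ht.1 ht.2
      have n1 := Single_ff_nonneg a (1 - t) (by linarith [ht.1]) (by linarith [ht.2])
      have n2 := Single_ff_nonneg b t ht.2 ht.1
      have n1' : 0 ≤ (Real.pi / 2) ^ a * ff a (1 - t) := by positivity
      have n2' : 0 ≤ (Real.pi / 2) ^ b * ff b t := by positivity
      calc (Real.pi / 2) ^ (a + b) * (ff a (1 - t) * ff b t)
          = ((Real.pi / 2) ^ a * ff a (1 - t)) * ((Real.pi / 2) ^ b * ff b t) := by
            rw [pow_add]; ring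
        _ ≤ (Single_c 7 * Sandwich_phi (1 - t)) * (Single_c 7 * Sandwich_phi t) :=
            mul_le_mul c1 c2 n2' (n1'.trans c1)
        _ = _ := by ring
  have hlow := Single_c_low h2 (a + b + 1) (by omega)
  have hc7 := Single_c7 h1 h3
  have hc8 := Single_c8 h1 h3
  have p1 := Real.pi_gt_d4
  have p2 := Real.pi_lt_d4
  have hc8p : 0 < Single_c 8 := by rw [hc8]; positivity
  have c78 : Single_c 7 ≤ (10003 / 10000) * Single_c 8 := by
    rw [hc7, hc8]
    have : (0:ℝ) < (Real.pi / 2) ^ 7 := by positivity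
    nlinarith
  have c7v : Single_c 7 ≤ 13 / 10 := by
    rw [hc7]
    have : (Real.pi / 2) ^ 7 ≤ (15708 / 10000 : ℝ) ^ 7 :=
      pow_le_pow_left₀ (by positivity) (by linarith) 7
    norm_num at this ⊢
    linarith
  have c7p : 0 ≤ Single_c 7 := by rw [hc7]; positivity
  apply le_of_mul_le_mul_right _ hq
  calc Single_S a b * (Real.pi / 2) ^ (a + b + 1)
      = (Real.pi / 2) * ((Real.pi / 2) ^ (a + b) * Single_S a b) := by rw [pow_succ]; ring
    _ ≤ (Real.pi / 2) * (Single_c 7 ^ 2 * (1 / Real.pi)) :=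
        mul_le_mul_of_nonneg_left hb1 (by positivity)
    _ = 1 / 2 * Single_c 7 ^ 2 := by field_simp
    _ ≤ 11 / 16 * Single_c 8 := by nlinarith
    _ ≤ 11 / 16 * Single_c (a + b + 1) := by linarith
    _ = 11 / 16 * ff (a + b + 1) 0 * (Real.pi / 2) ^ (a + b + 1) := by unfold Single_c; ring

theorem Single_claim (h1 : P_ee_ff) (h2 : P_c_mono) (h3 : P_ee_val) (h4 : P_ee_pos)
    (h5 : P_sandwich) (a b : ℕ) (ha : 1 ≤ a) (hb : 1 ≤ b) :
    Single_S a b ≤ 11 / 16 * ff (a + b + 1) 0 := by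
  by_cases hs : a + b + 1 ≤ 14
  · exact Single_small h1 h3 a b ha hb hs
  · by_cases ha6 : a ≤ 6
    · have := Single_left h1 h2 h3 h4 (a + b - 14) a ha ha6
      rwa [show a + b - 14 + 14 - a = b by omega, show a + b - 14 + 15 = a + b + 1 by omega] at this
    · by_cases hb6 : b ≤ 6
      · have := Single_left h1 h2 h3 h4 (a + b - 14) b hb hb6
        rw [show a + b - 14 + 14 - b = a by omega, show a + b - 14 + 15 = a + b + 1 by omega,
          Single_symm] at this
        exact this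
      · exact Single_long h1 h2 h3 h5 a b (by omega) (by omega)

theorem p_single (h1 : P_ee_ff) (h2 : P_c_mono) (h3 : P_ee_val) (h4 : P_ee_pos)
    (h5 : P_sandwich) (h6 : P_single_int) (_h7 : P_bw_altw) : P_single := by
  intro u v x hx hu hv nu nv
  have e := h6 u.length v.length u v x hx rfl rfl hu hv nu nv
  have c := Single_claim h1 h2 h3 h4 h5 (u.length + 1) (v.length + 1) (by omega) (by omega)
  rw [show u.length + 1 + (v.length + 1) + 1 = u.length + v.length + 3 by ring] at c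
  have e2 : ((bw (u ++ x :: x :: v) : ℚ) : ℝ) ≤ 11 / 16 * ff (u.length + v.length + 3) 0 := by
    rw [e]; exact c
  rw [← h1] at e2
  have e3 : ((bw (u ++ x :: x :: v) : ℚ) : ℝ) ≤
      ((11 / 16 * ee (u.length + v.length + 3) : ℚ) : ℝ) := by
    push_cast
    exact e2
  exact_mod_cast e3

end Pool.Agent.Lib.MP_c22e22_co.V
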