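import Pool.Agent.Lib.MP_c22e22_co.V.Props

section

/-!
# Bounds for the label numbers `xO`
-/

open MvPolynomial Finset

namespace Pool.Agent.Lib.MP_c22e22_co.V

theorem boundS_rec (c : ℕ) : mom 1 (c + 2) = mom 1 (c + 1) + (c + 1) * mom 1 c := by
  simp [mom]

theorem boundS_vals : mom 1 15 = 10349536 ∧ mom 1 16 = 46206736 ∧ mom 1 23 = 3257843882624 ∧
    mom 1 24 = 17492190577600 := by
  have a0 : mom 1 0 = 1 := rfl
  have a1 : mom 1 1 = 1 := by simp [mom]
  have a2 : mom 1 2 = 2 := by
    have := boundS_rec 0
    norm_num [a0, a1] at this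
    exact this
  have a3 : mom 1 3 = 4 := by
    have := boundS_rec 1
    norm_num [a1, a2] at this
    exact this
  have a4 : mom 1 4 = 10 := by
    have := boundS_rec 2
    norm_num [a2, a3] at this
    exact this
  have a5 : mom 1 5 = 26 := by
    have := boundS_rec 3
    norm_num [a3, a4] at this
    exact this
  have a6 : mom 1 6 = 76 := by
    have := boundS_rec 4
    norm_num [a4, a5] at this
    exact this
  have a7 : mom 1 7 = 232 := by
    have := boundS_rec 5
    norm_num [a5, a6] at this
    exact this
  have a8 : mom 1 8 = 764 := by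
    have := boundS_rec 6
    norm_num [a6, a7] at this
    exact this
  have a9 : mom 1 9 = 2620 := by
    have := boundS_rec 7
    norm_num [a7, a8] at this
    exact this
  have a10 : mom 1 10 = 9496 := by
    have := boundS_rec 8
    norm_num [a8, a9] at this
    exact this
  have a11 : mom 1 11 = 35696 := by
    have := boundS_rec 9
    norm_num [a9, a10] at this
    exact this
  have a12 : mom 1 12 = 140152 := by
    have := boundS_rec 10
    norm_num [a10, a11] at this
    exact this
  have a13 : mom 1 13 = 568504 := by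
    have := boundS_rec 11
    norm_num [a11, a12] at this
    exact this
  have a14 : mom 1 14 = 2390480 := by
    have := boundS_rec 12
    norm_num [a12, a13] at this
    exact this
  have a15 : mom 1 15 = 10349536 := by
    have := boundS_rec 13
    norm_num [a13, a14] at this
    exact this
  have a16 : mom 1 16 = 46206736 := by
    have := boundS_rec 14
    norm_num [a14, a15] at this
    exact this
  have a17 : mom 1 17 = 211799312 := by
    have := boundS_rec 15
    norm_num [a15, a16] at this
    exact this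
  have a18 : mom 1 18 = 997313824 := by
    have := boundS_rec 16
    norm_num [a16, a17] at this
    exact this
  have a19 : mom 1 19 = 4809701440 := by
    have := boundS_rec 17
    norm_num [a17, a18] at this
    exact this
  have a20 : mom 1 20 = 23758664096 := by
    have := boundS_rec 18
    norm_num [a18, a19] at this
    exact this
  have a21 : mom 1 21 = 119952692896 := by
    have := boundS_rec 19
    norm_num [a19, a20] at this
    exact this
  have a22 : mom 1 22 = 618884638912 := by
    have := boundS_rec 20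
    norm_num [a20, a21] at this
    exact this
  have a23 : mom 1 23 = 3257843882624 := by
    have := boundS_rec 21
    norm_num [a21, a22] at this
    exact this
  have a24 : mom 1 24 = 17492190577600 := by
    have := boundS_rec 22
    norm_num [a22, a23] at this
    exact this
  exact ⟨a15, a16, a23, a24⟩

theorem p_s_gen (h1 : P_xO_rec) (h2 : P_x_basic) : P_s_gen := by
  obtain ⟨-, b2, -, -, -, -, -, b8, -, b10, -⟩ := h2
  intro N0 G s hG hN0 hs0 hsn hr1 hr2 c1 c2 c3 base n
  induction n using Nat.strong_induction_on with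
  | _ n ih =>
    intro h hn hh
    by_cases hnN : n ≤ N0
    · exact base n h hn hnN hh
    obtain ⟨N, rfl⟩ : ∃ N, n = N + 4 := ⟨n - 4, by omega⟩
    rcases Nat.eq_zero_or_pos h with rfl | hpos
    · simp [hs0, b2]
    by_cases hm : N + 4 - 2 * h = 0
    · rw [hm, b10 _ (by omega)]
      exact mul_nonneg (hsn h) (mom_nonneg 1 _)
    obtain ⟨m, hm'⟩ : ∃ m, N + 4 - 2 * h = m + 1 := ⟨N + 3 - 2 * h, by omega⟩
    rw [hm']
    have rec1 := h1 m N
    -- the four terms
    have e2 : xO m (N + 3) ≤ s h * mom 1 (N + 3) := by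
      have := ih (N + 3) (by omega) h (by omega) (by omega)
      rwa [show N + 3 - 2 * h = m by omega] at this
    have e4 : (m : ℚ) * xO (m - 1) (N + 2) ≤ m * (s h * mom 1 (N + 2)) := by
      rcases Nat.eq_zero_or_pos m with rfl | hm0
      · simp
      · apply mul_le_mul_of_nonneg_left _ (by positivity)
        have := ih (N + 2) (by omega) h (by omega) (by omega)
        rwa [show N + 2 - 2 * h = m - 1 by omega] at this
    have e3 : xO m (N + 1) ≤ s (h - 1) * mom 1 (N + 1) := by
      have := ih (N + 1) (by omega) (h - 1) (by omega) (by omega)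
      rwa [show N + 1 - 2 * (h - 1) = m by omega] at this
    have hA := boundS_rec (N + 2)
    have hB := boundS_rec (N + 1)
    have hC := boundS_rec N
    have i0 := mom_nonneg 1 N
    have i1 := mom_nonneg 1 (N + 1)
    have i2 := mom_nonneg 1 (N + 2)
    have i3 := mom_nonneg 1 (N + 3)
    have hmR : (m : ℚ) = N + 3 - 2 * h := by
      have : m + 2 * h = N + 3 := by omega
      have h' : ((m + 2 * h : ℕ) : ℚ) = ((N + 3 : ℕ) : ℚ) := by rw [this]
      push_cast at h'
      linarith
    have hm0 : (0 : ℚ) ≤ m := by positivity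
    have g1 : G * mom 1 (N + 2) ≤ mom 1 (N + 3) := by
      have := hr1 (N + 3) (by omega)
      rwa [show N + 3 - 1 = N + 2 by omega] at this
    have g2 : G * mom 1 (N + 1) ≤ mom 1 (N + 2) := by
      have := hr2 (N + 3) (by omega)
      rwa [show N + 3 - 1 = N + 2 by omega, show N + 3 - 2 = N + 1 by omega] at this
    have g2' : mom 1 (N + 1) ≤ mom 1 (N + 2) / G := by
      rw [le_div_iff₀ hG]; linarith
    have g3 : (N : ℚ) * mom 1 N ≤ mom 1 (N + 2) := by
      rw [hC]; nlinarith
    have hNN0 : (N0 : ℚ) ≤ N + 3 := by exact_mod_cast (by omega : N0 ≤ N + 3)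
    have hsh := hsn h
    have hsh1 := hsn (h - 1)
    have hhR : (1 : ℚ) ≤ h := by exact_mod_cast hpos
    -- first term
    have e1 : (N : ℚ) * xO (m + 1) N ≤ (if 2 ≤ h then s (h - 2) else 0) * mom 1 (N + 2) := by
      split_ifs with h2'
      · have := ih N (by omega) (h - 2) (by omega) (by omega)
        rw [show N - 2 * (h - 2) = m + 1 by omega] at this
        have q := mul_le_mul_of_nonneg_left this (by positivity : (0 : ℚ) ≤ N)
        have q2 := mul_le_mul_of_nonneg_left g3 (hsn (h - 2))
        nlinarith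
      · rw [b8 (m + 1) N (by omega)]
        simp
    -- the main inequality
    have main : (m + 1) * (s (h - 1) * (1 / G)) + (if 2 ≤ h then s (h - 2) else 0) ≤
        2 * h * s h * (G + (2 * (N + 4) - 1 - 2 * h)) := by
      rcases Nat.lt_or_ge h 2 with hl | hge
      · obtain rfl : h = 1 := by omega
        have := c1 (N + 3) (by omega)
        rw [if_neg (by norm_num)]
        push_cast at this hmR ⊢
        simp only [hs0]
        rw [hmR]
        calc ((N : ℚ) + 3 - 2 * 1 + 1) * (1 * (1 / G)) + 0 = (N + 3 - 1) / G := by ring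
          _ ≤ _ := this
          _ = _ := by ring
      rcases Nat.lt_or_ge h 3 with hl | hge3
      · obtain rfl : h = 2 := by omega
        have := c2 (N + 3) (by omega)
        rw [if_pos le_rfl]
        push_cast at this hmR ⊢
        simp only [hs0]
        rw [hmR]
        calc ((N : ℚ) + 3 - 2 * 2 + 1) * (s 1 * (1 / G)) + 1 = (N + 3 - 3) * s 1 / G + 1 := by ring
          _ ≤ _ := this
          _ = _ := by ring
      · obtain ⟨d1, d2⟩ := c3 h hge3
        rw [if_pos hge]
        have f1 : s (h - 1) * (1 / G) ≤ 2 * h * s h := by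
          rw [mul_one_div, div_le_iff₀ hG]
          linarith
        have f2 : s (h - 2) ≤ 2 * h * s h * (N + 3 + G) := by
          refine d2.trans ?_
          have : 0 ≤ 2 * h * s h := by positivity
          nlinarith
        have f3 := mul_le_mul_of_nonneg_left f1 (by positivity : (0 : ℚ) ≤ m + 1)
        have : (m + 1 : ℚ) * (2 * h * s h) + 2 * h * s h * (N + 3 + G) =
            2 * h * s h * (G + (2 * (N + 4) - 1 - 2 * h)) := by rw [hmR]; ring
        linarith
    have hN4 : (0 : ℚ) < N + 4 := by positivity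
    refine le_of_mul_le_mul_left ?_ hN4
    refine le_trans (le_of_eq rec1) ?_
    have m1 : (0 : ℚ) ≤ m + 1 := by positivity
    have q2 := mul_le_mul_of_nonneg_left (add_le_add (add_le_add e2 e3) e4) m1
    refine le_trans (add_le_add e1 q2) ?_
    have r1 : s (h - 1) * mom 1 (N + 1) ≤ s (h - 1) * (1 / G) * mom 1 (N + 2) := by
      have := mul_le_mul_of_nonneg_left g2' hsh1
      calc _ ≤ _ := this
        _ = _ := by ring
    have r2 := mul_le_mul_of_nonneg_left r1 m1
    have r3 := mul_le_mul_of_nonneg_right main i2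
    have r4 : 0 ≤ 2 * h * s h * (mom 1 (N + 3) - G * mom 1 (N + 2)) := by
      have : 0 ≤ mom 1 (N + 3) - G * mom 1 (N + 2) := by linarith
      positivity
    have hA' : mom 1 (N + 4) = mom 1 (N + 3) + (N + 3) * mom 1 (N + 2) := by
      rw [hA]; push_cast; ring
    rw [hA']
    have id1 : ((N : ℚ) + 4) * (s h * (mom 1 (N + 3) + (N + 3) * mom 1 (N + 2))) -
        (m + 1) * (s h * mom 1 (N + 3) + m * (s h * mom 1 (N + 2))) =
        2 * h * s h * (mom 1 (N + 3) + (2 * (N + 4) - 1 - 2 * h) * mom 1 (N + 2)) := by
      rw [hmR]; ring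
    nlinarith [r2, r3, r4, id1]

theorem boundS_s1 (g : ℕ) : s1 (g + 6) = 76 / 1000000000 / 8 ^ g := by
  rcases g with _ | g
  · norm_num [s1]
  · rfl

theorem boundS_s2 (g : ℕ) : s2 (g + 6) = 2 / 10000000 / 8 ^ g := by
  rcases g with _ | g
  · norm_num [s2]
  · rfl

theorem boundS_s1_nonneg : ∀ h, 0 ≤ s1 h
  | 0 | 1 | 2 | 3 | 4 | 5 => by norm_num [s1]
  | g + 6 => by rw [boundS_s1]; positivity

theorem boundS_s2_nonneg : ∀ h, 0 ≤ s2 h
  | 0 | 1 | 2 | 3 | 4 | 5 => by norm_num [s2]
  | g + 6 => by rw [boundS_s2]; positivity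

theorem p_s1 (h1 : P_s_gen) (h3 : P_I_mono) (h4 : P_base_s1) : P_s1 := by
  obtain ⟨-, -, v23, v24⟩ := boundS_vals
  refine h1 25 (536 / 100) s1 (by norm_num) (by norm_num) rfl boundS_s1_nonneg ?_ ?_ ?_ ?_ ?_
    (fun n h a b c => h4 n h a b c)
  · intro n hn
    have := h3 24 n (by norm_num) (by omega)
    rw [show (24 : ℕ) - 1 = 23 from rfl, v23, v24] at this
    have := mom_nonneg 1 (n - 1)
    nlinarith
  · intro n hn
    have := h3 24 (n - 1) (by norm_num) (by omega)
    rw [show (24 : ℕ) - 1 = 23 from rfl, v23, v24, show n - 1 - 1 = n - 2 by omega] at this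
    have := mom_nonneg 1 (n - 2)
    nlinarith
  · intro n hn
    have hn' : (25 : ℚ) ≤ n := by exact_mod_cast hn
    simp only [s1]
    rw [div_le_iff₀ (by norm_num)]
    linarith
  · intro n hn
    have hn' : (25 : ℚ) ≤ n := by exact_mod_cast hn
    simp only [s1]
    rw [← le_sub_iff_add_le, div_le_iff₀ (by norm_num)]
    linarith
  · intro h hh
    rcases Nat.lt_or_ge h 8 with hl | hge
    · interval_cases h <;> norm_num [s1]
    · obtain ⟨g, rfl⟩ : ∃ g, h = g + 8 := ⟨h - 8, by omega⟩
      rw [show g + 8 - 1 = (g + 1) + 6 by omega, show g + 8 - 2 = g + 6 by omega,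
        show g + 8 = (g + 2) + 6 by omega, boundS_s1, boundS_s1, boundS_s1]
      have hg : (0 : ℚ) ≤ g := by positivity
      have h8 : (0 : ℚ) < 8 ^ g := by positivity
      have e1 : (76 / 1000000000 / 8 ^ (g + 1) : ℚ) = 8 * (76 / 1000000000 / 8 ^ (g + 2)) := by
        rw [pow_succ, pow_succ]; field_simp; ring
      have e2 : (76 / 1000000000 / 8 ^ g : ℚ) = 64 * (76 / 1000000000 / 8 ^ (g + 2)) := by
        rw [pow_succ, pow_succ]; field_simp; norm_num
      rw [e1, e2]
      have hp : (0 : ℚ) < 76 / 1000000000 / 8 ^ (g + 2) := by positivity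
      push_cast
      constructor <;> nlinarith

theorem p_s2 (h1 : P_s_gen) (h3 : P_I_mono) (h4 : P_base_s2) : P_s2 := by
  obtain ⟨v15, v16, -, -⟩ := boundS_vals
  refine h1 17 (446 / 100) s2 (by norm_num) (by norm_num) rfl boundS_s2_nonneg ?_ ?_ ?_ ?_ ?_
    (fun n h a b c => h4 n h a b c)
  · intro n hn
    have := h3 16 n (by norm_num) (by omega)
    rw [show (16 : ℕ) - 1 = 15 from rfl, v15, v16] at this
    have := mom_nonneg 1 (n - 1)
    nlinarith
  · intro n hn
    have := h3 16 (n - 1) (by norm_num) (by omega)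
    rw [show (16 : ℕ) - 1 = 15 from rfl, v15, v16, show n - 1 - 1 = n - 2 by omega] at this
    have := mom_nonneg 1 (n - 2)
    nlinarith
  · intro n hn
    have hn' : (17 : ℚ) ≤ n := by exact_mod_cast hn
    simp only [s2]
    rw [div_le_iff₀ (by norm_num)]
    linarith
  · intro n hn
    have hn' : (17 : ℚ) ≤ n := by exact_mod_cast hn
    simp only [s2]
    rw [← le_sub_iff_add_le, div_le_iff₀ (by norm_num)]
    linarith
  · intro h hh
    rcases Nat.lt_or_ge h 8 with hl | hge
    · interval_cases h <;> norm_num [s2]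
    · obtain ⟨g, rfl⟩ : ∃ g, h = g + 8 := ⟨h - 8, by omega⟩
      rw [show g + 8 - 1 = (g + 1) + 6 by omega, show g + 8 - 2 = g + 6 by omega,
        show g + 8 = (g + 2) + 6 by omega, boundS_s2, boundS_s2, boundS_s2]
      have hg : (0 : ℚ) ≤ g := by positivity
      have h8 : (0 : ℚ) < 8 ^ g := by positivity
      have e1 : (2 / 10000000 / 8 ^ (g + 1) : ℚ) = 8 * (2 / 10000000 / 8 ^ (g + 2)) := by
        rw [pow_succ, pow_succ]; field_simp; ring
      have e2 : (2 / 10000000 / 8 ^ g : ℚ) = 64 * (2 / 10000000 / 8 ^ (g + 2)) := by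
        rw [pow_succ, pow_succ]; field_simp; norm_num
      rw [e1, e2]
      have hp : (0 : ℚ) < 2 / 10000000 / 8 ^ (g + 2) := by positivity
      push_cast
      constructor <;> nlinarith

end Pool.Agent.Lib.MP_c22e22_co.V
end

section

/-!
# Identities for `cc` and `hh`
-/

namespace Pool.Agent.Lib.MP_c22e22_co.V

open Finset MvPolynomial

theorem Cc_cg_zero (k : ℕ) : ∀ g : ℕ, cg k g 0 = pw (g + k) := by
  induction k with
  | zero => intro g; simp [cg]
  | succ k ih =>
    intro g
    rw [cg, ih (g + 1)]
    congr 1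
    omega

theorem Cc_cg_succ (m : ℕ) (k : ℕ) : ∀ g : ℕ,
    cg k g (m + 1) = ∑ i ∈ range k, pw (g + i) * cg (k - 1 - i) 1 m := by
  induction k with
  | zero => intro g; simp [cg]
  | succ k ih =>
    intro g
    rw [cg, ih (g + 1), Finset.sum_range_succ', add_comm]
    congr 1
    apply Finset.sum_congr rfl
    intro i _
    have h1 : g + 1 + i = g + (i + 1) := by omega
    have h2 : k + 1 - 1 - (i + 1) = k - 1 - i := by omega
    rw [h1, h2]

theorem cc_expand (m n : ℕ) :
    cc (m + 1) n = ∑ j ∈ range n, pw (j + 1) * cc m (n - 1 - j) := by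
  cases n with
  | zero => simp [cc]
  | succ n =>
    cases m with
    | zero =>
      rw [cc, Cc_cg_zero, Finset.sum_range_succ, Finset.sum_eq_zero]
      · have h1 : n + 1 - 1 - n = 0 := by omega
        rw [h1, cc, mul_one, zero_add, add_comm]
      · intro j hj
        have hj' := Finset.mem_range.1 hj
        obtain ⟨q, hq⟩ : ∃ q, n + 1 - 1 - j = q + 1 := ⟨n - j - 1, by omega⟩
        rw [hq, cc, mul_zero]
    | succ m =>
      rw [cc, Cc_cg_succ, Finset.sum_range_succ]
      have h1 : n + 1 - 1 - n = 0 := by omega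
      rw [h1, cc, mul_zero, add_zero]
      apply Finset.sum_congr rfl
      intro j hj
      have hj' := Finset.mem_range.1 hj
      have hq : n + 1 - 1 - j = (n - 1 - j) + 1 := by omega
      rw [hq, cc, add_comm 1 j]

theorem cc_zero_of_lt (m : ℕ) : ∀ n : ℕ, n < m → cc m n = 0 := by
  induction m with
  | zero => intro n hn; omega
  | succ m ih =>
    intro n hn
    rw [cc_expand]
    apply Finset.sum_eq_zero
    intro j hj
    have hj' := Finset.mem_range.1 hj
    rw [ih (n - 1 - j) (by omega), mul_zero]

theorem Cc_zero_smul (k : ℕ) : (k : ℚ) • cc 0 k = 0 := by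
  cases k with
  | zero => simp
  | succ k => rw [cc, smul_zero]

theorem Cc_pw (j : ℕ) : ((j : ℚ) + 1) • pw (j + 1) = (X (j + 1) : MvPolynomial ℕ ℚ) := by
  rw [pw, MvPolynomial.smul_eq_C_mul, ← mul_assoc, ← MvPolynomial.C_mul]
  have h : ((j : ℚ) + 1) * (1 / ((j + 1 : ℕ) : ℚ)) = 1 := by
    push_cast
    field_simp
  rw [h, MvPolynomial.C_1, one_mul]

theorem Cc_step (m n : ℕ) (c : ℚ)
    (ih : ∀ k : ℕ, (k : ℚ) • cc m k = c • ∑ i ∈ range k, X (i + 1) * cc (m - 1) (k - 1 - i))
    (hm : m = 0 → c = 0) :
    (n : ℚ) • cc (m + 1) n = (c + 1) • ∑ j ∈ range n, X (j + 1) * cc m (n - 1 - j) := by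
  have h1 : (n : ℚ) • cc (m + 1) n = ∑ j ∈ range n, X (j + 1) * cc m (n - 1 - j)
      + ∑ j ∈ range n, pw (j + 1) * (((n - 1 - j : ℕ) : ℚ) • cc m (n - 1 - j)) := by
    rw [cc_expand, Finset.smul_sum, ← Finset.sum_add_distrib]
    apply Finset.sum_congr rfl
    intro j hj
    have hj' := Finset.mem_range.1 hj
    have h2 : (n : ℚ) = ((j : ℚ) + 1) + ((n - 1 - j : ℕ) : ℚ) := by
      have : n = (j + 1) + (n - 1 - j) := by omega
      calc (n : ℚ) = (((j + 1) + (n - 1 - j) : ℕ) : ℚ) := by rw [← this]
        _ = _ := by push_cast; ring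
    rw [h2, add_smul, ← Cc_pw j, smul_mul_assoc, mul_smul_comm]
  have h2 : ∑ j ∈ range n, pw (j + 1) * (((n - 1 - j : ℕ) : ℚ) • cc m (n - 1 - j))
      = c • ∑ j ∈ range n, X (j + 1) * cc m (n - 1 - j) := by
    rcases Nat.eq_zero_or_pos m with h0 | h0
    · subst h0
      rw [hm rfl, zero_smul]
      apply Finset.sum_eq_zero
      intro j _
      rw [Cc_zero_smul, mul_zero]
    · obtain ⟨q, rfl⟩ : ∃ q, m = q + 1 := ⟨m - 1, by omega⟩
      calc ∑ j ∈ range n, pw (j + 1) * (((n - 1 - j : ℕ) : ℚ) • cc (q + 1) (n - 1 - j))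
          = ∑ j ∈ range n, ∑ i ∈ range (n - 1 - j),
              c • (X (i + 1) * (pw (j + 1) * cc q (n - 1 - j - 1 - i))) := by
            apply Finset.sum_congr rfl
            intro j _
            rw [ih, mul_smul_comm, Finset.mul_sum, Finset.smul_sum]
            apply Finset.sum_congr rfl
            intro i _
            rw [Nat.add_sub_cancel]
            congr 1
            ring
        _ = ∑ i ∈ range n, ∑ j ∈ range (n - 1 - i),
              c • (X (i + 1) * (pw (j + 1) * cc q (n - 1 - j - 1 - i))) := by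
            apply Finset.sum_comm'
            intro x y
            simp only [Finset.mem_range]
            omega
        _ = c • ∑ i ∈ range n, X (i + 1) * cc (q + 1) (n - 1 - i) := by
            rw [Finset.smul_sum]
            apply Finset.sum_congr rfl
            intro i _
            rw [cc_expand, Finset.mul_sum, Finset.smul_sum]
            apply Finset.sum_congr rfl
            intro j _
            have : n - 1 - j - 1 - i = n - 1 - i - 1 - j := by omega
            rw [this]
  rw [h1, h2, add_smul, one_smul, add_comm]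

theorem p_cc_succ : P_cc_succ := by
  intro m
  induction m with
  | zero =>
    intro n
    have h := Cc_step 0 n 0 (fun k => by rw [Cc_zero_smul, zero_smul]) (fun _ => rfl)
    simpa using h
  | succ m ih =>
    intro n
    have h := Cc_step (m + 1) n ((m : ℚ) + 1) (fun k => by
      rw [ih k, Nat.add_sub_cancel]) (fun h => by omega)
    rw [h]
    push_cast
    rfl

theorem Cc_DD_pw (l j : ℕ) (hl : 1 ≤ l) :
    DD l (pw (j + 1)) = if j + 1 = l then 1 else 0 := by
  rw [pw, DD_mul, DD_C, zero_mul, zero_add, DD, MvPolynomial.pderiv_X]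
  by_cases h : j + 1 = l
  · subst h
    rw [Pi.single_eq_same, if_pos rfl, MvPolynomial.smul_eq_C_mul, mul_one, ← MvPolynomial.C_mul]
    have h2 : (1 / ((j + 1 : ℕ) : ℚ)) * ((j + 1 : ℕ) : ℚ) = 1 := by
      push_cast
      field_simp
    rw [h2, MvPolynomial.C_1]
  · rw [Pi.single_eq_of_ne h, if_neg h, smul_zero, mul_zero]

theorem Cc_DD_sum (l : ℕ) (s : Finset ℕ) (f : ℕ → MvPolynomial ℕ ℚ) :
    DD l (∑ j ∈ s, f j) = ∑ j ∈ s, DD l (f j) := by
  rw [DD, map_sum, Finset.smul_sum]
  rfl

theorem Cc_DD_cc_zero (l n : ℕ) : DD l (cc 0 n) = 0 := by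
  cases n with
  | zero =>
    rw [cc, ← MvPolynomial.C_1]
    exact DD_C l 1
  | succ n =>
    rw [cc]
    simp [DD]

theorem Cc_DD_expand (l m n : ℕ) (hl : 1 ≤ l) :
    DD l (cc (m + 1) n) = (if l ≤ n then cc m (n - l) else 0)
      + ∑ j ∈ range n, pw (j + 1) * DD l (cc m (n - 1 - j)) := by
  rw [cc_expand, Cc_DD_sum]
  have h1 : ∀ j, DD l (pw (j + 1) * cc m (n - 1 - j))
      = (if j + 1 = l then cc m (n - 1 - j) else 0) + pw (j + 1) * DD l (cc m (n - 1 - j)) := by
    intro j
    rw [DD_mul, Cc_DD_pw l j hl]
    split_ifs <;> simp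
  simp only [h1]
  rw [Finset.sum_add_distrib]
  congr 1
  split_ifs with h
  · rw [Finset.sum_eq_single (l - 1)]
    · rw [if_pos (by omega)]
      congr 1
      omega
    · intro j _ hj
      rw [if_neg (by omega)]
    · intro hj
      exact absurd (Finset.mem_range.2 (by omega)) hj
  · apply Finset.sum_eq_zero
    intro j hj
    have := Finset.mem_range.1 hj
    rw [if_neg (by omega)]

theorem p_DD_cc : P_DD_cc := by
  intro l hl m
  induction m with
  | zero =>
    intro n
    rw [Cc_DD_expand l 0 n hl]
    have h : ∑ j ∈ range n, pw (j + 1) * DD l (cc 0 (n - 1 - j)) = 0 := by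
      apply Finset.sum_eq_zero
      intro j _
      rw [Cc_DD_cc_zero, mul_zero]
    rw [h, add_zero]
    split_ifs <;> simp
  | succ m ih =>
    intro n
    rw [Cc_DD_expand l (m + 1) n hl]
    simp only [ih]
    split_ifs with h
    · have h2 : ∑ j ∈ range n, pw (j + 1) *
          (if l ≤ n - 1 - j then ((m : ℚ) + 1) • cc m (n - 1 - j - l) else 0)
          = ((m : ℚ) + 1) • cc (m + 1) (n - l) := by
        rw [cc_expand, Finset.smul_sum]
        rw [← Finset.sum_subset (Finset.range_subset_range.2 (by omega : n - l ≤ n))]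
        · apply Finset.sum_congr rfl
          intro j hj
          have hj' := Finset.mem_range.1 hj
          rw [if_pos (by omega), mul_smul_comm]
          have : n - 1 - j - l = n - l - 1 - j := by omega
          rw [this]
        · intro j _ hj
          have hj' : ¬ j < n - l := fun h' => hj (Finset.mem_range.2 h')
          rw [if_neg (by omega), mul_zero]
      rw [h2]
      push_cast
      rw [add_smul ((m : ℚ) + 1) 1, one_smul, add_comm]
    · rw [zero_add]
      apply Finset.sum_eq_zero
      intro j _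
      rw [if_neg (by omega), mul_zero]

theorem hh_zero : hh 0 = 1 := by
  simp [hh, cc]

theorem Cc_hh_ext (n N : ℕ) (h : n < N) :
    hh n = ∑ m ∈ range N, C (1 / (m.factorial : ℚ)) * cc m n := by
  rw [hh]
  apply Finset.sum_subset (Finset.range_subset_range.2 h)
  intro m _ hm
  have hm' : ¬ m < n + 1 := fun h' => hm (Finset.mem_range.2 h')
  rw [cc_zero_of_lt m n (by omega), mul_zero]

theorem Cc_fact (m : ℕ) (F : MvPolynomial ℕ ℚ) :
    C (1 / ((m + 1).factorial : ℚ)) * (((m : ℚ) + 1) • F) = C (1 / (m.factorial : ℚ)) * F := by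
  rw [MvPolynomial.smul_eq_C_mul, ← mul_assoc, ← MvPolynomial.C_mul]
  congr 2
  rw [Nat.factorial_succ]
  push_cast
  have : (m.factorial : ℚ) ≠ 0 := by exact_mod_cast Nat.factorial_ne_zero m
  field_simp

theorem p_hh_rec : P_hh_rec := by
  intro n
  have h1 : (n : ℚ) • hh n = ∑ m ∈ range n, C (1 / (m.factorial : ℚ)) *
      ∑ j ∈ range n, X (j + 1) * cc m (n - 1 - j) := by
    rw [hh, Finset.smul_sum, Finset.sum_range_succ']
    have h0 : (n : ℚ) • (C (1 / ((0 : ℕ).factorial : ℚ)) * cc 0 n) = 0 := by
      rw [← mul_smul_comm, Cc_zero_smul, mul_zero]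
    rw [h0, add_zero]
    apply Finset.sum_congr rfl
    intro m _
    rw [← mul_smul_comm, p_cc_succ m n, Cc_fact]
  rw [h1]
  simp only [Finset.mul_sum]
  rw [Finset.sum_comm]
  apply Finset.sum_congr rfl
  intro j hj
  have hj' := Finset.mem_range.1 hj
  rw [Cc_hh_ext (n - 1 - j) n (by omega), Finset.mul_sum]
  apply Finset.sum_congr rfl
  intro m _
  ring

theorem p_DD_hh : P_DD_hh := by
  intro l hl n
  have h1 : DD l (hh n) = ∑ m ∈ range n, C (1 / ((m + 1).factorial : ℚ)) *
      (if l ≤ n then ((m : ℚ) + 1) • cc m (n - l) else 0) := by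
    rw [hh, Cc_DD_sum, Finset.sum_range_succ', DD_mul, Cc_DD_cc_zero, DD_C, zero_mul, mul_zero,
      add_zero, add_zero]
    apply Finset.sum_congr rfl
    intro m _
    rw [DD_mul, DD_C, zero_mul, zero_add, p_DD_cc l hl m n]
  rw [h1]
  split_ifs with h
  · rw [Cc_hh_ext (n - l) n (by omega)]
    apply Finset.sum_congr rfl
    intro m _
    rw [Cc_fact]
  · simp

end Pool.Agent.Lib.MP_c22e22_co.V
end

section

open MvPolynomial Finset MeasureTheory

namespace Pool.Agent.Lib.MP_c22e22_co.V

/-- one step of the density of the last cell -/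
noncomputable def singleInt_st (f : ℝ → ℝ) : Lk → ℝ → ℝ
  | .a, t => ∫ r in (0 : ℝ)..t, f r
  | .d, t => ∫ r in t..(1 : ℝ), f r
  | .s, _ => ∫ r in (0 : ℝ)..1, f r

/-- density of the first cell -/
noncomputable def singleInt_HH : List Lk → ℝ → ℝ
  | [], _ => 1
  | .a :: w, t => ∫ r in t..(1 : ℝ), singleInt_HH w r
  | .d :: w, t => ∫ r in (0 : ℝ)..t, singleInt_HH w r
  | .s :: w, _ => ∫ r in (0 : ℝ)..1, singleInt_HH w r

theorem singleInt_cont_prim (f : ℝ → ℝ) (hf : Continuous f) :
    Continuous fun t : ℝ => ∫ r in (0 : ℝ)..t, f r :=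
  intervalIntegral.continuous_primitive (fun a b => hf.intervalIntegrable a b) 0

theorem singleInt_co_prim (f : ℝ → ℝ) (hf : Continuous f) (t : ℝ) :
    ∫ r in t..(1 : ℝ), f r = (∫ r in (0 : ℝ)..1, f r) - ∫ r in (0 : ℝ)..t, f r := by
  have h := intervalIntegral.integral_add_adjacent_intervals (hf.intervalIntegrable (μ := volume) 0 t)
    (hf.intervalIntegrable t 1)
  linarith

theorem singleInt_cont_coprim (f : ℝ → ℝ) (hf : Continuous f) :
    Continuous fun t : ℝ => ∫ r in t..(1 : ℝ), f r := by
  have h : (fun t : ℝ => ∫ r in t..(1 : ℝ), f r) =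
      fun t => (∫ r in (0 : ℝ)..1, f r) - ∫ r in (0 : ℝ)..t, f r :=
    funext (singleInt_co_prim f hf)
  rw [h]
  exact continuous_const.sub (singleInt_cont_prim f hf)

theorem singleInt_HH_cont : ∀ w : List Lk, Continuous (singleInt_HH w)
  | [] => by
    have : singleInt_HH [] = fun _ => 1 := by funext t; rfl
    rw [this]; exact continuous_const
  | .a :: w => by
    have : singleInt_HH (.a :: w) = fun t => ∫ r in t..(1 : ℝ), singleInt_HH w r := by
      funext t; rfl
    rw [this]; exact singleInt_cont_coprim _ (singleInt_HH_cont w)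
  | .d :: w => by
    have : singleInt_HH (.d :: w) = fun t => ∫ r in (0 : ℝ)..t, singleInt_HH w r := by
      funext t; rfl
    rw [this]; exact singleInt_cont_prim _ (singleInt_HH_cont w)
  | .s :: w => by
    have : singleInt_HH (.s :: w) = fun _ => ∫ r in (0 : ℝ)..1, singleInt_HH w r := by
      funext t; rfl
    rw [this]; exact continuous_const

theorem singleInt_st_cont (f : ℝ → ℝ) (hf : Continuous f) (x : Lk) :
    Continuous (singleInt_st f x) := by
  cases x with
  | a =>
    have : singleInt_st f .a = fun t => ∫ r in (0 : ℝ)..t, f r := by funext t; rfl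
    rw [this]; exact singleInt_cont_prim _ hf
  | d =>
    have : singleInt_st f .d = fun t => ∫ r in t..(1 : ℝ), f r := by funext t; rfl
    rw [this]; exact singleInt_cont_coprim _ hf
  | s =>
    have : singleInt_st f .s = fun _ => ∫ r in (0 : ℝ)..1, f r := by funext t; rfl
    rw [this]; exact continuous_const

theorem singleInt_adj (f g : ℝ → ℝ) (hf : Continuous f) (hg : Continuous g) :
    ∫ t in (0 : ℝ)..1, f t * (∫ r in t..(1 : ℝ), g r) =
      ∫ t in (0 : ℝ)..1, (∫ r in (0 : ℝ)..t, f r) * g t := by
  have h1 : ∀ t ∈ Set.uIcc (0 : ℝ) 1,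
      HasDerivAt (fun t : ℝ => ∫ r in (0 : ℝ)..t, f r) (f t) t := fun t _ =>
    intervalIntegral.integral_hasDerivAt_right (hf.intervalIntegrable 0 t)
      hf.stronglyMeasurable.stronglyMeasurableAtFilter hf.continuousAt
  have h2 : ∀ t ∈ Set.uIcc (0 : ℝ) 1,
      HasDerivAt (fun t : ℝ => ∫ r in t..(1 : ℝ), g r) (-(g t)) t := fun t _ =>
    intervalIntegral.integral_hasDerivAt_left (hg.intervalIntegrable t 1)
      hg.stronglyMeasurable.stronglyMeasurableAtFilter hg.continuousAt
  have h := intervalIntegral.integral_mul_deriv_eq_deriv_mul h1 h2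
    (hf.intervalIntegrable 0 1) (hg.neg.intervalIntegrable 0 1)
  simp only [intervalIntegral.integral_same, mul_zero, zero_mul, sub_zero, mul_neg,
    intervalIntegral.integral_neg, zero_sub] at h
  linarith

/-- adjointness of the steps -/
theorem singleInt_step (f : ℝ → ℝ) (hf : Continuous f) (x : Lk) (w : List Lk) :
    ∫ t in (0 : ℝ)..1, f t * singleInt_HH (x :: w) t =
      ∫ t in (0 : ℝ)..1, singleInt_st f x t * singleInt_HH w t := by
  have hw := singleInt_HH_cont w
  cases x with
  | a => exact singleInt_adj f _ hf hw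
  | d =>
    have h := singleInt_adj (singleInt_HH w) f hw hf
    have e1 : ∀ t, f t * singleInt_HH (.d :: w) t = (∫ r in (0 : ℝ)..t, singleInt_HH w r) * f t :=
      fun t => mul_comm _ _
    have e2 : ∀ t, singleInt_st f .d t * singleInt_HH w t =
      singleInt_HH w t * ∫ r in t..(1 : ℝ), f r := fun t => mul_comm _ _
    simp only [e1, e2]
    exact h.symm
  | s =>
    have e1 : ∀ t, f t * singleInt_HH (.s :: w) t = f t * ∫ r in (0 : ℝ)..1, singleInt_HH w r :=
      fun t => rfl
    have e2 : ∀ t, singleInt_st f .s t * singleInt_HH w t =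
      (∫ r in (0 : ℝ)..1, f r) * singleInt_HH w t := fun t => rfl
    simp only [e1, e2, intervalIntegral.integral_mul_const, intervalIntegral.integral_const_mul]

theorem singleInt_fold (u v : List Lk) : ∀ f : ℝ → ℝ, Continuous f →
    ∫ t in (0 : ℝ)..1, f t * singleInt_HH (u ++ v) t =
      ∫ t in (0 : ℝ)..1, u.foldl singleInt_st f t * singleInt_HH v t := by
  induction u with
  | nil => intro f _; rfl
  | cons x u ih =>
    intro f hf
    rw [List.cons_append, singleInt_step f hf x (u ++ v), ih _ (singleInt_st_cont f hf x),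
      List.foldl_cons]

theorem singleInt_prim_pow (m : ℕ) (t : ℝ) :
    ∫ r in (0 : ℝ)..t, r ^ m / (m.factorial : ℝ) = t ^ (m + 1) / ((m + 1).factorial : ℝ) := by
  rw [intervalIntegral.integral_div, integral_pow, Nat.factorial_succ]
  push_cast
  have h1 : (m.factorial : ℝ) ≠ 0 := by positivity
  have h2 : (m : ℝ) + 1 ≠ 0 := by positivity
  field_simp
  ring

theorem singleInt_rib (w : List Lk) : ∀ m : ℕ,
    ((rib (fun k => 1 / (k.factorial : ℚ)) (m + 1) w : ℚ) : ℝ) =
      ∫ t in (0 : ℝ)..1, t ^ m / (m.factorial : ℝ) * singleInt_HH w t := by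
  induction w with
  | nil =>
    intro m
    have e : ∀ t : ℝ, t ^ m / (m.factorial : ℝ) * singleInt_HH [] t = t ^ m / (m.factorial : ℝ) :=
      fun t => mul_one _
    simp only [e, rib, singleInt_prim_pow]
    push_cast
    simp
  | cons x w ih =>
    intro m
    have hc : Continuous fun t : ℝ => t ^ m / (m.factorial : ℝ) := by fun_prop
    have ih1 := ih 0
    simp only [pow_zero, Nat.factorial_zero, Nat.cast_one, div_one, one_mul, zero_add] at ih1
    have ha : ∫ t in (0 : ℝ)..1, t ^ m / (m.factorial : ℝ) * singleInt_HH (.a :: w) t =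
        ((rib (fun k => 1 / (k.factorial : ℚ)) (m + 1 + 1) w : ℚ) : ℝ) := by
      rw [singleInt_step _ hc, ih (m + 1)]
      congr 1
      funext t
      congr 1
      exact singleInt_prim_pow m t
    have hs : ∫ t in (0 : ℝ)..1, t ^ m / (m.factorial : ℝ) * singleInt_HH (.s :: w) t =
        ((1 / ((m + 1).factorial : ℚ) * rib (fun k => 1 / (k.factorial : ℚ)) 1 w : ℚ) : ℝ) := by
      rw [singleInt_step _ hc]
      have e2 : ∀ t : ℝ, singleInt_st (fun t : ℝ => t ^ m / (m.factorial : ℝ)) .s t *
          singleInt_HH w t = (∫ r in (0 : ℝ)..1, r ^ m / (m.factorial : ℝ)) * singleInt_HH w t :=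
        fun t => rfl
      simp only [e2, intervalIntegral.integral_const_mul, singleInt_prim_pow]
      rw [← ih1]
      push_cast
      simp
    cases x with
    | a => rw [ha]; simp only [rib]
    | s => rw [hs]; simp only [rib]
    | d =>
      have hd : ∀ t : ℝ, t ^ m / (m.factorial : ℝ) * singleInt_HH (.d :: w) t =
          t ^ m / (m.factorial : ℝ) * singleInt_HH (.s :: w) t -
            t ^ m / (m.factorial : ℝ) * singleInt_HH (.a :: w) t := by
        intro t
        have := singleInt_co_prim _ (singleInt_HH_cont w) t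
        have e : singleInt_HH (.d :: w) t =
            singleInt_HH (.s :: w) t - singleInt_HH (.a :: w) t := by
          change (∫ r in (0 : ℝ)..t, singleInt_HH w r) =
            (∫ r in (0 : ℝ)..1, singleInt_HH w r) - ∫ r in t..(1 : ℝ), singleInt_HH w r
          rw [this]; ring
        rw [e]; ring
      have i1 : IntervalIntegrable (fun t : ℝ => t ^ m / (m.factorial : ℝ) *
          singleInt_HH (.s :: w) t) volume 0 1 :=
        (hc.mul (singleInt_HH_cont (.s :: w))).intervalIntegrable 0 1
      have i2 : IntervalIntegrable (fun t : ℝ => t ^ m / (m.factorial : ℝ) *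
          singleInt_HH (.a :: w) t) volume 0 1 :=
        (hc.mul (singleInt_HH_cont (.a :: w))).intervalIntegrable 0 1
      simp only [hd]
      rw [intervalIntegral.integral_sub i1 i2, ha, hs]
      simp only [rib]
      push_cast
      ring

theorem singleInt_bw (u v : List Lk) : ((bw (u ++ v) : ℚ) : ℝ) =
    ∫ t in (0 : ℝ)..1, u.foldl singleInt_st (fun _ => 1) t * singleInt_HH v t := by
  rw [← singleInt_fold u v _ continuous_const, bw, singleInt_rib (u ++ v) 0]
  simp

theorem singleInt_ff_cont : ∀ k : ℕ, Continuous (ff k)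
  | 0 => by
    have : ff 0 = fun _ => 1 := by funext t; simp [ff]
    rw [this]; exact continuous_const
  | k + 1 => by
    have : ff (k + 1) = (fun x => ∫ t in (0 : ℝ)..x, ff k t) ∘ fun x => 1 - x := by
      funext t; simp [ff]
    rw [this]
    exact (singleInt_cont_prim _ (singleInt_ff_cont k)).comp (by fun_prop)

/-- state after the letter `x` with `k` letters of an alternating word -/
noncomputable def singleInt_A (x : Lk) (k : ℕ) (t : ℝ) : ℝ :=
  if x = .a then ff k (1 - t) else ff k t

theorem singleInt_sub (f : ℝ → ℝ) (t : ℝ) :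
    ∫ r in t..(1 : ℝ), f (1 - r) = ∫ r in (0 : ℝ)..(1 - t), f r := by
  rw [intervalIntegral.integral_comp_sub_left (fun x => f x) 1]
  simp

theorem singleInt_A_step (x : Lk) (hx : x ≠ .s) (k : ℕ) :
    singleInt_st (singleInt_A x.co k) x = singleInt_A x (k + 1) := by
  funext t
  cases x with
  | s => exact absurd rfl hx
  | a =>
    have e : singleInt_A (Lk.co .a) k = ff k := by
      funext t; simp [singleInt_A, Lk.co]
    rw [e]
    simp only [singleInt_st, singleInt_A, ff, if_true, sub_sub_cancel]
  | d =>
    have e : singleInt_A (Lk.co .d) k = fun t => ff k (1 - t) := by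
      funext t; simp [singleInt_A, Lk.co]
    rw [e]
    simp only [singleInt_st, singleInt_sub]
    simp [singleInt_A, ff]

theorem singleInt_A_zero (x : Lk) : singleInt_A x 0 = fun _ => 1 := by
  funext t; simp [singleInt_A, ff]

theorem singleInt_GG (w : List Lk) : ∀ (y : Lk) (k : ℕ), NoS (y :: w) → cl (y :: w) = 0 →
    (y :: w).foldl singleInt_st (singleInt_A y.co k) =
      singleInt_A ((y :: w).getLast (by simp)) (k + (y :: w).length) := by
  induction w with
  | nil =>
    intro y k hn _
    have hy : y ≠ .s := fun h => hn (by simp [h])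
    simp only [List.foldl_cons, List.foldl_nil, List.getLast_singleton, List.length_singleton]
    exact singleInt_A_step y hy k
  | cons z w ih =>
    intro y k hn hc
    have hy : y ≠ .s := fun h => hn (by simp [h])
    have hz : z ≠ .s := fun h => hn (by simp [h])
    have hn' : NoS (z :: w) := fun h => hn (List.mem_cons_of_mem _ h)
    have hc' : (if y = z ∧ y ≠ .s then 1 else 0) + cl (z :: w) = 0 := hc
    have hyz : y ≠ z := by
      intro h
      rw [if_pos ⟨h, hy⟩] at hc'
      omega
    have hcz : cl (z :: w) = 0 := by omega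
    have hco : z.co = y := by
      cases y <;> cases z <;> simp_all [Lk.co]
    rw [List.foldl_cons, singleInt_A_step y hy k]
    have h2 := ih z (k + 1) hn' hcz
    rw [hco] at h2
    rw [h2, List.getLast_cons (by simp : z :: w ≠ [])]
    congr 1
    simp only [List.length_cons]
    omega

theorem singleInt_HHalt (w : List Lk) : ∀ y : Lk, NoS (y :: w) → cl (y :: w) = 0 →
    singleInt_HH (y :: w) = fun t => singleInt_A y (w.length + 1) (1 - t) := by
  induction w with
  | nil =>
    intro y hn _
    funext t
    cases y with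
    | s => exact absurd (by simp) hn
    | a => simp [singleInt_HH, singleInt_A, ff]
    | d => simp [singleInt_HH, singleInt_A, ff]
  | cons z w ih =>
    intro y hn hc
    have hy : y ≠ .s := fun h => hn (by simp [h])
    have hz : z ≠ .s := fun h => hn (by simp [h])
    have hn' : NoS (z :: w) := fun h => hn (List.mem_cons_of_mem _ h)
    have hc' : (if y = z ∧ y ≠ .s then 1 else 0) + cl (z :: w) = 0 := hc
    have hyz : y ≠ z := by
      intro h
      rw [if_pos ⟨h, hy⟩] at hc'
      omega
    have hcz : cl (z :: w) = 0 := by omega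
    have h2 := ih z hn' hcz
    funext t
    cases y with
    | s => exact absurd rfl hy
    | a =>
      have hz' : z = .d := by cases z <;> simp_all
      subst hz'
      have e : singleInt_HH (.a :: .d :: w) t = ∫ r in t..(1 : ℝ), singleInt_HH (.d :: w) r := rfl
      rw [e, h2]
      have e3 : ∀ r : ℝ, singleInt_A .d (w.length + 1) (1 - r) = ff (w.length + 1) (1 - r) := by
        intro r; simp [singleInt_A]
      simp only [e3, singleInt_sub]
      simp only [singleInt_A, if_true, List.length_cons, sub_sub_cancel]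
      simp only [ff]
    | d =>
      have hz' : z = .a := by cases z <;> simp_all
      subst hz'
      have e : singleInt_HH (.d :: .a :: w) t = ∫ r in (0 : ℝ)..t, singleInt_HH (.a :: w) r := rfl
      rw [e, h2]
      have e3 : ∀ r : ℝ, singleInt_A .a (w.length + 1) (1 - r) = ff (w.length + 1) r := by
        intro r; simp [singleInt_A]
      simp only [e3]
      have e4 : singleInt_A .d ((Lk.a :: w).length + 1) (1 - t) =
          ff (w.length + 1 + 1) (1 - t) := by
        simp [singleInt_A]
      rw [e4]
      simp only [ff, sub_sub_cancel]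

theorem p_single_int : P_single_int := by
  intro i j u v x hx hu hv hcu hcv hnu hnv
  have hnx : NoS (x :: v) := by
    intro h
    rcases List.mem_cons.mp h with h | h
    · exact hx h.symm
    · exact hnv h
  have hH := singleInt_HHalt v x hnx hcv
  have hG : (u ++ [x]).foldl singleInt_st (fun _ => 1) = singleInt_A x (i + 1) := by
    cases u with
    | nil =>
      subst hu
      rw [← singleInt_A_zero x.co]
      simp only [List.nil_append, List.foldl_cons, List.foldl_nil, List.length_nil]
      exact singleInt_A_step x hx 0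
    | cons y u =>
      have hn : NoS (y :: (u ++ [x])) := by
        intro h
        have h' : Lk.s ∈ (y :: u) ++ [x] := h
        rcases List.mem_append.mp h' with h | h
        · exact hnu h
        · exact hx (List.mem_singleton.mp h).symm
      have h := singleInt_GG (u ++ [x]) y 0 hn hcu
      rw [singleInt_A_zero] at h
      rw [List.cons_append, h]
      congr 1
      · simp
      · simp only [List.length_cons, List.length_append, List.length_nil] at hu ⊢
        omega
  have hb := singleInt_bw (u ++ [x]) (x :: v)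
  rw [List.append_assoc, List.singleton_append] at hb
  rw [hb, hG, hH, hv]
  cases x with
  | s => exact absurd rfl hx
  | a => simp [singleInt_A]
  | d =>
    have e : ∀ t : ℝ, singleInt_A .d (i + 1) t * singleInt_A .d (j + 1) (1 - t) =
        (fun t => ff (i + 1) (1 - t) * ff (j + 1) t) (1 - t) := by
      intro t; simp [singleInt_A]
    simp only [e]
    rw [intervalIntegral.integral_comp_sub_left
      (fun t => ff (i + 1) (1 - t) * ff (j + 1) t) 1]
    simp

end Pool.Agent.Lib.MP_c22e22_co.V
end

section

/-!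
# The sign change of the even variables and the complement symmetry
-/

open MvPolynomial Finset

namespace Pool.Agent.Lib.MP_c22e22_co.V

/-! ### The functionals are invariant under the sign change -/

theorem tau_mom_odd (j : ℕ) (hj : j % 2 = 0) : ∀ c, mom j (2 * c + 1) = 0 := by
  intro c
  induction c with
  | zero => simp [mom, hj]
  | succ c ih =>
    have h : 2 * (c + 1) + 1 = (2 * c + 1) + 2 := by ring
    rw [h]
    simp only [mom]
    rw [ih, mul_zero, add_zero, if_neg (by omega)]

theorem tau_pt (j c : ℕ) : ((-1 : ℚ) ^ (j + 1)) ^ c * mom j c = mom j c := by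
  rcases Nat.even_or_odd j with hj | hj
  · rw [Odd.neg_one_pow hj.add_one]
    rcases Nat.even_or_odd c with hc | hc
    · rw [hc.neg_one_pow, one_mul]
    · obtain ⟨k, hk⟩ := hc
      rw [hk, tau_mom_odd j (Nat.even_iff.mp hj) k, mul_zero]
  · rw [Even.neg_one_pow hj.add_one, one_pow, one_mul]

theorem tau_pto (j c : ℕ) : ((-1 : ℚ) ^ (j + 1)) ^ c * momo j c = momo j c := by
  unfold momo
  split_ifs
  · exact mul_zero _
  · exact tau_pt j c

theorem tau_monomial (μ : ℕ →₀ ℕ) (c : ℚ) :
    tau (monomial μ c) = monomial μ (c * μ.prod fun j k => ((-1 : ℚ) ^ (j + 1)) ^ k) := by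
  rw [tau, aeval_monomial, monomial_eq]
  have h : (μ.prod fun (i k : ℕ) => (C ((-1 : ℚ) ^ (i + 1)) * X i : MvPolynomial ℕ ℚ) ^ k) =
      C (μ.prod fun j k => ((-1 : ℚ) ^ (j + 1)) ^ k) * μ.prod fun n e => X n ^ e := by
    simp only [Finsupp.prod, map_prod, mul_pow, Finset.prod_mul_distrib, C_pow]
  rw [h, C_mul, algebraMap_eq, mul_assoc]

theorem tau_Lf (M : ℕ → ℕ → ℚ) (hM : ∀ j c, ((-1 : ℚ) ^ (j + 1)) ^ c * M j c = M j c)
    (F : MvPolynomial ℕ ℚ) : Lf M (tau F) = Lf M F := by
  induction F using MvPolynomial.induction_on' with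
  | add p q hp hq => rw [map_add, map_add, map_add, hp, hq]
  | monomial μ c =>
    rw [tau_monomial, Lf_monomial, Lf_monomial, mul_assoc]
    congr 1
    simp only [Finsupp.prod]
    rw [← Finset.prod_mul_distrib]
    exact Finset.prod_congr rfl fun j _ => hM j (μ j)

theorem p_E_tau : P_E_tau := fun F => ⟨tau_Lf mom tau_pt F, tau_Lf momo tau_pto F⟩

/-! ### The sign change on the star expansion -/

theorem tau_pw (g : ℕ) : tau (pw g) = ((-1 : ℚ) ^ (g + 1)) • pw g := by
  have h1 : ∀ q : ℚ, tau (C q) = C q := fun q => AlgHom.commutes tau q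
  have h2 : tau (X g) = C ((-1) ^ (g + 1)) * X g := by rw [tau, aeval_X]
  rw [pw, map_mul, h1, h2, smul_eq_C_mul]
  ring

theorem tau_XX_zero : ∀ (w K : List Lk) (g m : ℕ), w.length < m → XX K g w m = 0 := by
  intro w
  induction w with
  | nil =>
    intro K g m hm
    obtain ⟨m, rfl⟩ : ∃ m', m = m' + 1 := ⟨m - 1, by simp at hm; omega⟩
    rfl
  | cons x w ih =>
    intro K g m hm
    simp only [List.length_cons] at hm
    obtain ⟨m, rfl⟩ : ∃ m', m = m' + 1 := ⟨m - 1, by omega⟩
    simp only [XX]
    rw [ih _ _ m (by omega), ih _ _ (m + 1) (by omega), mul_zero, smul_zero, add_zero]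

theorem p_tau_XX : P_tau_XX := by
  intro w
  induction w with
  | nil =>
    intro K g m hm
    obtain rfl : m = 0 := by simpa using hm
    simp only [XX, List.length_nil, Nat.sub_zero, Nat.add_zero]
    rw [map_mul, tau_pw]
    have h1 : tau (C (bw K)) = C (bw K) := AlgHom.commutes tau _
    rw [h1, smul_mul_assoc]
  | cons x w ih =>
    intro K g m hm
    simp only [List.length_cons] at hm ⊢
    cases m with
    | zero =>
      simp only [XX]
      rw [map_smul, ih K (g + 1) 0 (Nat.zero_le _), smul_comm]
      congr 2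
      simp only [Nat.sub_zero]
      ring
    | succ m =>
      simp only [XX]
      have e1 : w.length + 1 - (m + 1) = w.length - m := by omega
      rw [map_add, map_mul, map_smul, tau_pw, ih (K ++ [x]) 1 m (by omega), smul_mul_smul_comm,
        smul_add, e1]
      have hs : ((-1 : ℚ) ^ (g + 1) * (-1) ^ (1 + 1 + (w.length - m))) =
          (-1) ^ (g + 1 + (w.length - m)) := by
        rw [pow_add, pow_add]; ring
      rw [hs]
      congr 1
      rcases Nat.lt_or_ge w.length (m + 1) with h | h
      · rw [tau_XX_zero w K (g + 1) (m + 1) h, map_zero, smul_zero, smul_zero]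
      · rw [ih K (g + 1) (m + 1) h, smul_comm]
        congr 2
        have : g + 1 + 1 + (w.length - (m + 1)) = g + 1 + (w.length - m) := by omega
        rw [this]

/-! ### The complement symmetry of `b` -/

theorem tau_rib_a {A : Type*} [CommRing A] (h : ℕ → A) : ∀ k m : ℕ,
    rib h m (List.replicate k Lk.a) = h (m + k) := by
  intro k
  induction k with
  | zero => intro m; rfl
  | succ k ih =>
    intro m
    rw [List.replicate_succ, rib, ih (m + 1)]
    congr 1
    ring

theorem tau_rib_d : ∀ k p : ℕ,
    rib (fun k => 1 / (k.factorial : ℚ)) (p + 1) (List.replicate k Lk.d) =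
      1 / (((p : ℚ) + 1 + k) * k.factorial * p.factorial) := by
  intro k
  induction k with
  | zero =>
    intro p
    simp only [List.replicate_zero, rib, Nat.factorial_succ]
    push_cast
    simp
  | succ k ih =>
    intro p
    rw [List.replicate_succ]
    simp only [rib]
    have h0 := ih 0
    rw [Nat.zero_add] at h0
    rw [h0, ih (p + 1)]
    simp only [Nat.factorial_succ]
    have hk : (k.factorial : ℚ) ≠ 0 := by positivity
    have hp : (p.factorial : ℚ) ≠ 0 := by positivity
    have h1 : (p : ℚ) + 1 ≠ 0 := by positivity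
    have h2 : (k : ℚ) + 1 ≠ 0 := by positivity
    have h3 : (p : ℚ) + 1 + (k + 1) ≠ 0 := by positivity
    have h4 : (p : ℚ) + 1 + 1 + k ≠ 0 := by positivity
    have h5 : (0 : ℚ) + 1 + k ≠ 0 := by positivity
    push_cast
    simp only [Nat.factorial_zero, Nat.cast_one, mul_one]
    field_simp
    ring

theorem tau_bw_d (k : ℕ) : bw (List.replicate k Lk.d) = bw (List.replicate k Lk.a) := by
  have h0 := tau_rib_d k 0
  rw [Nat.zero_add] at h0
  rw [bw, bw, h0, tau_rib_a]
  simp only [Nat.factorial_zero, Nat.cast_one, mul_one]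
  rw [Nat.add_comm 1 k, Nat.factorial_succ]
  push_cast
  simp only [zero_add]
  rw [add_comm (1 : ℚ) k]

theorem tau_bw_co_free : ∀ (n : ℕ) (w : List Lk), w.length = n → Lk.d ∉ w → ∀ k : ℕ,
    bw ((List.replicate k Lk.a ++ w).map Lk.co) = bw (List.replicate k Lk.a ++ w) := by
  intro n
  induction n with
  | zero =>
    intro w hw _ k
    obtain rfl : w = [] := List.length_eq_zero_iff.mp hw
    rw [List.append_nil, List.map_replicate]
    exact tau_bw_d k
  | succ n ih =>
    intro w hw hd k
    cases w with
    | nil => simp at hw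
    | cons x w =>
      simp only [List.length_cons, Nat.add_right_cancel_iff] at hw
      simp only [List.mem_cons, not_or] at hd
      cases x with
      | a =>
        have h : List.replicate k Lk.a ++ Lk.a :: w = List.replicate (k + 1) Lk.a ++ w := by
          rw [List.replicate_succ', List.append_assoc, List.singleton_append]
        rw [h]
        exact ih w hw hd.2 (k + 1)
      | d => exact absurd rfl hd.1
      | s =>
        have h0 := ih w hw hd.2 0
        simp only [List.replicate_zero, List.nil_append] at h0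
        rw [List.map_append, List.map_cons, List.map_replicate]
        have hs : Lk.s.co = Lk.s := rfl
        have ha : Lk.a.co = Lk.d := rfl
        rw [hs, ha, bw, bw, rib_star, rib_star]
        have h1 : rib (fun k => 1 / (k.factorial : ℚ)) 1 (List.replicate k Lk.d) =
            rib (fun k => 1 / (k.factorial : ℚ)) 1 (List.replicate k Lk.a) := tau_bw_d k
        have h2 : rib (fun k => 1 / (k.factorial : ℚ)) 1 (w.map Lk.co) =
            rib (fun k => 1 / (k.factorial : ℚ)) 1 w := h0
        rw [h1, h2]

theorem p_bw_co : P_bw_co := by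
  intro w
  refine uniq (fun w => bw (w.map Lk.co)) bw ?_ ?_ ?_ w
  · intro u v
    simp only [List.map_append, List.map_cons]
    have ha : Lk.a.co = Lk.d := rfl
    have hd : Lk.d.co = Lk.a := rfl
    have hs : Lk.s.co = Lk.s := rfl
    rw [ha, hd, hs, add_comm]
    exact rib_free _ _ _ 1
  · intro u v
    exact rib_free _ _ _ 1
  · intro w hw
    have := tau_bw_co_free w.length w rfl hw 0
    simpa only [List.replicate_zero, List.nil_append] using this

/-! ### The complement symmetry of the star expansion -/

theorem tau_sg_co (x : Lk) : sg x.co = -sg x := by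
  cases x <;> simp [sg, Lk.co]

theorem p_XX_co (h : P_bw_co) : P_XX_co := by
  intro w
  induction w with
  | nil =>
    intro K g m hm
    obtain rfl : m = 0 := by simpa using hm
    simp only [List.map_nil, XX, List.length_nil, Nat.sub_zero, pow_zero, one_smul]
    rw [h K]
  | cons x w ih =>
    intro K g m hm
    simp only [List.length_cons, List.map_cons] at hm ⊢
    cases m with
    | zero =>
      simp only [XX]
      rw [ih K (g + 1) 0 (Nat.zero_le _), tau_sg_co, smul_smul, smul_smul]
      congr 1
      simp only [Nat.sub_zero]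
      ring
    | succ m =>
      simp only [XX]
      have e1 : w.length + 1 - (m + 1) = w.length - m := by omega
      have e2 : K.map Lk.co ++ [x.co] = (K ++ [x]).map Lk.co := by
        rw [List.map_append, List.map_singleton]
      rw [e2, ih (K ++ [x]) 1 m (by omega), smul_add, e1, mul_smul_comm]
      congr 1
      rcases Nat.lt_or_ge w.length (m + 1) with h | h
      · rw [tau_XX_zero w K (g + 1) (m + 1) h,
          tau_XX_zero (w.map Lk.co) (K.map Lk.co) (g + 1) (m + 1) (by rw [List.length_map]; exact h),
          smul_zero, smul_zero, smul_zero]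
      · rw [ih K (g + 1) (m + 1) h, tau_sg_co, smul_smul, smul_smul]
        congr 1
        have : w.length - m = (w.length - (m + 1)) + 1 := by omega
        rw [this, pow_succ]
        ring

/-- The functional `E` on ribbons is invariant under the complement. -/
theorem p_E_co (h1 : P_star) (h2 : P_E_tau) (h3 : P_tau_XX) (h4 : P_XX_co) : P_E_co := by
  intro w
  rw [h1, h1, XS, XS, List.length_map, map_sum, map_sum]
  refine Finset.sum_congr rfl fun m hm => ?_
  have hm' : m ≤ w.length := by
    have := Finset.mem_range.mp hm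
    omega
  have e1 := h4 w [] 1 m hm'
  rw [List.map_nil] at e1
  rw [e1, map_smul, smul_eq_mul]
  have e2 := (h2 (XX [] 1 w m)).1
  rw [h3 w [] 1 m hm', map_smul, smul_eq_mul] at e2
  have e3 : (-1 : ℚ) ^ (1 + 1 + (w.length - m)) = (-1) ^ (w.length - m) := by
    rw [pow_add]; norm_num
  rw [e3] at e2
  exact e2

end Pool.Agent.Lib.MP_c22e22_co.V
end
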