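import Pool.Agent.Lib.MP_c22e22_co.V.Props

open MvPolynomial Finset

namespace Pool.Agent.Lib.MP_c22e22_co.V

theorem WinStar_hh_zero : hh 0 = 1 := by
  simp [hh, cc]

theorem WinStar_eat (v : List Lk) (u : List Lk) : ∀ k : ℕ,
    eat k (u ++ .s :: v) = (eat k u).map fun p => (p.1, p.2 ++ .s :: v) := by
  induction u with
  | nil =>
    intro k
    cases k with
    | zero => rfl
    | succ k => rfl
  | cons x u ih =>
    intro k
    cases k with
    | zero => cases x <;> rfl
    | succ k =>
      cases x with
      | a => exact ih k
      | d =>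
        simp only [List.cons_append, eat, ih k, Option.map_map]
        rfl
      | s => rfl

theorem WinStar_win (l : ℕ) (v : List Lk) (u : List Lk) :
    win l (u ++ .s :: v) = (win l u).map (fun p => (p.1, p.2 ++ .s :: v)) ++
      (win l (.s :: v)).map fun p => (p.1, u ++ p.2) := by
  induction u with
  | nil => simp [win]
  | cons x u ih =>
    have h1 : win l (x :: u ++ .s :: v) =
      (if x = .d then [] else (eat (l - 1) (u ++ .s :: v)).toList) ++
        (win l (u ++ .s :: v)).map fun p => (p.1, x :: p.2) := rfl
    have h2 : win l (x :: u) = (if x = .d then [] else (eat (l - 1) u).toList) ++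
        (win l u).map fun p => (p.1, x :: p.2) := rfl
    rw [h1, h2, ih, WinStar_eat, List.map_append, List.map_append, List.append_assoc, List.map_map,
      List.map_map, List.map_map]
    congr 1
    split_ifs
    · rfl
    · cases eat (l - 1) u <;> rfl

theorem WinStar_eat_shape (u : List Lk) : ∀ (k : ℕ) (p : ℚ × List Lk), eat k u = some p →
    p.2 = [] ∨ ∃ r, p.2 = .s :: r := by
  induction u with
  | nil =>
    intro k p h
    cases k with
    | zero =>
      simp only [eat, Option.some.injEq] at h
      subst h
      exact Or.inl rfl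
    | succ k => simp [eat] at h
  | cons x u ih =>
    intro k p h
    cases k with
    | zero =>
      cases x with
      | a => simp [eat] at h
      | d =>
        simp only [eat, Option.some.injEq] at h
        subst h
        exact Or.inr ⟨_, rfl⟩
      | s =>
        simp only [eat, Option.some.injEq] at h
        subst h
        exact Or.inr ⟨_, rfl⟩
    | succ k =>
      cases x with
      | a => exact ih k p h
      | d =>
        simp only [eat, Option.map_eq_some_iff] at h
        obtain ⟨q, hq, rfl⟩ := h
        exact ih k q hq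
      | s => simp [eat] at h

theorem WinStar_win_shape (l : ℕ) (v : List Lk) (p : ℚ × List Lk) (hp : p ∈ win l (.s :: v)) :
    p.2 = [] ∨ ∃ r, p.2 = .s :: r := by
  have h2 : win l (.s :: v) = (eat (l - 1) v).toList ++
        (win l v).map fun p => (p.1, Lk.s :: p.2) := rfl
  rw [h2, List.mem_append] at hp
  rcases hp with hp | hp
  · rw [Option.mem_toList] at hp
    exact WinStar_eat_shape v _ p hp
  · rw [List.mem_map] at hp
    obtain ⟨q, _, rfl⟩ := hp
    exact Or.inr ⟨_, rfl⟩

theorem WinStar_rib (A q : List Lk) (hq : q = [] ∨ ∃ r, q = .s :: r) :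
    rib hh 0 (A ++ q) = rib hh 0 A * rib hh 0 q := by
  rcases hq with rfl | ⟨r, rfl⟩
  · rw [List.append_nil, rib, WinStar_hh_zero, mul_one]
  · rw [rib_star, rib_zero_s hh WinStar_hh_zero]

theorem p_winstar : P_winstar := by
  intro l _ u v P
  unfold YY
  rw [WinStar_win l v (.s :: u), List.map_append, List.sum_append, List.map_map, List.map_map]
  congr 1
  · rw [← List.sum_map_mul_right]
    congr 1
    apply List.map_congr_left
    intro p _
    show p.1 • rib hh 0 (P ++ (p.2 ++ .s :: v)) = p.1 • rib hh 0 (P ++ p.2) * rib hh 0 (.s :: v)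
    rw [← List.append_assoc, WinStar_rib _ (.s :: v) (Or.inr ⟨v, rfl⟩), smul_mul_assoc]
  · rw [← List.sum_map_mul_left]
    congr 1
    apply List.map_congr_left
    intro p hp
    show p.1 • rib hh 0 (P ++ (.s :: u ++ p.2)) = rib hh 0 (P ++ .s :: u) * p.1 • rib hh 0 ([] ++ p.2)
    rw [← List.append_assoc, WinStar_rib _ p.2 (WinStar_win_shape l v p hp), mul_smul_comm,
      List.nil_append]

end Pool.Agent.Lib.MP_c22e22_co.V
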