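import Pool.Agent.Lib.MP_c22e22_co.V.BoundT
import Pool.Agent.Lib.MP_c22e22_co.V.AltGe
import Pool.Agent.Lib.MP_c22e22_co.V.BaseVal
import Pool.Agent.Lib.MP_c22e22_co.V.FEval2
import Pool.Agent.Lib.MP_c22e22_co.V.Tau
import Pool.Agent.Lib.MP_c22e22_co.V.InvB
import Pool.Agent.Lib.MP_c22e22_co.V.Delta
import Pool.Agent.Lib.MP_c22e22_co.V.EeBounds
import Pool.Agent.Lib.MP_c22e22_co.V.FFin
import Pool.Agent.Lib.MP_c22e22_co.V.FTab
import Pool.Agent.Lib.MP_c22e22_co.V.Gg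
import Pool.Agent.Lib.MP_c22e22_co.V.Single
import Pool.Agent.Lib.MP_c22e22_co.V.WinStar

/-!
# The maximum of the number of involutions with a given descent set: assembly
-/

namespace Pool.Agent.Lib.MP_c22e22_co.V

theorem final_main : P_cnt_eq ∧ P_large ∧ P_small := by
  have q_starA : P_starA := p_starA
  have q_star : P_star := p_star q_starA
  have q_bw_co : P_bw_co := p_bw_co
  have q_bw_altw : P_bw_altw := p_bw_altw q_bw_co
  have q_Eo_altw : P_Eo_altw := p_Eo_altw q_star q_bw_altw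
  have q_DD_hh : P_DD_hh := p_DD_hh
  have q_winfree : P_winfree := p_winfree
  have q_winstar : P_winstar := p_winstar
  have q_DD_rib : P_DD_rib := p_DD_rib q_DD_hh q_winfree q_winstar
  have q_alt_DD : P_alt_DD := p_alt_DD q_DD_rib
  have q_vars : P_vars := p_vars
  have q_alt_ge : P_alt_ge := p_alt_ge q_alt_DD q_vars
  have q_cc_succ : P_cc_succ := p_cc_succ
  have q_DD_cc : P_DD_cc := p_DD_cc
  have q_x_basic : P_x_basic := p_x_basic q_cc_succ q_DD_cc
  have q_xO_sum : P_xO_sum := p_xO_sum q_cc_succ q_DD_cc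
  have q_xO_rec : P_xO_rec := p_xO_rec q_xO_sum
  have q_s_gen : P_s_gen := p_s_gen q_xO_rec q_x_basic
  have q_I_mono : P_I_mono := p_I_mono
  have q_base_s1 : P_base_s1 := p_base_s1 q_xO_rec q_x_basic q_xO_sum
  have q_s1 : P_s1 := p_s1 q_s_gen q_I_mono q_base_s1
  have q_ee_ff : P_ee_ff := p_ee_ff
  have q_c_mono : P_c_mono := p_c_mono
  have q_ee_val : P_ee_val := p_ee_val
  have q_ee_pos : P_ee_pos := p_ee_pos
  have q_ee_two' : P_ee_two' := p_ee_two' q_ee_ff q_c_mono q_ee_val q_ee_pos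
  have q_ee_two : P_ee_two := p_ee_two q_ee_ff q_c_mono q_ee_val q_ee_pos
  have q_N2a : P_N2a := p_N2a q_s1 q_x_basic q_ee_two' q_ee_two q_ee_pos
  have q_N2c : P_N2c := p_N2c q_s1 q_x_basic q_ee_two' q_ee_two q_ee_pos
  have q_ee_zig : P_ee_zig := p_ee_zig
  have q_alt_small : P_alt_small := p_alt_small q_xO_rec q_x_basic q_xO_sum q_ee_zig
  have q_low : P_low := p_low q_Eo_altw q_alt_ge q_x_basic q_N2a q_N2c q_ee_pos q_alt_small
  have q_gen_bound : P_gen_bound := p_gen_bound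
  have q_bw_cheb : P_bw_cheb := p_bw_cheb
  have q_sandwich : P_sandwich := p_sandwich
  have q_single_int : P_single_int := p_single_int
  have q_single : P_single := p_single q_ee_ff q_c_mono q_ee_val q_ee_pos q_sandwich q_single_int q_bw_altw
  have q_ee_56 : P_ee_56 := p_ee_56 q_ee_ff q_c_mono q_ee_val q_ee_pos
  have q_bw_nonneg : P_bw_nonneg := p_bw_nonneg
  have q_bw_gg : P_bw_gg := p_bw_gg q_bw_cheb q_single q_ee_56 q_bw_altw q_bw_nonneg q_ee_pos
  have q_xE_rec : P_xE_rec := p_xE_rec q_cc_succ q_DD_cc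
  have q_base_tt : P_base_tt := p_base_tt q_xE_rec q_x_basic
  have q_tt : P_tt := p_tt q_xE_rec q_x_basic q_I_mono q_base_tt
  have q_N1 : P_N1 := p_N1 q_tt q_x_basic q_ee_two' q_ee_two q_ee_pos
  have q_N2b : P_N2b := p_N2b q_s1 q_x_basic q_ee_two' q_ee_two q_ee_pos
  have q_Er_mono : P_Er_mono := p_Er_mono
  have q_Er_lin : P_Er_lin := p_Er_lin
  have q_Er_bound : P_Er_bound := p_Er_bound q_star q_Er_mono q_Er_lin q_gen_bound q_bw_gg q_bw_nonneg q_ee_pos
  have q_win_basic : P_win_basic := p_win_basic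
  have q_win_grow : P_win_grow := p_win_grow
  have q_ee_85 : P_ee_85 := p_ee_85 q_ee_ff q_c_mono q_ee_val q_ee_pos
  have q_bw_star : P_bw_star := p_bw_star q_bw_gg q_ee_85 q_ee_pos q_ee_val
  have q_base_s2 : P_base_s2 := p_base_s2 q_xO_rec q_x_basic q_xO_sum
  have q_s2 : P_s2 := p_s2 q_s_gen q_I_mono q_base_s2
  have q_N3 : P_N3 := p_N3 q_s2 q_x_basic q_ee_two' q_ee_two q_ee_pos
  have q_D2 : P_D2 := p_D2 q_DD_rib q_win_basic q_win_grow q_star q_gen_bound q_bw_star q_bw_nonneg q_N3 q_ee_pos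
  have q_D4 : P_D4 := p_D4 q_DD_rib q_win_basic q_win_grow q_star q_gen_bound q_bw_star q_bw_nonneg q_N3 q_ee_pos
  have q_ds : P_ds := p_ds q_bw_gg q_bw_nonneg q_ee_pos
  have q_Eo_top : P_Eo_top := p_Eo_top
  have q_Eo_top1 : P_Eo_top1 := p_Eo_top1
  have q_Eo_top2 : P_Eo_top2 := p_Eo_top2
  have q_N4 : P_N4 := p_N4 q_I_mono
  have q_win_co : P_win_co := p_win_co
  have q_E_tau : P_E_tau := p_E_tau
  have q_tau_XX : P_tau_XX := p_tau_XX
  have q_XX_co : P_XX_co := p_XX_co q_bw_co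
  have q_E_co : P_E_co := p_E_co q_star q_E_tau q_tau_XX q_XX_co
  have q_up4 : P_up4 := p_up4 q_star q_gen_bound q_bw_gg q_bw_nonneg q_x_basic q_N1 q_N2b q_ee_pos q_Er_bound q_D2 q_D4 q_ds q_Eo_top q_Eo_top1 q_Eo_top2 q_N4 q_ee_two q_win_co q_E_co
  have q_N5 : P_N5 := p_N5 q_tt q_x_basic q_ee_two' q_ee_two q_ee_pos
  have q_up5 : P_up5 := p_up5 q_star q_gen_bound q_bw_gg q_bw_nonneg q_x_basic q_N1 q_N5 q_ee_pos
  have q_large : P_large := p_large q_low q_up4 q_up5 q_E_co q_ee_pos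
  have q_invA : P_invA := p_invA
  have q_invB : P_invB := p_invB
  have q_NM_rec : P_NM_rec := p_NM_rec
  have q_hh_rec : P_hh_rec := p_hh_rec
  have q_NM_eq : P_NM_eq := p_NM_eq q_NM_rec q_hh_rec q_DD_hh
  have q_block : P_block := p_block
  have q_cnt_eq : P_cnt_eq := p_cnt_eq q_invA q_invB q_NM_eq q_block
  have q_E_list : P_E_list := p_E_list q_hh_rec q_DD_hh
  have q_top : P_top := fun k b => ftab_top q_E_list q_cnt_eq k b
  have q_small : P_small := p_small q_cnt_eq q_top q_E_co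
  exact ⟨q_cnt_eq, q_large, q_small⟩

theorem final_words (n : ℕ) (hn : 1 ≤ n) (w : List Lk) (hw : NoS w)
    (hl : w.length + 1 = n) : cnt n w ≤ cnt n (altw (n - 1) true) := by
  obtain ⟨hc, hL, hS⟩ := final_main
  have h1 := hc w
  have h2 := hc (altw (n - 1) true)
  have h3 : (altw (n - 1) true).length = n - 1 := altw_length _ _
  rw [hl] at h1
  rw [h3, show n - 1 + 1 = n by omega] at h2
  have h4 : E (rib hh 1 w) ≤ E (rib hh 1 (altw (n - 1) true)) := by
    by_cases h : 22 ≤ n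
    · exact hL n w h hw hl
    · exact hS n w (by omega) hw hl
  rw [← h1, ← h2] at h4
  exact_mod_cast h4

theorem final_delta (n : ℕ) (hn : 1 ≤ n) (S : Finset ℕ) (hS : S ⊆ Finset.Ico 1 n) :
    delta n S ≤ delta n ((Finset.Ico 1 n).filter (fun i => i % 2 = 1)) := by
  rw [delta_eq n hn S hS, delta_eq n hn _ (Finset.filter_subset _ _), wordOf_odd n hn]
  exact final_words n hn _ (wordOf_noS n S)
    (by rw [wordOf_length]; omega)

end Pool.Agent.Lib.MP_c22e22_co.V
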