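import Pool.Agent.Lib.MP_c22e22_co.V.EeBounds

/-!
# Bound for words by the number of clashes; starred words
-/

namespace Pool.Agent.Lib.MP_c22e22_co.V

theorem gg_nos_cons {x : Lk} {w : List Lk} (h : NoS (x :: w)) : x ≠ .s ∧ NoS w := by
  unfold NoS at *
  constructor
  · intro e; apply h; rw [e]; exact List.mem_cons_self
  · intro e; apply h; exact List.mem_cons_of_mem _ e

theorem gg_altw_of_cl : ∀ (w : List Lk), NoS w → cl w = 0 → ∃ b, w = altw w.length b := by
  intro w
  induction w with
  | nil => intro _ _; exact ⟨true, rfl⟩
  | cons x w ih =>
    intro hs hc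
    obtain ⟨hx, hw⟩ := gg_nos_cons hs
    cases w with
    | nil =>
      cases x with
      | a => exact ⟨false, rfl⟩
      | d => exact ⟨true, rfl⟩
      | s => exact absurd rfl hx
    | cons y v =>
      obtain ⟨hy, _⟩ := gg_nos_cons hw
      have h2 : cl (y :: v) = 0 := by
        simp only [cl] at hc; omega
      obtain ⟨b, hb⟩ := ih hw h2
      have hxy : x ≠ y := by
        intro e
        simp only [cl] at hc
        rw [if_pos ⟨e, hx⟩] at hc
        omega
      have hlen : (x :: y :: v).length = (y :: v).length + 1 := rfl
      rw [hlen]
      cases b with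
      | true =>
        refine ⟨false, ?_⟩
        have hyd : y = .d := by
          have h3 : (y :: v) = .d :: altw v.length false := by
            rw [hb]; rfl
          exact (List.cons.inj h3).1
        have hxa : x = .a := by
          cases x with
          | a => rfl
          | d => exact absurd hyd.symm hxy
          | s => exact absurd rfl hx
        rw [hxa, show altw ((y :: v).length + 1) false = .a :: altw (y :: v).length true from rfl, ← hb]
      | false =>
        refine ⟨true, ?_⟩
        have hya : y = .a := by
          have h3 : (y :: v) = .a :: altw v.length true := by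
            rw [hb]; rfl
          exact (List.cons.inj h3).1
        have hxd : x = .d := by
          cases x with
          | d => rfl
          | a => exact absurd hya.symm hxy
          | s => exact absurd rfl hx
        rw [hxd, show altw ((y :: v).length + 1) true = .d :: altw (y :: v).length false from rfl, ← hb]

theorem gg_first_clash : ∀ (w : List Lk), NoS w → 1 ≤ cl w →
    ∃ (u : List Lk) (x : Lk) (v : List Lk), w = u ++ x :: x :: v ∧ cl (u ++ [x]) = 0 ∧
      cl w = 1 + cl (x :: v) := by
  intro w
  induction w with
  | nil => intro _ hc; simp [cl] at hc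
  | cons x w ih =>
    intro hs hc
    obtain ⟨hx, hw⟩ := gg_nos_cons hs
    cases w with
    | nil => simp [cl] at hc
    | cons y v =>
      by_cases hxy : x = y
      · refine ⟨[], x, v, ?_, ?_, ?_⟩
        · rw [hxy]; rfl
        · rfl
        · subst hxy
          simp only [cl]
          rw [if_pos (by simpa using hx)]
      · have h0 : cl (x :: y :: v) = cl (y :: v) := by
          simp only [cl]
          rw [if_neg (fun h => hxy h.1)]
          omega
        rw [h0] at hc
        obtain ⟨u, z, v', h1, h2, h3⟩ := ih hw hc
        refine ⟨x :: u, z, v', ?_, ?_, ?_⟩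
        · rw [h1]; rfl
        · cases u with
          | nil =>
            have hyz : y = z := by
              have := (List.cons.inj h1).1
              exact this
            have hxz : x ≠ z := by rw [← hyz]; exact hxy
            simp only [List.cons_append, List.nil_append, cl]
            rw [if_neg (fun h => hxz h.1)]
          | cons t u' =>
            have hyt : y = t := by
              have := (List.cons.inj h1).1
              exact this
            have hxt : x ≠ t := by rw [← hyt]; exact hxy
            simp only [List.cons_append] at h2 ⊢
            simp only [cl]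
            rw [if_neg (fun h => hxt h.1)]
            omega
        · rw [h0]; exact h3

theorem p_bw_gg (h1 : P_bw_cheb) (h2 : P_single) (h3 : P_ee_56) (h4 : P_bw_altw)
    (h5 : P_bw_nonneg) (h6 : P_ee_pos) : P_bw_gg := by
  have key : ∀ (n : ℕ) (w : List Lk), w.length = n → NoS w → bw w ≤ gg (cl w) * ee (w.length + 1) := by
    intro n
    induction n using Nat.strong_induction_on with
    | _ n ih =>
      intro w hn hs
      rcases Nat.eq_zero_or_pos (cl w) with hc | hc
      · obtain ⟨b, hb⟩ := gg_altw_of_cl w hs hc
        have h7 : bw w = ee (w.length + 1) := by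
          conv_lhs => rw [hb]
          exact h4 w.length b
        rw [hc, h7]
        simp [gg]
      · obtain ⟨u, x, v, hw, hu, hcl⟩ := gg_first_clash w hs hc
        have hx : x ≠ .s := by
          intro e
          apply hs
          rw [hw, e]; simp
        have hsu : NoS u := by
          intro e; apply hs; rw [hw]; exact List.mem_append_left _ e
        have hsv : NoS v := by
          intro e; apply hs; rw [hw]
          exact List.mem_append_right _ (List.mem_cons_of_mem _ (List.mem_cons_of_mem _ e))
        have hlen : w.length = u.length + v.length + 2 := by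
          rw [hw]; simp; omega
        rcases Nat.eq_zero_or_pos (cl (x :: v)) with hc2 | hc2
        · have h7 := h2 u v x hx hu hc2 hsu hsv
          rw [hcl, hc2, hlen]
          have h8 : gg (1 + 0) = 11 / 16 := by norm_num [gg]
          rw [h8]
          conv_lhs => rw [hw]
          exact h7
        · have h7 := h1 u v x hx
          have hsux : NoS (u ++ [x]) := by
            intro e
            rcases List.mem_append.mp e with e | e
            · exact hsu e
            · exact hx (List.mem_singleton.mp e).symm
          have hsxv : NoS (x :: v) := by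
            intro e
            rcases List.mem_cons.mp e with e | e
            · exact hx e.symm
            · exact hsv e
          have h8 := ih (u ++ [x]).length (by rw [← hn, hlen]; simp) (u ++ [x]) rfl hsux
          have h9 := ih (x :: v).length (by rw [← hn, hlen]; simp) (x :: v) rfl hsxv
          rw [hu] at h8
          have e8 : (u ++ [x]).length + 1 = u.length + 2 := by simp
          have e9 : (x :: v).length + 1 = v.length + 2 := by simp
          rw [e8] at h8
          rw [e9] at h9
          have h8' : bw (u ++ [x]) ≤ ee (u.length + 2) := by simpa [gg] using h8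
          obtain ⟨c, hcc⟩ : ∃ c, cl (x :: v) = c + 1 := ⟨cl (x :: v) - 1, by omega⟩
          rw [hcc] at h9
          have hg : 0 ≤ gg (c + 1) := by simp only [gg]; positivity
          have h10 := h3 (u.length + 2) (v.length + 2) (by omega) (by omega)
          have e10 : u.length + 2 + (v.length + 2) - 1 = w.length + 1 := by omega
          rw [e10] at h10
          calc bw w = bw (u ++ x :: x :: v) := by rw [← hw]
            _ ≤ bw (u ++ [x]) * bw (x :: v) := h7
            _ ≤ ee (u.length + 2) * (gg (c + 1) * ee (v.length + 2)) :=
                mul_le_mul h8' h9 (h5 _) (h6 _).le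
            _ = gg (c + 1) * (ee (u.length + 2) * ee (v.length + 2)) := by ring
            _ ≤ gg (c + 1) * (5 / 6 * ee (w.length + 1)) := mul_le_mul_of_nonneg_left h10 hg
            _ = gg (cl w) * ee (w.length + 1) := by
                rw [hcl, hcc, show 1 + (c + 1) = (c + 1) + 1 by omega]
                simp only [gg]
                ring
  intro w hs
  exact key w.length w rfl hs

theorem gg_le_one (k : ℕ) : gg k ≤ 1 := by
  cases k with
  | zero => simp [gg]
  | succ k =>
    simp only [gg]
    have : ((5 : ℚ) / 6) ^ k ≤ 1 := pow_le_one₀ (by norm_num) (by norm_num)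
    linarith

theorem gg_first_s : ∀ (w : List Lk) (p : ℕ), w.count .s = p + 1 →
    ∃ u v : List Lk, w = u ++ .s :: v ∧ NoS u ∧ v.count .s = p := by
  intro w
  induction w with
  | nil => intro p h; simp at h
  | cons x w ih =>
    intro p h
    by_cases hx : x = .s
    · refine ⟨[], w, ?_, ?_, ?_⟩
      · rw [hx]; rfl
      · intro e; simp at e
      · rw [hx] at h
        simp only [List.count_cons_self] at h
        omega
    · have h' : w.count .s = p + 1 := by
        rw [List.count_cons_of_ne hx] at h
        exact h
      obtain ⟨u, v, h1, h2, h3⟩ := ih p h'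
      refine ⟨x :: u, v, ?_, ?_, h3⟩
      · rw [h1]; rfl
      · intro e
        rcases List.mem_cons.mp e with e | e
        · exact hx e.symm
        · exact h2 e

theorem gg_iter (h85 : P_ee_85) (h7 : P_ee_val) (i : ℕ) (hi : 2 ≤ i) :
    ∀ p : ℕ, ee i ≤ (8 / 5) ^ p * ee (i + p) := by
  intro p
  induction p with
  | zero => simp
  | succ p ih =>
    have h := h85 (i + p) 1 (by omega)
    rw [h7.2.1, mul_one] at h
    calc ee i ≤ (8 / 5) ^ p * ee (i + p) := ih
      _ ≤ (8 / 5) ^ p * (8 / 5 * ee (i + p + 1)) :=
          mul_le_mul_of_nonneg_left h (by positivity)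
      _ = (8 / 5) ^ (p + 1) * ee (i + (p + 1)) := by rw [← Nat.add_assoc]; ring

theorem gg_star_aux (h : P_bw_gg) (h85 : P_ee_85) (h6 : P_ee_pos) (h7 : P_ee_val) (h5 : P_bw_nonneg) :
    ∀ (p : ℕ) (w : List Lk), w.count .s = p →
      bw w ≤ (8 / 5) ^ p * ee (w.length + 1) ∨ (w = List.replicate p .s ∧ bw w = 1) := by
  have h0 : ∀ w : List Lk, NoS w → bw w ≤ ee (w.length + 1) := by
    intro w hw
    have h1 := h w hw
    have h2 := gg_le_one (cl w)
    have h3 := (h6 (w.length + 1)).le
    nlinarith
  intro p
  induction p with
  | zero =>
    intro w hw
    left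
    rw [pow_zero, one_mul]
    exact h0 w (List.count_eq_zero.mp hw)
  | succ p ih =>
    intro w hw
    obtain ⟨u, v, hw1, hu, hv⟩ := gg_first_s w p hw
    have hb : bw w = bw u * bw v := by
      rw [hw1]
      exact rib_star _ u v 1
    have hlen : w.length = u.length + 1 + v.length := by
      rw [hw1]; simp; omega
    have hbu := h0 u hu
    rcases ih v hv with hv1 | ⟨hv1, hv2⟩
    · by_cases hh : u.length + 1 = 1 ∧ v.length + 1 = 1
      · have hu0 : u = [] := List.length_eq_zero_iff.mp (by omega)
        have hv0 : v = [] := List.length_eq_zero_iff.mp (by omega)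
        have hp0 : p = 0 := by rw [hv0] at hv; simpa using hv.symm
        right
        refine ⟨?_, ?_⟩
        · rw [hw1, hu0, hv0, hp0]; rfl
        · rw [hb, hu0, hv0]
          norm_num [bw, rib]
      · left
        have h8 := h85 (u.length + 1) (v.length + 1) hh
        have e8 : u.length + 1 + (v.length + 1) = w.length + 1 := by omega
        rw [e8] at h8
        calc bw w = bw u * bw v := hb
          _ ≤ ee (u.length + 1) * ((8 / 5) ^ p * ee (v.length + 1)) :=
              mul_le_mul hbu hv1 (h5 _) (h6 _).le
          _ = (8 / 5) ^ p * (ee (u.length + 1) * ee (v.length + 1)) := by ring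
          _ ≤ (8 / 5) ^ p * (8 / 5 * ee (w.length + 1)) :=
              mul_le_mul_of_nonneg_left h8 (by positivity)
          _ = (8 / 5) ^ (p + 1) * ee (w.length + 1) := by ring
    · have hvl : v.length = p := by rw [hv1]; simp
      by_cases hu0 : u = []
      · right
        refine ⟨?_, ?_⟩
        · rw [hw1, hu0, hv1]; rfl
        · rw [hb, hv2, hu0]
          norm_num [bw, rib]
      · left
        have hul : 1 ≤ u.length := List.length_pos_iff.mpr hu0
        have h8 := gg_iter h85 h7 (u.length + 1) (by omega) (p + 1)
        have e8 : u.length + 1 + (p + 1) = w.length + 1 := by omega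
        rw [e8] at h8
        rw [hb, hv2, mul_one]
        exact hbu.trans h8

theorem p_bw_star (h : P_bw_gg) (h85 : P_ee_85) (h6 : P_ee_pos) (h7 : P_ee_val) : P_bw_star := by
  intro w hw
  have hE : ee (w.length + 1) ≤ ee' (w.length + 1) := by
    have := (h6 (w.length + 1)).le
    unfold ee'
    split_ifs
    · linarith
    · exact le_refl _
  rcases gg_star_aux h h85 h6 h7 p_bw_nonneg (w.count .s) w rfl with h1 | ⟨h1, h2⟩
  · exact h1.trans (mul_le_mul_of_nonneg_left hE (by positivity))
  · have hlen : w.length = w.count .s := by
      conv_lhs => rw [h1]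
      simp
    rw [h2, hlen]
    obtain ⟨-, e1, e2, e3, e4, e5, -⟩ := h7
    generalize hq : w.count .s = q at hw
    interval_cases q <;> norm_num [ee', e1, e2, e3, e4, e5]

end Pool.Agent.Lib.MP_c22e22_co.V
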